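import Pool.Agent.H60.SL.CkLine
import Pool.Agent.H61.SC.Defs

/-!
# Basic facts about the definitions of the checker
-/

set_option autoImplicit false

open Set

namespace Pool.Agent.H60.SC

open Pool.Agent.H60.SL
open Pool.Agent.H60.SL.Ck (nn le ex t1D t1F t1M t2D t2F expU expL nd sD sF sM sMu fLo fUp PLt PHt rl rh
  lowT1 lowT2 lowT3 lowT3L upT1 upT2 upT3 look64 look96 tabT2D tabT2F nn_iff le_iff le_real nn_real
  beq_zero_pos)
open Pool.Agent.H61.SC

theorem fz_eq {α : Type} (n : ℕ) (f : ℕ → α) : fz n f = f n := by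
  cases n <;> rfl

theorem fzi_eq {α : Type} (n : ℤ) (f : ℤ → α) : fzi n f = f n := by
  cases n with
  | ofNat n => cases n <;> rfl
  | negSucc n => cases n <;> rfl

theorem nmin_eq (a b : ℕ) : nmin a b = min a b := Ck.nmin_eq a b

theorem nmax_eq (a b : ℕ) : nmax a b = max a b := Ck.nmax_eq a b

theorem imin_eq (a b : ℤ) : imin a b = min a b := by
  unfold imin
  cases h : le a b
  · have : ¬ a ≤ b := fun h2 => by rw [le_iff.2 h2] at h; cases h
    rw [cond_false]
    omega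
  · have : a ≤ b := le_iff.1 h
    rw [cond_true]
    omega

theorem imax_eq (a b : ℤ) : imax a b = max a b := by
  unfold imax
  cases h : le a b
  · have : ¬ a ≤ b := fun h2 => by rw [le_iff.2 h2] at h; cases h
    rw [cond_false]
    omega
  · have : a ≤ b := le_iff.1 h
    rw [cond_true]
    omega

theorem ble_true {a b : ℕ} (h : Nat.ble a b = true) : a ≤ b := Nat.le_of_ble_eq_true h

theorem ble_false {a b : ℕ} (h : Nat.ble a b = false) : b < a := by
  by_contra hcon
  rw [Nat.ble_eq_true_of_le (not_lt.1 hcon)] at h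
  cases h

theorem ble_iff {a b : ℕ} : Nat.ble a b = true ↔ a ≤ b := ⟨ble_true, Nat.ble_eq_true_of_le⟩

theorem beq_true {a b : ℕ} (h : Nat.beq a b = true) : a = b := Nat.eq_of_beq_eq_true h

theorem beq_false {a b : ℕ} (h : Nat.beq a b = false) : a ≠ b := Nat.ne_of_beq_eq_false h

theorem t2D_real (J : ℕ) : ((t2D J : ℤ) : ℝ) = (n2D J : ℝ) - 4503599627370496 := by
  have : t2D J = ((n2D J : ℕ) : ℤ) - ((4503599627370496 : ℕ) : ℤ) := rfl
  rw [this]
  push_cast
  ring

theorem t2F_real (J : ℕ) : ((t2F J : ℤ) : ℝ) = (n2F J : ℝ) - 19342813113834066795298816 := by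
  have : t2F J = ((n2F J : ℕ) : ℤ) - ((19342813113834066795298816 : ℕ) : ℤ) := rfl
  rw [this]
  push_cast
  ring

/-- quotient of integers, rounded down -/
theorem ediv_real_le (a : ℤ) {b : ℕ} (hb : 0 < b) : (((a / (b : ℤ)) : ℤ) : ℝ) ≤ (a : ℝ) / b := by
  have hb' : (0 : ℝ) < b := by exact_mod_cast hb
  rw [le_div_iff₀ hb']
  have h := Int.ediv_mul_le a (b := (b : ℤ)) (by positivity)
  exact_mod_cast h

theorem le_ediv_real (a : ℤ) {b : ℕ} (hb : 0 < b) : (a : ℝ) / b < (((a / (b : ℤ)) : ℤ) : ℝ) + 1 := by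
  have hb' : (0 : ℝ) < b := by exact_mod_cast hb
  rw [div_lt_iff₀ hb']
  have h := Int.lt_ediv_add_one_mul_self a (b := (b : ℤ)) (by positivity)
  exact_mod_cast h

theorem cdv_real (a : ℤ) {b : ℕ} (hb : 0 < b) : (a : ℝ) / b ≤ ((cdv a (b : ℤ) : ℤ) : ℝ) := by
  have h := ediv_real_le (-a) hb
  unfold cdv
  push_cast at h ⊢
  rw [neg_div] at h
  linarith

end Pool.Agent.H60.SC
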