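import Pool.Agent.H60.SC.TLeaf

/-!
# Splitting a vector into explicit coordinates and the others
-/

set_option autoImplicit false

open Set Filter Topology MeasureTheory

namespace Pool.Agent.H60.SC

open Pool.Agent.H60.SL
open Pool.Agent.H64.Slab Pool.Agent.H60.Slab Pool.Agent.H60.Big
open Pool.Agent.H61.SC

/-- the coordinates outside a list of indices -/
noncomputable def others {n : ℕ} (a : Fin n → ℝ) (ids : List (Fin n)) : List ℝ :=
  ((List.finRange n).filter (fun i => decide (i ∉ ids))).map (fun i => eOf (a i))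

theorem finRange_perm {n : ℕ} {ids : List (Fin n)} (h : ids.Nodup) :
    (List.finRange n).Perm (ids ++ (List.finRange n).filter (fun i => decide (i ∉ ids))) := by
  rw [List.perm_ext_iff_of_nodup (List.nodup_finRange n)]
  · intro x
    simp only [List.mem_finRange, true_iff, List.mem_append, List.mem_filter, decide_eq_true_eq, true_and]
    exact em _
  · rw [List.nodup_append]
    refine ⟨h, (List.nodup_finRange n).filter _, ?_⟩
    intro x hx y hy hxy
    simp only [List.mem_filter, decide_eq_true_eq] at hy
    exact hy.2 (hxy ▸ hx)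

theorem cList_perm {n : ℕ} (a : Fin n → ℝ) {ids : List (Fin n)} (h : ids.Nodup) :
    (cList a).Perm (allC (ids.map (fun i => (true, eOf (a i)))) (others a ids)) := by
  unfold cList allC others
  rw [List.ofFn_eq_map]
  have := (finRange_perm h).map (fun i => (true, eOf (a i)))
  rw [List.map_append] at this
  refine this.trans (List.Perm.of_eq ?_)
  rw [List.map_map]
  rfl

theorem others_length {n : ℕ} (a : Fin n → ℝ) {ids : List (Fin n)} (h : ids.Nodup) :
    (others a ids).length = n - ids.length := by
  have := (finRange_perm h).length_eq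
  rw [List.length_finRange, List.length_append] at this
  unfold others
  rw [List.length_map]
  omega

theorem mem_others {n : ℕ} {a : Fin n → ℝ} {ids : List (Fin n)} {E : ℝ} (h : E ∈ others a ids) :
    ∃ i, i ∉ ids ∧ E = eOf (a i) := by
  unfold others at h
  rw [List.mem_map] at h
  obtain ⟨i, hi, rfl⟩ := h
  simp only [List.mem_filter, decide_eq_true_eq] at hi
  exact ⟨i, hi.2, rfl⟩

/-- the parameter of the interpolation -/
theorem mix_exists {s0 s1 : ℕ} {s : ℝ} (h0 : (s0 : ℝ) ≤ s) (h1 : s ≤ s1) :
    ∃ l : ℝ, 0 ≤ l ∧ l ≤ 1 ∧ mix l s0 s1 = s := by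
  rcases (h0.trans h1).lt_or_eq with h | h
  · refine ⟨(s - s0) / (s1 - s0), div_nonneg (by linarith) (by linarith), ?_, ?_⟩
    · rw [div_le_one (by linarith)]; linarith
    · have : (s1 : ℝ) - s0 ≠ 0 := by linarith
      unfold mix
      field_simp
      ring
  · refine ⟨0, le_rfl, zero_le_one, ?_⟩
    unfold mix
    linarith

/-- `E` in terms of the square in units `2^-20` -/
theorem eOf_mem {x : ℝ} {lo hi : ℕ} (h0 : (lo : ℝ) ≤ 1048576 * x ^ 2) (h1 : 1048576 * x ^ 2 ≤ hi) :
    eOf x ∈ Icc ((25 * lo : ℕ) : ℝ) ((25 * hi : ℕ) : ℝ) := by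
  unfold eOf
  push_cast
  constructor <;> linarith

end Pool.Agent.H60.SC
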