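import Pool.Agent.H60.SC.TLeaf

/-!
# The `T` leaves: conclusion
-/

set_option autoImplicit false

open Set Filter Topology

namespace Pool.Agent.H60.SC

open Pool.Agent.H60.SL
open Pool.Agent.H64.Slab Pool.Agent.H60.Slab Pool.Agent.H60.Big
open Pool.Agent.H60.SL.Ck (nn le ex t1D t1F t1M t2D t2F expU expL expU_sound expL_sound LB zE allB allB_iff
  le_iff zE_nonneg zE_sq InL rotAll pSin pSin_sound chkTau chkThr T_interval T_node tau_values)
open Pool.Agent.H61.SC

/-- the alternative at the left end of an interval -/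
theorem T_left {n : ℕ} (a : Fin n → ℝ) {q r A B tA tB : ℕ}
    (hq : 2 ≤ q) (hqn : q ≤ n) (h0 : 0 < A) (hAB : A < B) (h : chkTau q r A B tA tB = true)
    (hA : 1 - FV a ((A : ℝ) / 1000) 0 / 2 ^ n ≤ (tA : ℝ) / 2 ^ 40) :
    ∃ q, 1 ≤ q ∧ q ≤ n ∧ FV (stdVec n q) ((A : ℝ) / 1000) 0 ≤ FV a ((A : ℝ) / 1000) 0 := by
  obtain ⟨p, rfl⟩ : ∃ p, q = p + 2 := ⟨q - 2, by omega⟩
  obtain ⟨v1, v2⟩ := tau_values hAB.le h
  have hA0 : (0 : ℝ) < A := by exact_mod_cast h0
  set c := ((A + B : ℕ) : ℝ) / 2000 with hc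
  have hc0 : 0 < c := by rw [hc]; push_cast; positivity
  refine alt_TF (by omega) hqn a (by positivity) ?_
  have ht := TF_tangent p hc0 (t := (A : ℝ) / 1000) (by positivity)
  refine (hA.trans v1).trans ?_
  linarith

theorem T_right {n : ℕ} (a : Fin n → ℝ) {q r A B tA tB : ℕ}
    (hq : 2 ≤ q) (hqn : q ≤ n) (h0 : 0 < A) (hAB : A < B) (h : chkTau q r A B tA tB = true)
    (hB : 1 - FV a ((B : ℝ) / 1000) 0 / 2 ^ n ≤ (tB : ℝ) / 2 ^ 40) :
    ∃ q, 1 ≤ q ∧ q ≤ n ∧ FV (stdVec n q) ((B : ℝ) / 1000) 0 ≤ FV a ((B : ℝ) / 1000) 0 := by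
  obtain ⟨p, rfl⟩ : ∃ p, q = p + 2 := ⟨q - 2, by omega⟩
  obtain ⟨v1, v2⟩ := tau_values hAB.le h
  have hA0 : (0 : ℝ) < A := by exact_mod_cast h0
  have hB0 : (0 : ℝ) ≤ B := Nat.cast_nonneg _
  set c := ((A + B : ℕ) : ℝ) / 2000 with hc
  have hc0 : 0 < c := by rw [hc]; push_cast; positivity
  refine alt_TF (by omega) hqn a (by positivity) ?_
  have ht := TF_tangent p hc0 (t := (B : ℝ) / 1000) (by positivity)
  refine (hB.trans v2).trans ?_
  linarith

/-- the class and the number of coordinates -/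
def ClsN (cls n : ℕ) : Prop :=
  (cls = 3 ∨ cls = 5 ∨ cls = 6 ∨ cls = 7 ∨ cls = 8) ∧ (if cls = 3 then 3 else cls) ≤ n

theorem int_all {cls i n : ℕ} (hc : ClsN cls n) (hi : i < if cls = 3 then 19 else 31) :
    2 ≤ (qselOf cls).getD i 0 ∧ (qselOf cls).getD i 0 ≤ n ∧ 0 < tn i ∧ tn i < tn (i + 1) ∧
    chkTau ((qselOf cls).getD i 0) (rqL.getD ((qselOf cls).getD i 0) 0) (tn i) (tn (i + 1))
      ((tauOf cls).getD i 0) ((tauOf cls).getD (i + 1) 0) = true := by
  have h : chkInt cls i = true := by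
    rcases hc.1 with h | h | h | h | h
    · subst h; exact allB_iff.1 int3_ok i (by simpa using hi)
    · subst h; exact allB_iff.1 int5_ok i (by simpa using hi)
    · subst h; exact allB_iff.1 int6_ok i (by simpa using hi)
    · subst h; exact allB_iff.1 int7_ok i (by simpa using hi)
    · subst h; exact allB_iff.1 int8_ok i (by simpa using hi)
  unfold chkInt at h
  simp only [Bool.and_eq_true] at h
  obtain ⟨⟨⟨⟨h1, h2⟩, h3⟩, h4⟩, h5⟩ := h
  exact ⟨ble_true h1, (ble_true h2).trans hc.2, Nat.le_of_ble_eq_true h3, Nat.le_of_ble_eq_true h4, h5⟩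

/-- node bounds give the alternative on the whole range -/
theorem nodes_alt {n cls : ℕ} (hc : ClsN cls n) (a : Fin n → ℝ) (hsum : ∑ j, a j ^ 2 = 1) :
    ∀ (d is : ℕ), is + d ≤ (if cls = 3 then 19 else 31) →
      (∀ i, is ≤ i → i ≤ is + d → 1 - FV a ((tn i : ℝ) / 1000) 0 / 2 ^ n ≤
        (((tauOf cls).getD i 0 : ℕ) : ℝ) / 2 ^ 40) →
      ∀ t : ℝ, (tn is : ℝ) / 1000 ≤ t → t ≤ (tn (is + d) : ℝ) / 1000 →
        ∃ q, 1 ≤ q ∧ q ≤ n ∧ FV (stdVec n q) t 0 ≤ FV a t 0
  | 0, is, hd, hb, t, h1, h2 => by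
    have ht : t = (tn is : ℝ) / 1000 := le_antisymm (by simpa using h2) h1
    rw [ht]
    have hbi := hb is le_rfl (by simp)
    rcases Nat.lt_or_ge is (if cls = 3 then 19 else 31) with h3 | h3
    · obtain ⟨g1, g2, g3, g4, g5⟩ := int_all hc h3
      exact T_left a g1 g2 g3 g4 g5 hbi
    · have h4 : 1 ≤ is := by
        refine le_trans ?_ h3
        split <;> norm_num
      obtain ⟨i, rfl⟩ : ∃ i, is = i + 1 := ⟨is - 1, by omega⟩
      obtain ⟨g1, g2, g3, g4, g5⟩ := int_all hc (i := i) (by omega)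
      exact T_right a g1 g2 g3 g4 g5 hbi
  | d + 1, is, hd, hb, t, h1, h2 => by
    rcases le_total t ((tn (is + 1) : ℝ) / 1000) with h3 | h3
    · obtain ⟨g1, g2, g3, g4, g5⟩ := int_all hc (i := is) (by omega)
      exact T_interval a hsum g1 g2 g3 g4 g5 (hb is le_rfl (by omega)) (hb (is + 1) (by omega) (by omega)) h1 h3
    · refine nodes_alt hc a hsum d (is + 1) (by omega) (fun i hi hi2 => hb i (by omega) (by omega)) t h3 ?_
      have e : is + 1 + d = is + (d + 1) := by ring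
      rw [e]
      exact h2

/-- explicit cells of a `T` leaf -/
def tXs (B : Box) (r : ℕ) (gx : Bool) (rho1 rho2 rho3 rhoG : ℤ) : List Cell :=
  match r with
    | 1 => mkCell B.lo0 B.hi0 rho1 true :: (bif gx then [mkCell B.g0 B.g1 rhoG true] else [])
    | 2 => mkCell B.lo0 B.hi0 rho1 true :: mkCell B.lo1 B.hi1 rho2 true ::
        (bif gx then [mkCell B.g0 B.g1 rhoG true] else [])
    | _ => mkCell B.lo0 B.hi0 rho1 true :: mkCell B.lo1 B.hi1 rho2 true :: mkCell B.lo2 B.hi2 rho3 true ::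
        (bif gx then [mkCell B.g0 B.g1 rhoG true] else [])

/-- hypotheses of a `T` leaf: `es` explicit coordinates (the `r` largest ones and, if `gx`, the
smallest one), `rest` the others -/
structure THyp (cls : ℕ) (B : Box) (r : ℕ) (gx : Bool) {n : ℕ} (a : Fin n → ℝ) (es : List (Bool × ℝ))
    (rest : List ℝ) (l : ℝ) : Prop where
  a0 : ∀ j, 0 ≤ a j
  sum : ∑ j, a j ^ 2 = 1
  perm : (cList a).Perm (allC es rest)
  cell : ∀ rho1 rho2 rho3 rhoG, List.Forall₂ CellRel (tXs B r gx rho1 rho2 rho3 rhoG) es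
  rst : ∀ E ∈ rest, E ∈ Icc ((25 * (bif gx then gLow cls B else B.g0) : ℕ) : ℝ) ((25 * capX cls B r : ℕ) : ℝ)
  num : isGe cls = false → rest.length = bif gx then cls - 1 - r else cls - r
  l0 : 0 ≤ l
  l1 : l ≤ 1
  s : mix l B.s0 B.s1 = 1048576 * ∑ j, a j ^ 4

theorem mkRng_E0' (g0 cap : ℕ) : (mkRng g0 cap).E0 = 25 * g0 := by
  unfold mkRng; simp only [fz_eq]

theorem mkRng_E1' (g0 cap : ℕ) : (mkRng g0 cap).E1 = 25 * cap := by
  unfold mkRng; simp only [fz_eq]

section

variable {cls : ℕ} {B : Box} {r n : ℕ} {gx : Bool} {a : Fin n → ℝ} {es : List (Bool × ℝ)}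
  {rest : List ℝ} {l : ℝ}

theorem THyp.S1 (h : THyp cls B r gx a es rest l) : SE (fun E => E) (allC es rest) = 26214400 := by
  rw [← SE_perm h.perm, SE_cList]
  unfold eOf
  rw [← Finset.mul_sum, h.sum, mul_one]

theorem THyp.S2 (h : THyp cls B r gx a es rest l) :
    SE (fun E => E ^ 2) (allC es rest) = 655360000 * mix l B.s0 B.s1 := by
  rw [← SE_perm h.perm, SE_cList, h.s]
  unfold eOf
  have : ∑ j, (26214400 * a j ^ 2) ^ 2 = 687194767360000 * ∑ j, a j ^ 4 := by
    rw [Finset.mul_sum]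
    exact Finset.sum_congr rfl fun j _ => by ring
  rw [this]
  ring

theorem tXs_nu (B : Box) (r : ℕ) (gx : Bool) (rho1 rho2 rho3 rhoG : ℤ) :
    ∀ x ∈ tXs B r gx rho1 rho2 rho3 rhoG, x.nu = true := by
  intro x hx
  unfold tXs at hx
  cases gx <;> split at hx <;>
    simp only [cond_true, cond_false, List.mem_cons, List.not_mem_nil, or_false] at hx
  · subst hx; rfl
  · rcases hx with rfl | rfl <;> rfl
  · rcases hx with rfl | rfl | rfl <;> rfl
  · rcases hx with rfl | rfl <;> rfl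
  · rcases hx with rfl | rfl | rfl <;> rfl
  · rcases hx with rfl | rfl | rfl | rfl <;> rfl

theorem tXs_rho {rho1 rho2 rho3 rhoG : ℤ} (hr1 : 1 ≤ r) (hr3 : r ≤ 3) (h1 : rhoOK (25 * B.lo0) rho1 = true)
    (h2 : r ≤ 1 ∨ rhoOK (25 * B.lo1) rho2 = true) (h3 : r ≤ 2 ∨ rhoOK (25 * B.lo2) rho3 = true)
    (hG : gx = false ∨ rhoOK (25 * B.g0) rhoG = true) :
    ∀ x ∈ tXs B r gx rho1 rho2 rho3 rhoG, x.nu = true → RhoRel x := by
  intro x hx hnu
  have key : r = 1 ∨ r = 2 ∨ r = 3 := by omega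
  cases gx
  · rcases key with e | e | e
    · subst e
      unfold tXs at hx
      simp only [cond_false, List.mem_cons, List.not_mem_nil, or_false] at hx
      subst hx
      exact h1
    · subst e
      unfold tXs at hx
      simp only [cond_false, List.mem_cons, List.not_mem_nil, or_false] at hx
      rcases hx with rfl | rfl
      · exact h1
      · exact h2.resolve_left (by norm_num)
    · subst e
      unfold tXs at hx
      simp only [cond_false, List.mem_cons, List.not_mem_nil, or_false] at hx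
      rcases hx with rfl | rfl | rfl
      · exact h1
      · exact h2.resolve_left (by norm_num)
      · exact h3.resolve_left (by norm_num)
  · have hG' := hG.resolve_left (by simp)
    rcases key with e | e | e
    · subst e
      unfold tXs at hx
      simp only [cond_true, List.mem_cons, List.not_mem_nil, or_false] at hx
      rcases hx with rfl | rfl
      · exact h1
      · exact hG'
    · subst e
      unfold tXs at hx
      simp only [cond_true, List.mem_cons, List.not_mem_nil, or_false] at hx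
      rcases hx with rfl | rfl | rfl
      · exact h1
      · exact h2.resolve_left (by norm_num)
      · exact hG'
    · subst e
      unfold tXs at hx
      simp only [cond_true, List.mem_cons, List.not_mem_nil, or_false] at hx
      rcases hx with rfl | rfl | rfl | rfl
      · exact h1
      · exact h2.resolve_left (by norm_num)
      · exact h3.resolve_left (by norm_num)
      · exact hG'

theorem tCheck_unpack {is ie : ℕ} {rho1 rho2 rho3 rhoG rc : ℤ} {dat : ℕ}
    (h : tCheck cls B r gx is ie rho1 rho2 rho3 rhoG rc dat = true) :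
    (1 ≤ r ∧ r ≤ 3 ∧ is ≤ ie ∧ ie ≤ (if cls = 3 then 19 else 31) ∧ rhoOK (25 * B.lo0) rho1 = true ∧
      (r ≤ 1 ∨ rhoOK (25 * B.lo1) rho2 = true) ∧ (r ≤ 2 ∨ rhoOK (25 * B.lo2) rho3 = true) ∧
      (gx = false ∨ (5 ≤ cls ∧ rhoOK (25 * B.g0) rhoG = true))) ∧
    ∃ rem : ℕ, remT (nmax (capX cls B r) 7900) rc (tXs B r gx rho1 rho2 rho3 rhoG) = some rem ∧
      nodesOK (tbs (bif isGe cls then 0 else bif gx then cls - 1 - r else cls - r) (isGe cls)
        (mkRng (bif gx then gLow cls B else B.g0) (capX cls B r))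
        (tXs B r gx rho1 rho2 rho3 rhoG) B.s0 B.s1 20 1 dat) rem (ie + 1 - is) (sigL.drop is)
        ((thrOf cls).drop is) = true := by
  have key : r = 1 ∨ r = 2 ∨ r = 3 := by
    have h' := h
    unfold tCheck at h'
    dsimp only at h'
    rw [Bool.and_eq_true] at h'
    obtain ⟨h', -⟩ := h'
    simp only [Bool.and_eq_true] at h'
    obtain ⟨⟨⟨⟨⟨⟨⟨⟨c1, c2⟩, c3⟩, c4⟩, c5⟩, c9⟩, c6⟩, c7⟩, c8⟩ := h'
    have d1 := ble_true c1
    have d2 := ble_true c2
    omega
  have hif : (bif Nat.beq cls 3 then 19 else 31) = if cls = 3 then 19 else 31 := by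
    by_cases h3 : cls = 3
    · subst h3; rfl
    · have : Nat.beq cls 3 = false := by
        cases hb : Nat.beq cls 3
        · rfl
        · exact absurd (beq_true hb) h3
      rw [this, cond_false, if_neg h3]
  rcases key with rfl | rfl | rfl
  all_goals
    unfold tCheck at h
    dsimp only [tXs] at h ⊢
    rw [Bool.and_eq_true] at h
    obtain ⟨h, hm⟩ := h
    simp only [Bool.and_eq_true, Bool.or_eq_true] at h
    obtain ⟨⟨⟨⟨⟨⟨⟨⟨c1, c2⟩, c3⟩, c4⟩, c5⟩, c9⟩, c6⟩, c7⟩, c8⟩ := h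
    rw [hif] at c5
    refine ⟨⟨ble_true c1, ble_true c2, ble_true c4, ble_true c5, c6, c7.imp ble_true id, c8.imp ble_true id,
      c9.imp (fun h => by simpa using h) (fun h => ⟨ble_true h.1, h.2⟩)⟩, ?_⟩
    split at hm
    · cases hm
    · rename_i rem hrem
      exact ⟨rem, hrem, hm⟩

/-- the nodes of a `T` leaf -/
theorem tCheck_nodes {is ie : ℕ} {rho1 rho2 rho3 rhoG rc : ℤ} {dat : ℕ} (hc : ClsN cls n)
    (h : tCheck cls B r gx is ie rho1 rho2 rho3 rhoG rc dat = true) (ht : THyp cls B r gx a es rest l) :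
    is ≤ ie ∧ ie ≤ (if cls = 3 then 19 else 31) ∧ ∀ i, is ≤ i → i ≤ ie →
      1 - FV a ((tn i : ℝ) / 1000) 0 / 2 ^ n ≤ (((tauOf cls).getD i 0 : ℕ) : ℝ) / 2 ^ 40 := by
  obtain ⟨⟨c1, c2, c4, c5, c6, c7, c8, c9⟩, rem, hrem, hnodes⟩ := tCheck_unpack h
  refine ⟨c4, c5, fun i hi1 hi2 => ?_⟩
  have hi32 : i < 32 := by
    have : ie ≤ 31 := by
      refine c5.trans ?_
      split <;> norm_num
    omega
  have hpt : PtOK (isGe cls) (bif isGe cls then 0 else bif gx then cls - 1 - r else cls - r)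
      (mkRng (bif gx then gLow cls B else B.g0) (capX cls B r))
      (tXs B r gx rho1 rho2 rho3 rhoG) es rest (mix l (B.s0 : ℤ) (B.s1 : ℤ)) := by
    refine ⟨ht.cell _ _ _ _, tXs_rho c1 c2 c6 c7 c8 (c9.imp id And.right), ?_, ?_, ht.S1, ?_⟩
    · intro E hE
      rw [mkRng_E0', mkRng_E1']
      exact ht.rst E hE
    · intro hge
      rw [hge, cond_false]
      exact (ht.num hge).symm
    · have := ht.S2
      exact_mod_cast this
  have hcap : 0 < nmax (capX cls B r) 7900 := by rw [nmax_eq]; omega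
  have hrest : ∀ E ∈ rest, E ≤ ((25 * nmax (capX cls B r) 7900 : ℕ) : ℝ) := by
    intro E hE
    refine (ht.rst E hE).2.trans ?_
    have : 25 * capX cls B r ≤ 25 * nmax (capX cls B r) 7900 := by
      rw [nmax_eq]; exact Nat.mul_le_mul_left 25 (le_max_left _ _)
    exact_mod_cast this
  obtain ⟨row, thr, hrow, hthr, hnode⟩ := nodesOK_get _ _ _ hnodes (i - is) (by omega)
  have e1 : sigL.getD i [] = row := by
    have h9 : (sigL.drop is).getD (i - is) [] = row := by
      rw [List.getD_eq_getElem?_getD, hrow]; rfl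
    rw [getD_drop] at h9
    rw [← h9]
    congr 1
    omega
  have e2 : (thrOf cls).getD i 0 = thr := by
    have h9 : ((thrOf cls).drop is).getD (i - is) 0 = thr := by
      rw [List.getD_eq_getElem?_getD, hthr]; rfl
    rw [getD_drop] at h9
    rw [← h9]
    congr 1
    omega
  have hth := thr_all hc.1 (hi2.trans c5)
  rw [← e1, ← e2] at hnode
  exact node_bound a ht.a0 ht.sum ht.perm ht.l0 ht.l1 hpt (tXs_nu _ _ _ _ _ _ _) hcap hrem hrest hi32 hth hnode

/-- the alternatives on the range of a `T` leaf -/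
theorem tCheck_sound {is ie : ℕ} {rho1 rho2 rho3 rhoG rc : ℤ} {dat : ℕ} (hc : ClsN cls n)
    (h : tCheck cls B r gx is ie rho1 rho2 rho3 rhoG rc dat = true) (ht : THyp cls B r gx a es rest l)
    {t : ℝ} (h1 : (tn is : ℝ) / 1000 ≤ t) (h2 : t ≤ (tn ie : ℝ) / 1000) :
    ∃ q, 1 ≤ q ∧ q ≤ n ∧ FV (stdVec n q) t 0 ≤ FV a t 0 := by
  obtain ⟨g1, g2, g3⟩ := tCheck_nodes hc h ht
  have e : is + (ie - is) = ie := by omega
  refine nodes_alt hc a ht.sum (ie - is) is (by omega) (fun i hi hi2 => g3 i hi (by omega)) t h1 ?_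
  rw [e]
  exact h2

end

end Pool.Agent.H60.SC
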