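import Pool.Agent.H60.SC.PAlias
import Pool.Agent.H60.SC.Pt
import Pool.Agent.H60.SC.TFin

/-!
# From a point in a box to the hypotheses of the leaves
-/

set_option autoImplicit false

open Set Filter Topology MeasureTheory

namespace Pool.Agent.H60.SC

open Pool.Agent.H60.SL
open Pool.Agent.H64.Slab Pool.Agent.H60.Slab Pool.Agent.H60.Big
open Pool.Agent.H61.SC

/-- class and number of coordinates -/
def ClsEq (cls n : ℕ) : Prop :=
  (3 ≤ n ∧ n ≤ 4 ∧ cls = 3) ∨ (5 ≤ n ∧ n ≤ 7 ∧ cls = n) ∨ (8 ≤ n ∧ cls = 8)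

theorem ClsEq.clsN {cls n : ℕ} (h : ClsEq cls n) : ClsN cls n := by
  rcases h with ⟨h1, h2, h3⟩ | ⟨h1, h2, h3⟩ | ⟨h1, h2⟩
  · subst h3; exact ⟨by omega, by simpa using h1⟩
  · subst h3
    refine ⟨by omega, ?_⟩
    rw [if_neg (by omega)]
  · subst h2
    exact ⟨by omega, by simpa using h1⟩

theorem ClsEq.le {cls n : ℕ} (h : ClsEq cls n) : cls ≤ n := by
  rcases h with ⟨h1, h2, h3⟩ | ⟨h1, h2, h3⟩ | ⟨h1, h2⟩ <;> omega

theorem ClsEq.three {cls n : ℕ} (h : ClsEq cls n) : 3 ≤ n := by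
  rcases h with ⟨h1, h2, h3⟩ | ⟨h1, h2, h3⟩ | ⟨h1, h2⟩ <;> omega

theorem ClsEq.five {cls n : ℕ} (h : ClsEq cls n) (h5 : 5 ≤ cls) : 5 ≤ n := by
  rcases h with ⟨h1, h2, h3⟩ | ⟨h1, h2, h3⟩ | ⟨h1, h2⟩ <;> omega

theorem ClsEq.eq {cls n : ℕ} (h : ClsEq cls n) (hge : isGe cls = false) : cls = n ∧ 5 ≤ n := by
  rcases h with ⟨h1, h2, h3⟩ | ⟨h1, h2, h3⟩ | ⟨h1, h2⟩
  · subst h3; simp [isGe] at hge
  · exact ⟨h3, h1⟩
  · subst h2; simp [isGe] at hge

/-- a unit vector whose data lie in the box -/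
structure InBox (B : Box) {n : ℕ} (a : Fin n → ℝ) (i0 i1 i2 ig : Fin n) : Prop where
  pos : ∀ k, 0 < a k
  sum : ∑ k, a k ^ 2 = 1
  d01 : i1 ≠ i0
  d02 : i2 ≠ i0
  d12 : i2 ≠ i1
  o01 : a i1 ≤ a i0
  o12 : a i2 ≤ a i1
  oth : ∀ k, k ≠ i0 → k ≠ i1 → k ≠ i2 → a k ≤ a i2
  mn : ∀ k, a ig ≤ a k
  dg : 4 ≤ n → ig ≠ i0 ∧ ig ≠ i1 ∧ ig ≠ i2
  l0 : (B.lo0 : ℝ) ≤ 1048576 * a i0 ^ 2
  u0 : 1048576 * a i0 ^ 2 ≤ B.hi0
  l1 : (B.lo1 : ℝ) ≤ 1048576 * a i1 ^ 2
  u1 : 1048576 * a i1 ^ 2 ≤ B.hi1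
  l2 : (B.lo2 : ℝ) ≤ 1048576 * a i2 ^ 2
  u2 : 1048576 * a i2 ^ 2 ≤ B.hi2
  lg : (B.g0 : ℝ) ≤ 1048576 * a ig ^ 2
  ug : 1048576 * a ig ^ 2 ≤ B.g1
  ls : (B.s0 : ℝ) ≤ 1048576 * ∑ k, a k ^ 4
  us : 1048576 * ∑ k, a k ^ 4 ≤ B.s1

section

variable {cls : ℕ} {B : Box} {n : ℕ} {a : Fin n → ℝ} {i0 i1 i2 ig : Fin n}

theorem InBox.sq_le (h : InBox B a i0 i1 i2 ig) {k l : Fin n} (hkl : a k ≤ a l) : a k ^ 2 ≤ a l ^ 2 :=
  pow_le_pow_left₀ (h.pos k).le hkl 2

theorem InBox.le1 (h : InBox B a i0 i1 i2 ig) {k : Fin n} (hk : k ≠ i0) : a k ≤ a i1 := by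
  by_cases h1 : k = i1
  · rw [h1]
  by_cases h2 : k = i2
  · rw [h2]; exact h.o12
  exact (h.oth k hk h1 h2).trans h.o12

theorem InBox.le2 (h : InBox B a i0 i1 i2 ig) {k : Fin n} (hk : k ≠ i0) (hk1 : k ≠ i1) : a k ≤ a i2 := by
  by_cases h2 : k = i2
  · rw [h2]
  exact h.oth k hk hk1 h2

theorem InBox.low (h : InBox B a i0 i1 i2 ig) (k : Fin n) : (B.g0 : ℝ) ≤ 1048576 * a k ^ 2 := by
  have := h.sq_le (h.mn k)
  linarith [h.lg]

/-- second smallest coordinate -/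
theorem InBox.second (h : InBox B a i0 i1 i2 ig) (hn : 5 ≤ n) {k : Fin n} (hk0 : k ≠ i0) (hkg : k ≠ ig) :
    1 - a i0 ^ 2 - a ig ^ 2 - a i1 ^ 2 - ((n : ℝ) - 4) * a i2 ^ 2 ≤ a k ^ 2 := by
  obtain ⟨g0, g1, g2⟩ := h.dg (by omega)
  have hs := sum_split3 (fun k => a k ^ 2) (i0 := i0) (i1 := ig) (i2 := k) g0 hk0 hkg
  rw [h.sum] at hs
  have hn5 : (5 : ℝ) ≤ n := by exact_mod_cast hn
  have h12 := h.sq_le h.o12
  have hcard := card_split3 (i0 := i0) (i1 := ig) (i2 := k) g0 hk0 hkg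
  set S := ((Finset.univ.erase i0).erase ig).erase k with hS
  have hSle : ∑ j ∈ S, a j ^ 2 ≤ a i1 ^ 2 + ((n : ℝ) - 4) * a i2 ^ 2 := by
    by_cases hk1 : i1 ∈ S
    · rw [← Finset.add_sum_erase S _ hk1]
      have hc2 : (S.erase i1).card = n - 4 := by
        rw [Finset.card_erase_of_mem hk1, hcard]; omega
      have : ∑ j ∈ S.erase i1, a j ^ 2 ≤ (S.erase i1).card • a i2 ^ 2 := by
        apply Finset.sum_le_card_nsmul
        intro x hx
        rw [Finset.mem_erase] at hx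
        have hx0 : x ≠ i0 := (mem_split3.1 hx.2).2.2
        exact h.sq_le (h.le2 hx0 hx.1)
      rw [hc2, nsmul_eq_mul, Nat.cast_sub (by omega)] at this
      push_cast at this
      linarith
    · have : ∑ j ∈ S, a j ^ 2 ≤ S.card • a i2 ^ 2 := by
        apply Finset.sum_le_card_nsmul
        intro x hx
        have hx0 : x ≠ i0 := (mem_split3.1 hx).2.2
        have hx1 : x ≠ i1 := fun e => hk1 (e ▸ hx)
        exact h.sq_le (h.le2 hx0 hx1)
      rw [hcard, nsmul_eq_mul, Nat.cast_sub (by omega)] at this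
      push_cast at this
      nlinarith
  linarith

/-- the fourth coordinate -/
theorem InBox.fourth (h : InBox B a i0 i1 i2 ig) {k : Fin n} (hk0 : k ≠ i0) (hk1 : k ≠ i1) (hk2 : k ≠ i2)
    {c : ℕ} (hc : c + 4 ≤ n) :
    a k ^ 2 ≤ 1 - a i0 ^ 2 - a i1 ^ 2 - a i2 ^ 2 - (c : ℝ) * a ig ^ 2 := by
  have hs := sum_split3 (fun k => a k ^ 2) (i0 := i0) (i1 := i1) (i2 := i2) h.d01 h.d02 h.d12
  rw [h.sum] at hs
  have hcard := card_split3 (i0 := i0) (i1 := i1) (i2 := i2) h.d01 h.d02 h.d12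
  set S := ((Finset.univ.erase i0).erase i1).erase i2 with hS
  have hkS : k ∈ S := mem_split3.2 ⟨hk2, hk1, hk0⟩
  rw [← Finset.add_sum_erase S _ hkS] at hs
  have hc2 : (S.erase k).card = n - 4 := by
    rw [Finset.card_erase_of_mem hkS, hcard]; omega
  have h1 : (S.erase k).card • a ig ^ 2 ≤ ∑ j ∈ S.erase k, a j ^ 2 := by
    apply Finset.card_nsmul_le_sum
    intro x _
    exact h.sq_le (h.mn x)
  rw [hc2, nsmul_eq_mul, Nat.cast_sub (by omega)] at h1
  have h2 : (c : ℝ) ≤ (n : ℝ) - 4 := by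
    have : ((c + 4 : ℕ) : ℝ) ≤ n := by exact_mod_cast hc
    push_cast at this
    linarith
  have h3 := mul_le_mul_of_nonneg_right h2 (sq_nonneg (a ig))
  push_cast at h1
  linarith

/-- truncated subtraction from above -/
theorem le_tsub {a b : ℕ} {x : ℝ} (h : x ≤ (a : ℝ) - b) : x ≤ ((a - b : ℕ) : ℝ) := by
  have h1 : a ≤ (a - b) + b := by omega
  have h2 : (a : ℝ) ≤ ((a - b : ℕ) : ℝ) + b := by exact_mod_cast h1
  linarith

theorem InBox.gLow_le (h : InBox B a i0 i1 i2 ig) (hc : ClsEq cls n) {k : Fin n} (hk0 : k ≠ i0)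
    (hkg : k ≠ ig) : (gLow cls B : ℝ) ≤ 1048576 * a k ^ 2 := by
  have hx := sq_nonneg (a k)
  unfold gLow
  cases hge : isGe cls
  · obtain ⟨he, h5⟩ := hc.eq hge
    rw [cond_false, nmax_eq, Nat.cast_max]
    apply max_le (h.low k)
    have h1 := h.second h5 hk0 hkg
    apply tsub_le (by positivity)
    have hn5 : (5 : ℝ) ≤ n := by exact_mod_cast h5
    have hu2 := mul_le_mul_of_nonneg_left h.u2 (show (0 : ℝ) ≤ n - 4 by linarith)
    have key : (1048576 : ℝ) - B.hi0 - B.hi1 - ((n : ℝ) - 4) * B.hi2 - B.g1 ≤ 1048576 * a k ^ 2 := by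
      nlinarith [h.u0, h.u1, h.ug]
    -- the truncated differences
    by_cases hpos : B.hi0 + B.hi1 + (cls - 4) * B.hi2 ≤ 1048576
    · have e : ((1048576 - B.hi0 - B.hi1 - (cls - 4) * B.hi2 : ℕ) : ℝ) =
          1048576 - B.hi0 - B.hi1 - ((n : ℝ) - 4) * B.hi2 := by
        have e0 : 1048576 - B.hi0 - B.hi1 - (cls - 4) * B.hi2 = 1048576 - (B.hi0 + B.hi1 + (cls - 4) * B.hi2) := by
          omega
        rw [e0, Nat.cast_sub hpos]
        push_cast
        rw [Nat.cast_sub (by omega), he]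
        push_cast
        ring
      rw [e]
      exact key
    · have e : 1048576 - B.hi0 - B.hi1 - (cls - 4) * B.hi2 = 0 := by omega
      rw [e]
      push_cast
      have : (0 : ℝ) ≤ B.g1 := Nat.cast_nonneg _
      nlinarith
  · rw [cond_true]
    exact h.low k

theorem InBox.capX_one (h : InBox B a i0 i1 i2 ig) {k : Fin n} (hk0 : k ≠ i0) :
    1048576 * a k ^ 2 ≤ (capX cls B 1 : ℝ) := by
  have := h.sq_le (h.le1 hk0)
  have h1 := h.u1
  show 1048576 * a k ^ 2 ≤ (B.hi1 : ℝ)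
  linarith

theorem InBox.capX_two (h : InBox B a i0 i1 i2 ig) {k : Fin n} (hk0 : k ≠ i0) (hk1 : k ≠ i1) :
    1048576 * a k ^ 2 ≤ (capX cls B 2 : ℝ) := by
  have := h.sq_le (h.le2 hk0 hk1)
  have h1 := h.u2
  show 1048576 * a k ^ 2 ≤ (B.hi2 : ℝ)
  linarith

theorem InBox.capX_three (h : InBox B a i0 i1 i2 ig) (hc : ClsEq cls n) {k : Fin n} (hk0 : k ≠ i0)
    (hk1 : k ≠ i1) (hk2 : k ≠ i2) : 1048576 * a k ^ 2 ≤ (capX cls B 3 : ℝ) := by
  have h2 := h.sq_le (h.le2 hk0 hk1)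
  have h3 := h.u2
  unfold capX
  simp only
  cases hb : Nat.beq cls 3
  · rw [cond_false, nmin_eq, Nat.cast_min]
    refine le_min (by linarith) ?_
    have hcls : cls ≠ 3 := by
      rintro rfl
      cases hb
    have h5 : 5 ≤ cls := by
      rcases hc with ⟨a1, a2, a3⟩ | ⟨a1, a2, a3⟩ | ⟨a1, a2⟩ <;> omega
    have hle := hc.le
    have h4 := h.fourth hk0 hk1 hk2 (c := cls - 4) (by omega)
    have hg := mul_le_mul_of_nonneg_left h.lg (Nat.cast_nonneg (α := ℝ) (cls - 4))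
    have e0 : 1048576 - B.lo0 - B.lo1 - B.lo2 - (cls - 4) * B.g0 =
        1048576 - (B.lo0 + B.lo1 + B.lo2 + (cls - 4) * B.g0) := by omega
    rw [e0]
    apply le_tsub
    push_cast
    nlinarith [h.l0, h.l1, h.l2]
  · rw [cond_true]
    linarith

/-- hypotheses of a `T` leaf -/
theorem InBox.toT (h : InBox B a i0 i1 i2 ig) (hc : ClsEq cls n) {r : ℕ} {gx : Bool} (hr1 : 1 ≤ r)
    (hr3 : r ≤ 3) (hg : gx = true → 5 ≤ n) : ∃ es rest l, THyp cls B r gx a es rest l := by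
  obtain ⟨l, hl0, hl1, hl⟩ := mix_exists h.ls h.us
  have c0 : ∀ rho, CellRel (mkCell B.lo0 B.hi0 rho true) (true, eOf (a i0)) := fun rho =>
    ⟨rfl, eOf_mem h.l0 h.u0⟩
  have c1 : ∀ rho, CellRel (mkCell B.lo1 B.hi1 rho true) (true, eOf (a i1)) := fun rho =>
    ⟨rfl, eOf_mem h.l1 h.u1⟩
  have c2 : ∀ rho, CellRel (mkCell B.lo2 B.hi2 rho true) (true, eOf (a i2)) := fun rho =>
    ⟨rfl, eOf_mem h.l2 h.u2⟩
  have cg : ∀ rho, CellRel (mkCell B.g0 B.g1 rho true) (true, eOf (a ig)) := fun rho =>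
    ⟨rfl, eOf_mem h.lg h.ug⟩
  have main : ∀ ids : List (Fin n), ids.Nodup →
      (∀ rho1 rho2 rho3 rhoG, List.Forall₂ CellRel (tXs B r gx rho1 rho2 rho3 rhoG)
        (ids.map (fun i => (true, eOf (a i))))) →
      (∀ k, k ∉ ids → ((bif gx then gLow cls B else B.g0 : ℕ) : ℝ) ≤ 1048576 * a k ^ 2) →
      (∀ k, k ∉ ids → 1048576 * a k ^ 2 ≤ (capX cls B r : ℝ)) →
      ids.length = (bif gx then r + 1 else r) → ∃ es rest l, THyp cls B r gx a es rest l := by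
    intro ids hnd hcell hlo hhi hlen
    refine ⟨_, _, l, ⟨fun j => (h.pos j).le, h.sum, cList_perm a hnd, hcell, ?_, ?_, hl0, hl1, hl⟩⟩
    · intro E hE
      obtain ⟨k, hk, rfl⟩ := mem_others hE
      exact eOf_mem (hlo k hk) (hhi k hk)
    · intro hge
      rw [others_length a hnd, hlen, (hc.eq hge).1]
      cases gx
      · simp
      · simp only [cond_true]; omega
  have hlow : ∀ k, ((B.g0 : ℕ) : ℝ) ≤ 1048576 * a k ^ 2 := h.low
  have key : r = 1 ∨ r = 2 ∨ r = 3 := by omega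
  cases gx
  · rcases key with e | e | e
    · subst e
      refine main [i0] (by simp) (fun _ _ _ _ => List.Forall₂.cons (c0 _) List.Forall₂.nil)
        (fun k _ => hlow k) (fun k hk => ?_) rfl
      simp only [List.mem_cons, List.not_mem_nil, or_false] at hk
      exact h.capX_one hk
    · subst e
      refine main [i0, i1] (by simp [h.d01.symm]) (fun _ _ _ _ => List.Forall₂.cons (c0 _)
        (List.Forall₂.cons (c1 _) List.Forall₂.nil)) (fun k _ => hlow k) (fun k hk => ?_) rfl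
      simp only [List.mem_cons, List.not_mem_nil, or_false, not_or] at hk
      exact h.capX_two hk.1 hk.2
    · subst e
      refine main [i0, i1, i2] (by simp [h.d01.symm, h.d02.symm, h.d12.symm]) (fun _ _ _ _ =>
        List.Forall₂.cons (c0 _) (List.Forall₂.cons (c1 _) (List.Forall₂.cons (c2 _) List.Forall₂.nil)))
        (fun k _ => hlow k) (fun k hk => ?_) rfl
      simp only [List.mem_cons, List.not_mem_nil, or_false, not_or] at hk
      exact h.capX_three hc hk.1 hk.2.1 hk.2.2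
  · have hn5 := hg rfl
    obtain ⟨g0, g1, g2⟩ := h.dg (by omega)
    rcases key with e | e | e
    · subst e
      refine main [i0, ig] (by simp [g0.symm]) (fun _ _ _ _ => List.Forall₂.cons (c0 _)
        (List.Forall₂.cons (cg _) List.Forall₂.nil)) (fun k hk => ?_) (fun k hk => ?_) rfl
      · simp only [List.mem_cons, List.not_mem_nil, or_false, not_or] at hk
        exact h.gLow_le hc hk.1 hk.2
      · simp only [List.mem_cons, List.not_mem_nil, or_false, not_or] at hk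
        exact h.capX_one hk.1
    · subst e
      refine main [i0, i1, ig] (by simp [g0.symm, g1.symm, h.d01.symm]) (fun _ _ _ _ =>
        List.Forall₂.cons (c0 _) (List.Forall₂.cons (c1 _) (List.Forall₂.cons (cg _) List.Forall₂.nil)))
        (fun k hk => ?_) (fun k hk => ?_) rfl
      · simp only [List.mem_cons, List.not_mem_nil, or_false, not_or] at hk
        exact h.gLow_le hc hk.1 hk.2.2
      · simp only [List.mem_cons, List.not_mem_nil, or_false, not_or] at hk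
        exact h.capX_two hk.1 hk.2.1
    · subst e
      refine main [i0, i1, i2, ig] (by simp [g0.symm, g1.symm, g2.symm, h.d01.symm, h.d02.symm, h.d12.symm])
        (fun _ _ _ _ => List.Forall₂.cons (c0 _) (List.Forall₂.cons (c1 _) (List.Forall₂.cons (c2 _)
          (List.Forall₂.cons (cg _) List.Forall₂.nil)))) (fun k hk => ?_) (fun k hk => ?_) rfl
      · simp only [List.mem_cons, List.not_mem_nil, or_false, not_or] at hk
        exact h.gLow_le hc hk.1 hk.2.2.2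
      · simp only [List.mem_cons, List.not_mem_nil, or_false, not_or] at hk
        exact h.capX_three hc hk.1 hk.2.1 hk.2.2.1

end

end Pool.Agent.H60.SC
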