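import Pool.Agent.H60.SC.CellLo
import Pool.Agent.H60.SL.CkCell2

/-!
# Soundness of the upper cell bounds
-/

set_option autoImplicit false

open Set

namespace Pool.Agent.H60.SC

open Pool.Agent.H60.SL
open Pool.Agent.H60.SL.Ck (nn le ex t1D t1F t1M t2D t2F expU expL nd sD sF sM sMu fLo fUp PLt PHt rl rh
  lowT1 lowT2 lowT3 lowT3L upT1 upT2 upT3 look64 look96 tabT2D tabT2F LB UB zE nn_iff le_iff le_real nn_real
  beq_zero_pos affine_max InL)
open Pool.Agent.H61.SC

/-! ## sign of `sinc` on the lobes -/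

theorem sin_lobe_sign {L : ℕ} {z : ℝ} (h1 : (L : ℝ) * Real.pi < z) (h2 : z < ((L : ℝ) + 1) * Real.pi) :
    0 < (-1) ^ L * Real.sin z := by
  have h3 : Real.sin (z - L * Real.pi) = (-1) ^ L * Real.sin z := Real.sin_sub_nat_mul_pi z L
  rw [← h3]
  exact Real.sin_pos_of_pos_of_lt_pi (by linarith) (by nlinarith)

theorem sinc_sign {k L : ℕ} {E : ℝ} (h : InL k L E) : 0 < (-1) ^ L * Real.sinc (k * zE E) := by
  obtain ⟨hE, h0, h1⟩ := h
  have hz := Ck.zE_nonneg E
  rcases Nat.eq_zero_or_pos L with hL | hL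
  · subst hL
    rw [pow_zero, one_mul]
    exact sinc_pos' (by positivity) (Ck.kz_lt_pi hE (Ck.lt_pi_sq (Ck.E_lt (h0 rfl))))
  · obtain ⟨-, h2, h3⟩ := h1 hL
    rw [← Ck.kz_sq hE] at h2 h3
    have hkz : 0 ≤ (k : ℝ) * zE E := by positivity
    have g2 := lt_of_pow_lt_pow_left₀ 2 hkz h2
    have g3 := lt_of_pow_lt_pow_left₀ 2 (by positivity) h3
    have hpos : 0 < (k : ℝ) * zE E := lt_of_le_of_lt (by positivity) g2
    rw [Real.sinc_of_ne_zero hpos.ne', mul_div_assoc']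
    exact div_pos (sin_lobe_sign g2 g3) hpos

theorem sinc_ne {k L : ℕ} {E : ℝ} (h : InL k L E) : Real.sinc (k * zE E) ≠ 0 := by
  intro h0
  have := sinc_sign h
  rw [h0, mul_zero] at this
  exact lt_irrefl _ this

/-- the lobes are intervals -/
theorem InL_between {k L : ℕ} {u v E : ℝ} (hu : InL k L u) (hv : InL k L v) (hE : E ∈ Icc u v) :
    InL k L E := by
  have k2 : (0 : ℝ) ≤ (k : ℝ) ^ 2 := sq_nonneg _
  refine ⟨hu.1.trans hE.1, fun h => ?_, fun h => ?_⟩
  · exact (mul_le_mul_of_nonneg_left hE.2 k2).trans (hv.2.1 h)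
  · refine ⟨(hu.2.2 h).1, lt_of_lt_of_le (hu.2.2 h).2.1 ?_, lt_of_le_of_lt ?_ (hv.2.2 h).2.2⟩
    · exact mul_le_mul_of_nonneg_left (div_le_div_of_nonneg_right hE.1 (by positivity)) k2
    · exact mul_le_mul_of_nonneg_left (div_le_div_of_nonneg_right hE.2 (by positivity)) k2

/-! ## convex functions -/

theorem conv_line {u v : ℝ} (huv : u ≤ v) {G : ℝ → ℝ} (hconv : ConvexOn ℝ (Icc u v) G)
    {vu vv : ℝ} (hu : G u ≤ vu) (hv : G v ≤ vv) {E : ℝ} (hE : E ∈ Icc u v) :
    ∃ α β : ℝ, α + β * u ≤ vu ∧ α + β * v ≤ vv ∧ G E ≤ α + β * E := by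
  rcases huv.eq_or_lt with h | h
  · subst h
    have : E = u := le_antisymm hE.2 hE.1
    refine ⟨G u, 0, by simpa using hu, by simpa using hv, ?_⟩
    rw [this]; simp
  · have hd : (0 : ℝ) < v - u := by linarith
    have := hconv.2 (left_mem_Icc.2 h.le) (right_mem_Icc.2 h.le)
      (show 0 ≤ (v - E) / (v - u) from div_nonneg (by linarith [hE.2]) hd.le)
      (show 0 ≤ (E - u) / (v - u) from div_nonneg (by linarith [hE.1]) hd.le)
      (by field_simp; ring)
    simp only [smul_eq_mul] at this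
    have e : (v - E) / (v - u) * u + (E - u) / (v - u) * v = E := by field_simp; ring
    rw [e] at this
    refine ⟨G u - (G v - G u) / (v - u) * u, (G v - G u) / (v - u), ?_, ?_, this.trans (le_of_eq ?_)⟩
    · have : G u - (G v - G u) / (v - u) * u + (G v - G u) / (v - u) * u = G u := by ring
      rw [this]; exact hu
    · have : G u - (G v - G u) / (v - u) * u + (G v - G u) / (v - u) * v = G v := by
        field_simp; ring
      rw [this]; exact hv
    · field_simp; ring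

/-- the quadratic upper bound on one subcell -/
theorem quad_hi {u v a cp cn m E g vu vv α β : ℝ} (hcp : 0 ≤ cp) (hcn : 0 ≤ cn) (hE : E ∈ Icc u v)
    (ha1 : α + β * u ≤ vu) (ha2 : α + β * v ≤ vv) (hg : g ≤ α + β * E)
    (h1 : 4 * (vu - a * u) - 4 * cp * u ^ 2 + 4 * cn * u ^ 2 + cp * (v - u) ^ 2 ≤ m)
    (h2 : 4 * (vv - a * v) - 4 * cp * v ^ 2 + 4 * cn * v ^ 2 + cp * (v - u) ^ 2 ≤ m) :
    4 * (g - a * E - (cp - cn) * E ^ 2) ≤ m := by
  have huv : 0 ≤ (E - u) * (v - E) := mul_nonneg (sub_nonneg.2 hE.1) (sub_nonneg.2 hE.2)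
  have h4 : (4 * α + 4 * cp * (u * v) - 4 * cn * (u * v) + cp * (v - u) ^ 2) +
      (4 * (β - a) - 4 * cp * (u + v) + 4 * cn * (u + v)) * E ≤ m :=
    affine_max hE.1 hE.2 (by nlinarith) (by nlinarith)
  nlinarith [mul_nonneg hcn huv, mul_nonneg hcp (sq_nonneg (2 * E - u - v))]

/-! ## values at the nodes of the second table -/

section

variable {k r : ℕ}

theorem chord_sound {E L J : ℕ} (hL1 : 1 ≤ L) (hL2 : L ≤ 6) (g1 : rl L ≤ J) (g2 : J + 1 ≤ rh L)
    (g3 : 16384 * (J * J) ≤ k * k * E) (g4 : k * k * E ≤ 16384 * ((J + 1) * (J + 1))) {V0 V1 : ℝ}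
    (hV0 : ((t2D J : ℤ) : ℝ) * (16384 * J ^ 2) - ((t2F J : ℤ) : ℝ) + 2 ^ 39 ≤ V0)
    (hV1 : ((t2D (J + 1) : ℤ) : ℝ) * (16384 * ((J : ℝ) + 1) ^ 2) - ((t2F (J + 1) : ℤ) : ℝ) + 2 ^ 39 ≤ V1) :
    2 ^ 72 * nu ((k : ℝ) ^ 2 * ((E : ℝ) / 2 ^ 24)) ≤
      (V0 * ((16384 * ((J + 1) * (J + 1)) : ℕ) - (k * k * E : ℕ)) +
        V1 * ((k * k * E : ℕ) - (16384 * (J * J) : ℕ))) /
      ((16384 * ((J + 1) * (J + 1)) : ℕ) - (16384 * (J * J) : ℕ)) ∧ InL k L E := by
  have r1 : Ck.RL L ≤ J := by interval_cases L <;> exact g1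
  have r2 : J + 1 ≤ Ck.RH L := by interval_cases L <;> exact g2
  have s0 := Ck.spec2 hL1 hL2 r1 (by omega)
  have s1 := Ck.spec2 hL1 hL2 (J := J + 1) (by omega) r2
  have n0 := Ck.node_lobe hL1 hL2 r1 (by omega)
  have n1 := Ck.node_lobe hL1 hL2 (J := J + 1) (by omega) r2
  set y0 : ℕ := 16384 * (J * J) with hy0
  set y1 : ℕ := 16384 * ((J + 1) * (J + 1)) with hy1
  set Y : ℕ := k * k * E with hY
  have hy01 : y0 < y1 := by
    have hJJ : J * J < (J + 1) * (J + 1) := Nat.mul_self_lt_mul_self (Nat.lt_succ_self J)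
    exact Nat.mul_lt_mul_of_pos_left hJJ (by norm_num)
  have e0 : ((y0 : ℕ) : ℝ) = 2 ^ 24 * ((J : ℝ) / 32) ^ 2 := by rw [hy0]; push_cast; ring
  have e1 : ((y1 : ℕ) : ℝ) = 2 ^ 24 * (((J + 1 : ℕ) : ℝ) / 32) ^ 2 := by rw [hy1]; push_cast; ring
  have eY : (k : ℝ) ^ 2 * ((E : ℝ) / 2 ^ 24) = (Y : ℝ) / 2 ^ 24 := by rw [hY]; push_cast; ring
  have v0 : 2 ^ 72 * nu (((J : ℝ) / 32) ^ 2) ≤ (V0 : ℝ) := s0.2.2.2.trans hV0
  have v1 : 2 ^ 72 * nu ((((J + 1 : ℕ) : ℝ) / 32) ^ 2) ≤ (V1 : ℝ) := by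
    refine s1.2.2.2.trans (le_trans (le_of_eq ?_) hV1)
    push_cast
    ring
  set x0 := ((J : ℝ) / 32) ^ 2
  set x1 := (((J + 1 : ℕ) : ℝ) / 32) ^ 2
  have hY0 : (y0 : ℝ) ≤ Y := by exact_mod_cast g3
  have hY1 : (Y : ℝ) ≤ y1 := by exact_mod_cast g4
  have hd : (0 : ℝ) < (y1 : ℝ) - y0 := by
    have : (y0 : ℝ) < y1 := by exact_mod_cast hy01
    linarith
  have a0 : x0 = (y0 : ℝ) / 2 ^ 24 := by rw [e0]; ring
  have a1 : x1 = (y1 : ℝ) / 2 ^ 24 := by rw [e1]; ring
  refine ⟨?_, Nat.cast_nonneg _, fun h => by omega, fun _ => ⟨hL2, ?_, ?_⟩⟩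
  · have hconv := (nu_convex_lobe hL1).2 n0 n1
      (show 0 ≤ ((y1 : ℝ) - (Y : ℝ)) / ((y1 : ℝ) - (y0 : ℝ)) from div_nonneg (by linarith) hd.le)
      (show 0 ≤ ((Y : ℝ) - (y0 : ℝ)) / ((y1 : ℝ) - (y0 : ℝ)) from div_nonneg (by linarith) hd.le)
      (by field_simp; ring)
    simp only [smul_eq_mul] at hconv
    have ex : ((y1 : ℝ) - Y) / (y1 - y0) * x0 + ((Y : ℝ) - y0) / (y1 - y0) * x1 = (Y : ℝ) / 2 ^ 24 := by
      rw [a0, a1]
      field_simp
      ring
    rw [ex] at hconv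
    rw [eY]
    calc 2 ^ 72 * nu ((Y : ℝ) / 2 ^ 24)
        ≤ 2 ^ 72 * (((y1 : ℝ) - Y) / (y1 - y0) * nu x0 + ((Y : ℝ) - y0) / (y1 - y0) * nu x1) :=
          mul_le_mul_of_nonneg_left hconv (by positivity)
      _ = (((y1 : ℝ) - Y) * (2 ^ 72 * nu x0) + ((Y : ℝ) - y0) * (2 ^ 72 * nu x1)) / (y1 - y0) := by
          field_simp
      _ ≤ ((V0 : ℝ) * (y1 - Y) + V1 * (Y - y0)) / (y1 - y0) := by
          apply div_le_div_of_nonneg_right _ hd.le
          have m0 := mul_le_mul_of_nonneg_right v0 (sub_nonneg.2 hY1)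
          have m1 := mul_le_mul_of_nonneg_right v1 (sub_nonneg.2 hY0)
          rw [mul_comm ((y1 : ℝ) - (Y : ℝ)), mul_comm ((Y : ℝ) - (y0 : ℝ))]
          exact add_le_add m0 m1
  · rw [eY]
    refine lt_of_lt_of_le n0.1 ?_
    rw [a0]
    exact div_le_div_of_nonneg_right hY0 (by positivity)
  · rw [eY]
    refine lt_of_le_of_lt ?_ n1.2
    rw [a1]
    exact div_le_div_of_nonneg_right hY1 (by positivity)

theorem nuUp3_sound {E L J : ℕ} {pn : ℕ × ℕ} (hL1 : 1 ≤ L) (hL2 : L ≤ 6)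
    (h : nuUp3 (k * k * E) L J = some pn) :
    2 ^ 72 * nu ((k : ℝ) ^ 2 * ((E : ℝ) / 2 ^ 24)) ≤ (pn.1 : ℝ) - pn.2 ∧ InL k L E := by
  unfold nuUp3 at h
  simp only [fz_eq] at h
  cases hb : (Nat.ble (rl L) J && Nat.ble (J + 1) (rh L) && Nat.ble (16384 * (J * J)) (k * k * E) &&
      Nat.ble (k * k * E) (16384 * ((J + 1) * (J + 1))))
  · rw [hb, cond_false] at h
    cases h
  · rw [hb, cond_true] at h
    have hV := Option.some.inj h
    simp only [Bool.and_eq_true] at hb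
    obtain ⟨⟨⟨h1, h2⟩, h3⟩, h4⟩ := hb
    have g1 := ble_true h1
    have g2 := ble_true h2
    have g3 := ble_true h3
    have g4 := ble_true h4
    have hv : ∀ (J y : ℕ), ((t2D J : ℤ) : ℝ) * y - ((t2F J : ℤ) : ℝ) + 2 ^ 39 ≤
        ((n2D J * y + 19342813113834616551112704 - (4503599627370496 * y + n2F J) : ℕ) : ℝ) := by
      intro J y
      have e1 := t2D_real J
      have e2 := t2F_real J
      have h5 : n2D J * y + 19342813113834616551112704 ≤
          (n2D J * y + 19342813113834616551112704 - (4503599627370496 * y + n2F J)) +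
            (4503599627370496 * y + n2F J) := le_tsub_add
      have h6 : ((n2D J * y + 19342813113834616551112704 : ℕ) : ℝ) ≤
          (((n2D J * y + 19342813113834616551112704 - (4503599627370496 * y + n2F J)) +
            (4503599627370496 * y + n2F J) : ℕ) : ℝ) := by exact_mod_cast h5
      rw [Nat.cast_add (n2D J * y + 19342813113834616551112704 - (4503599627370496 * y + n2F J))] at h6
      set Z : ℝ := ((n2D J * y + 19342813113834616551112704 - (4503599627370496 * y + n2F J) : ℕ) : ℝ)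
      push_cast at h6
      rw [e1, e2]
      nlinarith
    have hc := chord_sound (k := k) (E := E) hL1 hL2 g1 g2 g3 g4
      (V0 := ((n2D J * (16384 * (J * J)) + 19342813113834616551112704 -
        (4503599627370496 * (16384 * (J * J)) + n2F J) : ℕ) : ℝ))
      (V1 := ((n2D (J + 1) * (16384 * ((J + 1) * (J + 1))) + 19342813113834616551112704 -
        (4503599627370496 * (16384 * ((J + 1) * (J + 1))) + n2F (J + 1)) : ℕ) : ℝ))
      (by
        have := hv J (16384 * (J * J))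
        refine le_trans (le_of_eq ?_) this
        push_cast
        ring)
      (by
        have := hv (J + 1) (16384 * ((J + 1) * (J + 1)))
        refine le_trans (le_of_eq ?_) this
        push_cast
        ring)
    refine ⟨hc.1.trans ?_, hc.2⟩
    rw [← hV]
    generalize n2D J * (16384 * (J * J)) + 19342813113834616551112704 -
        (4503599627370496 * (16384 * (J * J)) + n2F J) = V0
    generalize n2D (J + 1) * (16384 * ((J + 1) * (J + 1))) + 19342813113834616551112704 -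
        (4503599627370496 * (16384 * ((J + 1) * (J + 1))) + n2F (J + 1)) = V1
    have hy01 : 16384 * (J * J) < 16384 * ((J + 1) * (J + 1)) :=
      Nat.mul_lt_mul_of_pos_left (Nat.mul_self_lt_mul_self (Nat.lt_succ_self J)) (by norm_num)
    generalize 16384 * (J * J) = y0 at *
    generalize 16384 * ((J + 1) * (J + 1)) = y1 at *
    generalize k * k * E = Y at *
    have hd : 0 < y1 - y0 := by omega
    have h8 := Nat.lt_div_mul_add (a := V0 * (y1 - Y) + V1 * (Y - y0)) hd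
    generalize (V0 * (y1 - Y) + V1 * (Y - y0)) / (y1 - y0) = q at *
    have h9 : ((V0 * (y1 - Y) + V1 * (Y - y0) : ℕ) : ℝ) < ((q * (y1 - y0) + (y1 - y0) : ℕ) : ℝ) := by
      exact_mod_cast h8
    push_cast [Nat.cast_sub g4, Nat.cast_sub g3, Nat.cast_sub hy01.le] at h9
    have hd' : (0 : ℝ) < (y1 : ℝ) - y0 := by
      have : (y0 : ℝ) < y1 := by exact_mod_cast hy01
      linarith
    rw [div_le_iff₀ hd']
    push_cast
    linarith

theorem nuUp2_sound {E L J : ℕ} {pn : ℕ × ℕ} (hL1 : 1 ≤ L) (hL2 : L ≤ 6)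
    (h : nuUp2 (k * k * E) L J = some pn) :
    2 ^ 72 * nu ((k : ℝ) ^ 2 * ((E : ℝ) / 2 ^ 24)) ≤ (pn.1 : ℝ) - pn.2 ∧ InL k L E := by
  unfold nuUp2 at h
  cases h1 : nuUp3 (k * k * E) L J with
  | some v =>
    rw [h1] at h
    simp only at h
    exact nuUp3_sound hL1 hL2 (h1.trans h)
  | none =>
    rw [h1] at h
    simp only at h
    cases h2 : nuUp3 (k * k * E) L (J + 1) with
    | some v =>
      rw [h2] at h
      simp only at h
      exact nuUp3_sound hL1 hL2 (h2.trans h)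
    | none =>
      rw [h2] at h
      simp only at h
      exact nuUp3_sound hL1 hL2 h

theorem upPair_val {j E : ℕ} (hj : 0 < j) (hE : 0 < E) (hEj : E ≤ 256 * (j * j)) :
    (((upPair k r j E).1 : ℕ) : ℝ) - (((upPair k r j E).2 : ℕ) : ℝ) = ((fUp k r j E : ℤ) : ℝ) := by
  have e : fUp k r j E = sD k r j * (E : ℤ) - sF k r j + 2199023255552 +
      sMu k r j * (((nd j - E) ^ 2 : ℕ) : ℤ) := by
    unfold fUp
    rw [beq_zero_pos hE]
    rfl
  rw [e]
  have hn : nd j = 256 * (j * j) := rfl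
  unfold upPair
  rw [fz_eq, hn]
  push_cast [Nat.cast_sub hEj]
  rw [Ck.sD_real, Ck.sF_real k r hj, Ck.sMu_real]
  ring

theorem nuUp_sound {E j L : ℕ} {pn : ℕ × ℕ} (hk : 1 ≤ k) (hrk : r ≤ k) (hL : L ≤ 6)
    (h : nuUp k r E j L = some pn) :
    2 ^ 72 * FF k r ((E : ℝ) / 2 ^ 24) ≤ (pn.1 : ℝ) - pn.2 ∧ InL k L E ∧ (r = 0 ∨ L = 0) := by
  unfold nuUp at h
  cases L with
  | zero =>
    simp only at h
    rcases Nat.eq_zero_or_pos E with hE | hE
    · subst hE
      have hb : Nat.beq 0 0 = true := rfl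
      rw [hb, cond_true] at h
      rw [← Option.some.inj h]
      refine ⟨by simp [FF_zero], ⟨le_rfl.trans (by simp), fun _ => by simp, fun h => by omega⟩, Or.inr rfl⟩
    · rw [beq_zero_pos hE, cond_false, fz_eq] at h
      set jj := (bif Nat.ble E (256 * (j * j)) then j else j + 1) with hjj
      cases hb : (Nat.ble (k * jj) 790 && Nat.ble E (256 * (jj * jj)))
      · rw [hb, cond_false] at h
        cases h
      · rw [hb, cond_true] at h
        rw [Bool.and_eq_true] at hb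
        have g1 := ble_true hb.1
        have g2 := ble_true hb.2
        have hj0 : 0 < jj := by
          rcases Nat.eq_zero_or_pos jj with h0 | h0
          · rw [h0] at g2
            omega
          · exact h0
        have hf := Ck.fUp_sound (r := r) hk hrk g1 (E := E) g2
        rw [← Option.some.inj h]
        have hp := upPair_val (k := k) (r := r) hj0 hE g2
        rw [hp]
        refine ⟨hf, ⟨Nat.cast_nonneg _, fun _ => ?_, fun h => by omega⟩, Or.inr rfl⟩
        have h3 : k * k * (256 * (jj * jj)) ≤ 256 * (790 * 790) := by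
          calc k * k * (256 * (jj * jj)) = 256 * ((k * jj) * (k * jj)) := by ring
            _ ≤ 256 * (790 * 790) := Nat.mul_le_mul_left _ (Nat.mul_le_mul g1 g1)
        have h4 : k * k * E ≤ 256 * (790 * 790) := (Nat.mul_le_mul_left _ g2).trans h3
        have h5 : ((k * k * E : ℕ) : ℝ) ≤ ((256 * (790 * 790) : ℕ) : ℝ) := by exact_mod_cast h4
        push_cast at h5
        nlinarith
  | succ L' =>
    simp only at h
    cases hr0 : Nat.beq r 0
    · rw [hr0, cond_false] at h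
      cases h
    · rw [hr0, cond_true] at h
      have hr := beq_true hr0
      subst hr
      have h1 := nuUp2_sound (k := k) (L := L' + 1) (by omega) hL h
      exact ⟨by rw [Ck.FF_zero_r]; exact h1.1, h1.2, Or.inl rfl⟩

/-- the value of `wHi` -/
theorem wHi_ge (p n ap an cp cn u h : ℕ) :
    4 * (((p : ℝ) - n) - ((ap : ℝ) - an) * u) - 4 * cp * (u : ℝ) ^ 2 + 4 * cn * (u : ℝ) ^ 2 + cp * (h : ℝ) ≤
      (wHi p n ap an cp cn u h : ℝ) - OFF := by
  have e : wHi p n ap an cp cn u h = (4 * (p + an * u) + 4 * (cn * (u * u)) + cp * h + OFF) -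
      (4 * (n + ap * u) + 4 * (cp * (u * u))) := rfl
  have h2 : 4 * (p + an * u) + 4 * (cn * (u * u)) + cp * h + OFF ≤
      wHi p n ap an cp cn u h + (4 * (n + ap * u) + 4 * (cp * (u * u))) := by
    rw [e]; exact le_tsub_add
  have h3 : ((4 * (p + an * u) + 4 * (cn * (u * u)) + cp * h + OFF : ℕ) : ℝ) ≤
      ((wHi p n ap an cp cn u h + (4 * (n + ap * u) + 4 * (cp * (u * u))) : ℕ) : ℝ) := by
    exact_mod_cast h2
  generalize wHi p n ap an cp cn u h = W at *
  push_cast at h3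
  nlinarith

/-- the meaning of an upper cell bound -/
def QW (k r : ℕ) (nu : Bool) (L : ℕ) (a c E w : ℝ) : Prop :=
  match nu with
  | true => 2 ^ 72 * FF k r (E / 2 ^ 24) ≤ a * E + c * E ^ 2 + w ∧ InL k L E ∧ (r = 0 ∨ L = 0)
  | false => 0 ≤ a * E + c * E ^ 2 + w

theorem QW.mono {k r : ℕ} {nu : Bool} {L : ℕ} {a c E w w' : ℝ} (h : QW k r nu L a c E w) (hw : w ≤ w') :
    QW k r nu L a c E w' := by
  cases nu
  · change 0 ≤ a * E + c * E ^ 2 + w'
    change 0 ≤ a * E + c * E ^ 2 + w at h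
    linarith
  · exact ⟨h.1.trans (by linarith), h.2⟩

/-- the meaning of the end value -/
def VW (k r : ℕ) (nu : Bool) (L : ℕ) (u p n : ℕ) : Prop :=
  match nu with
  | true => 2 ^ 72 * FF k r ((u : ℝ) / 2 ^ 24) ≤ (p : ℝ) - n ∧ InL k L u ∧ (r = 0 ∨ L = 0)
  | false => p = 0 ∧ n = 0

theorem endVal_sound {nu : Bool} {L u j p n : ℕ} (hk : 1 ≤ k) (hrk : r ≤ k) (hL : L ≤ 6)
    (h : (bif nu then nuUp k r u j L else some (0, 0)) = some (p, n)) : VW k r nu L u p n := by
  cases nu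
  · rw [cond_false] at h
    have := Option.some.inj h
    exact ⟨(Prod.mk.inj this).1.symm, (Prod.mk.inj this).2.symm⟩
  · rw [cond_true] at h
    exact nuUp_sound hk hrk hL h

theorem subHi_sound {nu : Bool} {ap an cp cn L u v p n p' n' W : ℕ} (hk : 1 ≤ k) (hrk : r ≤ k)
    (hu : VW k r nu L u p n) (hv : VW k r nu L v p' n') {E : ℝ} (hE : E ∈ Icc (u : ℝ) v)
    (h1 : wHi p n ap an cp cn u ((v - u) * (v - u)) ≤ W)
    (h2 : wHi p' n' ap an cp cn v ((v - u) * (v - u)) ≤ W) :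
    QW k r nu L ((ap : ℝ) - an) ((cp : ℝ) - cn) E (((W : ℝ) - OFF) / 4) := by
  have huv' : (u : ℝ) ≤ v := hE.1.trans hE.2
  have huv : u ≤ v := by exact_mod_cast huv'
  have g1 := wHi_ge p n ap an cp cn u ((v - u) * (v - u))
  have g2 := wHi_ge p' n' ap an cp cn v ((v - u) * (v - u))
  have eh : (((v - u) * (v - u) : ℕ) : ℝ) = ((v : ℝ) - u) ^ 2 := by
    push_cast [Nat.cast_sub huv]
    ring
  rw [eh] at g1 g2
  have h1' : ((wHi p n ap an cp cn u ((v - u) * (v - u)) : ℕ) : ℝ) ≤ W := by exact_mod_cast h1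
  have h2' : ((wHi p' n' ap an cp cn v ((v - u) * (v - u)) : ℕ) : ℝ) ≤ W := by exact_mod_cast h2
  cases nu
  · obtain ⟨hp, hn⟩ := hu
    obtain ⟨hp', hn'⟩ := hv
    rw [hp, hn] at g1 h1'
    rw [hp', hn'] at g2 h2'
    have := quad_hi (u := (u : ℝ)) (v := v) (a := (ap : ℝ) - an) (cp := cp) (cn := cn) (m := (W : ℝ) - OFF)
      (E := E) (g := 0) (vu := 0) (vv := 0) (α := 0) (β := 0) (Nat.cast_nonneg _) (Nat.cast_nonneg _) hE
      (by simp) (by simp) (by simp) (by push_cast at g1; linarith) (by push_cast at g2; linarith)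
    change 0 ≤ ((ap : ℝ) - an) * E + ((cp : ℝ) - cn) * E ^ 2 + ((W : ℝ) - OFF) / 4
    linarith
  · obtain ⟨f1, l1, o1⟩ := hu
    obtain ⟨f2, l2, o2⟩ := hv
    have hin : ∀ E ∈ Icc (u : ℝ) v, InL k L E := fun E hE => InL_between l1 l2 hE
    obtain ⟨α, β, a1, a2, a3⟩ := conv_line huv' (Ck.G_convex hk hrk o1 hin) f1 f2 hE
    have := quad_hi (u := (u : ℝ)) (v := v) (a := (ap : ℝ) - an) (cp := cp) (cn := cn) (m := (W : ℝ) - OFF)
      (Nat.cast_nonneg _) (Nat.cast_nonneg _) hE a1 a2 a3 (by linarith) (by linarith)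
    refine ⟨?_, hin E hE, o1⟩
    linarith

theorem cellHiGo_sound {x : Cell} {ap an cp cn L q : ℕ} (hk : 1 ≤ k) (hrk : r ≤ k) (hL : L ≤ 6)
    {W : ℕ} {E : ℝ} :
    ∀ (m i u p n acc : ℕ), cellHiGo k r x ap an cp cn L q m i u p n acc = some W →
      VW k r x.nu L u p n →
      acc ≤ W ∧ (1 ≤ m → E ∈ Icc (u : ℝ) ((bnd x q (i + m)).1 : ℝ) →
        QW k r x.nu L ((ap : ℝ) - an) ((cp : ℝ) - cn) E (((W : ℝ) - OFF) / 4))
  | 0, i, u, p, n, acc, h, _ => ⟨(Option.some.inj h).le, fun h0 => by omega⟩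
  | m + 1, i, u, p, n, acc, h, hV => by
    rw [cellHiGo] at h
    have hb : bnd x q (i + 1) = ((bnd x q (i + 1)).1, (bnd x q (i + 1)).2) := rfl
    rw [hb] at h
    simp only [fz_eq] at h
    set v := (bnd x q (i + 1)).1 with hv
    set jv := (bnd x q (i + 1)).2 with hjv
    cases hz : (bif x.nu then nuUp k r v jv L else some (0, 0)) with
    | none =>
      rw [hz] at h
      cases h
    | some pn =>
      obtain ⟨p', n'⟩ := pn
      rw [hz] at h
      simp only at h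
      have hV' := endVal_sound hk hrk hL hz
      have hrec := cellHiGo_sound (E := E) hk hrk hL m (i + 1) v p' n' _ h hV'
      have e : i + (m + 1) = i + 1 + m := by ring
      have hacc := hrec.1
      rw [nmax_eq, nmax_eq, max_le_iff, max_le_iff] at hacc
      refine ⟨hacc.1, fun _ hE => ?_⟩
      rcases le_or_gt E (v : ℝ) with hEv | hEv
      · exact subHi_sound hk hrk hV hV' ⟨hE.1, hEv⟩ hacc.2.1 hacc.2.2
      · -- beyond `v`
        rw [e] at hE
        rcases Nat.eq_zero_or_pos m with hn | hn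
        · subst hn
          have := hE.2
          rw [Nat.add_zero, ← hv] at this
          linarith
        · exact hrec.2 hn ⟨hEv.le, hE.2⟩

theorem cellHi_sound {x : Cell} {a c w : ℤ} {L : ℕ} (hk : 1 ≤ k) (hrk : r ≤ k) (hL : L ≤ 6)
    (h : cellHi k r x a c L = some w) {E : ℝ}
    (hE : E ∈ Icc ((25 * x.lo : ℕ) : ℝ) ((25 * x.hi : ℕ) : ℝ)) : QW k r x.nu L a c E w := by
  unfold cellHi at h
  simp only [fz_eq] at h
  have hq := nsub_pos (k := k) x
  set q := nsub k x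
  cases hz : (bif x.nu then nuUp k r (25 * x.lo) x.jl L else some (0, 0)) with
  | none =>
    rw [hz] at h
    cases h
  | some pn =>
    obtain ⟨p, n⟩ := pn
    rw [hz] at h
    simp only at h
    have hV := endVal_sound hk hrk hL hz
    cases hW : cellHiGo k r x a.toNat (-a).toNat c.toNat (-c).toNat L q q 0 (25 * x.lo) p n 0 with
    | none =>
      rw [hW] at h
      cases h
    | some W =>
      rw [hW] at h
      simp only at h
      have h1 := (cellHiGo_sound (E := E) hk hrk hL q 0 (25 * x.lo) p n 0 hW hV).2 hq (by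
        rw [Nat.zero_add, bnd_last x hq]
        exact hE)
      rw [toNat_sub, toNat_sub] at h1
      refine h1.mono ?_
      rw [← Option.some.inj h, Int.subNatNat_eq_coe]
      have h2 := cdv_real ((W : ℤ) - (OFF : ℤ)) (b := 4) (by norm_num)
      push_cast at h2 ⊢
      exact h2

end

end Pool.Agent.H60.SC
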