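import Pool.Agent.H60.SC.Basic
import Pool.Agent.H60.SL.CkCell

/-!
# Soundness of the lower cell bounds
-/

set_option autoImplicit false

open Set

namespace Pool.Agent.H60.SC

open Pool.Agent.H60.SL
open Pool.Agent.H60.SL.Ck (nn le ex t1D t1F t1M t2D t2F expU expL nd sD sF sM sMu fLo fUp PLt PHt rl rh
  lowT1 lowT2 lowT3 lowT3L upT1 upT2 upT3 look64 look96 tabT2D tabT2F LB UB zE nn_iff le_iff le_real nn_real
  beq_zero_pos LB_of_nu LB_of_FF tan_lobe lobe_lo lobe_hi affine_min)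
open Pool.Agent.H61.SC

/-- the line of a tangent record -/
noncomputable def tgL (T : Tg) (E : ℝ) : ℝ := ((T.dp : ℝ) - T.dn) * E - ((T.fp : ℝ) - T.fn)

theorem tgConst_val (v : ℤ) (E : ℝ) : tgL (tgConst v) E = v := by
  cases v with
  | ofNat m => simp [tgConst, tgL]
  | negSucc m =>
    simp only [tgConst, tgL, Int.cast_negSucc]
    push_cast
    ring

theorem clamp_mem {L : ℕ} (hL : 1 ≤ L) (J : ℕ) :
    rl L ≤ nmin (nmax J (rl L)) (rh L) ∧ nmin (nmax J (rl L)) (rh L) ≤ rh L := by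
  rw [nmin_eq, nmax_eq]
  have : rl L ≤ rh L := by
    unfold rl rh
    rcases L with _ | _ | _ | _ | _ | _ | _ <;> simp_all
  omega

section

variable {k r : ℕ}

/-- tangent in lobe `L ≥ 1` -/
theorem tanL_sound {u v L J : ℕ} (hL1 : 1 ≤ L) (hL2 : L ≤ 6)
    (h1 : PLt L ≤ k * k * u) (h2 : k * k * v ≤ PHt (L + 1)) (hJ1 : rl L ≤ J) (hJ2 : J ≤ rh L)
    {E : ℝ} (hE : E ∈ Icc (u : ℝ) v) :
    LB k 0 E ((k : ℝ) * k * ((t2D J : ℤ) : ℝ) * E - ((t2F J : ℤ) : ℝ)) := by
  have hE0 : 0 ≤ E := le_trans (Nat.cast_nonneg _) hE.1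
  refine LB_of_nu hE0 fun _ => ?_
  have hb : Nat.beq L 0 = false := beq_zero_pos hL1
  have h3 := tan_lobe (k := k) (L := L) (J := J) hL2 hJ1 hJ2 hE0
    (Or.inr (lobe_lo (by omega) h1 hE.1)) (by
      have := lobe_hi (L := L + 1) (by omega) (by omega) h2 hE.2
      push_cast at this
      exact this)
  have e1 : Ck.tD k L J = ((k * k : ℕ) : ℤ) * t2D J := by unfold Ck.tD; rw [hb]; rfl
  have e2 : Ck.tF L J = t2F J := by unfold Ck.tF; rw [hb]; rfl
  rw [e1, e2] at h3
  push_cast at h3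
  exact h3

/-- across the zero `b` -/
theorem zero_sound {u v b J1 J2 : ℕ} (hb1 : 1 ≤ b) (hb2 : b ≤ 2)
    (h1 : b = 1 ∨ PLt (b - 1) ≤ k * k * u) (h2 : k * k * v ≤ PHt (b + 1))
    (hJ1 : (b = 1 ∧ J1 ≤ 790) ∨ (b ≠ 1 ∧ rl (b - 1) ≤ J1 ∧ J1 ≤ rh (b - 1) ∧ 0 ≤ t2D J1))
    (hJ2 : rl b ≤ J2 ∧ J2 ≤ rh b ∧ t2D J2 ≤ 0)
    {E V : ℝ} (hE : E ∈ Icc (u : ℝ) v)
    (hV1 : V ≤ if b = 1 then (k : ℝ) * k * u * t1D J1 - t1F J1
      else (k : ℝ) * k * u * ((t2D J1 : ℤ) : ℝ) - ((t2F J1 : ℤ) : ℝ))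
    (hV2 : V ≤ (k : ℝ) * k * v * ((t2D J2 : ℤ) : ℝ) - ((t2F J2 : ℤ) : ℝ)) :
    LB k 0 E V := by
  have hE0 : 0 ≤ E := le_trans (Nat.cast_nonneg _) hE.1
  have hhi := lobe_hi (L := b + 1) (by omega) (by omega) h2 hE.2
  push_cast at hhi
  rcases lt_trichotomy ((k : ℝ) ^ 2 * (E / 2 ^ 24)) (((b : ℝ) * Real.pi) ^ 2) with h | h | h
  · -- left of the zero
    refine LB_of_nu hE0 fun _ => hV1.trans ?_
    rcases Nat.lt_or_ge b 2 with hb | hb
    · have hb' : b = 1 := by omega
      subst hb'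
      rw [if_pos rfl]
      have hJ : J1 ≤ 790 := by
        rcases hJ1 with h9 | h9
        · exact h9.2
        · exact absurd rfl h9.1
      have h3 := tan_lobe (k := k) (L := 0) (J := J1) (by omega) (Nat.zero_le _) hJ hE0
        (Or.inl rfl) (by simpa using h)
      have e2 : Ck.tD k 0 J1 = ((k * k * t1D J1 : ℕ) : ℤ) := rfl
      have e3 : Ck.tF 0 J1 = ((t1F J1 : ℕ) : ℤ) := rfl
      rw [e2, e3] at h3
      push_cast at h3
      have h4 : (0 : ℝ) ≤ (k : ℝ) * k * t1D J1 := by positivity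
      have h5 := mul_le_mul_of_nonneg_left hE.1 h4
      linarith
    · have hb' : b = 2 := by omega
      subst hb'
      rw [if_neg (by norm_num)]
      obtain ⟨-, g1, g2, g3⟩ : (2 : ℕ) ≠ 1 ∧ rl (2 - 1) ≤ J1 ∧ J1 ≤ rh (2 - 1) ∧ 0 ≤ t2D J1 := by
        rcases hJ1 with h9 | h9
        · exact absurd h9.1 (by norm_num)
        · exact h9
      have g3' : (0 : ℝ) ≤ ((t2D J1 : ℤ) : ℝ) := by exact_mod_cast g3
      have hlo : ((((2 - 1 : ℕ)) : ℝ) * Real.pi) ^ 2 < (k : ℝ) ^ 2 * (E / 2 ^ 24) := by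
        rcases h1 with h9 | h9
        · omega
        · exact lobe_lo (by omega) h9 hE.1
      have h3 := tan_lobe (k := k) (L := 2 - 1) (J := J1) (by omega) g1 g2 hE0
        (Or.inr hlo) (by
          have : (((2 - 1 : ℕ) : ℝ) + 1) = ((2 : ℕ) : ℝ) := by norm_num
          rw [this]
          exact h)
      have e2 : Ck.tD k (2 - 1) J1 = ((k * k : ℕ) : ℤ) * t2D J1 := rfl
      have e3 : Ck.tF (2 - 1) J1 = t2F J1 := rfl
      rw [e2, e3] at h3
      push_cast at h3
      have h4 : (0 : ℝ) ≤ (k : ℝ) * k * ((t2D J1 : ℤ) : ℝ) := by positivity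
      have h5 := mul_le_mul_of_nonneg_left hE.1 h4
      linarith
  · -- at the zero
    exact LB_of_nu hE0 fun h9 => absurd (Ck.sinc_zero_of hb1 hE0 h) h9
  · -- right of the zero
    refine LB_of_nu hE0 fun _ => hV2.trans ?_
    have hbq : Nat.beq b 0 = false := beq_zero_pos hb1
    obtain ⟨g1, g2, g3⟩ := hJ2
    have g3' : ((t2D J2 : ℤ) : ℝ) ≤ 0 := by exact_mod_cast g3
    have h3 := tan_lobe (k := k) (L := b) (J := J2) (by omega) g1 g2 hE0 (Or.inr h) hhi
    have e2 : Ck.tD k b J2 = ((k * k : ℕ) : ℤ) * t2D J2 := by unfold Ck.tD; rw [hbq]; rfl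
    have e3 : Ck.tF b J2 = t2F J2 := by unfold Ck.tF; rw [hbq]; rfl
    rw [e2, e3] at h3
    push_cast at h3
    have h4 : (k : ℝ) * k * ((t2D J2 : ℤ) : ℝ) ≤ 0 :=
      mul_nonpos_of_nonneg_of_nonpos (by positivity) g3'
    have h5 := mul_le_mul_of_nonpos_left hE.2 h4
    linarith

/-- beyond the first lobe; `L`, `b` are guesses -/
theorem big_sound {u v ju jv J0 L b : ℕ} {rho : ℤ} {T : Tg} {E : ℝ} (hE : E ∈ Icc (u : ℝ) v)
    (hdef : some (tgConst (rho + (lK k : ℤ))) = some T → LB k 0 E (tgL T E))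
    (h : (bif Nat.ble 1 L && Nat.ble L 2 && Nat.ble (PLt L) (k * k * u) && Nat.ble (k * k * v) (PHt (L + 1)) then
        some (Tg.mk (k * k * n2D (nmin (nmax J0 (rl L)) (rh L))) (k * k * 4503599627370496)
          (n2F (nmin (nmax J0 (rl L)) (rh L))) 19342813113834066795298816)
      else
        bif Nat.ble 1 b && Nat.ble b 2 && (Nat.beq b 1 || Nat.ble (PLt (b - 1)) (k * k * u)) &&
            Nat.ble (k * k * v) (PHt (b + 1)) &&
            (Nat.beq b 1 || le 0 (t2D (bif Nat.beq b 1 then nmin (k * ju) 790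
              else nmin (nmax ((k * ju + 4) / 8) (rl (b - 1))) (rh (b - 1))))) &&
            le (t2D (nmin (nmax ((k * jv + 4) / 8) (rl b)) (rh b))) 0 then
          some (tgConst (imin
            (bif Nat.beq b 1 then ((k * k * u * t1D (bif Nat.beq b 1 then nmin (k * ju) 790
              else nmin (nmax ((k * ju + 4) / 8) (rl (b - 1))) (rh (b - 1))) : Nat) : Int) -
                (t1F (bif Nat.beq b 1 then nmin (k * ju) 790
              else nmin (nmax ((k * ju + 4) / 8) (rl (b - 1))) (rh (b - 1))) : Nat)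
              else (k * k * u : Nat) * t2D (bif Nat.beq b 1 then nmin (k * ju) 790
              else nmin (nmax ((k * ju + 4) / 8) (rl (b - 1))) (rh (b - 1))) -
                t2F (bif Nat.beq b 1 then nmin (k * ju) 790
              else nmin (nmax ((k * ju + 4) / 8) (rl (b - 1))) (rh (b - 1))))
            ((k * k * v : Nat) * t2D (nmin (nmax ((k * jv + 4) / 8) (rl b)) (rh b)) -
              t2F (nmin (nmax ((k * jv + 4) / 8) (rl b)) (rh b)))))
        else some (tgConst (rho + lK k))) = some T) :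
    LB k 0 E (tgL T E) := by
  cases h2 : (Nat.ble 1 L && Nat.ble L 2 && Nat.ble (PLt L) (k * k * u) &&
      Nat.ble (k * k * v) (PHt (L + 1)))
  · rw [h2, cond_false] at h
    set J1 := (bif Nat.beq b 1 then nmin (k * ju) 790
      else nmin (nmax ((k * ju + 4) / 8) (rl (b - 1))) (rh (b - 1))) with hJ1def
    set J2 := nmin (nmax ((k * jv + 4) / 8) (rl b)) (rh b) with hJ2def
    cases h3 : (Nat.ble 1 b && Nat.ble b 2 && (Nat.beq b 1 || Nat.ble (PLt (b - 1)) (k * k * u)) &&
      Nat.ble (k * k * v) (PHt (b + 1)) && (Nat.beq b 1 || le 0 (t2D J1)) && le (t2D J2) 0)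
    · rw [h3, cond_false] at h
      exact hdef h
    · rw [h3, cond_true] at h
      rw [← Option.some.inj h, tgConst_val]
      simp only [Bool.and_eq_true, Bool.or_eq_true] at h3
      obtain ⟨⟨⟨⟨⟨c1, c2⟩, c3⟩, c4⟩, c5⟩, c6⟩ := h3
      have hb1 := ble_true c1
      have hb2 := ble_true c2
      have hJ2m := clamp_mem hb1 ((k * jv + 4) / 8)
      rw [imin_eq]
      refine zero_sound (J1 := J1) (J2 := J2) hb1 hb2
        (c3.imp beq_true ble_true) (ble_true c4) ?_ ⟨hJ2m.1, hJ2m.2, le_iff.1 c6⟩ hE ?_ ?_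
      · rcases Nat.lt_or_ge b 2 with hb | hb
        · left
          have hb' : b = 1 := by omega
          refine ⟨hb', ?_⟩
          rw [hJ1def, hb']
          change nmin (k * ju) 790 ≤ 790
          rw [nmin_eq]
          omega
        · right
          have hb' : b = 2 := by omega
          have hbq : Nat.beq b 1 = false := by rw [hb']; rfl
          rw [hbq] at c5
          have c5' : le 0 (t2D J1) = true := by
            rcases c5 with h9 | h9
            · cases h9
            · exact h9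
          have hJ1e : J1 = nmin (nmax ((k * ju + 4) / 8) (rl (b - 1))) (rh (b - 1)) := by
            rw [hJ1def, hbq]; rfl
          have hm := clamp_mem (L := b - 1) (by omega) ((k * ju + 4) / 8)
          rw [← hJ1e] at hm
          exact ⟨by omega, hm.1, hm.2, le_iff.1 c5'⟩
      · have hle := min_le_left (bif Nat.beq b 1 then ((k * k * u * t1D J1 : ℕ) : ℤ) - ((t1F J1 : ℕ) : ℤ)
            else ((k * k * u : ℕ) : ℤ) * t2D J1 - t2F J1) (((k * k * v : ℕ) : ℤ) * t2D J2 - t2F J2)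
        refine (Int.cast_le.2 hle).trans ?_
        rcases Nat.lt_or_ge b 2 with hb | hb
        · have hb' : b = 1 := by omega
          have hbq : Nat.beq b 1 = true := by rw [hb']; rfl
          rw [hbq, cond_true, if_pos hb']
          push_cast
          linarith
        · have hb' : b = 2 := by omega
          have hbq : Nat.beq b 1 = false := by rw [hb']; rfl
          rw [hbq, cond_false, if_neg (by omega)]
          push_cast
          linarith
      · have hle := min_le_right (bif Nat.beq b 1 then ((k * k * u * t1D J1 : ℕ) : ℤ) - ((t1F J1 : ℕ) : ℤ)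
            else ((k * k * u : ℕ) : ℤ) * t2D J1 - t2F J1) (((k * k * v : ℕ) : ℤ) * t2D J2 - t2F J2)
        refine (Int.cast_le.2 hle).trans ?_
        push_cast
        linarith
  · rw [h2, cond_true] at h
    set J := nmin (nmax J0 (rl L)) (rh L) with hJdef
    simp only [Bool.and_eq_true] at h2
    obtain ⟨⟨⟨c1, c2⟩, c3⟩, c4⟩ := h2
    have hL1 := ble_true c1
    have hL2 := ble_true c2
    have hm := clamp_mem hL1 J0
    have h4 := tanL_sound hL1 (by omega) (ble_true c3) (ble_true c4) hm.1 hm.2 hE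
    rw [← Option.some.inj h]
    refine h4.mono (le_of_eq ?_)
    rw [← hJdef, t2D_real, t2F_real]
    unfold tgL
    push_cast
    ring

theorem subTan_sound {u v ju jv : ℕ} {rho : ℤ} (hk : 1 ≤ k) (hrk : r ≤ k) {T : Tg}
    (h : subTan k r u v ju jv rho = some T) {E : ℝ} (hE : E ∈ Icc (u : ℝ) v)
    (hd : LB k 0 E ((rho : ℝ) + lK k)) : LB k r E (tgL T E) := by
  have hE0 : 0 ≤ E := le_trans (Nat.cast_nonneg _) hE.1
  have hdef : ∀ T : Tg, some (tgConst (rho + (lK k : ℤ))) = some T → r = 0 → LB k r E (tgL T E) := by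
    intro T hT hr
    rw [← Option.some.inj hT, tgConst_val, hr]
    push_cast
    exact hd
  unfold subTan at h
  cases h0 : Nat.ble (k * k * v) 159769600
  · rw [h0, cond_false] at h
    cases hr0 : Nat.beq r 0
    · rw [hr0, cond_false] at h
      cases h
    · rw [hr0, cond_true] at h
      have hr : r = 0 := beq_true hr0
      cases h1 : Nat.ble (k * k * v) 1490260362
      · rw [h1, cond_false] at h
        exact hdef T h hr
      · rw [h1, cond_true] at h
        simp only [fz_eq] at h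
        subst hr
        exact big_sound hE (fun h9 => hdef T h9 rfl) h
  · rw [h0, cond_true] at h
    have hkE : (k : ℝ) ^ 2 * E ≤ 159769600 := Ck.kkE h0 hE.2
    cases hr0 : Nat.beq r 0
    · rw [hr0, cond_false] at h
      simp only [fz_eq] at h
      set j := nmin ((ju + jv) / 2) (790 / k) with hjdef
      have hj : k * j ≤ 790 := by
        rw [hjdef, nmin_eq]
        calc k * min ((ju + jv) / 2) (790 / k) ≤ k * (790 / k) :=
              Nat.mul_le_mul_left k (min_le_right _ _)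
          _ ≤ 790 := Nat.mul_div_le _ _
      have hmain : LB k r E (((sD k r j : ℤ) : ℝ) * E - ((sF k r j : ℤ) : ℝ)) := by
        refine LB_of_FF hrk hE0 (Ck.lt_pi_sq (Ck.E_lt hkE)) ?_
        refine (Ck.tan_bounds hrk hj hE0 (by linarith)).1.trans ?_
        refine mul_le_mul_of_nonneg_left ?_ (by positivity)
        exact (PS_FF hk hrk).tangent (by positivity) (Ck.lt_R hk (Ck.node_lt hj)) (by positivity)
          (Ck.lt_R hk (Ck.E_lt hkE))
      cases hj0 : Nat.beq j 0
      · rw [hj0, cond_false] at h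
        have hjp : 0 < j := Nat.pos_of_ne_zero (beq_false hj0)
        rw [← Option.some.inj h]
        refine hmain.mono (le_of_eq ?_)
        rw [Ck.sD_real, Ck.sF_real k r hjp]
        unfold tgL
        push_cast
        ring
      · rw [hj0, cond_true] at h
        have hje : j = 0 := beq_true hj0
        rw [← Option.some.inj h]
        refine hmain.mono (le_of_eq ?_)
        rw [hje, Ck.sD_real, Ck.sF_zero]
        unfold tgL
        push_cast
        simp only [Nat.mul_zero]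
        ring
    · rw [hr0, cond_true] at h
      have hr : r = 0 := beq_true hr0
      simp only [fz_eq] at h
      set J := nmin (k * ((ju + jv) / 2)) 790 with hJdef
      have hJ : J ≤ 790 := by rw [hJdef, nmin_eq]; omega
      rw [← Option.some.inj h, hr]
      have h3 := tan_lobe (k := k) (L := 0) (J := J) (by omega)
        (Nat.zero_le _) hJ hE0 (Or.inl rfl) (by
          have := Ck.lt_pi_sq (Ck.E_lt (k := k) hkE)
          simpa using this)
      refine LB_of_nu hE0 fun _ => le_trans (le_of_eq ?_) h3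
      have e2 : Ck.tD k 0 J = ((k * k * t1D J : ℕ) : ℤ) := rfl
      have e3 : Ck.tF 0 J = ((t1F J : ℕ) : ℤ) := rfl
      rw [e2, e3]
      unfold tgL
      push_cast
      ring

end

/-- the quadratic lower bound on one subcell -/
theorem quad_lo {u v d a f cp cn m E : ℝ} (hcp : 0 ≤ cp) (hcn : 0 ≤ cn) (hE : E ∈ Icc u v)
    (h1 : m ≤ 4 * ((d - a) * u - f) - 4 * cp * u ^ 2 + cn * (3 * u ^ 2 + 2 * u * v - v ^ 2))
    (h2 : m ≤ 4 * ((d - a) * v - f) - 4 * cp * v ^ 2 + cn * (3 * v ^ 2 + 2 * u * v - u ^ 2)) :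
    m ≤ 4 * (d * E - f - a * E - (cp - cn) * E ^ 2) := by
  have huv : 0 ≤ (E - u) * (v - E) := mul_nonneg (sub_nonneg.2 hE.1) (sub_nonneg.2 hE.2)
  have h4 : m ≤ (-4 * f + 4 * cp * (u * v) - cn * (u + v) ^ 2) +
      (4 * (d - a) - 4 * cp * (u + v) + 4 * cn * (u + v)) * E :=
    affine_min hE.1 hE.2 (by nlinarith) (by nlinarith)
  nlinarith [mul_nonneg hcp huv, mul_nonneg hcn (sq_nonneg (2 * E - u - v))]

theorem wLo_le {dp dn fp fn ap an cp cn u v W : ℕ} (hW : 1 ≤ W)
    (h : W ≤ wLo dp dn fp fn ap an cp cn u v) :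
    (W : ℝ) - OFF ≤ 4 * ((((dp : ℝ) - dn) - ((ap : ℝ) - an)) * u - ((fp : ℝ) - fn)) - 4 * cp * (u : ℝ) ^ 2 +
      cn * (3 * (u : ℝ) ^ 2 + 2 * u * v - (v : ℝ) ^ 2) := by
  have e : wLo dp dn fp fn ap an cp cn u v =
      (4 * ((dp + an) * u + fn) + cn * (3 * (u * u) + 2 * (u * v)) + OFF) -
      (4 * ((dn + ap) * u + fp) + 4 * (cp * (u * u)) + cn * (v * v)) := rfl
  rw [e] at h
  have h2 : W + (4 * ((dn + ap) * u + fp) + 4 * (cp * (u * u)) + cn * (v * v)) ≤
      4 * ((dp + an) * u + fn) + cn * (3 * (u * u) + 2 * (u * v)) + OFF := by omega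
  have h3 : ((W + (4 * ((dn + ap) * u + fp) + 4 * (cp * (u * u)) + cn * (v * v)) : ℕ) : ℝ) ≤
      ((4 * ((dp + an) * u + fn) + cn * (3 * (u * u) + 2 * (u * v)) + OFF : ℕ) : ℝ) := by
    exact_mod_cast h2
  push_cast at h3
  nlinarith

/-- both ends -/
theorem wLo_sound {dp dn fp fn ap an cp cn u v W : ℕ} (hW : 1 ≤ W)
    (h1 : W ≤ wLo dp dn fp fn ap an cp cn u v) (h2 : W ≤ wLo dp dn fp fn ap an cp cn v u)
    {E : ℝ} (hE : E ∈ Icc (u : ℝ) v) :
    (W : ℝ) - OFF ≤ 4 * (((dp : ℝ) - dn) * E - ((fp : ℝ) - fn) - ((ap : ℝ) - an) * E -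
      ((cp : ℝ) - cn) * E ^ 2) := by
  have g1 := wLo_le hW h1
  have g2 := wLo_le hW h2
  exact quad_lo (Nat.cast_nonneg _) (Nat.cast_nonneg _) hE (by linarith) (by nlinarith)

/-- the meaning of a lower cell bound -/
def PW (k r : ℕ) (nu : Bool) (a c E w : ℝ) : Prop :=
  match nu with
  | true => LB k r E (a * E + c * E ^ 2 + w)
  | false => a * E + c * E ^ 2 + w ≤ 0

theorem PW.mono {k r : ℕ} {nu : Bool} {a c E w w' : ℝ} (h : PW k r nu a c E w) (hw : w' ≤ w) :
    PW k r nu a c E w' := by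
  cases nu
  · change a * E + c * E ^ 2 + w' ≤ 0
    change a * E + c * E ^ 2 + w ≤ 0 at h
    linarith
  · exact Ck.LB.mono h (by linarith)

section

variable {k r : ℕ}

theorem subLo_sound {x : Cell} {ap an cp cn u v ju jv W : ℕ} (hk : 1 ≤ k) (hrk : r ≤ k) (hW : 1 ≤ W)
    (h : W ≤ subLo k r x ap an cp cn u v ju jv) {E : ℝ} (hE : E ∈ Icc (u : ℝ) v)
    (hd : x.nu = true → LB k 0 E ((x.rho : ℝ) + lK k)) :
    PW k r x.nu ((ap : ℝ) - an) ((cp : ℝ) - cn) E (((W : ℝ) - OFF) / 4) := by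
  unfold subLo at h
  cases hnu : x.nu
  · rw [hnu, cond_false, nmin_eq, le_min_iff] at h
    have h1 := wLo_sound hW h.1 h.2 hE
    change ((ap : ℝ) - an) * E + ((cp : ℝ) - cn) * E ^ 2 + ((W : ℝ) - OFF) / 4 ≤ 0
    push_cast at h1
    linarith
  · rw [hnu, cond_true] at h
    cases hs : subTan k r u v ju jv x.rho with
    | none =>
      rw [hs] at h
      simp only at h
      omega
    | some T =>
      rw [hs] at h
      obtain ⟨dp, dn, fp, fn⟩ := T
      simp only at h
      rw [nmin_eq, le_min_iff] at h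
      have h1 := wLo_sound hW h.1 h.2 hE
      have h2 := subTan_sound hk hrk hs hE (hd hnu)
      refine Ck.LB.mono h2 ?_
      unfold tgL
      simp only
      linarith

theorem cellGo_sound {x : Cell} {ap an cp cn q : ℕ} (hk : 1 ≤ k) (hrk : r ≤ k)
    {W : ℕ} (hW : 1 ≤ W) {E : ℝ} (hd : x.nu = true → LB k 0 E ((x.rho : ℝ) + lK k)) :
    ∀ (n i u ju acc : ℕ), W ≤ cellGo k r x ap an cp cn q n i u ju acc →
      W ≤ acc ∧ (1 ≤ n → E ∈ Icc (u : ℝ) ((bnd x q (i + n)).1 : ℝ) →
        PW k r x.nu ((ap : ℝ) - an) ((cp : ℝ) - cn) E (((W : ℝ) - OFF) / 4))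
  | 0, i, u, ju, acc, h => ⟨h, fun h0 => by omega⟩
  | n + 1, i, u, ju, acc, h => by
    rw [cellGo] at h
    have hb : bnd x q (i + 1) = ((bnd x q (i + 1)).1, (bnd x q (i + 1)).2) := rfl
    rw [hb] at h
    simp only [fz_eq] at h
    set v := (bnd x q (i + 1)).1 with hv
    set jv := (bnd x q (i + 1)).2 with hjv
    have hrec := cellGo_sound hk hrk hW hd n (i + 1) v jv _ h
    have e : i + (n + 1) = i + 1 + n := by ring
    have hacc := hrec.1
    rw [nmin_eq, le_min_iff] at hacc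
    refine ⟨hacc.1, fun _ hE => ?_⟩
    rcases le_or_gt E (v : ℝ) with hEv | hEv
    · exact subLo_sound hk hrk hW hacc.2 ⟨hE.1, hEv⟩ hd
    · -- beyond `v`
      rw [e] at hE
      rcases Nat.eq_zero_or_pos n with hn | hn
      · subst hn
        have := hE.2
        rw [Nat.add_zero, ← hv] at this
        linarith
      · exact hrec.2 hn ⟨hEv.le, hE.2⟩

theorem nsub_pos (x : Cell) : 1 ≤ nsub k x := by
  unfold nsub
  cases Nat.ble 1490260362 (k * k * 25 * x.lo)
  · rw [cond_false]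
    cases h : Nat.ble (x.jh - x.jl) 1
    · rw [cond_false, nmin_eq]
      have := ble_false h
      omega
    · rw [cond_true]
  · rw [cond_true]

theorem bnd_last (x : Cell) {q : ℕ} (hq : 1 ≤ q) : (bnd x q q).1 = 25 * x.hi := by
  unfold bnd
  have h0 : Nat.beq q 0 = false := beq_zero_pos hq
  have h1 : Nat.beq q q = true := Nat.beq_refl q
  rw [h0, h1]
  rfl

theorem toNat_sub (a : ℤ) : ((a.toNat : ℕ) : ℝ) - (((-a).toNat : ℕ) : ℝ) = (a : ℝ) := by
  have h : (a.toNat : ℤ) - ((-a).toNat : ℤ) = a := by omega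
  exact_mod_cast h

theorem cellLo_sound {x : Cell} {a c w : ℤ} (hk : 1 ≤ k) (hrk : r ≤ k)
    (h : cellLo k r x a c = some w) {E : ℝ} (hE : E ∈ Icc ((25 * x.lo : ℕ) : ℝ) ((25 * x.hi : ℕ) : ℝ))
    (hd : x.nu = true → LB k 0 E ((x.rho : ℝ) + lK k)) : PW k r x.nu a c E w := by
  unfold cellLo at h
  simp only [fz_eq] at h
  have hq := nsub_pos (k := k) x
  set q := nsub k x
  cases hW : cellGo k r x a.toNat (-a).toNat c.toNat (-c).toNat q q 0 (25 * x.lo) x.jl (2 * OFF) with
  | zero =>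
    rw [hW] at h
    cases h
  | succ W =>
    rw [hW] at h
    simp only at h
    have h1 := (cellGo_sound hk hrk (W := W + 1) (by omega) hd q 0 (25 * x.lo) x.jl (2 * OFF) hW.ge).2 hq (by
      rw [Nat.zero_add, bnd_last x hq]
      exact hE)
    rw [toNat_sub, toNat_sub] at h1
    refine h1.mono ?_
    rw [← Option.some.inj h, Int.subNatNat_eq_coe]
    have h2 := ediv_real_le (((W + 1 : ℕ) : ℤ) - (OFF : ℤ)) (b := 4) (by norm_num)
    push_cast at h2 ⊢
    exact h2

end

end Pool.Agent.H60.SC
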