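import Pool.Agent.H61.SC.Sit
import Pool.Agent.H60.SL.Glue

/-!
# The cover in terms of situations
-/

set_option autoImplicit false

open Set Filter Topology MeasureTheory

namespace Pool.Agent.H60.SC

open Pool.Agent.H60.SL
open Pool.Agent.H64.Slab Pool.Agent.H60.Slab Pool.Agent.H60.Big
open Pool.Agent.H61.SC (Srt Sit Concl)

/-- the class of `n` coordinates -/
def clsOf (n : ℕ) : ℕ := if n ≤ 4 then 3 else if n ≤ 7 then n else 8

theorem clsOf_clsN {n : ℕ} (h : 3 ≤ n) : Pool.Agent.H61.SC.ClsN (clsOf n) n := by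
  unfold Pool.Agent.H61.SC.ClsN clsOf
  split
  · omega
  · split <;> omega

/-- the second and the third largest coordinates -/
theorem exists_srt {m : ℕ} (hm : 1 ≤ m) (a : Fin (m + 2) → ℝ) (i : Fin (m + 2)) (j : Fin (m + 1))
    (hpos : ∀ k, 0 < a k) (hsum : ∑ k, a k ^ 2 = 1) (hmax : ∀ k, a k ≤ a i)
    (hmin : ∀ k, a (i.succAbove j) ≤ a k) :
    ∃ i1 i2, Srt a i i1 i2 (i.succAbove j) := by
  haveI : Nonempty (Fin m) := ⟨⟨0, hm⟩⟩
  obtain ⟨k1, -, hk1⟩ := Finset.exists_max_image (Finset.univ : Finset (Fin m))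
    (fun k => a (i.succAbove (j.succAbove k))) ⟨⟨0, hm⟩, Finset.mem_univ _⟩
  have hne : ∀ k : Fin m, i.succAbove (j.succAbove k) ≠ i := fun k => Fin.succAbove_ne _ _
  have hng : ∀ k : Fin m, i.succAbove (j.succAbove k) ≠ i.succAbove j := fun k e =>
    Fin.succAbove_ne j k (Fin.succAbove_right_injective e)
  have hcase : ∀ k, k = i ∨ k = i.succAbove j ∨ ∃ k', k = i.succAbove (j.succAbove k') := by
    intro k
    by_cases h1 : k = i
    · exact Or.inl h1
    obtain ⟨k', rfl⟩ := Fin.exists_succAbove_eq h1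
    by_cases h2 : k' = j
    · exact Or.inr (Or.inl (by rw [h2]))
    obtain ⟨k'', rfl⟩ := Fin.exists_succAbove_eq h2
    exact Or.inr (Or.inr ⟨k'', rfl⟩)
  rcases Nat.lt_or_ge m 2 with h2 | h2
  · -- three coordinates
    have hm1 : m = 1 := by omega
    subst hm1
    refine ⟨i.succAbove (j.succAbove k1), i.succAbove j, ?_⟩
    refine ⟨hpos, hsum, (hne k1).symm, (Fin.succAbove_ne _ _).symm, hng k1, hmax _, hmin _, ?_, hmin,
      Fin.succAbove_ne _ _, fun h => by omega⟩
    intro k h0 h1 h2'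
    rcases hcase k with h | h | ⟨k', h⟩
    · exact absurd h h0
    · exact absurd h h2'
    · exfalso
      apply h1
      rw [h, Subsingleton.elim k' k1]
  · -- at least four coordinates
    obtain ⟨k2, hk2, hk2m⟩ := Finset.exists_max_image ((Finset.univ : Finset (Fin m)).erase k1)
      (fun k => a (i.succAbove (j.succAbove k))) (by
        rw [← Finset.card_pos, Finset.card_erase_of_mem (Finset.mem_univ _), Finset.card_univ,
          Fintype.card_fin]
        omega)
    rw [Finset.mem_erase] at hk2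
    refine ⟨i.succAbove (j.succAbove k1), i.succAbove (j.succAbove k2), ?_⟩
    refine ⟨hpos, hsum, (hne k1).symm, (hne k2).symm, ?_, hmax _, hk1 k2 (Finset.mem_univ _), ?_, hmin,
      Fin.succAbove_ne _ _, fun _ => ⟨(hng k1).symm, (hng k2).symm⟩⟩
    · intro e
      exact hk2.1 (Fin.succAbove_right_injective (Fin.succAbove_right_injective e)).symm
    · intro k h0 h1 h2'
      rcases hcase k with h | h | ⟨k', h⟩
      · exact absurd h h0
      · rw [h]; exact hmin _
      · rw [h]
        refine hk2m k' (Finset.mem_erase.2 ⟨?_, Finset.mem_univ _⟩)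
        rintro rfl
        exact h1 h

theorem cover_of (hG : ∀ (m : ℕ) (a : Fin (m + 2) → ℝ) (i : Fin (m + 2)) (j : Fin (m + 1))
    (i1 i2 : Fin (m + 2)) (t : ℝ), Sit (clsOf (m + 2)) a i i1 i2 (i.succAbove j) t → a i < 47 / 50 →
    3 * t ^ 2 < 10 → Concl a i j t) : CoverProp := by
  intro m t ht ht2 a i j hpos hsum hmax hmin hlt hm h47 hts hL hK h3
  obtain ⟨i1, i2, hs⟩ := exists_srt hm a i j hpos hsum hmax hmin
  have hle1 : ∀ k, k ≠ i → a k ≤ a i1 := by
    intro k hk
    by_cases h1 : k = i1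
    · rw [h1]
    by_cases h2 : k = i2
    · rw [h2]; exact hs.m12
    exact (hs.rest k hk h1 h2).trans hs.m12
  refine hG m a i j i1 i2 t ⟨hs, clsOf_clsN (by omega), hlt, ht, fun h => hK i1 hs.h01.symm h, hts, hL, ?_⟩
    h47 ht2
  intro hc
  have hm2 : m ≤ 2 := by
    unfold clsOf at hc
    split at hc
    · omega
    · split at hc <;> omega
  obtain ⟨k, hk, hkt⟩ := h3 hm2
  have := hle1 k hk
  linarith

end Pool.Agent.H60.SC
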