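import Pool.Agent.H60.SC.Tot

/-!
# Affine bounds of exponentials
-/

set_option autoImplicit false

open Set

namespace Pool.Agent.H60.SC

open Pool.Agent.H60.SL
open Pool.Agent.H60.SL.Ck (nn le ex t1D t1F t1M t2D t2F expU expL expU_sound expL_sound)
open Pool.Agent.H61.SC

/-- affine interpolation -/
noncomputable def mix (l u v : ℝ) : ℝ := (1 - l) * u + l * v

theorem mix_mono {l u v u' v' : ℝ} (h0 : 0 ≤ l) (h1 : l ≤ 1) (hu : u ≤ u') (hv : v ≤ v') :
    mix l u v ≤ mix l u' v' := by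
  unfold mix
  exact add_le_add (mul_le_mul_of_nonneg_left hu (by linarith)) (mul_le_mul_of_nonneg_left hv h0)

theorem mix_nonneg {l u v : ℝ} (h0 : 0 ≤ l) (h1 : l ≤ 1) (hu : 0 ≤ u) (hv : 0 ≤ v) : 0 ≤ mix l u v := by
  unfold mix
  exact add_nonneg (mul_nonneg (by linarith) hu) (mul_nonneg h0 hv)

theorem mix_const (l u : ℝ) : mix l u u = u := by unfold mix; ring

theorem mix_add (l u v u' v' : ℝ) : mix l (u + u') (v + v') = mix l u v + mix l u' v' := by
  unfold mix; ring

theorem mix_mul (l u v c : ℝ) : mix l (c * u) (c * v) = c * mix l u v := by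
  unfold mix; ring

theorem exp_mix_le {l x y : ℝ} (h0 : 0 ≤ l) (h1 : l ≤ 1) :
    Real.exp (mix l x y) ≤ mix l (Real.exp x) (Real.exp y) := by
  have := convexOn_exp.2 (mem_univ x) (mem_univ y) (show 0 ≤ 1 - l by linarith) h0 (by ring)
  simpa [mix, smul_eq_mul] using this

/-- a value at a point between -/
theorem setU_sound {R0 R1 : ℤ} {u v : ℕ} (h : setU R0 R1 = some (u, v)) {l : ℝ} (h0 : 0 ≤ l) (h1 : l ≤ 1) :
    2 ^ 60 * Real.exp (-(mix l R0 R1 / 2 ^ 72)) ≤ mix l u v := by
  unfold setU at h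
  cases R0 with
  | negSucc a => cases R1 <;> cases h
  | ofNat a =>
    cases R1 with
    | negSucc b => cases h
    | ofNat b =>
      simp only [fz_eq] at h
      have hp := Prod.mk.inj (Option.some.inj h)
      have e1 := expU_sound a
      have e2 := expU_sound b
      rw [← hp.1, ← hp.2]
      have e3 : -(mix l ((Int.ofNat a : ℤ) : ℝ) ((Int.ofNat b : ℤ) : ℝ) / 2 ^ 72) =
          mix l (-(a : ℝ) / 2 ^ 72) (-(b : ℝ) / 2 ^ 72) := by
        simp only [Int.ofNat_eq_natCast, Int.cast_natCast]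
        unfold mix
        ring
      rw [e3]
      calc 2 ^ 60 * Real.exp (mix l (-(a : ℝ) / 2 ^ 72) (-(b : ℝ) / 2 ^ 72))
          ≤ 2 ^ 60 * mix l (Real.exp (-(a : ℝ) / 2 ^ 72)) (Real.exp (-(b : ℝ) / 2 ^ 72)) :=
            mul_le_mul_of_nonneg_left (exp_mix_le h0 h1) (by positivity)
        _ = mix l (2 ^ 60 * Real.exp (-(a : ℝ) / 2 ^ 72)) (2 ^ 60 * Real.exp (-(b : ℝ) / 2 ^ 72)) :=
            (mix_mul _ _ _ _).symm
        _ ≤ _ := mix_mono h0 h1 e1 e2

theorem shift_div_le (a b c : ℕ) (hb : 0 < b) (hc : 0 < c) :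
    (((a * (b / c) : ℕ)) : ℝ) ≤ (a : ℝ) * ((b : ℝ) / c) := by
  push_cast
  apply mul_le_mul_of_nonneg_left _ (Nat.cast_nonneg _)
  exact Nat.cast_div_le

/-- `mix` of the affine function -/
theorem av_mix (A : Aff) (s0 s1 l : ℝ) : av A (mix l s0 s1) = mix l (av A s0) (av A s1) := by
  unfold av mix; ring

theorem setL_sound {sh : ℤ} {A : Aff} {s0 s1 : ℤ} {l : ℝ} (h0 : 0 ≤ l) (h1 : l ≤ 1) :
    mix l ((setL sh A s0 s1).1 : ℝ) ((setL sh A s0 s1).2 : ℝ) ≤
      2 ^ 60 * Real.exp (-((sh + av A (mix l s0 s1)) / 2 ^ 72)) := by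
  have hpos : (0 : ℝ) ≤ 2 ^ 60 * Real.exp (-((sh + av A (mix l s0 s1)) / 2 ^ 72)) := by positivity
  have hzero : mix l (((0 : ℕ) : ℕ) : ℝ) (((0 : ℕ) : ℕ) : ℝ) ≤
      2 ^ 60 * Real.exp (-((sh + av A (mix l s0 s1)) / 2 ^ 72)) := by
    simpa [mix] using hpos
  unfold setL
  cases hR : cdv (2 * (sh + A.C0) + A.C1 * (s0 + s1)) 2 with
  | negSucc a => exact hzero
  | ofNat Rm =>
    simp only [fzi_eq]
    set t : ℤ := A.C1 * (s1 - s0) / 2 with ht
    cases hh : W72 + t with
    | negSucc a => exact hzero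
    | ofNat h =>
      cases hl : W72 - t - 1 with
      | negSucc a => exact hzero
      | ofNat l' =>
        simp only [fz_eq]
        have hRm : ((2 * (sh + A.C0) + A.C1 * (s0 + s1) : ℤ) : ℝ) / 2 ≤ (Rm : ℝ) := by
          have := cdv_real (2 * (sh + A.C0) + A.C1 * (s0 + s1)) (b := 2) (by norm_num)
          rw [show ((2 : ℕ) : ℤ) = 2 from rfl, hR] at this
          simpa using this
        push_cast at hRm
        have ht1 := ediv_real_le (A.C1 * (s1 - s0)) (b := 2) (by norm_num)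
        have ht2 := le_ediv_real (A.C1 * (s1 - s0)) (b := 2) (by norm_num)
        rw [show ((2 : ℕ) : ℤ) = 2 from rfl, ← ht] at ht1 ht2
        push_cast at ht1 ht2
        have hW : ((W72 : ℤ) : ℝ) = 2 ^ 72 := by norm_num [W72]
        have hh' : (h : ℝ) = 2 ^ 72 + t := by
          have : ((W72 + t : ℤ) : ℝ) = ((Int.ofNat h : ℤ) : ℝ) := by rw [hh]
          push_cast [hW] at this
          simpa using this.symm
        have hl' : (l' : ℝ) = 2 ^ 72 - t - 1 := by
          have : ((W72 - t - 1 : ℤ) : ℝ) = ((Int.ofNat l' : ℤ) : ℝ) := by rw [hl]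
          push_cast [hW] at this
          simpa using this.symm
        have hE := expL_sound Rm
        set e : ℕ := expL Rm / 256 with he
        have he1 : 256 * (e : ℝ) ≤ 2 ^ 60 * Real.exp (-(Rm : ℝ) / 2 ^ 72) := by
          refine le_trans ?_ hE
          have : e * 256 ≤ expL Rm := Nat.div_mul_le_self _ _
          have h9 : ((e * 256 : ℕ) : ℝ) ≤ (expL Rm : ℝ) := by exact_mod_cast this
          push_cast at h9
          linarith
        have hval : ∀ y : ℕ, ((e * (y / 1048576) / 17592186044416 : ℕ) : ℝ) ≤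
            256 * (e : ℝ) * ((y : ℝ) / 2 ^ 72) := by
          intro y
          have g1 : ((e * (y / 1048576) / 17592186044416 : ℕ) : ℝ) ≤
              ((e * (y / 1048576) : ℕ) : ℝ) / ((17592186044416 : ℕ) : ℝ) := Nat.cast_div_le
          have g2 := shift_div_le e y 1048576
          by_cases hy : 0 < y
          · have g3 := g2 hy (by norm_num)
            refine g1.trans ?_
            rw [div_le_iff₀ (by norm_num)]
            refine g3.trans (le_of_eq ?_)
            push_cast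
            ring
          · have : y = 0 := by omega
            subst this
            simp
        have hexp : 0 < Real.exp (-(Rm : ℝ) / 2 ^ 72) := Real.exp_pos _
        -- the tangent
        have htan : Real.exp (-(Rm : ℝ) / 2 ^ 72) * (1 - ((sh + av A (mix l s0 s1)) - Rm) / 2 ^ 72) ≤
            Real.exp (-((sh + av A (mix l s0 s1)) / 2 ^ 72)) := by
          have e1 : -((sh + av A (mix l s0 s1)) / 2 ^ 72) = -(Rm : ℝ) / 2 ^ 72 +
              (-((sh + av A (mix l s0 s1)) - Rm) / 2 ^ 72) := by ring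
          rw [e1, Real.exp_add]
          apply mul_le_mul_of_nonneg_left _ hexp.le
          have := Real.add_one_le_exp (-((sh + av A (mix l s0 s1)) - Rm) / 2 ^ 72)
          refine le_trans (le_of_eq ?_) this
          ring
        have hkey : mix l ((h : ℝ) / 2 ^ 72) ((l' : ℝ) / 2 ^ 72) ≤
            1 - ((sh + av A (mix l s0 s1)) - Rm) / 2 ^ 72 := by
          rw [hh', hl']
          have h1l : 0 ≤ 1 - l := by linarith
          have c1 := mul_le_mul_of_nonneg_left ht1 h1l
          have c2 := mul_le_mul_of_nonneg_left ht2.le h0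
          unfold mix av
          have e4 : ∀ X : ℝ, (1 - X / 2 ^ 72) * 2 ^ 72 = 2 ^ 72 - X := fun X => by ring
          rw [← mul_div_assoc, ← mul_div_assoc, ← add_div, div_le_iff₀ (by positivity), e4]
          nlinarith
        calc mix l ((e * (h / 1048576) / 17592186044416 : ℕ) : ℝ) ((e * (l' / 1048576) / 17592186044416 : ℕ) : ℝ)
            ≤ mix l (256 * (e : ℝ) * ((h : ℝ) / 2 ^ 72)) (256 * (e : ℝ) * ((l' : ℝ) / 2 ^ 72)) :=
              mix_mono h0 h1 (hval h) (hval l')
          _ = 256 * (e : ℝ) * mix l ((h : ℝ) / 2 ^ 72) ((l' : ℝ) / 2 ^ 72) := mix_mul _ _ _ _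
          _ ≤ 2 ^ 60 * Real.exp (-(Rm : ℝ) / 2 ^ 72) * mix l ((h : ℝ) / 2 ^ 72) ((l' : ℝ) / 2 ^ 72) :=
              mul_le_mul_of_nonneg_right he1 (mix_nonneg h0 h1 (by positivity) (by positivity))
          _ ≤ 2 ^ 60 * Real.exp (-(Rm : ℝ) / 2 ^ 72) * (1 - ((sh + av A (mix l s0 s1)) - Rm) / 2 ^ 72) :=
              mul_le_mul_of_nonneg_left hkey (by positivity)
          _ = 2 ^ 60 * (Real.exp (-(Rm : ℝ) / 2 ^ 72) * (1 - ((sh + av A (mix l s0 s1)) - Rm) / 2 ^ 72)) := by
              ring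
          _ ≤ _ := mul_le_mul_of_nonneg_left htan (by positivity)

end Pool.Agent.H60.SC
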