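import Pool.Agent.H60.SC.Basic
import Pool.Agent.H60.SL.CkCell2

/-!
# Soundness of the lines
-/

set_option autoImplicit false

open Set

namespace Pool.Agent.H60.SC

open Pool.Agent.H60.SL
open Pool.Agent.H60.SL.Ck (nn le ex t1D t1F t1M t2D t2F expU expL nd sD sF sM sMu fLo fUp PLt PHt rl rh
  lowT1 lowT2 lowT3 lowT3L upT1 upT2 upT3 look64 look96 tabT2D tabT2F LB UB zE nn_iff le_iff le_real nn_real
  beq_zero_pos affine_max InL LB_of_FF)
open Pool.Agent.H61.SC

/-- the value of a quadratic line -/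
noncomputable def qv (q : Q) (E : ℝ) : ℝ := (q.kap : ℝ) + q.a * E + q.c * E ^ 2

/-- the meaning of a lower line -/
def LoLine (k r : ℕ) (R : Rng) (ge : Bool) (q : Q) : Prop :=
  (∀ E ∈ Icc (R.E0 : ℝ) R.E1, LB k r E (qv q E)) ∧ (ge = true → q.kap = 0)

/-- the meaning of an upper line -/
def UpLine (k r : ℕ) (R : Rng) (ge : Bool) (q : Q) : Prop :=
  (∀ E ∈ Icc (R.E0 : ℝ) R.E1, 2 ^ 72 * FF k r (E / 2 ^ 24) ≤ qv q E ∧ InL k 0 E) ∧
    (ge = true → q.kap = 0)

section

variable {k r : ℕ}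

theorem LB_of_line {E1 : ℕ} {E V : ℝ} (hrk : r ≤ k) (hE0 : 0 ≤ E) (h1 : Nat.ble (k * k * E1) 159769600 = true)
    (hE : E ≤ E1) (hV : V ≤ 2 ^ 72 * FF k r (E / 2 ^ 24)) : LB k r E V :=
  LB_of_FF hrk hE0 (Ck.lt_pi_sq (Ck.E_lt (Ck.kkE h1 hE))) hV

theorem InL0_of {E1 : ℕ} {E : ℝ} (hE0 : 0 ≤ E) (h1 : Nat.ble (k * k * E1) 159769600 = true)
    (hE : E ≤ E1) : InL k 0 E := ⟨hE0, fun _ => Ck.kkE h1 hE, fun h => by omega⟩

theorem lowU_sound {R : Rng} {ge : Bool} {j : ℕ} {c : ℤ} {q : Q} (hk : 1 ≤ k) (hrk : r ≤ k)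
    (h : lowU k r R ge j c = some q) : LoLine k r R ge q := by
  unfold lowU at h
  simp only [fzi_eq] at h
  set a := Int.sub (sD k r j) (Int.mul c (Int.ofNat (2 * nd j)))
  set kap := (bif ge then 0 else Int.sub (Int.mul c (Int.ofNat (nd j * nd j))) (sF k r j)) with hkap
  cases h1 : lowT1 k r j R.E0 R.E1 R.i0 kap a c
  · rw [h1, cond_false] at h; cases h
  · rw [h1, cond_true] at h
    rw [← Option.some.inj h]
    refine ⟨fun E hE => ?_, fun hge => by rw [hkap, hge]; rfl⟩
    have h2 := Ck.lowT1_sound hk hrk h1 hE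
    have hb : Nat.ble (k * k * R.E1) 159769600 = true := by
      unfold lowT1 at h1
      simp only [Bool.and_eq_true] at h1
      exact h1.1.1.1.1.1.1
    exact LB_of_line hrk (le_trans (Nat.cast_nonneg _) hE.1) hb hE.2 h2

theorem lowE_sound {R : Rng} {ge : Bool} {c : ℤ} {q : Q} (hk : 1 ≤ k) (hrk : r ≤ k)
    (h : lowE k r R ge c = some q) : LoLine k r R ge q := by
  unfold lowE at h
  simp only [fzi_eq] at h
  generalize (bif ge then fLo k r R.i1 R.E1 / (R.E1 : ℤ) - c * (R.E1 : ℤ) else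
    (fLo k r R.i1 R.E1 - fLo k r R.i0 R.E0) / ((R.E1 : ℤ) - (R.E0 : ℤ)) - c * ((R.E0 : ℤ) + (R.E1 : ℤ))) = a at h
  set kap : ℤ := (bif ge then 0 else fLo k r R.i0 R.E0 - a * (R.E0 : ℤ) - c * ((R.E0 * R.E0 : ℕ) : ℤ)) with hkap
  cases h1 : lowT2 k r R.E0 R.E1 R.i0 R.i1 kap a c
  · rw [h1, cond_false] at h; cases h
  · rw [h1, cond_true] at h
    rw [← Option.some.inj h]
    refine ⟨fun E hE => ?_, fun hge => by change kap = 0; rw [hkap, hge]; rfl⟩
    have h2 := Ck.lowT2_sound hk hrk h1 hE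
    have hb : Nat.ble (k * k * R.E1) 159769600 = true := by
      unfold lowT2 at h1
      simp only [Bool.and_eq_true] at h1
      exact h1.1.1.1.1.1.1
    exact LB_of_line hrk (le_trans (Nat.cast_nonneg _) hE.1) hb hE.2 h2

theorem bif_some {α : Type} {b : Bool} {x y : α} (h : (bif b then some x else none) = some y) :
    b = true ∧ x = y := by
  cases b
  · cases h
  · exact ⟨rfl, Option.some.inj h⟩

theorem lowS_sound {R : Rng} {ge : Bool} {kap a c : ℤ} {ns : List ℕ} {q : Q} (hk : 1 ≤ k) (hrk : r ≤ k)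
    (h : lowS k r R ge kap a c ns = some q) : LoLine k r R ge q := by
  unfold lowS at h
  obtain ⟨h1, hq⟩ := bif_some h
  rw [← hq]
  · rw [Bool.and_eq_true] at h1
    obtain ⟨h2, h3⟩ := h1
    refine ⟨fun E hE => ?_, fun hge => ?_⟩
    · have hE0 : 0 ≤ E := le_trans (Nat.cast_nonneg _) hE.1
      cases hr0 : Nat.beq r 0
      · rw [hr0, cond_false] at h3
        cases ns with
        | nil => cases h3
        | cons J _ =>
          simp only at h3
          have h4 := Ck.lowT3_sound hk hrk h3 hE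
          have hb : Nat.ble (k * k * R.E1) 159769600 = true := by
            unfold lowT3 at h3
            simp only [Bool.and_eq_true] at h3
            exact h3.1.1
          exact LB_of_line hrk hE0 hb hE.2 h4
      · rw [hr0, cond_true] at h3
        have hr := beq_true hr0
        subst hr
        exact Ck.lowT3L_sound hk ns 0 h3 E hE (by
          rw [Nat.cast_zero, zero_mul]
          have : 0 ≤ (k : ℝ) ^ 2 * (E / 2 ^ 24) := by positivity
          simpa using this)
    · rw [hge] at h2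
      simp only [Bool.not_true, Bool.false_or, Bool.and_eq_true] at h2
      exact le_antisymm (le_iff.1 h2.1) (le_iff.1 h2.2)

theorem lowLine_sound {R : Rng} {ge : Bool} {l : Line} {q : Q} (hk : 1 ≤ k) (hrk : r ≤ k)
    (h : lowLine k r R ge l = some q) : LoLine k r R ge q := by
  cases l with
  | N => cases h
  | U j c => exact lowU_sound hk hrk h
  | E c => exact lowE_sound hk hrk h
  | S kap a c ns => exact lowS_sound hk hrk h

theorem upU_sound {R : Rng} {j : ℕ} {c : ℤ} {q : Q} (hk : 1 ≤ k) (hrk : r ≤ k)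
    (h : upU k r R j c = some q) : UpLine k r R false q := by
  unfold upU at h
  simp only [fzi_eq] at h
  set a := Int.sub (sD k r j) (Int.mul c (Int.ofNat (2 * nd j)))
  set kap := Int.add (Int.sub (Int.mul c (Int.ofNat (nd j * nd j))) (sF k r j)) 2199023255552
  cases h1 : upT1 k r j R.E1 R.i1 kap a c
  · rw [h1, cond_false] at h; cases h
  · rw [h1, cond_true] at h
    rw [← Option.some.inj h]
    refine ⟨fun E hE => ?_, fun hge => by cases hge⟩
    have h2 := Ck.upT1_sound hk hrk h1 hE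
    have hb : Nat.ble (k * k * R.E1) 159769600 = true := by
      unfold upT1 at h1
      simp only [Bool.and_eq_true] at h1
      exact h1.1.1.1.1.1.1.1
    exact ⟨h2, InL0_of (le_trans (Nat.cast_nonneg _) hE.1) hb hE.2⟩

theorem upE_sound {R : Rng} {c : ℤ} {q : Q} (hk : 1 ≤ k) (hrk : r ≤ k)
    (h : upE k r R c = some q) : UpLine k r R false q := by
  unfold upE at h
  simp only [fzi_eq] at h
  generalize (cdv (fUp k r R.i1 R.E1 - fUp k r (R.i0 + 1) R.E0) ((R.E1 : ℤ) - (R.E0 : ℤ)) -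
    c * ((R.E0 : ℤ) + (R.E1 : ℤ))) = a at h
  set kap : ℤ := fUp k r (R.i0 + 1) R.E0 - a * (R.E0 : ℤ) - c * ((R.E0 * R.E0 : ℕ) : ℤ)
  cases h1 : upT2 k r R.E0 R.E1 (R.i0 + 1) R.i1 kap a c
  · rw [h1, cond_false] at h; cases h
  · rw [h1, cond_true] at h
    rw [← Option.some.inj h]
    refine ⟨fun E hE => ?_, fun hge => by cases hge⟩
    have h2 := Ck.upT2_sound hk hrk h1 hE
    have hb : Nat.ble (k * k * R.E1) 159769600 = true := by
      unfold upT2 at h1
      simp only [Bool.and_eq_true] at h1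
      exact h1.1.1.1.1.1.1.1
    exact ⟨h2, InL0_of (le_trans (Nat.cast_nonneg _) hE.1) hb hE.2⟩

theorem upM_sound {R : Rng} {c : ℤ} {q : Q} (ge : Bool) (hk : 1 ≤ k) (hrk : r ≤ k)
    (h : upM k r R c = some q) : UpLine k r R ge q := by
  unfold upM at h
  simp only [fzi_eq] at h
  generalize (imax (bif Nat.beq R.E0 0 then sD k r 0 + ((2 * (k * k) : ℕ) : ℤ) else
      cdv (fUp k r (R.i0 + 1) R.E0) (R.E0 : ℤ) - c * (R.E0 : ℤ))
    (cdv (fUp k r R.i1 R.E1) (R.E1 : ℤ) - c * (R.E1 : ℤ))) = a at h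
  cases h1 : upT3 k r R.E0 R.E1 (R.i0 + 1) R.i1 a c
  · rw [h1, cond_false] at h; cases h
  · rw [h1, cond_true] at h
    rw [← Option.some.inj h]
    refine ⟨fun E hE => ?_, fun hge => rfl⟩
    have h2 := Ck.upT3_sound hk hrk h1 hE
    have hb : Nat.ble (k * k * R.E1) 159769600 = true := by
      unfold upT3 at h1
      simp only [Bool.and_eq_true] at h1
      exact h1.1.1.1.1.1.1.1
    refine ⟨?_, InL0_of (le_trans (Nat.cast_nonneg _) hE.1) hb hE.2⟩
    unfold qv
    simp only [Int.cast_zero, zero_add]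
    exact h2

theorem upLine_sound {R : Rng} {ge : Bool} {l : Line} {q : Q} (hk : 1 ≤ k) (hrk : r ≤ k)
    (h : upLine k r R ge l = some q) : UpLine k r R ge q := by
  cases l with
  | N => cases h
  | U j c =>
    unfold upLine at h
    cases ge
    · exact upU_sound hk hrk h
    · cases h
  | E c =>
    unfold upLine at h
    cases ge
    · exact upE_sound hk hrk h
    · cases h
  | S kap a c ns => exact upM_sound ge hk hrk h

/-! ## lobes of cells -/

theorem lobeOf_sound {x : Cell} (h : lobeOf k x ≤ 6) :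
    ∀ E ∈ Icc ((25 * x.lo : ℕ) : ℝ) ((25 * x.hi : ℕ) : ℝ), InL k (lobeOf k x) E := by
  intro E hE
  have hE0 : 0 ≤ E := le_trans (Nat.cast_nonneg _) hE.1
  unfold lobeOf at h ⊢
  have ea : ∀ y : ℕ, k * k * 25 * y = k * k * (25 * y) := fun y => by ring
  simp only [ea] at h ⊢
  cases h1 : Nat.ble (k * k * (25 * x.hi)) 159769600
  · rw [h1, cond_false] at h
    rw [cond_false]
    cases h2 : (Nat.ble (PLt 1) (k * k * (25 * x.lo)) && Nat.ble (k * k * (25 * x.hi)) (PHt 2))
    · rw [h2, cond_false] at h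
      rw [cond_false]
      cases h3 : (Nat.ble (PLt 2) (k * k * (25 * x.lo)) && Nat.ble (k * k * (25 * x.hi)) (PHt 3))
      · rw [h3, cond_false] at h
        omega
      · rw [cond_true]
        rw [Bool.and_eq_true] at h3
        refine ⟨hE0, fun h => by omega, fun _ => ⟨by norm_num, ?_, ?_⟩⟩
        · exact Ck.lobe_lo (by omega) (ble_true h3.1) hE.1
        · have := Ck.lobe_hi (L := 3) (by omega) (by omega) (ble_true h3.2) hE.2
          push_cast at this ⊢
          norm_num at this ⊢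
          exact this
    · rw [cond_true]
      rw [Bool.and_eq_true] at h2
      refine ⟨hE0, fun h => by omega, fun _ => ⟨by norm_num, ?_, ?_⟩⟩
      · exact Ck.lobe_lo (by omega) (ble_true h2.1) hE.1
      · have := Ck.lobe_hi (L := 2) (by omega) (by omega) (ble_true h2.2) hE.2
        push_cast at this ⊢
        norm_num at this ⊢
        exact this
  · rw [cond_true]
    exact InL0_of hE0 h1 hE.2

end

end Pool.Agent.H60.SC
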