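import Pool.Agent.H60.SC.Basic
import Pool.Agent.H60.SL.CkLine2
import Pool.Agent.H61.SC.Leaf

/-!
# Logarithms
-/

set_option autoImplicit false

open Set

namespace Pool.Agent.H60.SC

open Pool.Agent.H60.SL
open Pool.Agent.H60.SL.Ck (nn le ex t1D t1F t1M t2D t2F expU expL expU_sound expL_sound LB zE allB allB_iff
  le_iff zE_nonneg zE_sq)
open Pool.Agent.H61.SC

/-- `2^60 ≤ k expL (lK k)` -/
def lKchk (k : Nat) : Bool := Nat.ble 1152921504606846976 ((k + 2) * expL (lK (k + 2)))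

theorem lK_all : allB 39 lKchk = true := by decide +kernel

theorem lK_one : lK 1 = 0 := by decide +kernel

theorem exp_le_of_expL {m : ℕ} {x : ℝ} (h : 2 ^ 60 ≤ x * (expL m : ℝ)) (hx : 0 ≤ x) :
    Real.exp ((m : ℝ) / 2 ^ 72) ≤ x := by
  have h1 := expL_sound m
  have h2 : 2 ^ 60 ≤ x * (2 ^ 60 * Real.exp (-(m : ℝ) / 2 ^ 72)) := h.trans (mul_le_mul_of_nonneg_left h1 hx)
  have h3 : Real.exp (-(m : ℝ) / 2 ^ 72) * Real.exp ((m : ℝ) / 2 ^ 72) = 1 := by
    rw [← Real.exp_add]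
    have : -(m : ℝ) / 2 ^ 72 + (m : ℝ) / 2 ^ 72 = 0 := by ring
    rw [this, Real.exp_zero]
  have h4 : 0 < Real.exp ((m : ℝ) / 2 ^ 72) := Real.exp_pos _
  have h5 : 1 ≤ x * Real.exp (-(m : ℝ) / 2 ^ 72) := by
    have : x * (2 ^ 60 * Real.exp (-(m : ℝ) / 2 ^ 72)) = 2 ^ 60 * (x * Real.exp (-(m : ℝ) / 2 ^ 72)) := by ring
    rw [this] at h2
    have h6 : (0 : ℝ) < 2 ^ 60 := by positivity
    nlinarith
  have h6 := mul_le_mul_of_nonneg_right h5 h4.le
  rw [mul_assoc, h3, one_mul, mul_one] at h6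
  exact h6

theorem lK_sound {k : ℕ} (h1 : 1 ≤ k) (h2 : k ≤ 40) : Real.exp ((lK k : ℝ) / 2 ^ 72) ≤ k := by
  rcases h1.eq_or_lt with h0 | h0
  · rw [← h0, lK_one]; simp
  have h := allB_iff.1 lK_all (k - 2) (by omega)
  unfold lKchk at h
  rw [Nat.sub_add_cancel h0] at h
  have h3 := ble_true h
  have h4 : ((1152921504606846976 : ℕ) : ℝ) ≤ ((k * expL (lK k) : ℕ) : ℝ) := by exact_mod_cast h3
  push_cast at h4
  exact exp_le_of_expL (by linarith) (Nat.cast_nonneg _)

theorem lxT_sound : Real.exp ((lxT : ℝ) / 2 ^ 72) ≤ 41 / 2 := by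
  have h : (Nat.ble 2305843009213693952 (41 * expL 14263544034629074812928)) = true := by decide +kernel
  have h3 := ble_true h
  have h4 : ((2305843009213693952 : ℕ) : ℝ) ≤ ((41 * expL 14263544034629074812928 : ℕ) : ℝ) := by
    exact_mod_cast h3
  push_cast at h4
  have h5 := exp_le_of_expL (m := 14263544034629074812928) (x := 41 / 2) (by linarith) (by norm_num)
  unfold lxT
  push_cast at h5 ⊢
  exact h5

theorem lxP_sound : Real.exp ((lxP : ℝ) / 2 ^ 72) ≤ 65 / 2 := by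
  have h : (Nat.ble 2305843009213693952 (65 * expL 16439678870974871109632)) = true := by decide +kernel
  have h3 := ble_true h
  have h4 : ((2305843009213693952 : ℕ) : ℝ) ≤ ((65 * expL 16439678870974871109632 : ℕ) : ℝ) := by
    exact_mod_cast h3
  push_cast at h4
  have h5 := exp_le_of_expL (m := 16439678870974871109632) (x := 65 / 2) (by linarith) (by norm_num)
  unfold lxP
  push_cast at h5 ⊢
  exact h5

theorem lxT_log : (lxT : ℝ) / 2 ^ 72 ≤ Real.log (41 / 2) :=
  (Real.le_log_iff_exp_le (by norm_num)).2 lxT_sound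

theorem lxP_log : (lxP : ℝ) / 2 ^ 72 ≤ Real.log (65 / 2) :=
  (Real.le_log_iff_exp_le (by norm_num)).2 lxP_sound

/-- a usable logarithm -/
theorem rhoE_sound {E : ℕ} {rho : ℤ} (h : rhoE E rho = true) :
    0 < E ∧ (rho : ℝ) / 2 ^ 72 ≤ Real.log ((E : ℝ) / 2 ^ 24) / 2 := by
  have key : Real.exp (2 * ((rho : ℝ) / 2 ^ 72)) ≤ (E : ℝ) / 2 ^ 24 ∧ 0 < E := by
    unfold rhoE at h
    cases rho with
    | ofNat m =>
      simp only at h
      have h3 := ble_true h
      have hE : 0 < E := by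
        rcases Nat.eq_zero_or_pos E with h0 | h0
        · rw [h0, Nat.zero_mul] at h3
          exact absurd h3 (by norm_num)
        · exact h0
      have h4 : ((19342813113834066795298816 : ℕ) : ℝ) ≤ ((E * expL (2 * m) : ℕ) : ℝ) := by
        exact_mod_cast h3
      push_cast at h4
      have h5 := exp_le_of_expL (m := 2 * m) (x := (E : ℝ) / 2 ^ 24) (by linarith) (by positivity)
      refine ⟨le_trans (le_of_eq ?_) h5, hE⟩
      congr 1
      simp only [Int.ofNat_eq_natCast, Int.cast_natCast]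
      push_cast
      ring
    | negSucc m =>
      simp only at h
      have h3 := ble_true h
      have h4 : ((expU (2 * (m + 1)) : ℕ) : ℝ) ≤ ((E * 68719476736 : ℕ) : ℝ) := by exact_mod_cast h3
      have h5 := expU_sound (2 * (m + 1))
      push_cast at h4 h5
      have h6 : 0 < Real.exp (2 * (((Int.negSucc m : ℤ) : ℝ) / 2 ^ 72)) := Real.exp_pos _
      have e7 : 2 * (((Int.negSucc m : ℤ) : ℝ) / 2 ^ 72) = -(2 * ((m : ℝ) + 1)) / 2 ^ 72 := by
        rw [Int.cast_negSucc]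
        push_cast
        ring
      have h8 : Real.exp (2 * (((Int.negSucc m : ℤ) : ℝ) / 2 ^ 72)) ≤ (E : ℝ) / 2 ^ 24 := by
        rw [e7]
        linarith
      refine ⟨h8, ?_⟩
      rcases Nat.eq_zero_or_pos E with h0 | h0
      · rw [h0] at h8
        simp only [Nat.cast_zero, zero_div] at h8
        linarith
      · exact h0
  obtain ⟨h1, h2⟩ := key
  have hE' : (0 : ℝ) < E := by exact_mod_cast h2
  have h3 := (Real.le_log_iff_exp_le (by positivity)).2 h1
  exact ⟨h2, by linarith⟩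

theorem log_zE {E : ℝ} (hE : 0 < E) : Real.log (zE E) = Real.log (E / 2 ^ 24) / 2 := by
  unfold zE
  rw [Real.log_sqrt (by positivity)]

theorem zE_pos {E : ℝ} (hE : 0 < E) : 0 < zE E := Real.sqrt_pos.2 (by positivity)

theorem zE_le {E F : ℝ} (h : E ≤ F) : zE E ≤ zE F :=
  Real.sqrt_le_sqrt (div_le_div_of_nonneg_right h (by positivity))

theorem rho_log {E0 : ℕ} {rho : ℤ} (h : rhoE E0 rho = true) {E : ℝ} (hE : (E0 : ℝ) ≤ E) :
    0 < E ∧ (rho : ℝ) / 2 ^ 72 ≤ Real.log (zE E) := by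
  obtain ⟨h1, h2⟩ := rhoE_sound h
  have hE0 : (0 : ℝ) < E0 := by exact_mod_cast h1
  have hEp : 0 < E := hE0.trans_le hE
  refine ⟨hEp, h2.trans ?_⟩
  rw [log_zE hEp]
  have : Real.log ((E0 : ℝ) / 2 ^ 24) ≤ Real.log (E / 2 ^ 24) :=
    Real.log_le_log (by positivity) (div_le_div_of_nonneg_right hE (by positivity))
  linarith

theorem sinc_le_inv {x : ℝ} (hx : 0 < x) : |Real.sinc x| ≤ 1 / x := by
  rw [Real.sinc_of_ne_zero hx.ne', abs_div, abs_of_pos hx]
  exact div_le_div_of_nonneg_right (Real.abs_sin_le_one x) hx.le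

/-- the logarithmic bound, with `log k` -/
theorem sinc_le_log {k : ℕ} (hk : 1 ≤ k) {E : ℝ} (hE : 0 < E) {rho : ℝ} (h : rho ≤ Real.log (zE E)) :
    |Real.sinc (k * zE E)| ≤ Real.exp (-(rho + Real.log k)) := by
  have hk0 : (0 : ℝ) < k := by exact_mod_cast hk
  have hz := zE_pos hE
  refine (sinc_le_inv (mul_pos hk0 hz)).trans ?_
  have e : 1 / ((k : ℝ) * zE E) = Real.exp (-(Real.log (zE E) + Real.log k)) := by
    rw [Real.exp_neg, Real.exp_add, Real.exp_log hz, Real.exp_log hk0]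
    field_simp
  rw [e]
  apply Real.exp_le_exp.2
  linarith

theorem rhoOK_LB {E0 k : ℕ} {rho : ℤ} (hk : 1 ≤ k) (hk2 : k ≤ 40) (h : rhoOK E0 rho = true) {E : ℝ}
    (hE : (E0 : ℝ) ≤ E) : LB k 0 E ((rho : ℝ) + lK k) := by
  have hk0 : (0 : ℝ) < k := by exact_mod_cast hk
  have hlK := lK_sound hk hk2
  have hl : (lK k : ℝ) / 2 ^ 72 ≤ Real.log k := (Real.le_log_iff_exp_le hk0).2 hlK
  unfold LB
  rw [Nat.cast_zero, zero_mul, Real.sinc_zero, abs_one, one_mul]
  unfold rhoOK at h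
  rw [Bool.or_eq_true] at h
  rcases h with h | h
  · have h1 := le_iff.1 h
    have h2 : (rho : ℝ) ≤ -18889465931478580854784 := by exact_mod_cast h1
    have h3 : Real.log k < 4 := by
      rw [Real.log_lt_iff_lt_exp hk0]
      have h4 : (2.7182818283 : ℝ) < Real.exp 1 := Real.exp_one_gt_d9
      have h5 : Real.exp 4 = Real.exp 1 ^ 4 := by
        rw [← Real.exp_nat_mul]; norm_num
      have h6 : (2.7182818283 : ℝ) ^ 4 < Real.exp 1 ^ 4 :=
        pow_lt_pow_left₀ h4 (by norm_num) (by norm_num)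
      have h7 : (k : ℝ) ≤ 40 := by exact_mod_cast hk2
      rw [h5]
      norm_num at h6
      linarith
    refine (Real.abs_sinc_le_one _).trans ?_
    rw [Real.one_le_exp_iff]
    have : ((rho : ℝ) + lK k) / 2 ^ 72 ≤ 0 := by
      apply div_nonpos_of_nonpos_of_nonneg _ (by positivity)
      have : (lK k : ℝ) ≤ 4 * 2 ^ 72 := by
        have := hl.trans h3.le
        rw [div_le_iff₀ (by positivity)] at this
        exact this
      linarith
    linarith
  · obtain ⟨h1, h2⟩ := rho_log h hE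
    refine (sinc_le_log hk h1 h2).trans (Real.exp_le_exp.2 ?_)
    have : ((rho : ℝ) + lK k) / 2 ^ 72 = (rho : ℝ) / 2 ^ 72 + (lK k : ℝ) / 2 ^ 72 := by ring
    rw [this]
    linarith

/-- for positive logarithms the strong form holds -/
theorem rhoOK_E {E0 : ℕ} {rho lx : ℤ} (h : rhoOK E0 rho = true) (hlx : lx < 18889465931478580854784)
    (h2 : 0 ≤ rho + lx) : rhoE E0 rho = true := by
  unfold rhoOK at h
  rw [Bool.or_eq_true] at h
  rcases h with h | h
  · have h1 := le_iff.1 h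
    omega
  · exact h

end Pool.Agent.H60.SC
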