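import Pool.Agent.H60.SC.LineS
import Pool.Agent.H60.SL.AliasS
import Pool.Agent.H61.SC.PLeaf

/-!
# The `P` leaves: the alias terms
-/

set_option autoImplicit false

open Set Filter Topology

namespace Pool.Agent.H60.SC

open Pool.Agent.H60.SL
open Pool.Agent.H64.Slab Pool.Agent.H60.Slab Pool.Agent.H60.Big
open Pool.Agent.H60.SL.Ck (nn le ex t1D t1F t1M t2D t2F expU expL expU_sound expL_sound LB zE allB allB_iff
  le_iff zE_nonneg zE_sq InL )
open Pool.Agent.H61.SC

theorem isqLo_sq (n : ℕ) : isqLo n * isqLo n ≤ n := by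
  unfold isqLo
  rw [fz_eq]
  cases h : Nat.ble (isq0 n * isq0 n) n
  · rw [cond_false]; simp
  · rw [cond_true]; exact ble_true h

theorem isqHi_sq (n : ℕ) : n ≤ isqHi n * isqHi n := by
  unfold isqHi
  rw [fz_eq]
  cases h : Nat.ble n (isq0 n * isq0 n)
  · rw [cond_false]
    cases h2 : Nat.ble n ((isq0 n + 1) * (isq0 n + 1))
    · rw [cond_false]; exact Nat.le_mul_self n
    · rw [cond_true]; exact ble_true h2
  · rw [cond_true]; exact ble_true h

/-- the alias size for the two modes -/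
noncomputable def aliasA (mode : ℕ) (α γ σ t : ℝ) : ℝ :=
  if mode = 1 then aliasQ α γ σ (5 / 4) t else aliasS α γ σ (5 / 4) t

theorem pair_le {α γ : ℝ} (h : α ^ 2 + γ ^ 2 ≤ 1) : α + γ ≤ 1.4143 := by
  nlinarith [sq_nonneg (α - γ), sq_nonneg (α + γ)]

theorem alias_near {m : ℕ} (b : Fin m → ℝ) {α γ t : ℝ} (mode : ℕ) (hγ : 0 < γ) (hαγ : γ < α)
    (hb : ∀ j, 0 < b j) (hbα : ∀ j, b j ≤ α + γ) (hs : α ^ 2 + γ ^ 2 + ∑ j, b j ^ 2 = 1)
    (hσ : 0 < 1 - α ^ 2 - γ ^ 2) (ht : 4 / 5 ≤ t) (ht2 : t ≤ 13 / 10) :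
    |avgc b (LL 2 (α + γ) (α - γ)) t / (4 / (45 * Real.pi) * (α * γ) ^ 3 * (5 / 4)) +
      ∑' k, gQ b α γ (5 / 4) t k| ≤ aliasA mode α γ (1 - α ^ 2 - γ ^ 2) t := by
  have hpi1 := Real.pi_gt_d6
  have hpi2 := Real.pi_lt_d6
  have hp := pair_le (α := α) (γ := γ) (by nlinarith)
  have hbs : ∑ j, b j ^ 2 ≤ 1 - α ^ 2 - γ ^ 2 := by linarith
  have e : 2 * Real.pi / (5 / 4) = 8 * Real.pi / 5 := by ring
  unfold aliasA
  split
  · apply q_near b hγ hαγ (by norm_num) (by nlinarith) (by linarith) _ hσ hbs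
    rw [e]
    linarith
  · apply q_near_S b hγ hαγ hb hbα (by linarith) hσ (by nlinarith [sq_nonneg α, sq_nonneg γ]) hbs
      (by norm_num) _ ht _ _
    · rw [e]; linarith
    · rw [e]
      have : (2.8 : ℝ) ≤ 8 * Real.pi / 5 - t - 9 / 10 := by linarith
      nlinarith
    · rw [e]
      linarith

/-- the exponent -/
theorem alias_exp {lo0 g0 y : ℕ} {E : ℤ} {R : ℕ} {α γ Y : ℝ} (hα : (lo0 : ℝ) / 2 ^ 20 ≤ α ^ 2)
    (hγ : (g0 : ℝ) / 2 ^ 20 ≤ γ ^ 2) (hs : lo0 + g0 + 1 ≤ 1048576) (hσ : 0 < 1 - α ^ 2 - γ ^ 2)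
    (hY : (y : ℝ) ≤ 2 ^ 20 * Y)
    (hR : Int.ofNat (3 * (y * y) * 2251799813685248 / (1048576 - lo0 - g0)) + E = Int.ofNat R) :
    2 ^ 60 * (Real.exp (-((E : ℝ) / 2 ^ 72)) * Real.exp (-(3 * Y ^ 2) / (2 * (1 - α ^ 2 - γ ^ 2)))) ≤ expU R := by
  refine le_trans (mul_le_mul_of_nonneg_left ?_ (by positivity)) (expU_sound R)
  rw [← Real.exp_add]
  apply Real.exp_le_exp.2
  set W := 1048576 - lo0 - g0 with hW
  have hW1 : 1 ≤ W := by omega
  have hWr : (W : ℝ) = 1048576 - lo0 - g0 := by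
    rw [hW, Nat.cast_sub (by omega), Nat.cast_sub (by omega)]
    push_cast
    ring
  have hW0 : (0 : ℝ) < W := by exact_mod_cast hW1
  have h1 : ((3 * (y * y) * 2251799813685248 / W : ℕ) : ℝ) ≤ (3 * ((y : ℝ) * y) * 2251799813685248) / W := by
    have := Nat.cast_div_le (α := ℝ) (m := 3 * (y * y) * 2251799813685248) (n := W)
    refine this.trans (le_of_eq ?_)
    push_cast
    ring
  generalize 3 * (y * y) * 2251799813685248 / W = D at hR h1
  have hRr : (R : ℝ) = (D : ℝ) + E := by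
    have := congrArg (fun z : ℤ => (z : ℝ)) hR
    simp only [Int.ofNat_eq_natCast] at this
    push_cast at this ⊢
    linarith
  have hY0 : 0 ≤ Y := by
    have : (0 : ℝ) ≤ y := Nat.cast_nonneg _
    nlinarith
  have h2 : (3 * ((y : ℝ) * y) * 2251799813685248) / W / 2 ^ 72 ≤ 3 * Y ^ 2 / (2 * (1 - α ^ 2 - γ ^ 2)) := by
    rw [div_div, div_le_div_iff₀ (by positivity) (by positivity)]
    have h3 : (1 - α ^ 2 - γ ^ 2) * 2 ^ 20 ≤ W := by
      rw [hWr]
      rw [div_le_iff₀ (by positivity)] at hα hγ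
      linarith
    have h4 : (y : ℝ) * y ≤ (2 ^ 20 * Y) * (2 ^ 20 * Y) :=
      mul_le_mul hY hY (Nat.cast_nonneg _) (by positivity)
    calc 3 * ((y : ℝ) * y) * 2251799813685248 * (2 * (1 - α ^ 2 - γ ^ 2))
        ≤ 3 * ((2 ^ 20 * Y) * (2 ^ 20 * Y)) * 2251799813685248 * (2 * (1 - α ^ 2 - γ ^ 2)) := by
          apply mul_le_mul_of_nonneg_right _ (by positivity)
          apply mul_le_mul_of_nonneg_right _ (by positivity)
          exact mul_le_mul_of_nonneg_left h4 (by norm_num)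
      _ = 3 * Y ^ 2 * (2 ^ 72 * ((1 - α ^ 2 - γ ^ 2) * 2 ^ 20)) := by ring
      _ ≤ 3 * Y ^ 2 * (2 ^ 72 * W) := by
          apply mul_le_mul_of_nonneg_left _ (by positivity)
          exact mul_le_mul_of_nonneg_left h3 (by positivity)
      _ = _ := by ring
  have h5 : (R : ℝ) / 2 ^ 72 ≤ (E : ℝ) / 2 ^ 72 + 3 * Y ^ 2 / (2 * (1 - α ^ 2 - γ ^ 2)) := by
    rw [hRr, add_div]
    have := div_le_div_of_nonneg_right h1 (show (0 : ℝ) ≤ 2 ^ 72 by positivity)
    linarith
  have e1 : -(3 * Y ^ 2) / (2 * (1 - α ^ 2 - γ ^ 2)) = -(3 * Y ^ 2 / (2 * (1 - α ^ 2 - γ ^ 2))) := by ring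
  have e2 : -(R : ℝ) / 2 ^ 72 = -((R : ℝ) / 2 ^ 72) := by ring
  rw [e1, e2]
  linarith

theorem div_add_one_real (a : ℕ) {b : ℕ} (hb : 0 < b) : (a : ℝ) / b ≤ ((a / b + 1 : ℕ) : ℝ) := by
  have hb' : (0 : ℝ) < b := by exact_mod_cast hb
  rw [div_le_iff₀ hb']
  have h := Nat.lt_div_mul_add (a := a) hb
  have h2 : ((a : ℕ) : ℝ) ≤ ((a / b * b + b : ℕ) : ℝ) := by exact_mod_cast h.le
  generalize a / b = z at *
  push_cast at h2 ⊢
  linarith

/-- truncated subtraction -/
theorem tsub_le {a b : ℕ} {x : ℝ} (h0 : 0 ≤ x) (h : (a : ℝ) - b ≤ x) : ((a - b : ℕ) : ℝ) ≤ x := by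
  rcases le_total b a with h1 | h1
  · rw [Nat.cast_sub h1]; exact h
  · rw [Nat.sub_eq_zero_of_le h1]; simpa using h0

theorem aliasV_sound {mode lo0 g0 p1 T KL1 v : ℕ} {E : ℤ}
    (h : aliasV mode lo0 g0 p1 T E KL1 = some v) (hK : 1 ≤ KL1) {α γ : ℝ} (hα0 : 0 < α)
    (hγ0 : 0 ≤ γ) (hα : (lo0 : ℝ) / 2 ^ 20 ≤ α ^ 2) (hγ : (g0 : ℝ) / 2 ^ 20 ≤ γ ^ 2)
    (hs : lo0 + g0 + 1 ≤ 1048576) (hσ : 0 < 1 - α ^ 2 - γ ^ 2) (hp : 2 ^ 20 * (α + γ) ≤ p1)
    (hT : T ≤ 1300) (hmode : mode = 1 ∨ mode = 2) :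
    16 * 2 ^ 100 * (2 ^ 60 * Real.exp (-((E : ℝ) / 2 ^ 72))) / KL1 *
      aliasA mode α γ (1 - α ^ 2 - γ ^ 2) ((T : ℝ) / 1000) ≤ v := by
  have hpi1 := Real.pi_gt_d6
  have hpi2 := Real.pi_lt_d6
  have hK' : (0 : ℝ) < KL1 := by exact_mod_cast hK
  have hpp := pair_le (α := α) (γ := γ) (by nlinarith)
  have hTr : (T : ℝ) ≤ 1300 := by exact_mod_cast hT
  have hT0 : (0 : ℝ) ≤ T := Nat.cast_nonneg _
  have hTt : ((T : ℝ) / 1000) * 2 ^ 20 ≤ ((T * 1048576 / 1000 + 1 : ℕ) : ℝ) := by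
    have := div_add_one_real (T * 1048576) (b := 1000) (by norm_num)
    refine le_trans (le_of_eq ?_) this
    push_cast
    ring
  have e54 : 2 * Real.pi / (5 / 4) = 8 * Real.pi / 5 := by ring
  rcases hmode with rfl | rfl
  · -- large `α`
    unfold aliasV at h
    simp only [fz_eq] at h
    set y := 5270716 - (T * 1048576 / 1000 + 1) - p1 with hy
    set pa := isqLo (lo0 * 1048576) with hpa
    cases hR : Int.ofNat (3 * (y * y) * 2251799813685248 / (1048576 - lo0 - g0)) + E with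
    | negSucc a => rw [hR] at h; cases h
    | ofNat R =>
      rw [hR] at h
      simp only at h
      obtain ⟨hc, hv⟩ := bif_some h
      have hc := ble_true hc
      set Y := 8 * Real.pi / 5 - (T : ℝ) / 1000 - (α + γ) with hY
      have hYy : (y : ℝ) ≤ 2 ^ 20 * Y := by
        rw [hy]
        have hY0 : 0 ≤ Y := by rw [hY]; linarith
        apply tsub_le (by positivity)
        have h9 : ((5270716 - (T * 1048576 / 1000 + 1) : ℕ) : ℝ) ≤
            5270716 - (T * 1048576 / 1000 + 1 : ℕ) := by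
          rw [Nat.cast_sub (by omega)]
          push_cast
          rfl
        rw [hY]
        linarith
      have hexp := alias_exp hα hγ hs hσ hYy hR
      -- the power of `α`
      have hpa1 : (pa : ℝ) ≤ 2 ^ 20 * α := by
        have h1 := isqLo_sq (lo0 * 1048576)
        rw [← hpa] at h1
        have h2 : (pa : ℝ) * pa ≤ lo0 * 1048576 := by exact_mod_cast h1
        rw [div_le_iff₀ (by positivity)] at hα
        have h3 : (pa : ℝ) ^ 2 ≤ (2 ^ 20 * α) ^ 2 := by nlinarith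
        exact (pow_le_pow_iff_left₀ (Nat.cast_nonneg _) (by positivity) (by norm_num : (2 : ℕ) ≠ 0)).1 h3
      have hcube : ((lo0 * pa : ℕ) : ℝ) ≤ 2 ^ 40 * α ^ 3 := by
        rw [div_le_iff₀ (by positivity)] at hα
        push_cast
        calc (lo0 : ℝ) * pa ≤ (α ^ 2 * 2 ^ 20) * (2 ^ 20 * α) :=
              mul_le_mul hα hpa1 (Nat.cast_nonneg _) (by positivity)
          _ = _ := by ring
      have hL : (0 : ℝ) < ((lo0 * pa : ℕ) : ℝ) := by exact_mod_cast hc
      rw [← hv]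
      have hv2 := div_add_one_real (expU R * (604 * 1393796574908163946345982392040522594123776))
        (b := lo0 * pa * KL1) (Nat.mul_pos hc hK)
      refine le_trans ?_ hv2
      unfold aliasA
      rw [if_pos rfl]
      unfold aliasQ
      rw [e54, ← hY]
      have hα3 : 0 < α ^ 3 := by positivity
      have h12 : 15 * Real.pi / (α ^ 3 * (5 / 4)) = 12 * Real.pi / α ^ 3 := by
        field_simp
        ring
      rw [h12]
      have hA : 16 * (12 * Real.pi / α ^ 3) ≤ 604 * 2 ^ 40 / ((lo0 * pa : ℕ) : ℝ) := by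
        have e : 16 * (12 * Real.pi / α ^ 3) = 192 * Real.pi / α ^ 3 := by ring
        rw [e, div_le_div_iff₀ hα3 hL]
        calc 192 * Real.pi * ((lo0 * pa : ℕ) : ℝ) ≤ 604 * (2 ^ 40 * α ^ 3) :=
              mul_le_mul (by linarith) hcube hL.le (by norm_num)
          _ = _ := by ring
      push_cast at hA hL ⊢
      have hE : (0 : ℝ) ≤ expU R := Nat.cast_nonneg _
      calc 16 * 2 ^ 100 * (2 ^ 60 * Real.exp (-((E : ℝ) / 2 ^ 72))) / (KL1 : ℝ) *
            (12 * Real.pi / α ^ 3 * Real.exp (-(3 * Y ^ 2) / (2 * (1 - α ^ 2 - γ ^ 2))))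
          = (16 * (12 * Real.pi / α ^ 3)) * (2 ^ 60 * (Real.exp (-((E : ℝ) / 2 ^ 72)) *
              Real.exp (-(3 * Y ^ 2) / (2 * (1 - α ^ 2 - γ ^ 2))))) * (2 ^ 100 / KL1) := by ring
        _ ≤ (604 * 2 ^ 40 / ((lo0 : ℝ) * (pa : ℝ))) * ((expU R : ℕ) : ℝ) * (2 ^ 100 / KL1) := by
            apply mul_le_mul_of_nonneg_right _ (by positivity)
            exact mul_le_mul hA hexp (by positivity) (by positivity)
        _ = _ := by
            field_simp
            norm_num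
            try ring
  · -- small `α`
    unfold aliasV at h
    simp only [fz_eq] at h
    set y := 5270716 - (T * 1048576 / 1000 + 1) - p1 - 943719 with hy
    cases hR : Int.ofNat (3 * (y * y) * 2251799813685248 / (1048576 - lo0 - g0)) + E with
    | negSucc a => rw [hR] at h; cases h
    | ofNat R =>
      rw [hR] at h
      simp only at h
      have hv := Option.some.inj h
      set Y := 8 * Real.pi / 5 - (T : ℝ) / 1000 - 9 / 10 - (α + γ) with hY
      have hYy : (y : ℝ) ≤ 2 ^ 20 * Y := by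
        have hY0 : 0 ≤ Y := by rw [hY]; linarith
        rcases le_total p1 (5270716 - (T * 1048576 / 1000 + 1)) with h8 | h8
        · rw [hy]
          apply tsub_le (by positivity)
          have h9 : ((5270716 - (T * 1048576 / 1000 + 1) - p1 : ℕ) : ℝ) ≤
              5270716 - (T * 1048576 / 1000 + 1 : ℕ) - p1 := by
            rw [Nat.cast_sub h8, Nat.cast_sub (by omega)]
            push_cast
            rfl
          rw [hY]
          push_cast at h9 hTt ⊢
          linarith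
        · have : y = 0 := by rw [hy]; omega
          rw [this]
          push_cast
          positivity
      have hexp := alias_exp hα hγ hs hσ hYy hR
      rw [← hv]
      have hv2 := div_add_one_real (expU R * (1505 * 1267650600228229401496703205376)) (b := KL1) hK
      refine le_trans ?_ hv2
      unfold aliasA
      rw [if_neg (by norm_num)]
      unfold aliasS
      rw [e54, ← hY]
      have hA : 16 * (101 / 100 * (1000 / 27) * Real.pi / (5 / 4)) ≤ 1505 := by
        have e : 16 * (101 / 100 * (1000 / 27) * Real.pi / (5 / 4)) = 16 * (101 / 100 * (1000 / 27) * (4 / 5)) * Real.pi := by ring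
        rw [e]
        norm_num
        linarith
      push_cast
      calc 16 * 2 ^ 100 * (2 ^ 60 * Real.exp (-((E : ℝ) / 2 ^ 72))) / (KL1 : ℝ) *
            (101 / 100 * (1000 / 27) * Real.pi / (5 / 4) * Real.exp (-(3 * Y ^ 2) / (2 * (1 - α ^ 2 - γ ^ 2))))
          = (16 * (101 / 100 * (1000 / 27) * Real.pi / (5 / 4))) * (2 ^ 60 * (Real.exp (-((E : ℝ) / 2 ^ 72)) *
              Real.exp (-(3 * Y ^ 2) / (2 * (1 - α ^ 2 - γ ^ 2))))) * (2 ^ 100 / KL1) := by ring
        _ ≤ 1505 * ((expU R : ℕ) : ℝ) * (2 ^ 100 / KL1) := by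
            apply mul_le_mul_of_nonneg_right _ (by positivity)
            exact mul_le_mul hA hexp (by positivity) (by positivity)
        _ = _ := by
            field_simp
            norm_num
            try ring

end Pool.Agent.H60.SC
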