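import Pool.Agent.H60.SC.CellHi
import Pool.Agent.H60.SC.LineS

/-!
# Products over the coordinates
-/

set_option autoImplicit false

open Set

namespace Pool.Agent.H60.SC

open Pool.Agent.H60.SL
open Pool.Agent.H60.SL.Ck (nn le ex t1D t1F t1M t2D t2F expU expL nd sD sF sM sMu fLo fUp PLt PHt rl rh
  lowT1 lowT2 lowT3 lowT3L upT1 upT2 upT3 look64 look96 tabT2D tabT2F LB UB zE nn_iff le_iff le_real nn_real
  beq_zero_pos affine_max InL LB_of_FF UB_of_FF UB_of_nu)
open Pool.Agent.H61.SC

/-- one factor -/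
noncomputable def fac (k : ℕ) (p : Bool × ℝ) : ℝ := if p.1 = true then Real.sinc (k * zE p.2) else 1

/-- signed product of the factors -/
noncomputable def SP (k : ℕ) (l : List (Bool × ℝ)) : ℝ := (l.map (fac k)).prod

@[simp] theorem SP_nil (k : ℕ) : SP k [] = 1 := rfl

@[simp] theorem SP_cons (k : ℕ) (p : Bool × ℝ) (l : List (Bool × ℝ)) :
    SP k (p :: l) = fac k p * SP k l := by simp [SP]

@[simp] theorem SP_append (k : ℕ) (l₁ l₂ : List (Bool × ℝ)) :
    SP k (l₁ ++ l₂) = SP k l₁ * SP k l₂ := by simp [SP]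

theorem SP_zero (l : List (Bool × ℝ)) : SP 0 l = 1 := by
  induction l with
  | nil => rfl
  | cons p l ih =>
    rw [SP_cons, ih, mul_one]
    unfold fac
    split <;> simp

/-- sum of a function of the value -/
noncomputable def SE (f : ℝ → ℝ) (l : List (Bool × ℝ)) : ℝ := (l.map (fun p => f p.2)).sum

@[simp] theorem SE_nil (f : ℝ → ℝ) : SE f [] = 0 := rfl

@[simp] theorem SE_cons (f : ℝ → ℝ) (p : Bool × ℝ) (l : List (Bool × ℝ)) :
    SE f (p :: l) = f p.2 + SE f l := by simp [SE]

@[simp] theorem SE_append (f : ℝ → ℝ) (l₁ l₂ : List (Bool × ℝ)) :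
    SE f (l₁ ++ l₂) = SE f l₁ + SE f l₂ := by simp [SE]

/-- upper bound of a ratio of products -/
def LBs (k r : ℕ) (l : List (Bool × ℝ)) (V : ℝ) : Prop :=
  |SP k l| ≤ |SP r l| * Real.exp (-(V / 2 ^ 72))

def UBs (k r : ℕ) (l : List (Bool × ℝ)) (V : ℝ) : Prop :=
  |SP r l| * Real.exp (-(V / 2 ^ 72)) ≤ |SP k l|

section

variable {k r : ℕ}

theorem LBs.mono {l : List (Bool × ℝ)} {V V' : ℝ} (h : LBs k r l V) (hV : V' ≤ V) : LBs k r l V' := by
  refine le_trans h (mul_le_mul_of_nonneg_left (Real.exp_le_exp.2 ?_) (abs_nonneg _))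
  linarith

theorem UBs.mono {l : List (Bool × ℝ)} {V V' : ℝ} (h : UBs k r l V) (hV : V ≤ V') : UBs k r l V' := by
  refine le_trans (mul_le_mul_of_nonneg_left (Real.exp_le_exp.2 ?_) (abs_nonneg _)) h
  linarith

theorem LBs_nil : LBs k r [] 0 := by simp [LBs]

theorem UBs_nil : UBs k r [] 0 := by simp [UBs]

theorem exp_add72 (V W : ℝ) : Real.exp (-((V + W) / 2 ^ 72)) =
    Real.exp (-(V / 2 ^ 72)) * Real.exp (-(W / 2 ^ 72)) := by
  rw [← Real.exp_add]; congr 1; ring

theorem LBs_append {l₁ l₂ : List (Bool × ℝ)} {V W : ℝ} (h1 : LBs k r l₁ V) (h2 : LBs k r l₂ W) :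
    LBs k r (l₁ ++ l₂) (V + W) := by
  unfold LBs at *
  rw [SP_append, SP_append, abs_mul, abs_mul, exp_add72]
  calc |SP k l₁| * |SP k l₂| ≤ (|SP r l₁| * Real.exp (-(V / 2 ^ 72))) * (|SP r l₂| * Real.exp (-(W / 2 ^ 72))) :=
        mul_le_mul h1 h2 (abs_nonneg _) (by positivity)
    _ = _ := by ring

theorem UBs_append {l₁ l₂ : List (Bool × ℝ)} {V W : ℝ} (h1 : UBs k r l₁ V) (h2 : UBs k r l₂ W) :
    UBs k r (l₁ ++ l₂) (V + W) := by
  unfold UBs at *
  rw [SP_append, SP_append, abs_mul, abs_mul, exp_add72]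
  calc |SP r l₁| * |SP r l₂| * (Real.exp (-(V / 2 ^ 72)) * Real.exp (-(W / 2 ^ 72)))
      = (|SP r l₁| * Real.exp (-(V / 2 ^ 72))) * (|SP r l₂| * Real.exp (-(W / 2 ^ 72))) := by ring
    _ ≤ |SP k l₁| * |SP k l₂| := mul_le_mul h1 h2 (by positivity) (abs_nonneg _)

theorem LBs_true {E V : ℝ} (h : LB k r E V) : LBs k r [(true, E)] V := by
  simpa [LBs, fac, LB] using h

theorem LBs_false {E V : ℝ} (h : V ≤ 0) : LBs k r [(false, E)] V := by
  simp only [LBs, SP_cons, SP_nil, fac, mul_one]
  simp only [Bool.false_eq_true, if_false, abs_one, one_mul]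
  rw [Real.one_le_exp_iff]
  have : V / 2 ^ 72 ≤ 0 := div_nonpos_of_nonpos_of_nonneg h (by positivity)
  linarith

theorem UBs_true {E V : ℝ} (h : UB k r E V) : UBs k r [(true, E)] V := by
  simpa [UBs, fac, UB] using h

theorem UBs_false {E V : ℝ} (h : 0 ≤ V) : UBs k r [(false, E)] V := by
  simp only [UBs, SP_cons, SP_nil, fac, mul_one]
  simp only [Bool.false_eq_true, if_false, abs_one, one_mul]
  rw [Real.exp_le_one_iff]
  have : 0 ≤ V / 2 ^ 72 := by positivity
  linarith

/-- an explicit coordinate and its cell; `lg` says that the logarithmic bound holds -/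
def CellRel (x : Cell) (p : Bool × ℝ) : Prop :=
  p.1 = x.nu ∧ p.2 ∈ Icc ((25 * x.lo : ℕ) : ℝ) ((25 * x.hi : ℕ) : ℝ)

/-- the logarithmic bound at frequency `k` -/
def LogRel (k : ℕ) (x : Cell) (p : Bool × ℝ) : Prop :=
  x.nu = true → LB k 0 p.2 ((x.rho : ℝ) + lK k)

noncomputable def lin (a c : ℤ) (E : ℝ) : ℝ := (a : ℝ) * E + c * E ^ 2

theorem PW_LBs {nu : Bool} {a c : ℤ} {E w : ℝ} (h : PW k r nu a c E w) :
    LBs k r [(nu, E)] (lin a c E + w) := by
  cases nu
  · exact LBs_false h
  · exact LBs_true h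

theorem QW_UBs {nu : Bool} {L : ℕ} {a c : ℤ} {E w : ℝ} (hrk : r ≤ k) (hE : 0 ≤ E)
    (h : QW k r nu L a c E w) : UBs k r [(nu, E)] (lin a c E + w) := by
  cases nu
  · exact UBs_false h
  · obtain ⟨h1, h2, h3⟩ := h
    refine UBs_true ?_
    rcases h3 with h3 | h3
    · subst h3
      refine UB_of_nu hE (sinc_ne h2) ?_
      rw [← Ck.FF_zero_r]
      exact h1
    · subst h3
      exact UB_of_FF hrk hE (Ck.lt_pi_sq (Ck.E_lt (h2.2.1 rfl))) h1

theorem totLo_sound {q : Q} (hk : 1 ≤ k) (hrk : r ≤ k) :
    ∀ (xs : List Cell) (es : List (Bool × ℝ)) (w : ℤ), totLo k r q xs = some w →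
      List.Forall₂ CellRel xs es → List.Forall₂ (LogRel k) xs es →
      LBs k r es (SE (lin q.a q.c) es + w)
  | [], es, w, h, h1, h2 => by
    cases h1
    have : (0 : ℤ) = w := Option.some.inj h
    rw [← this]
    simpa using LBs_nil
  | x :: xs, es, w, h, h1, h2 => by
    cases h1 with
    | cons hx hxs =>
      cases h2 with
      | cons gx gxs =>
        rename_i p es
        rw [totLo] at h
        cases hc : cellLo k r x q.a q.c with
        | none => rw [hc] at h; cases h
        | some w1 =>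
          rw [hc] at h
          simp only at h
          cases ht : totLo k r q xs with
          | none => rw [ht] at h; cases h
          | some w2 =>
            rw [ht] at h
            simp only [fzi_eq] at h
            have hw := Option.some.inj h
            have a1 := cellLo_sound hk hrk hc hx.2 gx
            have a2 := totLo_sound hk hrk xs es w2 ht hxs gxs
            obtain ⟨b, E⟩ := p
            have hb : b = x.nu := hx.1
            rw [← hb] at a1
            have a3 := LBs_append (PW_LBs a1) a2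
            refine a3.mono (le_of_eq ?_)
            rw [SE_cons, ← hw]
            push_cast
            ring

theorem totHi_sound {q : Q} (hk : 1 ≤ k) (hrk : r ≤ k) :
    ∀ (xs : List (Cell × ℕ)) (es : List (Bool × ℝ)) (w : ℤ), totHi k r q xs = some w →
      List.Forall₂ (fun (x : Cell × ℕ) p => CellRel x.1 p) xs es → (∀ x ∈ xs, x.2 ≤ 6) →
      UBs k r es (SE (lin q.a q.c) es + w)
  | [], es, w, h, h1, h2 => by
    cases h1
    have : (0 : ℤ) = w := Option.some.inj h
    rw [← this]
    simpa using UBs_nil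
  | (x, L) :: xs, es, w, h, h1, h2 => by
    cases h1 with
    | cons hx hxs =>
      rename_i p es
      rw [totHi] at h
      cases hc : cellHi k r x q.a q.c L with
      | none => rw [hc] at h; cases h
      | some w1 =>
        rw [hc] at h
        simp only at h
        cases ht : totHi k r q xs with
        | none => rw [ht] at h; cases h
        | some w2 =>
          rw [ht] at h
          simp only [fzi_eq] at h
          have hw := Option.some.inj h
          have hL : L ≤ 6 := h2 (x, L) (by simp)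
          have a1 := cellHi_sound hk hrk hL hc hx.2
          have a2 := totHi_sound hk hrk xs es w2 ht hxs (fun y hy => h2 y (by simp [hy]))
          obtain ⟨b, E⟩ := p
          have hb : b = x.nu := hx.1
          have hE : 0 ≤ E := le_trans (Nat.cast_nonneg _) hx.2.1
          rw [← hb] at a1
          have a3 := UBs_append (QW_UBs hrk hE a1) a2
          refine a3.mono (le_of_eq ?_)
          rw [SE_cons, ← hw]
          push_cast
          ring

/-- the other coordinates -/
theorem rest_LBs {R : Rng} {ge : Bool} {q : Q} (h : LoLine k r R ge q) :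
    ∀ rest : List ℝ, (∀ E ∈ rest, E ∈ Icc (R.E0 : ℝ) R.E1) →
      LBs k r (rest.map (fun E => (true, E)))
        (rest.length * q.kap + SE (lin q.a q.c) (rest.map (fun E => (true, E))))
  | [], _ => by simpa using LBs_nil
  | E :: rest, hr => by
    have a1 := LBs_true (h.1 E (hr E (by simp)))
    have a2 := rest_LBs h rest (fun y hy => hr y (by simp [hy]))
    have a3 := LBs_append a1 a2
    refine a3.mono (le_of_eq ?_)
    rw [List.map_cons, SE_cons, List.length_cons]
    unfold qv lin
    push_cast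
    ring

theorem rest_UBs {R : Rng} {ge : Bool} {q : Q} (hrk : r ≤ k) (h : UpLine k r R ge q) :
    ∀ rest : List ℝ, (∀ E ∈ rest, E ∈ Icc (R.E0 : ℝ) R.E1) →
      UBs k r (rest.map (fun E => (true, E)))
        (rest.length * q.kap + SE (lin q.a q.c) (rest.map (fun E => (true, E))))
  | [], _ => by simpa using UBs_nil
  | E :: rest, hr => by
    obtain ⟨h1, h2⟩ := h.1 E (hr E (by simp))
    have a1 := UBs_true (UB_of_FF hrk h2.1 (Ck.lt_pi_sq (Ck.E_lt (h2.2.1 rfl))) h1)
    have a2 := rest_UBs hrk h rest (fun y hy => hr y (by simp [hy]))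
    have a3 := UBs_append a1 a2
    refine a3.mono (le_of_eq ?_)
    rw [List.map_cons, SE_cons, List.length_cons]
    unfold qv lin
    push_cast
    ring

theorem SE_lin (a c : ℤ) (l : List (Bool × ℝ)) :
    SE (lin a c) l = a * SE (fun E => E) l + c * SE (fun E => E ^ 2) l := by
  induction l with
  | nil => simp
  | cons p l ih =>
    rw [SE_cons, SE_cons, SE_cons, ih]
    unfold lin
    ring

/-- all the coordinates: explicit ones and the others -/
def allC (es : List (Bool × ℝ)) (rest : List ℝ) : List (Bool × ℝ) :=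
  es ++ rest.map (fun E => (true, E))

/-- value of an affine function at a real point -/
noncomputable def av (A : Aff) (s : ℝ) : ℝ := (A.C0 : ℝ) + A.C1 * s

theorem av_at (A : Aff) (s : ℤ) : av A s = ((A.at s : ℤ) : ℝ) := by
  unfold av Aff.at
  push_cast
  ring

theorem aff_val {m : ℕ} {ge : Bool} {q : Q} {w : ℤ} {es : List (Bool × ℝ)} {rest : List ℝ} {s : ℝ}
    (hm : ge = true → q.kap = 0) (hm2 : ge = false → m = rest.length)
    (hS1 : SE (fun E => E) (allC es rest) = 26214400)
    (hS2 : SE (fun E => E ^ 2) (allC es rest) = 655360000 * s) :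
    SE (lin q.a q.c) es + w + (rest.length * q.kap + SE (lin q.a q.c) (rest.map (fun E => (true, E)))) =
      av (affOf m q w) s := by
  have h3 := SE_lin q.a q.c (allC es rest)
  rw [hS1, hS2] at h3
  unfold allC at h3
  rw [SE_append] at h3
  have hk : (rest.length : ℝ) * q.kap = (m : ℝ) * q.kap := by
    cases ge
    · rw [hm2 rfl]
    · rw [hm rfl]; simp
  unfold av affOf
  simp only
  push_cast
  rw [hk]
  linarith

theorem affLo_sound {m : ℕ} {ge : Bool} {R : Rng} {xs : List Cell} {l : Line} {A : Aff}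
    (hk : 1 ≤ k) (hrk : r ≤ k) (h : affLo k r m ge R xs l = some A)
    {es : List (Bool × ℝ)} {rest : List ℝ} {s : ℝ}
    (h1 : List.Forall₂ CellRel xs es) (h2 : List.Forall₂ (LogRel k) xs es)
    (hr : ∀ E ∈ rest, E ∈ Icc (R.E0 : ℝ) R.E1) (hm : ge = false → m = rest.length)
    (hS1 : SE (fun E => E) (allC es rest) = 26214400)
    (hS2 : SE (fun E => E ^ 2) (allC es rest) = 655360000 * s) :
    LBs k r (allC es rest) (av A s) := by
  unfold affLo at h
  cases hl : lowLine k r R ge l with
  | none => rw [hl] at h; cases h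
  | some q =>
    rw [hl] at h
    simp only at h
    cases ht : totLo k r q xs with
    | none => rw [ht] at h; cases h
    | some w =>
      rw [ht] at h
      simp only at h
      have hA := Option.some.inj h
      have hL := lowLine_sound hk hrk hl
      have a1 := totLo_sound hk hrk xs es w ht h1 h2
      have a2 := rest_LBs hL rest hr
      refine (LBs_append a1 a2).mono (le_of_eq ?_)
      rw [← hA, aff_val hL.2 hm hS1 hS2]

theorem affHi_sound {m : ℕ} {ge : Bool} {R : Rng} {xs : List (Cell × ℕ)} {l : Line} {A : Aff}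
    (hk : 1 ≤ k) (hrk : r ≤ k) (h : affHi k r m ge R xs l = some A)
    {es : List (Bool × ℝ)} {rest : List ℝ} {s : ℝ}
    (h1 : List.Forall₂ (fun (x : Cell × ℕ) p => CellRel x.1 p) xs es) (h2 : ∀ x ∈ xs, x.2 ≤ 6)
    (hr : ∀ E ∈ rest, E ∈ Icc (R.E0 : ℝ) R.E1) (hm : ge = false → m = rest.length)
    (hS1 : SE (fun E => E) (allC es rest) = 26214400)
    (hS2 : SE (fun E => E ^ 2) (allC es rest) = 655360000 * s) :
    UBs k r (allC es rest) (av A s) := by
  unfold affHi at h
  cases hl : upLine k r R ge l with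
  | none => rw [hl] at h; cases h
  | some q =>
    rw [hl] at h
    simp only at h
    cases ht : totHi k r q xs with
    | none => rw [ht] at h; cases h
    | some w =>
      rw [ht] at h
      simp only at h
      have hA := Option.some.inj h
      have hL := upLine_sound hk hrk hl
      have a1 := totHi_sound hk hrk xs es w ht h1 h2
      have a2 := rest_UBs hrk hL rest hr
      refine (UBs_append a1 a2).mono (le_of_eq ?_)
      rw [← hA, aff_val hL.2 hm hS1 hS2]

end

end Pool.Agent.H60.SC
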