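import Pool.Agent.H60.SC.LogS
import Pool.Agent.H60.SC.Tot
import Pool.Agent.H60.SL.Rem
import Pool.Agent.H60.SL.Tele

/-!
# Remainders of the series
-/

set_option autoImplicit false

open Set Filter Topology

namespace Pool.Agent.H60.SC

open Pool.Agent.H60.SL
open Pool.Agent.H60.SL.Ck (nn le ex t1D t1F t1M t2D t2F expU expL expU_sound expL_sound LB zE allB allB_iff
  le_iff zE_nonneg zE_sq)
open Pool.Agent.H61.SC

/-! ## a convexity inequality -/

theorem rpow_am {x h q : ℝ} (hx : 0 < x) (h0 : 0 ≤ h) (hx2 : h < x) (hq : 0 < q) :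
    2 * x ^ (-q) ≤ (x - h) ^ (-q) + (x + h) ^ (-q) := by
  have h1 : 0 < x - h := by linarith
  have h2 : 0 < x + h := by linarith
  set A := (x - h) ^ (-q)
  set B := (x + h) ^ (-q)
  have hA : 0 < A := Real.rpow_pos_of_pos h1 _
  have hB : 0 < B := Real.rpow_pos_of_pos h2 _
  have hAB : (x ^ (-q)) ^ 2 ≤ A * B := by
    have e1 : A * B = ((x - h) * (x + h)) ^ (-q) := (Real.mul_rpow h1.le h2.le).symm
    have e2 : (x ^ (-q)) ^ 2 = (x * x) ^ (-q) := by
      rw [Real.mul_rpow hx.le hx.le, sq]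
    rw [e1, e2]
    apply Real.rpow_le_rpow_of_nonpos (by positivity) (by nlinarith) (by linarith)
  have hC : 0 < x ^ (-q) := Real.rpow_pos_of_pos hx _
  nlinarith [sq_nonneg (A - B)]

/-- `x^(-p-1) ≤ ∫_{x-1/2}^{x+1/2} y^(-p-1) dy` -/
theorem hermite {x p : ℝ} (hx : 1 ≤ x) (hp : 0 < p) :
    x ^ (-(p + 1)) ≤ 1 / p * (x - 1 / 2) ^ (-p) - 1 / p * (x + 1 / 2) ^ (-p) := by
  have hmono : MonotoneOn (fun h : ℝ => (x - h) ^ (-p) - (x + h) ^ (-p) - 2 * p * x ^ (-(p + 1)) * h)
      (Icc 0 (1 / 2)) := by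
    have hd : ∀ h ∈ Icc (0 : ℝ) (1 / 2), HasDerivAt
        (fun h : ℝ => (x - h) ^ (-p) - (x + h) ^ (-p) - 2 * p * x ^ (-(p + 1)) * h)
        (p * (x - h) ^ (-(p + 1)) + p * (x + h) ^ (-(p + 1)) - 2 * p * x ^ (-(p + 1))) h := by
      intro h hh
      have h1 : x - h ≠ 0 := by linarith [hh.2]
      have h2 : x + h ≠ 0 := by linarith [hh.1]
      have d1 : HasDerivAt (fun h : ℝ => x - h) (-1) h := by
        simpa using (hasDerivAt_id h).const_sub x
      have d2 : HasDerivAt (fun h : ℝ => x + h) 1 h := by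
        simpa using (hasDerivAt_id h).const_add x
      have e1 := d1.rpow_const (p := -p) (Or.inl h1)
      have e2 := d2.rpow_const (p := -p) (Or.inl h2)
      have e3 := ((e1.sub e2).sub ((hasDerivAt_id h).const_mul (2 * p * x ^ (-(p + 1)))))
      refine e3.congr_deriv ?_
      have e4 : -p - 1 = -(p + 1) := by ring
      rw [e4]
      ring
    apply monotoneOn_of_deriv_nonneg (convex_Icc _ _)
    · intro h hh
      exact (hd h hh).continuousAt.continuousWithinAt
    · intro h hh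
      rw [interior_Icc] at hh
      exact (hd h ⟨hh.1.le, hh.2.le⟩).differentiableAt.differentiableWithinAt
    · intro h hh
      rw [interior_Icc] at hh
      rw [(hd h ⟨hh.1.le, hh.2.le⟩).deriv]
      have := rpow_am (x := x) (h := h) (q := p + 1) (by linarith) hh.1.le (by linarith [hh.2]) (by linarith)
      nlinarith
  have h1 := hmono (left_mem_Icc.2 (by norm_num)) (right_mem_Icc.2 (by norm_num)) (by norm_num : (0 : ℝ) ≤ 1 / 2)
  simp only [sub_zero, add_zero, sub_self, mul_zero] at h1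
  have e : 1 / p * (x - 1 / 2) ^ (-p) - 1 / p * (x + 1 / 2) ^ (-p) =
      ((x - 1 / 2) ^ (-p) - (x + 1 / 2) ^ (-p)) / p := by ring
  rw [e, le_div_iff₀ hp]
  linarith

/-- tails of power series -/
theorem tail_rpow {f : ℕ → ℝ} {S : ℝ} (h : HasSum f S) (K : ℕ) {C p : ℝ} (hC : 0 ≤ C) (hp : 0 < p)
    (hb : ∀ k, K ≤ k → |f k| ≤ C * ((k : ℝ) + 1) ^ (-(p + 1))) :
    |S - ∑ k ∈ Finset.range K, f k| ≤ C / p * ((K : ℝ) + 1 / 2) ^ (-p) := by
  apply tail_telescope h K (g := fun k : ℕ => C / p * ((k : ℝ) + 1 / 2) ^ (-p))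
  · have h1 : Tendsto (fun x : ℝ => x ^ (-p)) atTop (𝓝 0) := tendsto_rpow_neg_atTop hp
    have h2 : Tendsto (fun k : ℕ => (k : ℝ) + 1 / 2) atTop atTop :=
      tendsto_atTop_add_const_right _ _ tendsto_natCast_atTop_atTop
    have h3 := (h1.comp h2).const_mul (C / p)
    rw [mul_zero] at h3
    exact h3
  · intro k hk
    refine (hb k hk).trans ?_
    have h1 := hermite (x := (k : ℝ) + 1) (p := p) (by linarith [(Nat.cast_nonneg k : (0 : ℝ) ≤ k)]) hp
    have h2 := mul_le_mul_of_nonneg_left h1 hC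
    refine h2.trans (le_of_eq ?_)
    have e1 : (k : ℝ) + 1 - 1 / 2 = k + 1 / 2 := by ring
    have e2 : (k : ℝ) + 1 + 1 / 2 = ((k + 1 : ℕ) : ℝ) + 1 / 2 := by push_cast; ring
    rw [e1, e2]
    ring

theorem exp_log_rpow {x p : ℝ} (hx : 0 < x) : x ^ (-p) = Real.exp (-(p * Real.log x)) := by
  rw [Real.rpow_def_of_pos hx]; congr 1; ring

/-! ## the explicit part -/

theorem fac_abs_le (k : ℕ) (p : Bool × ℝ) : |fac k p| ≤ 1 := by
  unfold fac
  split
  · exact Real.abs_sinc_le_one _
  · simp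

/-- validity of the logarithms of the cells -/
def RhoRel (x : Cell) : Prop := rhoOK (25 * x.lo) x.rho = true

theorem remGo_sound {lx : ℤ} (hlx : lx < 18889465931478580854784) :
    ∀ (xs : List Cell) (es : List (Bool × ℝ)), List.Forall₂ CellRel xs es → (∀ x ∈ xs, RhoRel x) →
      (∀ x ∈ xs, x.nu = true) → ∀ k : ℕ, 1 ≤ k →
      |SP k es| ≤ Real.exp (-((((remGo lx xs).1 : ℝ) - (remGo lx xs).2 * lx) / 2 ^ 72 +
        (remGo lx xs).2 * Real.log k))
  | [], es, h1, _, _, k, hk => by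
    cases h1
    simp [remGo]
  | x :: xs, es, h1, h2, h3, k, hk => by
    cases h1 with
    | cons hx hxs =>
      rename_i p es
      have ih := remGo_sound hlx xs es hxs (fun y hy => h2 y (by simp [hy])) (fun y hy => h3 y (by simp [hy]))
        k hk
      obtain ⟨b, E⟩ := p
      have hb : b = true := hx.1.trans (h3 x (by simp))
      rw [remGo]
      cases hrem : remGo lx xs with
      | mk R e =>
      rw [hrem] at ih
      simp only at ih ⊢
      rw [SP_cons, abs_mul]
      cases hc : le 0 (x.rho + lx)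
      · rw [cond_false]
        calc |fac k (b, E)| * |SP k es| ≤ 1 * |SP k es| :=
              mul_le_mul_of_nonneg_right (fac_abs_le _ _) (abs_nonneg _)
          _ ≤ _ := by rw [one_mul]; exact ih
      · rw [cond_true]
        simp only
        have hr := rhoOK_E (h2 x (by simp)) hlx (le_iff.1 hc)
        obtain ⟨hE, hlog⟩ := rho_log hr hx.2.1
        have h4 := sinc_le_log hk hE hlog
        have h5 : |fac k (b, E)| ≤ Real.exp (-((x.rho : ℝ) / 2 ^ 72 + Real.log k)) := by
          unfold fac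
          rw [if_pos hb]
          exact h4
        calc |fac k (b, E)| * |SP k es|
            ≤ Real.exp (-((x.rho : ℝ) / 2 ^ 72 + Real.log k)) *
              Real.exp (-(((R : ℝ) - e * lx) / 2 ^ 72 + e * Real.log k)) :=
              mul_le_mul h5 ih (abs_nonneg _) (Real.exp_pos _).le
          _ = Real.exp (-((((R + (x.rho + lx) : ℤ) : ℝ) - ((e + 1 : ℕ) : ℝ) * lx) / 2 ^ 72 +
              ((e + 1 : ℕ) : ℝ) * Real.log k)) := by
              rw [← Real.exp_add]
              congr 1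
              push_cast
              ring

/-- the explicit coordinates take at most `sumHi` -/
theorem sumHi_sound : ∀ (xs : List Cell) (es : List (Bool × ℝ)), List.Forall₂ CellRel xs es →
    SE (fun E => E) es ≤ 25 * (sumHi xs : ℝ)
  | [], es, h => by cases h; simp [sumHi]
  | x :: xs, es, h => by
    cases h with
    | cons hx hxs =>
      have ih := sumHi_sound xs _ hxs
      rw [SE_cons, sumHi]
      have := hx.2.2
      push_cast at this ⊢
      linarith

theorem rest_prod' {cap : ℕ} (hcap : 0 < cap) {k : ℕ} (hk : 1 ≤ k)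
    (hk2 : 2.2 ≤ zE (25 * cap : ℕ) * k) :
    ∀ rest : List ℝ, (∀ E ∈ rest, 0 ≤ E) → (∀ E ∈ rest, E ≤ ((25 * cap : ℕ) : ℝ)) →
    |SP k (rest.map (fun E => (true, E)))| ≤
      Real.exp (-(SE (fun E => E) (rest.map (fun E => (true, E))) / (25 * cap) *
        Real.log (zE (25 * cap : ℕ) * k)))
  | [], _, _ => by simp
  | E :: rest, h0, h1 => by
    have ih := rest_prod' hcap hk hk2 rest (fun y hy => h0 y (by simp [hy])) (fun y hy => h1 y (by simp [hy]))
    have hE0 := h0 E (by simp)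
    have hE1 := h1 E (by simp)
    have hk0 : (0 : ℝ) < k := by exact_mod_cast hk
    have hcap' : (0 : ℝ) < cap := by exact_mod_cast hcap
    have hz : 0 < zE (25 * cap : ℕ) := zE_pos (by push_cast; positivity)
    have h2 := sinc_rem (z := k * zE E) (Z := zE (25 * cap : ℕ) * k) (mul_nonneg hk0.le (zE_nonneg _))
      (by rw [mul_comm]; exact mul_le_mul_of_nonneg_right (zE_le hE1) hk0.le) hk2
    have e1 : (k * zE E) ^ 2 / (zE (25 * cap : ℕ) * k) ^ 2 = E / (25 * cap) := by
      rw [mul_pow, mul_pow, zE_sq hE0, zE_sq (Nat.cast_nonneg _)]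
      push_cast
      field_simp
    rw [e1] at h2
    rw [List.map_cons, SP_cons, SE_cons, abs_mul]
    have e2 : |fac k (true, E)| = |Real.sinc (k * zE E)| := by simp [fac]
    rw [e2]
    calc |Real.sinc (k * zE E)| * |SP k (rest.map (fun E => (true, E)))|
        ≤ Real.exp (-(E / (25 * cap) * Real.log (zE (25 * cap : ℕ) * k))) *
          Real.exp (-(SE (fun E => E) (rest.map (fun E => (true, E))) / (25 * cap) *
            Real.log (zE (25 * cap : ℕ) * k))) :=
          mul_le_mul h2 ih (abs_nonneg _) (Real.exp_pos _).le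
      _ = _ := by
          rw [← Real.exp_add]
          congr 1
          ring

theorem rest_prod {cap : ℕ} (hcap : 0 < cap) {rc : ℝ} (hrc : rc ≤ Real.log (zE (25 * cap : ℕ)))
    {rest : List ℝ} (hr0 : ∀ E ∈ rest, 0 ≤ E) (hr : ∀ E ∈ rest, E ≤ ((25 * cap : ℕ) : ℝ)) {N : ℕ}
    (hN : 25 * (N : ℝ) ≤ SE (fun E => E) (rest.map (fun E => (true, E)))) {k : ℕ} (hk : 1 ≤ k)
    (hk2 : 2.2 ≤ zE (25 * cap : ℕ) * k) :
    |SP k (rest.map (fun E => (true, E)))| ≤ Real.exp (-((N : ℝ) / cap * (rc + Real.log k))) := by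
  have hk0 : (0 : ℝ) < k := by exact_mod_cast hk
  have hcap' : (0 : ℝ) < cap := by exact_mod_cast hcap
  have hz : 0 < zE (25 * cap : ℕ) := zE_pos (by push_cast; positivity)
  refine (rest_prod' hcap hk hk2 rest hr0 hr).trans (Real.exp_le_exp.2 ?_)
  have hlog : Real.log (zE (25 * cap : ℕ) * k) = Real.log (zE (25 * cap : ℕ)) + Real.log k :=
    Real.log_mul hz.ne' hk0.ne'
  have hpos : 0 ≤ Real.log (zE (25 * cap : ℕ) * k) := Real.log_nonneg (by linarith)
  have h3 : (N : ℝ) / cap ≤ SE (fun E => E) (rest.map (fun E => (true, E))) / (25 * cap) := by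
    rw [div_le_div_iff₀ hcap' (by positivity)]
    nlinarith
  have h4 : (N : ℝ) / cap * (rc + Real.log k) ≤ (N : ℝ) / cap * Real.log (zE (25 * cap : ℕ) * k) := by
    rw [hlog]
    exact mul_le_mul_of_nonneg_left (by linarith) (by positivity)
  have h5 := mul_le_mul_of_nonneg_right h3 hpos
  linarith

/-- the condition on the smallest frequency -/
theorem cap_cond {E c2 : ℕ} {c : ℝ} (hc : (c2 : ℝ) = (20 * c) ^ 2) (hc0 : 0 < c)
    (h : 32480690176 ≤ E * c2) : 2.2 ≤ zE (E : ℕ) * c := by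
  have h1 : ((32480690176 : ℕ) : ℝ) ≤ ((E * c2 : ℕ) : ℝ) := by exact_mod_cast h
  push_cast at h1
  rw [hc] at h1
  have h2 : (2.2 : ℝ) ^ 2 ≤ (zE (E : ℕ) * c) ^ 2 := by
    rw [mul_pow, zE_sq (Nat.cast_nonneg _)]
    norm_num
    linarith
  exact (pow_le_pow_iff_left₀ (by norm_num) (mul_nonneg (zE_nonneg _) hc0.le) (by norm_num : (2 : ℕ) ≠ 0)).1 h2

theorem remT_sound {cap : ℕ} {rc : ℤ} {xs : List Cell} {rem : ℕ} (hcap : 0 < cap)
    (h : remT cap rc xs = some rem) {es : List (Bool × ℝ)} {rest : List ℝ}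
    (h1 : List.Forall₂ CellRel xs es) (h2 : ∀ x ∈ xs, RhoRel x) (h3 : ∀ x ∈ xs, x.nu = true)
    (hr0 : ∀ E ∈ rest, 0 ≤ E) (hr : ∀ E ∈ rest, E ≤ ((25 * cap : ℕ) : ℝ))
    (hS1 : SE (fun E => E) (allC es rest) = 26214400) {f : ℕ → ℝ} {S : ℝ} (hf : HasSum f S)
    (hb : ∀ k, 20 ≤ k → |f k| ≤ |SP (k + 1) (allC es rest)| / ((k : ℝ) + 1)) :
    |S - ∑ k ∈ Finset.range 20, f k| ≤ rem / 2 ^ 60 := by
  unfold remT at h
  rw [fz_eq] at h
  set N := 1048576 - sumHi xs with hN
  have hex := remGo_sound (lx := lxT) (by decide) xs es h1 h2 h3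
  cases hrem : remGo lxT xs with
  | mk R e =>
  rw [hrem] at h hex
  simp only at h hex
  cases hR : R + ((N : ℤ) * (rc + lxT)) / (cap : ℤ) with
  | negSucc a => rw [hR] at h; cases h
  | ofNat R' =>
    rw [hR] at h
    simp only at h
    obtain ⟨hc, hv⟩ := bif_some h
    simp only [Bool.and_eq_true] at hc
    obtain ⟨⟨c1, c2⟩, c3⟩ := hc
    have hcap' : (0 : ℝ) < cap := by exact_mod_cast hcap
    obtain ⟨-, hrc⟩ := rho_log c2 (E := ((25 * cap : ℕ) : ℝ)) le_rfl
    have hq : 1 ≤ e * cap + N := ble_true c3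
    have hq' : (0 : ℝ) < e * cap + N := by exact_mod_cast hq
    set p : ℝ := e + N / cap with hp
    have hp0 : 0 < p := by
      have : p = (e * cap + N) / cap := by rw [hp]; field_simp
      rw [this]
      positivity
    have hNr : 25 * (N : ℝ) ≤ SE (fun E => E) (rest.map (fun E => (true, E))) := by
      have a1 := sumHi_sound xs es h1
      unfold allC at hS1
      rw [SE_append] at hS1
      have a2 : (0 : ℝ) ≤ SE (fun E => E) (rest.map (fun E => (true, E))) := by
        unfold SE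
        apply List.sum_nonneg
        intro x hx
        simp only [List.map_map, List.mem_map, Function.comp] at hx
        obtain ⟨E, hE, rfl⟩ := hx
        exact hr0 E hE
      rcases le_total (sumHi xs) 1048576 with h9 | h9
      · rw [hN, Nat.cast_sub h9]
        push_cast
        linarith
      · have : N = 0 := by omega
        rw [this]
        simpa using a2
    set C : ℝ := Real.exp (-(((R : ℝ) - e * lxT) / 2 ^ 72 + (N : ℝ) / cap * (rc / 2 ^ 72))) with hC
    have hbound : ∀ k : ℕ, 21 ≤ k → |SP k (allC es rest)| ≤ C * (k : ℝ) ^ (-p) := by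
      intro k hk
      have hk0 : (0 : ℝ) < k := by exact_mod_cast (by omega : 0 < k)
      have hk21 : (41 / 2 : ℝ) ≤ k := by
        have : ((21 : ℕ) : ℝ) ≤ k := by exact_mod_cast hk
        push_cast at this
        linarith
      have hk2 : 2.2 ≤ zE (25 * cap : ℕ) * k := by
        have := cap_cond (c2 := 168100) (c := 41 / 2) (by norm_num) (by norm_num) (ble_true c1)
        exact this.trans (mul_le_mul_of_nonneg_left hk21 (zE_nonneg _))
      have g1 := hex k (by omega)
      have g2 := rest_prod hcap hrc hr0 hr hNr (k := k) (by omega) hk2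
      unfold allC
      rw [SP_append, abs_mul]
      refine (mul_le_mul g1 g2 (abs_nonneg _) (Real.exp_pos _).le).trans (le_of_eq ?_)
      rw [← Real.exp_add, hC, exp_log_rpow hk0, ← Real.exp_add]
      congr 1
      rw [hp]
      ring
    have hC0 : 0 < C := Real.exp_pos _
    have ht := tail_rpow hf 20 hC0.le hp0 (by
      intro k hk
      have hk1 : (0 : ℝ) < (k : ℝ) + 1 := by positivity
      have g := hbound (k + 1) (by omega)
      push_cast at g
      refine (hb k hk).trans ?_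
      have e1 : ((k : ℝ) + 1) ^ (-(p + 1)) = ((k : ℝ) + 1) ^ (-p) / ((k : ℝ) + 1) := by
        have : -(p + 1) = -p - 1 := by ring
        rw [this, Real.rpow_sub_one hk1.ne']
      rw [e1, mul_div_assoc']
      exact div_le_div_of_nonneg_right g hk1.le)
    refine ht.trans ?_
    -- the value
    have hlx := lxT_log
    have h9 : C * ((20 : ℕ) + 1 / 2 : ℝ) ^ (-p) ≤ Real.exp (-(R' : ℝ) / 2 ^ 72) := by
      have e1 : ((20 : ℕ) + 1 / 2 : ℝ) = 41 / 2 := by norm_num
      rw [e1, exp_log_rpow (by norm_num), hC, ← Real.exp_add]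
      apply Real.exp_le_exp.2
      have h10 : (R' : ℝ) ≤ R + (N : ℝ) * (rc + lxT) / cap := by
        have h11 := ediv_real_le ((N : ℤ) * (rc + lxT)) hcap
        have h12 : ((R + ((N : ℤ) * (rc + lxT)) / (cap : ℤ) : ℤ) : ℝ) = (R' : ℝ) := by
          rw [hR]; simp
        rw [← h12]
        push_cast at h11 ⊢
        linarith
      have h13 : (e + (N : ℝ) / cap) * (lxT / 2 ^ 72) ≤ p * Real.log (41 / 2) := by
        rw [hp]
        exact mul_le_mul_of_nonneg_left hlx hp0.le
      have e2 : -(R' : ℝ) / 2 ^ 72 = -((R' : ℝ) / 2 ^ 72) := by ring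
      rw [e2]
      have h14 : (R' : ℝ) / 2 ^ 72 ≤ (R + (N : ℝ) * (rc + lxT) / cap) / 2 ^ 72 :=
        div_le_div_of_nonneg_right h10 (by positivity)
      have e3 : (R + (N : ℝ) * (rc + lxT) / cap) / 2 ^ 72 =
          (((R : ℝ) - e * lxT) / 2 ^ 72 + (N : ℝ) / cap * (rc / 2 ^ 72)) +
            (e + (N : ℝ) / cap) * (lxT / 2 ^ 72) := by
        field_simp
        ring
      rw [e3] at h14
      linarith
    have h15 := expU_sound R'
    have e4 : C / p * ((20 : ℕ) + 1 / 2 : ℝ) ^ (-p) = C * ((20 : ℕ) + 1 / 2 : ℝ) ^ (-p) / p := by ring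
    rw [e4]
    have e5 : p = (e * cap + N) / cap := by rw [hp]; field_simp
    have h16 : (expU R' : ℝ) * cap / (e * cap + N) ≤ rem := by
      rw [← hv]
      have h17 := Nat.lt_div_mul_add (a := expU R' * cap) hq
      have h18 : ((expU R' * cap : ℕ) : ℝ) ≤
          ((expU R' * cap / (e * cap + N) * (e * cap + N) + (e * cap + N) : ℕ) : ℝ) := by
        exact_mod_cast h17.le
      generalize expU R' * cap / (e * cap + N) = z at *
      push_cast at h18 ⊢
      rw [div_le_iff₀ hq']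
      nlinarith
    have h19 : (2 : ℝ) ^ 60 * (C * ((20 : ℕ) + 1 / 2 : ℝ) ^ (-p) / p) ≤ rem := by
      have h20 : (2 : ℝ) ^ 60 * (C * ((20 : ℕ) + 1 / 2 : ℝ) ^ (-p)) ≤ expU R' := by
        refine le_trans (mul_le_mul_of_nonneg_left h9 (by positivity)) h15
      refine le_trans ?_ h16
      have h21 : (2 : ℝ) ^ 60 * (C * ((20 : ℕ) + 1 / 2 : ℝ) ^ (-p) / p) =
          (2 ^ 60 * (C * ((20 : ℕ) + 1 / 2 : ℝ) ^ (-p))) / p := by ring
      have hne : (e : ℝ) * cap + N ≠ 0 := hq'.ne'
      have h22 : (expU R' : ℝ) * cap / (e * cap + N) * p = expU R' := by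
        rw [e5, div_mul_div_comm, div_eq_iff (mul_ne_zero hne hcap'.ne')]
        ring
      rw [h21, div_le_iff₀ hp0, h22]
      exact h20
    rw [le_div_iff₀ (by positivity)]
    linarith

end Pool.Agent.H60.SC
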