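import Pool.Agent.H60.SC.PKFac
import Pool.Agent.H60.SC.RemS

/-!
# The `P` leaves: the remainder
-/

set_option autoImplicit false

open Set Filter Topology

namespace Pool.Agent.H60.SC

open Pool.Agent.H60.SL
open Pool.Agent.H64.Slab Pool.Agent.H60.Slab Pool.Agent.H60.Big
open Pool.Agent.H60.SL.Ck (nn le ex t1D t1F t1M t2D t2F expU expL expU_sound expL_sound LB zE allB allB_iff
  le_iff zE_nonneg zE_sq InL )
open Pool.Agent.H61.SC

theorem remGoP_sound {lx : ℤ} (hlx : lx < 18889465931478580854784) :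
    ∀ (xs : List Cell) (es : List (Bool × ℝ)), List.Forall₂ CellRel xs es →
      (∀ x ∈ xs, x.nu = true → RhoRel x) → ∀ k : ℕ, 1 ≤ k →
      |SP k es| ≤ Real.exp (-((((remGoP lx xs).1 : ℝ) - (remGoP lx xs).2 * lx) / 2 ^ 72 +
        (remGoP lx xs).2 * Real.log k))
  | [], es, h1, _, k, hk => by
    cases h1
    simp [remGoP]
  | x :: xs, es, h1, h2, k, hk => by
    cases h1 with
    | cons hx hxs =>
      rename_i p es
      have ih := remGoP_sound hlx xs es hxs (fun y hy => h2 y (by simp [hy])) k hk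
      obtain ⟨b, E⟩ := p
      rw [remGoP]
      cases hrem : remGoP lx xs with
      | mk R e =>
      rw [hrem] at ih
      simp only at ih ⊢
      rw [SP_cons, abs_mul]
      cases hc : (x.nu && le 0 (x.rho + lx))
      · rw [cond_false]
        calc |fac k (b, E)| * |SP k es| ≤ 1 * |SP k es| :=
              mul_le_mul_of_nonneg_right (fac_abs_le _ _) (abs_nonneg _)
          _ ≤ _ := by rw [one_mul]; exact ih
      · rw [cond_true]
        rw [Bool.and_eq_true] at hc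
        have hb : b = true := hx.1.trans hc.1
        simp only
        have hr := rhoOK_E (h2 x (by simp) hc.1) hlx (le_iff.1 hc.2)
        obtain ⟨hE, hlog⟩ := rho_log hr hx.2.1
        have h4 := sinc_le_log hk hE hlog
        have h5 : |fac k (b, E)| ≤ Real.exp (-((x.rho : ℝ) / 2 ^ 72 + Real.log k)) := by
          unfold fac
          rw [if_pos hb]
          exact h4
        calc |fac k (b, E)| * |SP k es|
            ≤ Real.exp (-((x.rho : ℝ) / 2 ^ 72 + Real.log k)) *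
              Real.exp (-(((R : ℝ) - e * lx) / 2 ^ 72 + e * Real.log k)) :=
              mul_le_mul h5 ih (abs_nonneg _) (Real.exp_pos _).le
          _ = Real.exp (-((((R + (x.rho + lx) : ℤ) : ℝ) - ((e + 1 : ℕ) : ℝ) * lx) / 2 ^ 72 +
              ((e + 1 : ℕ) : ℝ) * Real.log k)) := by
              rw [← Real.exp_add]
              congr 1
              push_cast
              ring

/-- tail of a series with geometric-logarithmic bounds -/
theorem tail_gen {f : ℕ → ℝ} {S : ℝ} (hf : HasSum f S) {X Y p0 m A kc : ℝ} (hp : 0 < p0 + m - 3)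
    (hA : 0 ≤ A) (hkc : 0 ≤ kc)
    (hb : ∀ k : ℕ, 32 ≤ k → |f k| ≤ A * (((k : ℝ) + 1) ^ 2 * Real.exp (-(X + p0 * Real.log ((k : ℝ) + 1))) *
      (kc * Real.exp (-(Y + m * Real.log ((k : ℝ) + 1)))))) :
    |S - ∑ k ∈ Finset.range 32, f k| ≤ A * kc * (65 / 2) ^ 3 / (p0 + m - 3) *
      Real.exp (-(X + Y + (p0 + m) * Real.log (65 / 2))) := by
  have ht := tail_rpow hf 32 (C := A * kc * Real.exp (-(X + Y))) (p := p0 + m - 3)
    (mul_nonneg (mul_nonneg hA hkc) (Real.exp_pos _).le) hp (by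
      intro k hk
      refine (hb k hk).trans (le_of_eq ?_)
      have hk1 : (0 : ℝ) < (k : ℝ) + 1 := by positivity
      rw [exp_log_rpow hk1]
      have e2 : ((k : ℝ) + 1) ^ 2 = Real.exp (2 * Real.log ((k : ℝ) + 1)) := by
        rw [two_mul, Real.exp_add, Real.exp_log hk1]; ring
      rw [e2]
      have e3 : A * (Real.exp (2 * Real.log ((k : ℝ) + 1)) * Real.exp (-(X + p0 * Real.log ((k : ℝ) + 1))) *
          (kc * Real.exp (-(Y + m * Real.log ((k : ℝ) + 1))))) =
          A * kc * (Real.exp (2 * Real.log ((k : ℝ) + 1)) * Real.exp (-(X + p0 * Real.log ((k : ℝ) + 1))) *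
          Real.exp (-(Y + m * Real.log ((k : ℝ) + 1)))) := by ring
      rw [e3, ← Real.exp_add, ← Real.exp_add, mul_assoc (A * kc), ← Real.exp_add]
      congr 2
      ring)
  refine ht.trans (le_of_eq ?_)
  have e1 : ((32 : ℕ) : ℝ) + 1 / 2 = 65 / 2 := by norm_num
  rw [e1, exp_log_rpow (by norm_num)]
  have h65 : ((65 : ℝ) / 2) ^ 3 = Real.exp (3 * Real.log (65 / 2)) := by
    rw [show (3 : ℝ) = 1 + 1 + 1 by norm_num, add_mul, add_mul, one_mul, Real.exp_add, Real.exp_add,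
      Real.exp_log (by norm_num)]
    norm_num
  have e4 : A * kc * Real.exp (-(X + Y)) / (p0 + m - 3) * Real.exp (-((p0 + m - 3) * Real.log (65 / 2))) =
      A * kc / (p0 + m - 3) * (Real.exp (-(X + Y)) * Real.exp (-((p0 + m - 3) * Real.log (65 / 2)))) := by ring
  have e5 : A * kc * (65 / 2) ^ 3 / (p0 + m - 3) * Real.exp (-(X + Y + (p0 + m) * Real.log (65 / 2))) =
      A * kc / (p0 + m - 3) * ((65 / 2) ^ 3 * Real.exp (-(X + Y + (p0 + m) * Real.log (65 / 2)))) := by ring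
  rw [e4, e5, h65, ← Real.exp_add, ← Real.exp_add]
  congr 2
  ring

/-- powers of the inverse -/
theorem inv_pow_le {k : ℕ} (hk : 1 ≤ k) {E rho : ℝ} (hE : 0 < E) (h : rho ≤ Real.log (zE E)) (n : ℕ) :
    1 / (k * zE E) ^ n ≤ Real.exp (-(n * (rho + Real.log k))) := by
  have hk0 : (0 : ℝ) < k := by exact_mod_cast hk
  have hz := zE_pos hE
  have h1 : (0 : ℝ) < (k * zE E) ^ n := by positivity
  rw [Real.exp_neg, one_div, inv_le_inv₀ h1 (Real.exp_pos _)]
  have e : Real.exp (n * (rho + Real.log k)) = (Real.exp (rho + Real.log k)) ^ n := by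
    rw [← Real.exp_nat_mul]
  rw [e]
  apply pow_le_pow_left₀ (Real.exp_pos _).le
  rw [Real.exp_add, Real.exp_log hk0, mul_comm (k : ℝ)]
  apply mul_le_mul_of_nonneg_right _ hk0.le
  exact (Real.le_log_iff_exp_le hz).1 h

theorem Kk_mode1 {k : ℕ} (hk : 1 ≤ k) {E G rA : ℝ} (hE : 0 < E) (h : rA ≤ Real.log (zE E)) :
    |Kk k E G| ≤ 17 * Real.exp (-(3 * rA + 3 * Real.log k)) := by
  have hk0 : (0 : ℝ) < k := by exact_mod_cast hk
  have hz := zE_pos hE
  have h1 := KI_decay (u := k * zE E) (v := k * zE G) (by positivity)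
    (mul_nonneg hk0.le (zE_nonneg _))
  have h2 := inv_pow_le hk hE h 3
  unfold Kk
  refine h1.trans ?_
  have e : (17 : ℝ) / (k * zE E) ^ 3 = 17 * (1 / (k * zE E) ^ 3) := by ring
  rw [e]
  apply mul_le_mul_of_nonneg_left _ (by norm_num)
  refine h2.trans (le_of_eq ?_)
  congr 1
  push_cast
  ring

theorem Kk_mode2 {k : ℕ} (hk : 1 ≤ k) {E G rA rG : ℝ} (hE : 0 < E) (hG : 0 < G)
    (h : rA ≤ Real.log (zE E)) (h' : rG ≤ Real.log (zE G)) (hu : 3 ≤ k * zE E) (hv : 3 ≤ k * zE G) :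
    |Kk k E G| ≤ 26 * Real.exp (-(2 * rA + 2 * rG + 4 * Real.log k)) := by
  have hk0 : (0 : ℝ) < k := by exact_mod_cast hk
  have hz := zE_pos hE
  have hz' := zE_pos hG
  have h1 := KI_abs_le25 hu hv
  have h2 := inv_pow_le hk hE h 2
  have h3 := inv_pow_le hk hG h' 2
  unfold Kk
  refine h1.trans ?_
  have e : (25 : ℝ) / ((k * zE E) ^ 2 * (k * zE G) ^ 2) = 25 * (1 / (k * zE E) ^ 2 * (1 / (k * zE G) ^ 2)) := by
    field_simp
  rw [e]
  have h4 : 1 / (k * zE E) ^ 2 * (1 / (k * zE G) ^ 2) ≤ Real.exp (-(2 * rA + 2 * rG + 4 * Real.log k)) := by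
    refine (mul_le_mul h2 h3 (by positivity) (Real.exp_pos _).le).trans (le_of_eq ?_)
    rw [← Real.exp_add]
    congr 1
    push_cast
    ring
  have h5 := Real.exp_pos (-(2 * rA + 2 * rG + 4 * Real.log k))
  linarith

/-- the data common to all modes: coordinates beyond `32` -/
theorem SP_dec {cap N : ℕ} (hcap : 0 < cap) {rc : ℤ} {xs : List Cell} {es : List (Bool × ℝ)}
    {rest : List ℝ} (h1 : List.Forall₂ CellRel xs es) (h2 : ∀ x ∈ xs, x.nu = true → RhoRel x)
    (hr0 : ∀ E ∈ rest, 0 ≤ E) (hr : ∀ E ∈ rest, E ≤ ((25 * cap : ℕ) : ℝ))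
    (hS1 : SE (fun E => E) (allC es rest) = 26214400) (hN : N = 1048576 - sumHi xs)
    (c1 : Nat.ble 32480690176 (25 * cap * 422500) = true) (c2 : rhoE (25 * cap) rc = true)
    {R : ℤ} {e : ℕ} (hrem : remGoP lxP xs = (R, e)) {k : ℕ} (hk : 33 ≤ k) :
    |SP k (allC es rest)| ≤ Real.exp (-((((R : ℝ) - e * lxP) / 2 ^ 72 + (N : ℝ) / cap * (rc / 2 ^ 72)) +
      (e + N / cap) * Real.log k)) := by
  have hcap' : (0 : ℝ) < cap := by exact_mod_cast hcap
  obtain ⟨-, hrc⟩ := rho_log c2 (E := ((25 * cap : ℕ) : ℝ)) le_rfl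
  have hNr : 25 * (N : ℝ) ≤ SE (fun E => E) (rest.map (fun E => (true, E))) := by
    have a1 := sumHi_sound xs es h1
    unfold allC at hS1
    rw [SE_append] at hS1
    have a2 : (0 : ℝ) ≤ SE (fun E => E) (rest.map (fun E => (true, E))) := by
      unfold SE
      apply List.sum_nonneg
      intro x hx
      simp only [List.map_map, List.mem_map, Function.comp] at hx
      obtain ⟨E, hE, rfl⟩ := hx
      exact hr0 E hE
    rcases le_total (sumHi xs) 1048576 with h9 | h9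
    · rw [hN, Nat.cast_sub h9]
      push_cast
      linarith
    · have : N = 0 := by omega
      rw [this]
      simpa using a2
  have hex := remGoP_sound (lx := lxP) (by decide) xs es h1 h2 k (by omega)
  rw [hrem] at hex
  simp only at hex
  have hk21 : (65 / 2 : ℝ) ≤ k := by
    have : ((33 : ℕ) : ℝ) ≤ k := by exact_mod_cast hk
    push_cast at this
    linarith
  have hk2 : 2.2 ≤ zE (25 * cap : ℕ) * k := by
    have := cap_cond (c2 := 422500) (c := 65 / 2) (by norm_num) (by norm_num) (ble_true c1)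
    exact this.trans (mul_le_mul_of_nonneg_left hk21 (zE_nonneg _))
  have g2 := rest_prod hcap hrc hr0 hr hNr (k := k) (by omega) hk2
  unfold allC
  rw [SP_append, abs_mul]
  refine (mul_le_mul hex g2 (abs_nonneg _) (Real.exp_pos _).le).trans (le_of_eq ?_)
  rw [← Real.exp_add]
  congr 1
  ring

/-- the remainder in terms of the returned data -/
theorem remP_sound {cap N : ℕ} (hcap : 0 < cap) {rc rA rG : ℤ} {EA0 EG0 : ℕ} {xs : List Cell}
    {mode : ℕ} {R : ℤ} {q kc : ℕ} (h : remP cap N rc rA rG EA0 EG0 xs mode = some (R, q, kc))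
    {es : List (Bool × ℝ)} {rest : List ℝ} (h1 : List.Forall₂ CellRel xs es)
    (h2 : ∀ x ∈ xs, x.nu = true → RhoRel x)
    (hr0 : ∀ E ∈ rest, 0 ≤ E) (hr : ∀ E ∈ rest, E ≤ ((25 * cap : ℕ) : ℝ))
    (hS1 : SE (fun E => E) (allC es rest) = 26214400) (hN : N = 1048576 - sumHi xs)
    {E G : ℝ} (hE : (EA0 : ℝ) ≤ E) (hG : (EG0 : ℝ) ≤ G) {f : ℕ → ℝ} {S A : ℝ} (hA : 0 ≤ A)
    (hf : HasSum f S)
    (hb : ∀ k : ℕ, 32 ≤ k → |f k| ≤ A * (((k : ℝ) + 1) ^ 2 * |SP (k + 1) (allC es rest)| * |Kk (k + 1) E G|)) :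
    0 < q ∧ |S - ∑ k ∈ Finset.range 32, f k| ≤ A * kc * (65 / 2) ^ 3 * (cap / q) *
      Real.exp (-((R : ℝ) / 2 ^ 72)) := by
  have hcap' : (0 : ℝ) < cap := by exact_mod_cast hcap
  have hlx := lxP_log
  unfold remP at h
  cases hrem : remGoP lxP xs with
  | mk R0 e =>
  rw [hrem] at h
  simp only at h
  cases hc : (Nat.ble 32480690176 (25 * cap * 422500) && rhoE (25 * cap) rc)
  · rw [hc, cond_false] at h; cases h
  rw [hc, cond_true] at h
  rw [Bool.and_eq_true] at hc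
  have hdec := fun (k : ℕ) (hk : 33 ≤ k) => SP_dec hcap h1 h2 hr0 hr hS1 hN hc.1 hc.2 hrem hk
  -- the general conclusion
  have main : ∀ (mm : ℕ) (Y : ℤ) (kk : ℕ), R = R0 + (N : ℤ) * (rc + lxP) / (cap : ℤ) + (Y + mm * lxP) →
      0 < q → (q : ℝ) / cap = (e + (N : ℝ) / cap) + mm - 3 → (kk = kc) →
      (∀ k : ℕ, 33 ≤ k → |Kk k E G| ≤ kk * Real.exp (-((Y : ℝ) / 2 ^ 72 + mm * Real.log k))) →
      0 < q ∧ |S - ∑ k ∈ Finset.range 32, f k| ≤ A * kc * (65 / 2) ^ 3 * (cap / q) *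
        Real.exp (-((R : ℝ) / 2 ^ 72)) := by
    intro mm Y kk hRR hq hqe hkk hK
    refine ⟨hq, ?_⟩
    have hq' : (0 : ℝ) < q := by exact_mod_cast hq
    have hp : 0 < (e + (N : ℝ) / cap) + mm - 3 := by rw [← hqe]; positivity
    have ht := tail_gen hf (X := ((R0 : ℝ) - e * lxP) / 2 ^ 72 + (N : ℝ) / cap * (rc / 2 ^ 72))
      (Y := (Y : ℝ) / 2 ^ 72) (p0 := e + (N : ℝ) / cap) (m := mm) (A := A) (kc := kc) hp hA
      (Nat.cast_nonneg _) (by
        intro k hk
        refine (hb k hk).trans (mul_le_mul_of_nonneg_left ?_ hA)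
        have g1 := hdec (k + 1) (by omega)
        have g2 := hK (k + 1) (by omega)
        push_cast at g1 g2
        rw [← hkk]
        refine mul_le_mul (mul_le_mul_of_nonneg_left g1 (by positivity)) g2 (abs_nonneg _) (by positivity))
    refine ht.trans ?_
    rw [← hqe]
    have e1 : A * kc * (65 / 2) ^ 3 / ((q : ℝ) / cap) = A * kc * (65 / 2) ^ 3 * (cap / q) := by
      field_simp
    rw [e1]
    refine mul_le_mul_of_nonneg_left (Real.exp_le_exp.2 (neg_le_neg ?_)) (by positivity)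
    have h10 : (R : ℝ) ≤ R0 + (N : ℝ) * (rc + lxP) / cap + (Y + mm * lxP) := by
      have h11 := ediv_real_le ((N : ℤ) * (rc + lxP)) hcap
      rw [hRR]
      push_cast at h11 ⊢
      linarith
    have h14 : (R : ℝ) / 2 ^ 72 ≤ (R0 + (N : ℝ) * (rc + lxP) / cap + (Y + mm * lxP)) / 2 ^ 72 :=
      div_le_div_of_nonneg_right h10 (by positivity)
    have e3 : (R0 + (N : ℝ) * (rc + lxP) / cap + (Y + mm * lxP)) / 2 ^ 72 =
        (((R0 : ℝ) - e * lxP) / 2 ^ 72 + (N : ℝ) / cap * (rc / 2 ^ 72)) + (Y : ℝ) / 2 ^ 72 +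
          ((e + (N : ℝ) / cap) + mm) * (lxP / 2 ^ 72) := by
      field_simp
      ring
    rw [e3] at h14
    have h15 : ((e + (N : ℝ) / cap) + mm) * (lxP / 2 ^ 72) ≤ ((e + (N : ℝ) / cap) + mm) * Real.log (65 / 2) :=
      mul_le_mul_of_nonneg_left hlx (by positivity)
    linarith
  match mode, h with
  | 0, h =>
    simp only at h
    obtain ⟨hc0, hv⟩ := bif_some h
    have hc0 := ble_true hc0
    obtain ⟨hR, hq, hkc⟩ : R0 + (N : ℤ) * (rc + lxP) / (cap : ℤ) = R ∧ e * cap + N - 3 * cap = q ∧ 1 = kc := by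
      simpa using hv
    refine main 0 0 1 (by rw [← hR]; push_cast; ring) (by omega) ?_ hkc ?_
    · rw [← hq, Nat.cast_sub (by omega)]
      push_cast
      field_simp
      ring
    · intro k hk
      have := Kk_abs_le k E G
      simpa using this
  | 1, h =>
    simp only at h
    obtain ⟨hc0, hv⟩ := bif_some h
    rw [Bool.and_eq_true] at hc0
    have hq1 := ble_true hc0.2
    obtain ⟨hR, hq, hkc⟩ : R0 + (N : ℤ) * (rc + lxP) / (cap : ℤ) + 3 * (rA + lxP) = R ∧ e * cap + N = q ∧ 17 = kc := by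
      simpa using hv
    obtain ⟨hEp, hrA⟩ := rho_log hc0.1 hE
    refine main 3 (3 * rA) 17 (by rw [← hR]; push_cast; ring) (by omega) ?_ hkc ?_
    · rw [← hq]
      push_cast
      field_simp
      ring
    · intro k hk
      refine (Kk_mode1 (by omega) hEp hrA (G := G)).trans (le_of_eq ?_)
      push_cast
      congr 2
      ring
  | 2, h =>
    simp only at h
    obtain ⟨hc0, hv⟩ := bif_some h
    simp only [Bool.and_eq_true] at hc0
    obtain ⟨⟨⟨a1, a2⟩, a3⟩, a4⟩ := hc0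
    obtain ⟨hR, hq, hkc⟩ : R0 + (N : ℤ) * (rc + lxP) / (cap : ℤ) + 2 * (rA + lxP) + 2 * (rG + lxP) = R ∧
        (e + 1) * cap + N = q ∧ 26 = kc := by
      simpa using hv
    obtain ⟨hEp, hrA⟩ := rho_log a1 hE
    obtain ⟨hGp, hrG⟩ := rho_log a2 hG
    refine main 4 (2 * rA + 2 * rG) 26 (by rw [← hR]; push_cast; ring) (by rw [← hq]; positivity) ?_ hkc ?_
    · rw [← hq]
      push_cast
      field_simp
      ring
    · intro k hk
      have hk33 : (65 / 2 : ℝ) ≤ k := by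
        have : ((33 : ℕ) : ℝ) ≤ k := by exact_mod_cast hk
        push_cast at this
        linarith
      have big : ∀ (F0 : ℕ) (F : ℝ), (F0 : ℝ) ≤ F → 1358954496 ≤ F0 * 4225 → 3 ≤ (k : ℝ) * zE F := by
        intro F0 F hF hF0
        apply le_kz_of (by norm_num) ((Nat.cast_nonneg _).trans hF)
        have c1 : (1358954496 : ℝ) ≤ F0 * 4225 := by exact_mod_cast hF0
        have c2 : ((65 / 2 : ℝ)) ^ 2 ≤ (k : ℝ) ^ 2 := pow_le_pow_left₀ (by norm_num) hk33 2
        have c3 : ((65 / 2 : ℝ)) ^ 2 * F0 ≤ (k : ℝ) ^ 2 * F :=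
          mul_le_mul c2 hF (Nat.cast_nonneg _) (by positivity)
        refine le_trans ?_ c3
        norm_num
        linarith
      refine (Kk_mode2 (by omega) hEp hGp hrA hrG (big _ _ hE (ble_true a3)) (big _ _ hG (ble_true a4))).trans
        (le_of_eq ?_)
      push_cast
      congr 2
      ring
  | _ + 3, h => cases h

end Pool.Agent.H60.SC
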