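import Pool.Agent.H61.SC.PLeaf
import Pool.Agent.H60.SL.CkRotDefs
import Pool.Agent.H60.SL.CkTauDefs

/-!
# Kernel checks of the tables of the `P` part
-/

set_option autoImplicit false

namespace Pool.Agent.H60.SC

open Pool.Agent.H60.SL.Ck (allB rotAll pCos)
open Pool.Agent.H61.SC

def cAt (row : List Int) (k : Nat) : Int := row.getD (k - 1) 0

/-- the rows `i` of the tables of cosines -/
def chkCt (i : Nat) : Bool :=
  Nat.ble 1000 (ptn.getD i 0) && Nat.ble (ptn.getD i 0) 1826 &&
  Nat.beq (ct0.getD i []).length 32 && Nat.beq (ct20.getD i []).length 32 &&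
  rotAll (pCos (cAt (ct0.getD i []))) (ptn.getD i 0) 32 &&
  rotAll (pCos (cAt (ct20.getD i []))) (ptn.getD i 0 - 20) 32

theorem ct_all : allB 17 chkCt = true := by decide +kernel

end Pool.Agent.H60.SC
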