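import Pool.Agent.H60.SC.ExpS
import Pool.Agent.H61.SC.Leaf

/-!
# The bounds for the terms of the `T` series and the node test
-/

set_option autoImplicit false

open Set Filter Topology

namespace Pool.Agent.H60.SC

open Pool.Agent.H60.SL
open Pool.Agent.H60.SL.Ck (nn le ex t1D t1F t1M t2D t2F expU expL expU_sound expL_sound LB zE allB allB_iff
  le_iff zE_nonneg zE_sq InL)
open Pool.Agent.H61.SC

/-- meaning of the bounds for one frequency -/
structure TBok (l : ℝ) (t : TB) (P : ℝ) : Prop where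
  U : 2 ^ 60 * |P| ≤ mix l t.U0 t.U1
  pos : t.sg = 1 → 0 ≤ P ∧ mix l t.L0 t.L1 ≤ 2 ^ 60 * P
  neg : t.sg = 2 → P ≤ 0 ∧ mix l t.L0 t.L1 ≤ 2 ^ 60 * (-P)

/-- meaning of a table entry for `sin (t w) / k` -/
structure SigOK (p : Bool × ℕ) (c : ℝ) : Prop where
  lo : (p.2 : ℝ) ≤ 2 ^ 32 * |c|
  hi : 2 ^ 32 * |c| ≤ (p.2 : ℝ) + 1
  pos : p.1 = true → 0 ≤ c
  neg : p.1 = false → c ≤ 0

/-- scalar product of lists -/
noncomputable def dotL : List ℝ → List ℝ → ℝ
  | a :: as, b :: bs => a * b + dotL as bs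
  | _, _ => 0

theorem mix_le_of {l u v u' v' : ℝ} (h0 : 0 ≤ l) (h1 : l ≤ 1) (hu : u ≤ u') (hv : v ≤ v') :
    mix l u v ≤ mix l u' v' := mix_mono h0 h1 hu hv

theorem mix_nat_nonneg {l : ℝ} (h0 : 0 ≤ l) (h1 : l ≤ 1) (u v : ℕ) : 0 ≤ mix l u v :=
  mix_nonneg h0 h1 (Nat.cast_nonneg _) (Nat.cast_nonneg _)

theorem nodeGo_cons (b : Bool) (σ : ℕ) (ss : List (Bool × ℕ)) (t : TB) (ts : List TB) (p0 n0 p1 n1 : ℕ) :
    nodeGo ((b, σ) :: ss) (t :: ts) p0 n0 p1 n1 =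
      if ((t.sg = 1 ∧ b = true) ∨ (t.sg = 2 ∧ b = false)) then
        nodeGo ss ts (p0 + t.L0 * σ) n0 (p1 + t.L1 * σ) n1
      else nodeGo ss ts p0 (n0 + t.U0 * (σ + 1)) p1 (n1 + t.U1 * (σ + 1)) := by
  obtain ⟨sg, U0, U1, L0, L1⟩ := t
  rcases sg with _ | _ | _ | sg <;> cases b <;> simp [nodeGo, fz_eq]

theorem nodeGo_sound {l : ℝ} (h0 : 0 ≤ l) (h1 : l ≤ 1) :
    ∀ (row : List (Bool × ℕ)) (cs : List ℝ) (ts : List TB) (Ps : List ℝ) (p0 n0 p1 n1 : ℕ),
      List.Forall₂ SigOK row cs → List.Forall₂ (TBok l) ts Ps →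
      mix l (nodeGo row ts p0 n0 p1 n1).1 (nodeGo row ts p0 n0 p1 n1).2.2.1 -
        mix l (nodeGo row ts p0 n0 p1 n1).2.1 (nodeGo row ts p0 n0 p1 n1).2.2.2 ≤
      mix l p0 p1 - mix l n0 n1 + 2 ^ 92 * dotL cs Ps
  | [], cs, ts, Ps, p0, n0, p1, n1, hr, ht => by
    cases hr
    rw [nodeGo]
    · simp [dotL]
    · simp
  | (b, σ) :: ss, cs, [], Ps, p0, n0, p1, n1, hr, ht => by
    cases hr
    cases ht
    rw [nodeGo]
    · simp [dotL]
    · simp
  | (b, σ) :: ss, cs, t :: ts, Ps, p0, n0, p1, n1, hr, ht => by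
    cases hr with
    | cons hc hcs =>
    rename_i c cs
    cases ht with
    | cons hP hPs =>
    rename_i P Ps
    rw [nodeGo_cons]
    have e92 : (2 : ℝ) ^ 92 = 2 ^ 32 * 2 ^ 60 := by rw [← pow_add]
    have hneg : -(((σ : ℝ) + 1) * mix l t.U0 t.U1) ≤ 2 ^ 92 * (c * P) := by
      have g0 : (0 : ℝ) ≤ 2 ^ 60 * |P| := mul_nonneg (by positivity) (abs_nonneg _)
      have g9 : (0 : ℝ) ≤ (σ : ℝ) + 1 := by positivity
      have g1 : (2 : ℝ) ^ 32 * |c| * (2 ^ 60 * |P|) ≤ ((σ : ℝ) + 1) * mix l t.U0 t.U1 :=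
        mul_le_mul hc.hi hP.U g0 g9
      have g2 : -(|c| * |P|) ≤ c * P := by
        rw [← abs_mul]
        exact neg_abs_le _
      rw [e92]
      nlinarith
    by_cases hcase : (t.sg = 1 ∧ b = true) ∨ (t.sg = 2 ∧ b = false)
    swap
    · rw [if_neg hcase]
      have ih := nodeGo_sound h0 h1 ss cs ts Ps p0 (n0 + t.U0 * (σ + 1)) p1 (n1 + t.U1 * (σ + 1)) hcs hPs
      refine ih.trans ?_
      rw [dotL]
      push_cast
      have e : mix l ((n0 : ℝ) + t.U0 * (σ + 1)) ((n1 : ℝ) + t.U1 * (σ + 1)) =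
          mix l n0 n1 + ((σ : ℝ) + 1) * mix l t.U0 t.U1 := by unfold mix; ring
      rw [e]
      linarith
    · rw [if_pos hcase]
      have ih := nodeGo_sound h0 h1 ss cs ts Ps (p0 + t.L0 * σ) n0 (p1 + t.L1 * σ) n1 hcs hPs
      refine ih.trans ?_
      rw [dotL]
      push_cast
      have e : mix l ((p0 : ℝ) + t.L0 * σ) ((p1 : ℝ) + t.L1 * σ) =
          mix l p0 p1 + (σ : ℝ) * mix l t.L0 t.L1 := by unfold mix; ring
      rw [e]
      have hL : 0 ≤ mix l t.L0 t.L1 := mix_nat_nonneg h0 h1 _ _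
      have hpos : (σ : ℝ) * mix l t.L0 t.L1 ≤ 2 ^ 92 * (c * P) := by
        rw [e92]
        rcases hcase with ⟨hs, hb⟩ | ⟨hs, hb⟩
        · obtain ⟨g1, g2⟩ := hP.pos hs
          have g3 := hc.pos hb
          have g4 := hc.lo
          rw [abs_of_nonneg g3] at g4
          have := mul_le_mul g4 g2 hL (by positivity)
          nlinarith
        · obtain ⟨g1, g2⟩ := hP.neg hs
          have g3 := hc.neg hb
          have g4 := hc.lo
          rw [abs_of_nonpos g3] at g4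
          have := mul_le_mul g4 g2 hL (by nlinarith)
          nlinarith
      linarith

theorem nodeOK_sound {l : ℝ} (h0 : 0 ≤ l) (h1 : l ≤ 1) {ts : List TB} {rem thr : ℕ}
    {row : List (Bool × ℕ)} (h : nodeOK ts rem row thr = true) {cs Ps : List ℝ}
    (hr : List.Forall₂ SigOK row cs) (ht : List.Forall₂ (TBok l) ts Ps) :
    (thr : ℝ) / 2 ^ 72 ≤ dotL cs Ps - rem / 2 ^ 60 := by
  have hg := nodeGo_sound h0 h1 row cs ts Ps 0 (rem * 4294967296) 0 (rem * 4294967296) hr ht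
  unfold nodeOK at h
  cases hn : nodeGo row ts 0 (rem * 4294967296) 0 (rem * 4294967296) with
  | mk p0 q =>
  obtain ⟨n0, p1, n1⟩ := q
  rw [hn] at h hg
  simp only at h hg
  rw [Bool.and_eq_true] at h
  have a0 := ble_true h.1
  have a1 := ble_true h.2
  have b0 : ((n0 + thr * 1048576 : ℕ) : ℝ) ≤ p0 := by exact_mod_cast a0
  have b1 : ((n1 + thr * 1048576 : ℕ) : ℝ) ≤ p1 := by exact_mod_cast a1
  push_cast at b0 b1 hg
  have h2 : mix l ((n0 : ℝ) + thr * 1048576) ((n1 : ℝ) + thr * 1048576) ≤ mix l p0 p1 :=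
    mix_mono h0 h1 b0 b1
  have e1 : mix l ((n0 : ℝ) + thr * 1048576) ((n1 : ℝ) + thr * 1048576) =
      mix l n0 n1 + thr * 1048576 := by unfold mix; ring
  have e2 : mix l (0 : ℝ) 0 = 0 := by unfold mix; ring
  have e3 : mix l ((rem : ℝ) * 4294967296) (rem * 4294967296) = rem * 4294967296 := mix_const _ _
  rw [e1] at h2
  rw [e2, e3] at hg
  have h3 : (thr : ℝ) * 1048576 + rem * 4294967296 ≤ 2 ^ 92 * dotL cs Ps := by linarith
  rw [div_le_iff₀ (by positivity)]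
  have e4 : (dotL cs Ps - (rem : ℝ) / 2 ^ 60) * 2 ^ 72 = dotL cs Ps * 2 ^ 72 - rem * 2 ^ 12 := by ring
  rw [e4]
  have e5 : (2 : ℝ) ^ 92 = 2 ^ 72 * 1048576 := by
    have : (1048576 : ℝ) = 2 ^ 20 := by norm_num
    rw [this, ← pow_add]
  rw [e5] at h3
  nlinarith

theorem nodesOK_get {ts : List TB} {rem : ℕ} :
    ∀ (n : ℕ) (rows : List (List (Bool × ℕ))) (thrs : List ℕ), nodesOK ts rem n rows thrs = true →
      ∀ i < n, ∃ row thr, rows[i]? = some row ∧ thrs[i]? = some thr ∧ nodeOK ts rem row thr = true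
  | 0, _, _, _, i, hi => by omega
  | n + 1, [], thrs, h, i, hi => by
    rw [nodesOK] at h
    · cases h
    · simp
  | n + 1, row :: rows, [], h, i, hi => by
    rw [nodesOK] at h
    · cases h
    · simp
  | n + 1, row :: rows, thr :: thrs, h, i, hi => by
    rw [nodesOK, Bool.and_eq_true] at h
    cases i with
    | zero => exact ⟨row, thr, rfl, rfl, h.1⟩
    | succ i =>
      obtain ⟨row', thr', h1, h2, h3⟩ := nodesOK_get n rows thrs h.2 i (by omega)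
      exact ⟨row', thr', by simpa using h1, by simpa using h2, h3⟩

end Pool.Agent.H60.SC
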