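import Pool.Agent.H60.SC.RemS
import Pool.Agent.H60.SC.TNode

/-!
# The bounds of the leaf for one frequency
-/

set_option autoImplicit false

open Set Filter Topology

namespace Pool.Agent.H60.SC

open Pool.Agent.H60.SL
open Pool.Agent.H60.SL.Ck (nn le ex t1D t1F t1M t2D t2F expU expL expU_sound expL_sound LB zE allB allB_iff
  le_iff zE_nonneg zE_sq InL)
open Pool.Agent.H61.SC

/-! ## signs -/

theorem lobeOf_cases (k : ℕ) (x : Cell) : lobeOf k x = 0 ∨ lobeOf k x = 1 ∨ lobeOf k x = 2 ∨ lobeOf k x = 7 := by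
  unfold lobeOf
  cases Nat.ble (k * k * 25 * x.hi) 159769600
  · rw [cond_false]
    cases (Nat.ble (Ck.PLt 1) (k * k * 25 * x.lo) && Nat.ble (k * k * 25 * x.hi) (Ck.PHt 2))
    · rw [cond_false]
      cases (Nat.ble (Ck.PLt 2) (k * k * 25 * x.lo) && Nat.ble (k * k * 25 * x.hi) (Ck.PHt 3))
      · rw [cond_false]; simp
      · rw [cond_true]; simp
    · rw [cond_true]; simp
  · rw [cond_true]; simp

def sgnC (L s : ℕ) : ℕ :=
  match L, s with
  | 0, s => s
  | 2, s => s
  | 1, 1 => 2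
  | 1, 2 => 1
  | _, _ => 0

theorem sgnOf_cons (x : Cell) (L : ℕ) (xs : List (Cell × ℕ)) :
    sgnOf ((x, L) :: xs) = sgnC L (sgnOf xs) := rfl

theorem sgn_sound {k : ℕ} : ∀ (xs : List Cell) (es : List (Bool × ℝ)), List.Forall₂ CellRel xs es →
    (∀ x ∈ xs, x.nu = true) →
    (sgnOf (withLobe k xs) = 0 ∨ sgnOf (withLobe k xs) = 1 ∨ sgnOf (withLobe k xs) = 2) ∧
    (sgnOf (withLobe k xs) = 1 → 0 < SP k es) ∧ (sgnOf (withLobe k xs) = 2 → SP k es < 0) ∧
    (sgnOf (withLobe k xs) ≠ 0 → ∀ y ∈ withLobe k xs, y.2 ≤ 6)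
  | [], es, h, _ => by
    cases h
    simp [withLobe, sgnOf]
  | x :: xs, es, h, hnu => by
    cases h with
    | cons hx hxs =>
    rename_i p es
    obtain ⟨b, E⟩ := p
    have hb : b = true := hx.1.trans (hnu x (by simp))
    subst hb
    obtain ⟨i0, i1, i2, i3⟩ := sgn_sound xs es hxs (fun y hy => hnu y (by simp [hy]))
    have hf : fac k (true, E) = Real.sinc (k * zE E) := by simp [fac]
    have hL := lobeOf_cases k x
    have hin : lobeOf k x ≤ 6 → InL k (lobeOf k x) E := fun h => lobeOf_sound h E hx.2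
    rw [withLobe, SP_cons, hf]
    rw [sgnOf_cons]
    generalize sgnOf (withLobe k xs) = s at *
    rcases hL with hL | hL | hL | hL
    · rw [hL]
      change (s = 0 ∨ s = 1 ∨ s = 2) ∧ (s = 1 → _) ∧ (s = 2 → _) ∧ (s ≠ 0 → _)
      have hp := sinc_sign (hin (by omega))
      rw [hL, pow_zero, one_mul] at hp
      refine ⟨i0, fun h => mul_pos hp (i1 h), fun h => mul_neg_of_pos_of_neg hp (i2 h), fun h y hy => ?_⟩
      rcases List.mem_cons.1 hy with h9 | h9
      · rw [h9]; simp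
      · exact i3 h y h9
    · rw [hL]
      have hp := sinc_sign (hin (by omega))
      rw [hL, pow_one] at hp
      have hp' : Real.sinc (k * zE E) < 0 := by linarith
      rcases i0 with h0 | h0 | h0
      · rw [h0]
        simp [sgnC]
      · rw [h0]
        change ((2 : ℕ) = 0 ∨ (2 : ℕ) = 1 ∨ (2 : ℕ) = 2) ∧ ((2 : ℕ) = 1 → _) ∧ ((2 : ℕ) = 2 → _) ∧ ((2 : ℕ) ≠ 0 → _)
        refine ⟨by simp, fun h => absurd h (by norm_num), fun _ => mul_neg_of_neg_of_pos hp' (i1 h0), fun _ y hy => ?_⟩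
        rcases List.mem_cons.1 hy with h9 | h9
        · rw [h9]; simp
        · exact i3 (by rw [h0]; norm_num) y h9
      · rw [h0]
        change ((1 : ℕ) = 0 ∨ (1 : ℕ) = 1 ∨ (1 : ℕ) = 2) ∧ ((1 : ℕ) = 1 → _) ∧ ((1 : ℕ) = 2 → _) ∧ ((1 : ℕ) ≠ 0 → _)
        refine ⟨by simp, fun _ => mul_pos_of_neg_of_neg hp' (i2 h0), fun h => absurd h (by norm_num), fun _ y hy => ?_⟩
        rcases List.mem_cons.1 hy with h9 | h9
        · rw [h9]; simp
        · exact i3 (by rw [h0]; norm_num) y h9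
    · rw [hL]
      change (s = 0 ∨ s = 1 ∨ s = 2) ∧ (s = 1 → _) ∧ (s = 2 → _) ∧ (s ≠ 0 → _)
      have hp := sinc_sign (hin (by omega))
      rw [hL] at hp
      have hp' : 0 < Real.sinc (k * zE E) := by simpa using hp
      refine ⟨i0, fun h => mul_pos hp' (i1 h), fun h => mul_neg_of_pos_of_neg hp' (i2 h), fun h y hy => ?_⟩
      rcases List.mem_cons.1 hy with h9 | h9
      · rw [h9]; simp
      · exact i3 h y h9
    · rw [hL]
      simp [sgnC]

theorem rest_pos {k : ℕ} : ∀ (rest : List ℝ), (∀ E ∈ rest, InL k 0 E) →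
    0 < SP k (rest.map (fun E => (true, E)))
  | [], _ => by simp
  | E :: rest, h => by
    rw [List.map_cons, SP_cons]
    have h1 := sinc_sign (h E (by simp))
    rw [pow_zero, one_mul] at h1
    have hf : fac k (true, E) = Real.sinc (k * zE E) := by simp [fac]
    rw [hf]
    exact mul_pos h1 (rest_pos rest (fun y hy => h y (by simp [hy])))

/-! ## one frequency -/

/-- the data of the point -/
structure PtOK (ge : Bool) (m : ℕ) (R : Rng) (xs : List Cell) (es : List (Bool × ℝ)) (rest : List ℝ)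
    (s : ℝ) : Prop where
  cell : List.Forall₂ CellRel xs es
  rho : ∀ x ∈ xs, x.nu = true → RhoRel x
  rst : ∀ E ∈ rest, E ∈ Icc (R.E0 : ℝ) R.E1
  num : ge = false → m = rest.length
  S1 : SE (fun E => E) (allC es rest) = 26214400
  S2 : SE (fun E => E ^ 2) (allC es rest) = 655360000 * s

theorem logRel_of {xs : List Cell} {es : List (Bool × ℝ)} (h : List.Forall₂ CellRel xs es)
    (hr : ∀ x ∈ xs, x.nu = true → RhoRel x) {k : ℕ} (hk : 1 ≤ k) (hk2 : k ≤ 40) :
    List.Forall₂ (LogRel k) xs es := by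
  induction h with
  | nil => exact List.Forall₂.nil
  | cons hx _ ih =>
    refine List.Forall₂.cons ?_ (ih (fun y hy => hr y (by simp [hy])))
    intro hnu
    exact rhoOK_LB hk hk2 (hr _ (by simp) hnu) hx.2.1

section

variable {ge : Bool} {m : ℕ} {R : Rng} {xs : List Cell} {es : List (Bool × ℝ)} {rest : List ℝ} {s : ℝ}

theorem PtOK.lo (h : PtOK ge m R xs es rest s) {k r : ℕ} (hk : 1 ≤ k) (hk2 : k ≤ 40) (hrk : r ≤ k)
    {l : Line} {A : Aff} (hA : affLo k r m ge R xs l = some A) : LBs k r (allC es rest) (av A s) :=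
  affLo_sound hk hrk hA h.cell (logRel_of h.cell h.rho hk hk2) h.rst h.num h.S1 h.S2

theorem forall₂_withLobe {k : ℕ} (h : List.Forall₂ CellRel xs es) :
    List.Forall₂ (fun (x : Cell × ℕ) p => CellRel x.1 p) (withLobe k xs) es := by
  induction h with
  | nil => exact List.Forall₂.nil
  | cons hx _ ih => exact List.Forall₂.cons hx ih

theorem PtOK.hi (h : PtOK ge m R xs es rest s) {k r : ℕ} (hk : 1 ≤ k) (hrk : r ≤ k)
    {xl : List (Cell × ℕ)} (hxl : List.Forall₂ (fun (x : Cell × ℕ) p => CellRel x.1 p) xl es)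
    (hL : ∀ x ∈ xl, x.2 ≤ 6) {l : Line} {A : Aff} (hA : affHi k r m ge R xl l = some A) :
    UBs k r (allC es rest) (av A s) :=
  affHi_sound hk hrk hA hxl hL h.rst h.num h.S1 h.S2

theorem SP_abs_le_one (k : ℕ) (l : List (Bool × ℝ)) : |SP k l| ≤ 1 := by
  induction l with
  | nil => simp
  | cons p l ih =>
    rw [SP_cons, abs_mul]
    calc |fac k p| * |SP k l| ≤ 1 * 1 := mul_le_mul (fac_abs_le _ _) ih (abs_nonneg _) zero_le_one
      _ = 1 := one_mul 1

theorem one60 : ((ONE60 : ℕ) : ℝ) = 2 ^ 60 := by norm_num [ONE60]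

theorem LBs_zero_iff {k : ℕ} {l : List (Bool × ℝ)} {V : ℝ} (h : LBs k 0 l V) :
    |SP k l| ≤ Real.exp (-(V / 2 ^ 72)) := by
  unfold LBs at h
  rw [SP_zero, abs_one, one_mul] at h
  exact h

theorem UBs_zero_iff {k : ℕ} {l : List (Bool × ℝ)} {V : ℝ} (h : UBs k 0 l V) :
    Real.exp (-(V / 2 ^ 72)) ≤ |SP k l| := by
  unfold UBs at h
  rw [SP_zero, abs_one, one_mul] at h
  exact h

/-- the pair of the upper bounds in `tK` -/
def tKU (k m : ℕ) (ge : Bool) (R : Rng) (xs : List Cell) (s0 s1 : ℤ) (lo : Line) : ℕ × ℕ :=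
  match affLo k 0 m ge R xs lo with
    | none => (ONE60, ONE60)
    | some A => match setU (A.at s0) (A.at s1) with
      | none => (ONE60, ONE60)
      | some u => u

theorem tKU_sound {s0 s1 : ℤ} {l : ℝ} (h0 : 0 ≤ l) (h1 : l ≤ 1)
    (h : PtOK ge m R xs es rest (mix l s0 s1)) {k : ℕ} (hk : 1 ≤ k) (hk2 : k ≤ 40) (lo : Line) :
    2 ^ 60 * |SP k (allC es rest)| ≤
      mix l (tKU k m ge R xs s0 s1 lo).1 (tKU k m ge R xs s0 s1 lo).2 := by
  have htriv : 2 ^ 60 * |SP k (allC es rest)| ≤ mix l ((ONE60 : ℕ) : ℝ) ((ONE60 : ℕ) : ℝ) := by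
    rw [mix_const, one60]
    have := SP_abs_le_one k (allC es rest)
    nlinarith
  unfold tKU
  cases hA : affLo k 0 m ge R xs lo with
  | none => exact htriv
  | some A =>
    simp only
    cases hU : setU (A.at s0) (A.at s1) with
    | none => exact htriv
    | some u =>
      simp only
      obtain ⟨u0, u1⟩ := u
      have a1 := LBs_zero_iff (h.lo hk hk2 (Nat.zero_le _) hA)
      have a2 := setU_sound hU h0 h1
      rw [← av_at, ← av_at, ← av_mix] at a2
      exact (mul_le_mul_of_nonneg_left a1 (by positivity)).trans a2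

theorem tK_eq (k m : ℕ) (ge : Bool) (R : Rng) (xs : List Cell) (s0 s1 : ℤ) (lo up : Line) :
    tK k m ge R xs s0 s1 lo up =
      (match (bif fit k R then sgnOf (withLobe k xs) else 0) with
      | 0 => ⟨0, (tKU k m ge R xs s0 s1 lo).1, (tKU k m ge R xs s0 s1 lo).2, 0, 0⟩
      | sg + 1 => match affHi k 0 m ge R (withLobe k xs) up with
        | none => ⟨sg + 1, (tKU k m ge R xs s0 s1 lo).1, (tKU k m ge R xs s0 s1 lo).2, 0, 0⟩
        | some A => ⟨sg + 1, (tKU k m ge R xs s0 s1 lo).1, (tKU k m ge R xs s0 s1 lo).2,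
            (setL 0 A s0 s1).1, (setL 0 A s0 s1).2⟩) := by
  have e : tK k m ge R xs s0 s1 lo up = (match tKU k m ge R xs s0 s1 lo with
    | (u0, u1) => fz u0 fun u0 => fz u1 fun u1 =>
      match (bif fit k R then sgnOf (withLobe k xs) else 0) with
      | 0 => ⟨0, u0, u1, 0, 0⟩
      | sg + 1 => match affHi k 0 m ge R (withLobe k xs) up with
        | none => ⟨sg + 1, u0, u1, 0, 0⟩
        | some A => match setL 0 A s0 s1 with
          | (l0, l1) => fz l0 fun l0 => fz l1 fun l1 => ⟨sg + 1, u0, u1, l0, l1⟩) := rfl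
  rw [e]
  cases tKU k m ge R xs s0 s1 lo with
  | mk u0 u1 =>
  simp only [fz_eq]

theorem tK_sound {s0 s1 : ℤ} {l : ℝ} (h0 : 0 ≤ l) (h1 : l ≤ 1)
    (h : PtOK ge m R xs es rest (mix l s0 s1)) (hnu : ∀ x ∈ xs, x.nu = true) {k : ℕ} (hk : 1 ≤ k)
    (hk2 : k ≤ 40) (lo up : Line) :
    TBok l (tK k m ge R xs s0 s1 lo up) (SP k (allC es rest)) := by
  have hU := tKU_sound h0 h1 h hk hk2 lo
  rw [tK_eq]
  obtain ⟨g0, g1, g2, g3⟩ := sgn_sound (k := k) xs es h.cell hnu
  cases hf : fit k R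
  · rw [cond_false]
    exact ⟨hU, fun h => absurd h (by norm_num), fun h => absurd h (by norm_num)⟩
  · rw [cond_true]
    unfold fit at hf
    rw [Bool.and_eq_true] at hf
    have hpos : 0 < SP k (rest.map (fun E => (true, E))) := rest_pos rest (fun E hE =>
      InL0_of (le_trans (Nat.cast_nonneg _) (h.rst E hE).1) hf.1 (h.rst E hE).2)
    have hsgn : ∀ sg, sgnOf (withLobe k xs) = sg + 1 →
        (sg + 1 = 1 → 0 < SP k (allC es rest)) ∧ (sg + 1 = 2 → SP k (allC es rest) < 0) := by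
      intro sg hsg
      unfold allC
      rw [SP_append]
      exact ⟨fun h9 => mul_pos (g1 (hsg.trans h9)) hpos, fun h9 => mul_neg_of_neg_of_pos (g2 (hsg.trans h9)) hpos⟩
    cases hs : sgnOf (withLobe k xs) with
    | zero => exact ⟨hU, fun h => absurd h (by norm_num), fun h => absurd h (by norm_num)⟩
    | succ sg =>
      obtain ⟨k1, k2⟩ := hsgn sg hs
      simp only
      cases hA : affHi k 0 m ge R (withLobe k xs) up with
      | none =>
        have e0 : mix l (((0 : ℕ) : ℕ) : ℝ) ((0 : ℕ) : ℝ) = 0 := by simp [mix]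
        refine ⟨hU, fun h9 => ⟨(k1 h9).le, ?_⟩, fun h9 => ⟨(k2 h9).le, ?_⟩⟩
        · simp only
          rw [e0]
          have := k1 h9
          positivity
        · simp only
          rw [e0]
          have := k2 h9
          exact mul_nonneg (by positivity) (by linarith)
      | some A =>
        have a1 := UBs_zero_iff (h.hi hk (Nat.zero_le _) (forall₂_withLobe h.cell)
          (g3 (by rw [hs]; omega)) hA)
        have a2 := setL_sound (sh := 0) (A := A) (s0 := s0) (s1 := s1) h0 h1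
        simp only [Int.cast_zero, zero_add] at a2
        refine ⟨hU, fun h9 => ⟨(k1 h9).le, ?_⟩, fun h9 => ⟨(k2 h9).le, ?_⟩⟩
        · refine a2.trans (mul_le_mul_of_nonneg_left ?_ (by positivity))
          rw [abs_of_pos (k1 h9)] at a1
          exact a1
        · refine a2.trans (mul_le_mul_of_nonneg_left ?_ (by positivity))
          rw [abs_of_neg (k2 h9)] at a1
          exact a1

/-- the values `SP k, SP (k + 1), …` -/
noncomputable def PL (al : List (Bool × ℝ)) : ℕ → ℕ → List ℝ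
  | 0, _ => []
  | n + 1, k => SP k al :: PL al n (k + 1)

theorem tbs_sound {s0 s1 : ℤ} {l : ℝ} (h0 : 0 ≤ l) (h1 : l ≤ 1)
    (h : PtOK ge m R xs es rest (mix l s0 s1)) (hnu : ∀ x ∈ xs, x.nu = true) :
    ∀ (n k dat : ℕ), 1 ≤ k → k + n ≤ 41 →
      List.Forall₂ (TBok l) (tbs m ge R xs s0 s1 n k dat) (PL (allC es rest) n k)
  | 0, k, dat, _, _ => List.Forall₂.nil
  | n + 1, k, dat, hk, hk2 => by
    rw [tbs]
    cases hr : rdLine dat with
    | mk lo dat1 =>
    simp only
    cases hr2 : rdLine dat1 with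
    | mk up dat2 =>
    simp only [fz_eq]
    exact List.Forall₂.cons (tK_sound h0 h1 h hnu hk (by omega) lo up)
      (tbs_sound h0 h1 h hnu n (k + 1) dat2 (by omega) (by omega))

end

end Pool.Agent.H60.SC
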