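import Pool.Agent.H60.SC.TTab
import Pool.Agent.H60.SC.TTerm
import Pool.Agent.H60.SL.CkRot
import Pool.Agent.H60.SL.CkTau

/-!
# The `T` leaves
-/

set_option autoImplicit false

open Set Filter Topology

namespace Pool.Agent.H60.SC

open Pool.Agent.H60.SL
open Pool.Agent.H64.Slab Pool.Agent.H60.Slab Pool.Agent.H60.Big
open Pool.Agent.H60.SL.Ck (nn le ex t1D t1F t1M t2D t2F expU expL expU_sound expL_sound LB zE allB allB_iff
  le_iff zE_nonneg zE_sq InL rotAll pSin pSin_sound chkTau chkThr T_interval T_node)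
open Pool.Agent.H61.SC

/-! ## the coordinates -/

/-- `E` of a coordinate -/
noncomputable def eOf (x : ℝ) : ℝ := 26214400 * x ^ 2

theorem zE_eOf {x : ℝ} (hx : 0 ≤ x) : zE (eOf x) = 5 / 4 * x := by
  unfold zE eOf
  have : 26214400 * x ^ 2 / 2 ^ 24 = (5 / 4 * x) ^ 2 := by ring
  rw [this, Real.sqrt_sq (by positivity)]

/-- the list of all coordinates -/
noncomputable def cList {n : ℕ} (a : Fin n → ℝ) : List (Bool × ℝ) := List.ofFn (fun i => (true, eOf (a i)))

theorem SP_perm {k : ℕ} {l₁ l₂ : List (Bool × ℝ)} (h : l₁.Perm l₂) : SP k l₁ = SP k l₂ :=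
  (h.map (fac k)).prod_eq

theorem SE_perm {f : ℝ → ℝ} {l₁ l₂ : List (Bool × ℝ)} (h : l₁.Perm l₂) : SE f l₁ = SE f l₂ :=
  List.Perm.sum_eq (h.map (fun p : Bool × ℝ => f p.2))

theorem SP_cList {n : ℕ} (a : Fin n → ℝ) (ha : ∀ i, 0 ≤ a i) (k : ℕ) :
    SP k (cList a) = phi a (k * (5 / 4)) := by
  unfold SP cList phi
  rw [List.map_ofFn, List.prod_ofFn]
  refine Finset.prod_congr rfl fun i _ => ?_
  simp only [Function.comp, fac, if_true]
  rw [zE_eOf (ha i)]
  congr 1
  ring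

theorem SE_cList {n : ℕ} (a : Fin n → ℝ) (f : ℝ → ℝ) : SE f (cList a) = ∑ i, f (eOf (a i)) := by
  unfold SE cList
  rw [List.map_ofFn, List.sum_ofFn]
  rfl

/-! ## the table of sines -/

/-- the coefficients `sin ((k + j) θ) / (k + j)` -/
noncomputable def cL (θ : ℝ) : ℕ → ℕ → List ℝ
  | 0, _ => []
  | n + 1, k => (Real.sin (k * θ) / k) :: cL θ n (k + 1)

theorem forall₂_cL {θ : ℝ} : ∀ (row : List (Bool × ℕ)) (k : ℕ),
    (∀ j < row.length, SigOK (row.getD j (true, 0)) (Real.sin ((k + j : ℕ) * θ) / ((k + j : ℕ) : ℝ))) →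
    List.Forall₂ SigOK row (cL θ row.length k)
  | [], _, _ => List.Forall₂.nil
  | p :: row, k, h => by
    rw [List.length_cons, cL]
    refine List.Forall₂.cons ?_ (forall₂_cL row (k + 1) fun j hj => ?_)
    · have := h 0 (by simp)
      simpa using this
    · have := h (j + 1) (by simp; omega)
      have e : k + 1 + j = k + (j + 1) := by ring
      rw [e]
      simpa using this

theorem sig_row {i : ℕ} (hi : i < 32) :
    List.Forall₂ SigOK (sigL.getD i []) (cL ((tn i : ℝ) / 800) 20 1) := by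
  have h := allB_iff.1 sig_all i hi
  unfold chkSig at h
  rw [Bool.and_eq_true, Bool.and_eq_true] at h
  obtain ⟨⟨h1, h2⟩, h3⟩ := h
  have hN := ble_true h1
  have hlen : (sigL.getD i []).length = 20 := beq_true h2
  have hf := forall₂_cL (θ := (tn i : ℝ) / 800) (sigL.getD i []) 1 (by
    intro j hj
    have hj' : j < 20 := by omega
    obtain ⟨s1, s2⟩ := pSin_sound hN (by norm_num) h3 (k := 1 + j) (by omega) (by omega)
    have eg : gAt (sigL.getD i []) (1 + j) = ((sigL.getD i []).getD j (true, 0)).2 := by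
      unfold gAt
      rw [Nat.add_sub_cancel_left]
    have es : sgAt (sigL.getD i []) (1 + j) = ((sigL.getD i []).getD j (true, 0)).1 := by
      unfold sgAt
      rw [Nat.add_sub_cancel_left]
    rw [eg, es] at s1 s2
    generalize (sigL.getD i []).getD j (true, 0) = p at *
    obtain ⟨b, σ⟩ := p
    simp only at s1 s2
    have hk : (0 : ℝ) < ((1 + j : ℕ) : ℝ) := by positivity
    have hσ : (0 : ℝ) ≤ (σ : ℝ) := Nat.cast_nonneg _
    set y : ℝ := Real.sin ((1 + j : ℕ) * ((tn i : ℝ) / 800)) with hy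
    cases b
    · simp only [Bool.false_eq_true, if_false] at s1 s2
      have e1 : 2 ^ 32 * (-1 * y) / ((1 + j : ℕ) : ℝ) = 2 ^ 32 * (-(y / ((1 + j : ℕ) : ℝ))) := by ring
      rw [e1] at s1 s2
      have hneg : y / ((1 + j : ℕ) : ℝ) ≤ 0 := by
        by_contra hcon
        have : 0 < y / ((1 + j : ℕ) : ℝ) := not_le.1 hcon
        nlinarith
      refine ⟨?_, ?_, (fun h => by cases h), fun _ => hneg⟩
      · rw [abs_of_nonpos hneg]; exact s1
      · rw [abs_of_nonpos hneg]; exact s2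
    · simp only [if_true] at s1 s2
      have e1 : 2 ^ 32 * (1 * y) / ((1 + j : ℕ) : ℝ) = 2 ^ 32 * (y / ((1 + j : ℕ) : ℝ)) := by ring
      rw [e1] at s1 s2
      have hpos : 0 ≤ y / ((1 + j : ℕ) : ℝ) := by
        by_contra hcon
        have : y / ((1 + j : ℕ) : ℝ) < 0 := not_le.1 hcon
        nlinarith
      refine ⟨?_, ?_, fun _ => hpos, (fun h => by cases h)⟩
      · rw [abs_of_nonneg hpos]; exact s1
      · rw [abs_of_nonneg hpos]; exact s2)
  rw [hlen] at hf
  exact hf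

theorem dotL_sum (θ : ℝ) (al : List (Bool × ℝ)) : ∀ (n k : ℕ),
    dotL (cL θ n k) (PL al n k) =
      ∑ j ∈ Finset.range n, Real.sin ((k + j : ℕ) * θ) / ((k + j : ℕ) : ℝ) * SP (k + j) al
  | 0, k => by simp [cL, PL, dotL]
  | n + 1, k => by
    rw [cL, PL, dotL, dotL_sum θ al n (k + 1), Finset.sum_range_succ', add_comm]
    congr 1
    refine Finset.sum_congr rfl fun j _ => ?_
    have e : k + 1 + j = k + (j + 1) := by ring
    rw [e]

theorem getD_drop {α : Type} (l : List α) (i j : ℕ) (d : α) : (l.drop i).getD j d = l.getD (i + j) d := by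
  simp [List.getD_eq_getElem?_getD, List.getElem?_drop]

/-- the threshold tables -/
theorem thr_all {cls i : ℕ} (hc : cls = 3 ∨ cls = 5 ∨ cls = 6 ∨ cls = 7 ∨ cls = 8)
    (hi : i ≤ if cls = 3 then 19 else 31) :
    chkThr (tn i) ((tauOf cls).getD i 0) ((thrOf cls).getD i 0) = true := by
  rcases hc with h | h | h | h | h
  · subst h; exact allB_iff.1 thr3_ok i (by simp at hi; omega)
  · subst h; exact allB_iff.1 thr5_ok i (by simp at hi; omega)
  · subst h; exact allB_iff.1 thr6_ok i (by simp at hi; omega)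
  · subst h; exact allB_iff.1 thr7_ok i (by simp at hi; omega)
  · subst h; exact allB_iff.1 thr8_ok i (by simp at hi; omega)

theorem tn_bounds {i : ℕ} (hi : i < 32) : 850 ≤ tn i ∧ tn i ≤ 1826 := by
  have h := allB_iff.1 tn_pos i hi
  rw [Bool.and_eq_true] at h
  exact ⟨ble_true h.1, ble_true h.2⟩

section

variable {m : ℕ} {R : Rng} {xs : List Cell} {es : List (Bool × ℝ)} {rest : List ℝ}

/-- one node -/
theorem node_bound {n : ℕ} (a : Fin n → ℝ) (ha : ∀ i, 0 ≤ a i) (hsum : ∑ j, a j ^ 2 = 1)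
    (hperm : (cList a).Perm (allC es rest)) {s0 s1 : ℤ} {l : ℝ} (h0 : 0 ≤ l) (h1 : l ≤ 1) {ge : Bool}
    (hpt : PtOK ge m R xs es rest (mix l s0 s1)) (hnu : ∀ x ∈ xs, x.nu = true) {cap : ℕ}
    (hcap : 0 < cap) {rc : ℤ} {rem : ℕ} (hrem : remT cap rc xs = some rem)
    (hrest : ∀ E ∈ rest, E ≤ ((25 * cap : ℕ) : ℝ)) {dat i : ℕ} (hi : i < 32) {tau thr : ℕ}
    (hthr : chkThr (tn i) tau thr = true)
    (hnode : nodeOK (tbs m ge R xs s0 s1 20 1 dat) rem (sigL.getD i []) thr = true) :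
    1 - FV a ((tn i : ℝ) / 1000) 0 / 2 ^ n ≤ (tau : ℝ) / 2 ^ 40 := by
  have htn := tn_bounds hi
  have hN0 : 0 < tn i := by omega
  have hNr : (0 : ℝ) < tn i := by exact_mod_cast hN0
  have hts := tbs_sound h0 h1 hpt hnu 20 1 dat (by omega) (by omega)
  have hb := nodeOK_sound h0 h1 hnode (sig_row hi) hts
  rw [dotL_sum] at hb
  -- the series
  have hS := hasSum_fT a hsum (t := (tn i : ℝ) / 1000) (δ := 5 / 4) (by positivity) (by norm_num)
  set S := ∑' k, fT a (5 / 4) ((tn i : ℝ) / 1000) k with hSdef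
  have hS2 := hS.mul_left (5 / 4)
  have hterm : ∀ k : ℕ, 5 / 4 * fT a (5 / 4) ((tn i : ℝ) / 1000) k =
      Real.sin ((1 + k : ℕ) * ((tn i : ℝ) / 800)) / ((1 + k : ℕ) : ℝ) * SP (1 + k) (allC es rest) := by
    intro k
    rw [← SP_perm hperm, SP_cList a ha]
    unfold fT
    push_cast
    have e1 : (tn i : ℝ) / 1000 * (((k : ℝ) + 1) * (5 / 4)) = (1 + k) * ((tn i : ℝ) / 800) := by ring
    have e2 : ((k : ℝ) + 1) * (5 / 4) = (1 + k) * (5 / 4) := by ring
    rw [e1, e2]
    have : (0 : ℝ) < 1 + k := by positivity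
    field_simp
  have hr := remT_sound hcap hrem hpt.cell (fun x hx => hpt.rho x hx (hnu x hx)) hnu
    (fun E hE => le_trans (Nat.cast_nonneg _) (hpt.rst E hE).1) hrest hpt.S1 hS2 (by
      intro k hk
      rw [hterm]
      have hk1 : (0 : ℝ) < ((1 + k : ℕ) : ℝ) := by positivity
      rw [abs_mul, abs_div, abs_of_pos hk1]
      have e3 : 1 + k = k + 1 := by ring
      rw [e3]
      push_cast
      have hk2 : (0 : ℝ) < (k : ℝ) + 1 := by positivity
      rw [div_mul_eq_mul_div, mul_comm]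
      apply div_le_div_of_nonneg_right _ hk2.le
      calc |SP (k + 1) (allC es rest)| * |Real.sin (((k : ℝ) + 1) * ((tn i : ℝ) / 800))|
          ≤ |SP (k + 1) (allC es rest)| * 1 :=
            mul_le_mul_of_nonneg_left (Real.abs_sin_le_one _) (abs_nonneg _)
        _ = _ := mul_one _)
  have hsumeq : ∑ k ∈ Finset.range 20, 5 / 4 * fT a (5 / 4) ((tn i : ℝ) / 1000) k =
      ∑ j ∈ Finset.range 20, Real.sin ((1 + j : ℕ) * ((tn i : ℝ) / 800)) / ((1 + j : ℕ) : ℝ) *
        SP (1 + j) (allC es rest) := Finset.sum_congr rfl fun k _ => hterm k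
  rw [hsumeq] at hr
  have h5 := (abs_le.1 hr).1
  refine T_node a hsum hN0 hthr (g := S) ?_ le_rfl
  linarith

end

end Pool.Agent.H60.SC
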