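import Pool.Agent.H60.SC.PStepS
import Pool.Agent.H60.SC.PTab
import Pool.Agent.H60.SC.TLeaf

/-!
# The `P` leaves: table of cosines, partial sums of the series
-/

set_option autoImplicit false

open Set Filter Topology

namespace Pool.Agent.H60.SC

open Pool.Agent.H60.SL
open Pool.Agent.H64.Slab Pool.Agent.H60.Slab Pool.Agent.H60.Big
open Pool.Agent.H60.SL.Ck (nn le ex t1D t1F t1M t2D t2F expU expL expU_sound expL_sound LB zE allB allB_iff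
  le_iff zE_nonneg zE_sq InL rotAll pCos pCos_sound)
open Pool.Agent.H61.SC

theorem cosOK_of {θ : ℝ} : ∀ (row : List ℤ) (k : ℕ),
    (∀ j < row.length, ((row.getD j 0 : ℤ) : ℝ) ≤ 2 ^ 40 * Real.cos ((k + j : ℕ) * θ) ∧
      2 ^ 40 * Real.cos ((k + j : ℕ) * θ) ≤ ((row.getD j 0 : ℤ) : ℝ) + 1) → CosOK θ k row
  | [], _, _ => trivial
  | c :: row, k, h => by
    refine ⟨by simpa using h 0 (by simp), cosOK_of row (k + 1) fun j hj => ?_⟩
    have := h (j + 1) (by simp; omega)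
    have e : k + 1 + j = k + (j + 1) := by ring
    rw [e]
    simpa using this

theorem cos_row {row : List ℤ} {N : ℕ} (hN : N ≤ 1826) (hlen : row.length = 32)
    (h : rotAll (pCos (cAt row)) N 32 = true) : CosOK ((N : ℝ) / 800) 1 row := by
  apply cosOK_of
  intro j hj
  obtain ⟨s1, s2⟩ := pCos_sound hN (by norm_num) h (k := 1 + j) (by omega) (by omega)
  have eg : cAt row (1 + j) = row.getD j 0 := by
    unfold cAt
    rw [Nat.add_sub_cancel_left]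
  rw [eg] at s1 s2
  exact ⟨s1, s2⟩

theorem ct_rows {ti : ℕ} (hi : ti ≤ 16) : 1000 ≤ ptn.getD ti 0 ∧ ptn.getD ti 0 ≤ 1826 ∧
    CosOK ((ptn.getD ti 0 : ℝ) / 800) 1 (ct0.getD ti []) ∧
    CosOK (((ptn.getD ti 0 - 20 : ℕ) : ℝ) / 800) 1 (ct20.getD ti []) := by
  have h := allB_iff.1 ct_all ti (by omega)
  unfold chkCt at h
  simp only [Bool.and_eq_true] at h
  obtain ⟨⟨⟨⟨⟨h1, h2⟩, h3⟩, h4⟩, h5⟩, h6⟩ := h
  have hN := ble_true h2
  exact ⟨ble_true h1, hN, cos_row hN (beq_true h3) h5, cos_row (by omega) (beq_true h4) h6⟩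

section

variable {m : ℕ} {es : List (Bool × ℝ)} {rest : List ℝ}

/-- the whole vector of squares -/
theorem SP_pair {b : Fin m → ℝ} (hb : ∀ j, 0 ≤ b j) {E G : ℝ}
    (hperm : ((false, E) :: (false, G) :: cList b).Perm (allC es rest)) (k : ℕ) :
    SP k (allC es rest) = ∏ j, Real.sinc (b j * (k * (5 / 4))) := by
  rw [← SP_perm hperm, SP_cons, SP_cons, SP_cList b hb]
  simp only [fac, phi]
  norm_num
  refine Finset.prod_congr rfl fun j _ => ?_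
  congr 1
  ring

theorem gQ_eq {b : Fin m → ℝ} (hb : ∀ j, 0 ≤ b j) {α γ : ℝ} (hα : 0 ≤ α) (hγ : 0 ≤ γ)
    (hperm : ((false, eOf α) :: (false, eOf γ) :: cList b).Perm (allC es rest)) (N k : ℕ) :
    16 * gQ b α γ (5 / 4) ((N : ℝ) / 1000) k =
      25 * ((1 + k : ℕ) : ℝ) ^ 2 * Real.cos ((1 + k : ℕ) * ((N : ℝ) / 800)) *
        (SP (1 + k) (allC es rest) * Kk (1 + k) (eOf α) (eOf γ)) := by
  rw [SP_pair hb hperm]
  unfold gQ Kk
  rw [zE_eOf hα, zE_eOf hγ]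
  push_cast
  have e1 : (N : ℝ) / 1000 * (((k : ℝ) + 1) * (5 / 4)) = (1 + k) * ((N : ℝ) / 800) := by ring
  have e2 : ((k : ℝ) + 1) * (5 / 4) = (1 + k) * (5 / 4) := by ring
  have e3 : α * ((1 + (k : ℝ)) * (5 / 4)) = (1 + k) * (5 / 4 * α) := by ring
  have e4 : γ * ((1 + (k : ℝ)) * (5 / 4)) = (1 + k) * (5 / 4 * γ) := by ring
  rw [e1, e2, e3, e4]
  ring

/-- the scale of the sums -/
noncomputable def Sc (c : PC) (al : List (Bool × ℝ)) (E G : ℝ) : ℝ :=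
  16 * N8 * 2 ^ 40 / (SP c.r al * Kk c.r E G)

theorem Sc_pos {c : PC} {E G l : ℝ} (h : POK c es rest l E G) : 0 < Sc c (allC es rest) E G := by
  unfold Sc
  have h1 := all_pos h.pt h.fit h.lobe
  have h2 := h.K.Kr_pos
  have h3 := N8_pos
  positivity

theorem Sc_gQ {b : Fin m → ℝ} (hb : ∀ j, 0 ≤ b j) {α γ : ℝ} (hα : 0 ≤ α) (hγ : 0 ≤ γ)
    (hperm : ((false, eOf α) :: (false, eOf γ) :: cList b).Perm (allC es rest)) (N k : ℕ)
    (c : PC) :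
    Sc c (allC es rest) (eOf α) (eOf γ) * gQ b α γ (5 / 4) ((N : ℝ) / 1000) k =
      25 * ((1 + k : ℕ) : ℝ) ^ 2 * (2 ^ 40 * Real.cos ((1 + k : ℕ) * ((N : ℝ) / 800))) *
        Zk c (allC es rest) (eOf α) (eOf γ) (1 + k) := by
  have h := gQ_eq hb hα hγ hperm N k
  have e : Sc c (allC es rest) (eOf α) (eOf γ) * gQ b α γ (5 / 4) ((N : ℝ) / 1000) k =
      N8 * 2 ^ 40 / (SP c.r (allC es rest) * Kk c.r (eOf α) (eOf γ)) *
        (16 * gQ b α γ (5 / 4) ((N : ℝ) / 1000) k) := by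
    unfold Sc
    ring
  rw [e, h]
  unfold Zk
  rw [div_mul_div_comm]
  ring

/-- the two sums of the checker -/
theorem pGo_gQ {c : PC} {l : ℝ} {b : Fin m → ℝ} (hb : ∀ j, 0 ≤ b j) {α γ : ℝ} (hα : 0 ≤ α)
    (hγ : 0 ≤ γ) (hperm : ((false, eOf α) :: (false, eOf γ) :: cList b).Perm (allC es rest))
    (h : POK c es rest l (eOf α) (eOf γ)) {ti dat : ℕ} (hti : ti ≤ 16) {S : SS}
    (hg : pGo c 32 1 (ct0.getD ti []) (ct20.getD ti []) dat ⟨0, 0, 0, 0⟩ = some S) :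
    mix l S.a0 S.a1 ≤ Sc c (allC es rest) (eOf α) (eOf γ) *
      (∑ k ∈ Finset.range 32, gQ b α γ (5 / 4) ((ptn.getD ti 0 : ℝ) / 1000) k -
        ∑ k ∈ Finset.range 32, gQ b α γ (5 / 4) (((ptn.getD ti 0 - 20 : ℕ) : ℝ) / 1000) k) ∧
    mix l S.b0 S.b1 ≤ -(Sc c (allC es rest) (eOf α) (eOf γ) *
      ∑ k ∈ Finset.range 32, gQ b α γ (5 / 4) (((ptn.getD ti 0 - 20 : ℕ) : ℝ) / 1000) k) := by
  obtain ⟨-, -, hc0, hc1⟩ := ct_rows hti
  have h0 : SSle l ⟨0, 0, 0, 0⟩ 0 0 := by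
    refine ⟨?_, ?_⟩ <;> simp [mix]
  obtain ⟨ha, hb'⟩ := pGo_sound h 32 1 _ _ dat _ S 0 0 le_rfl (by norm_num) hc0 hc1 h0 hg
  refine ⟨ha.trans (le_of_eq ?_), hb'.trans (le_of_eq ?_)⟩
  · rw [zero_add, ← Finset.sum_sub_distrib, Finset.mul_sum]
    refine Finset.sum_congr rfl fun k _ => ?_
    rw [mul_sub (Sc c (allC es rest) (eOf α) (eOf γ)), Sc_gQ hb hα hγ hperm, Sc_gQ hb hα hγ hperm]
    ring
  · rw [zero_add, Finset.mul_sum, ← Finset.sum_neg_distrib]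
    refine Finset.sum_congr rfl fun k _ => ?_
    rw [Sc_gQ hb hα hγ hperm]
    ring

end

end Pool.Agent.H60.SC
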