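import Pool.Agent.H60.SC.PMain
import Pool.Agent.H60.SC.PRem
import Pool.Agent.H60.SC.PSum

/-!
# The `P` leaves: the criterion
-/

set_option autoImplicit false

open Set Filter Topology MeasureTheory

namespace Pool.Agent.H60.SC

open Pool.Agent.H60.SL
open Pool.Agent.H64.Slab Pool.Agent.H60.Slab Pool.Agent.H60.Big
open Pool.Agent.H60.SL.Ck (nn le ex t1D t1F t1M t2D t2F expU expL expU_sound expL_sound LB zE allB allB_iff
  le_iff zE_nonneg zE_sq InL rotAll pCos pCos_sound nd)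
open Pool.Agent.H60.SL.Ck (kiCoef)
open Pool.Agent.H61.SC

theorem ptn_all : allB 17 (fun i => Nat.ble (ptn.getD i 0) 1300) = true := by decide +kernel

theorem ptn_le {ti : ℕ} (h : ti ≤ 16) : ptn.getD ti 0 ≤ 1300 := ble_true (allB_iff.1 ptn_all ti (by omega))

theorem aliasV_mode {mode lo0 g0 p1 T KL1 v : ℕ} {E : ℤ}
    (h : aliasV mode lo0 g0 p1 T E KL1 = some v) : mode = 1 ∨ mode = 2 := by
  unfold aliasV at h
  split at h
  · exact Or.inl rfl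
  · exact Or.inr rfl
  · cases h

theorem pEnd_sound {a b : ℤ} {v al1 al0 : Option ℕ} (h : pEnd a b v al1 al0 = true) :
    ∃ v' x1 x0 : ℕ, v = some v' ∧ al1 = some x1 ∧ al0 = some x0 ∧
      2 * (v' : ℝ) + x1 + x0 + 1 ≤ a ∧ (v' : ℝ) + x1 + 1 ≤ b := by
  unfold pEnd at h
  split at h
  · rename_i v' x1 x0
    rw [Bool.and_eq_true] at h
    have h1 := le_iff.1 h.1
    have h2 := le_iff.1 h.2
    refine ⟨v', x1, x0, rfl, rfl, rfl, ?_, ?_⟩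
    · exact_mod_cast h1
    · exact_mod_cast h2
  · cases h

theorem exp_mix72 {l e0 e1 : ℝ} (h0 : 0 ≤ l) (h1 : l ≤ 1) :
    Real.exp (-(mix l e0 e1 / 2 ^ 72)) ≤ mix l (Real.exp (-(e0 / 2 ^ 72))) (Real.exp (-(e1 / 2 ^ 72))) := by
  have e : -(mix l e0 e1 / 2 ^ 72) = mix l (-(e0 / 2 ^ 72)) (-(e1 / 2 ^ 72)) := by unfold mix; ring
  rw [e]
  exact exp_mix_le h0 h1

/-- affine interpolation of bounds with a common factor -/
theorem mix_bound {l e0 e1 C v0 v1 : ℝ} (h0 : 0 ≤ l) (h1 : l ≤ 1) (hC : 0 ≤ C)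
    (b0 : 2 ^ 60 * Real.exp (-(e0 / 2 ^ 72)) * C ≤ v0) (b1 : 2 ^ 60 * Real.exp (-(e1 / 2 ^ 72)) * C ≤ v1) :
    2 ^ 60 * Real.exp (-(mix l e0 e1 / 2 ^ 72)) * C ≤ mix l v0 v1 := by
  refine le_trans ?_ (mix_mono h0 h1 b0 b1)
  have e : mix l (2 ^ 60 * Real.exp (-(e0 / 2 ^ 72)) * C) (2 ^ 60 * Real.exp (-(e1 / 2 ^ 72)) * C) =
      2 ^ 60 * mix l (Real.exp (-(e0 / 2 ^ 72))) (Real.exp (-(e1 / 2 ^ 72))) * C := by unfold mix; ring
  rw [e]
  exact mul_le_mul_of_nonneg_right (mul_le_mul_of_nonneg_left (exp_mix72 h0 h1) (by positivity)) hC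

section

variable {cls : ℕ} {B : Box} {rr m : ℕ} {b : Fin m → ℝ} {α γ : ℝ} {es1 : List (Bool × ℝ)}
  {rest : List ℝ} {l : ℝ}

/-- upper bound of the scale -/
theorem Sc_le {c : PC} {es : List (Bool × ℝ)} {E G : ℝ} (h : POK c es rest l E G) :
    Sc c (allC es rest) E G ≤
      16 * 2 ^ 100 * (2 ^ 60 * Real.exp (-(mix l (SH - c.Ar.at c.s0 : ℤ) (SH - c.Ar.at c.s1 : ℤ) / 2 ^ 72))) /
        c.KL1 := by
  obtain ⟨Lr, hAr⟩ := h.Ar
  have hPr := all_pos h.pt h.fit h.lobe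
  have hKr := h.K.Kr_pos
  have hKl := h.K.Kr_low
  have hK1 : (0 : ℝ) < c.KL1 := by exact_mod_cast h.K.P1
  have hzip := forall₂_zipZero h.pt.cell
  have hUB := UBs_zero_iff (h.pt.hi h.K.r1 (Nat.zero_le _) hzip (zipZero_le _) hAr)
  rw [abs_of_pos hPr] at hUB
  have e : mix l ((SH - c.Ar.at c.s0 : ℤ) : ℝ) ((SH - c.Ar.at c.s1 : ℤ) : ℝ) =
      8 * 2 ^ 72 - av c.Ar (mix l c.s0 c.s1) := by
    push_cast
    rw [SH_val, ← av_at, ← av_at, av_mix]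
    unfold mix
    ring
  rw [e]
  have e2 : Real.exp (-((8 * 2 ^ 72 - av c.Ar (mix l c.s0 c.s1)) / 2 ^ 72)) =
      Real.exp (-8) / Real.exp (-(av c.Ar (mix l c.s0 c.s1) / 2 ^ 72)) := by
    rw [← Real.exp_sub]
    congr 1
    ring
  rw [e2]
  unfold Sc N8
  have hx := Real.exp_pos (-(av c.Ar (mix l c.s0 c.s1) / 2 ^ 72))
  rw [div_le_div_iff₀ (mul_pos hPr hKr) hK1]
  have h1 : Real.exp (-(av c.Ar (mix l c.s0 c.s1) / 2 ^ 72)) * c.KL1 ≤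
      SP c.r (allC es rest) * (2 ^ 60 * Kk c.r E G) := mul_le_mul hUB hKl hK1.le hPr.le
  have h2 : Real.exp (-8) * c.KL1 ≤ Real.exp (-8) / Real.exp (-(av c.Ar (mix l c.s0 c.s1) / 2 ^ 72)) *
      (SP c.r (allC es rest) * (2 ^ 60 * Kk c.r E G)) := by
    rw [div_mul_eq_mul_div, le_div_iff₀ hx]
    calc Real.exp (-8) * c.KL1 * Real.exp (-(av c.Ar (mix l c.s0 c.s1) / 2 ^ 72))
        = Real.exp (-8) * (Real.exp (-(av c.Ar (mix l c.s0 c.s1) / 2 ^ 72)) * c.KL1) := by ring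
      _ ≤ _ := mul_le_mul_of_nonneg_left h1 (Real.exp_pos _).le
  calc 16 * (2 ^ 60 * Real.exp (-8)) * 2 ^ 40 * c.KL1
      = 16 * 2 ^ 100 * (Real.exp (-8) * c.KL1) := by ring
    _ ≤ 16 * 2 ^ 100 * (Real.exp (-8) / Real.exp (-(av c.Ar (mix l c.s0 c.s1) / 2 ^ 72)) *
      (SP c.r (allC es rest) * (2 ^ 60 * Kk c.r E G))) := mul_le_mul_of_nonneg_left h2 (by positivity)
    _ = _ := by ring

/-- the series at the node `N / 1000` -/
theorem gQ_abs {es : List (Bool × ℝ)} (hb : ∀ j, 0 ≤ b j) (hα : 0 ≤ α) (hγ : 0 ≤ γ)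
    (hperm : ((false, eOf α) :: (false, eOf γ) :: cList b).Perm (allC es rest)) (N k : ℕ) :
    |gQ b α γ (5 / 4) ((N : ℝ) / 1000) k| ≤ 25 / 16 * (((k : ℝ) + 1) ^ 2 * |SP (k + 1) (allC es rest)| *
      |Kk (k + 1) (eOf α) (eOf γ)|) := by
  have h := gQ_eq hb hα hγ hperm N k
  have e1 : 1 + k = k + 1 := by ring
  rw [e1] at h
  have h2 : gQ b α γ (5 / 4) ((N : ℝ) / 1000) k = 25 / 16 * (((k : ℝ) + 1) ^ 2 * SP (k + 1) (allC es rest) *
      Kk (k + 1) (eOf α) (eOf γ)) * Real.cos ((k + 1 : ℕ) * ((N : ℝ) / 800)) := by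
    push_cast at h ⊢
    linarith
  rw [h2, abs_mul, abs_mul, abs_mul, abs_mul]
  have h3 := Real.abs_cos_le_one ((k + 1 : ℕ) * ((N : ℝ) / 800))
  have h4 : |(25 / 16 : ℝ)| = 25 / 16 := abs_of_pos (by norm_num)
  have h5 : |((k : ℝ) + 1) ^ 2| = ((k : ℝ) + 1) ^ 2 := abs_of_nonneg (by positivity)
  rw [h4, h5]
  exact mul_le_of_le_one_right (by positivity) h3

theorem pCheck_sound {r ti : ℕ} {rA rG rB rc : ℤ} {rmode amode dat : ℕ}
    (h : pCheck cls B rr r ti rA rG rB rc rmode amode dat = true) (hti : ti ≤ 16)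
    (hp : PHyp cls B rr b α γ es1 rest l) {t : ℝ} (ht : (ptn.getD ti 0 : ℝ) / 1000 ≤ t)
    (htL : t < α + γ + ∑ j, b j) :
    0 < ∫ x, LL 1 (α + γ) (α - γ) (t + dot x b) ∂(cubeM m) := by
  obtain ⟨⟨c1, c2, c3, d3, d4, c4, c5, c6, c7, c8, c9, c10, c11⟩, Lr, dat', Ar, S, R', q, kc, hA, k1, k0, hg,
    hr, hE0, hE1⟩ := pCheck_unpack h
  have c7' : r * r * (25 * B.hi0) ≤ 338230352 := c7
  have hPOK := hp.POK c3 d3 d4 c6 c7' c8 c9 c10 hA k1 k0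
  generalize hc : pPC cls B rr r rA rG rB Ar = c at *
  have hAr : c.Ar = Ar := by rw [← hc]; rfl
  have hs0 : c.s0 = (B.s0 : ℤ) := by rw [← hc]; rfl
  have hs1 : c.s1 = (B.s1 : ℤ) := by rw [← hc]; rfl
  have hα0 : 0 < α := hp.γ0.trans hp.γα
  have hb0 : ∀ j, 0 ≤ b j := fun j => (hp.b0 j).le
  have hbα : ∀ j, b j ≤ α + γ := fun j => (hp.bα j).trans (by linarith [hp.γ0])
  set al := allC (pEs α γ es1) rest with hal
  have hsc := Sc_pos hPOK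
  set sc := Sc c al (eOf α) (eOf γ) with hscd
  have hscU := Sc_le hPOK
  rw [← hal, ← hscd, hAr, hs0, hs1] at hscU
  -- the ends
  obtain ⟨v0, x01, x00, hv0, hx01, hx00, ha0, hb0'⟩ := pEnd_sound hE0
  obtain ⟨v1, x11, x10, hv1, hx11, hx10, ha1, hb1'⟩ := pEnd_sound hE1
  -- units
  have hαl : (B.lo0 : ℝ) / 2 ^ 20 ≤ α ^ 2 := by
    have := hp.A.1
    unfold eOf at this
    push_cast at this
    rw [div_le_iff₀ (by positivity)]
    linarith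
  have hαh : α ^ 2 ≤ (B.hi0 : ℝ) / 2 ^ 20 := by
    have := hp.A.2
    unfold eOf at this
    push_cast at this
    rw [le_div_iff₀ (by positivity)]
    linarith
  have hγl : (B.g0 : ℝ) / 2 ^ 20 ≤ γ ^ 2 := by
    have := hp.G.1
    unfold eOf at this
    push_cast at this
    rw [div_le_iff₀ (by positivity)]
    linarith
  have hγh : γ ^ 2 ≤ (B.g1 : ℝ) / 2 ^ 20 := by
    have := hp.G.2
    unfold eOf at this
    push_cast at this
    rw [le_div_iff₀ (by positivity)]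
    linarith
  have hpp : 2 ^ 20 * (α + γ) ≤ ((isqHi (B.hi0 * 1048576) + isqHi (B.g1 * 1048576) : ℕ) : ℝ) := by
    have aux : ∀ (x : ℝ) (H : ℕ), 0 ≤ x → x ^ 2 ≤ (H : ℝ) / 2 ^ 20 → 2 ^ 20 * x ≤ (isqHi (H * 1048576) : ℝ) := by
      intro x H hx hxH
      have h1 := isqHi_sq (H * 1048576)
      have h2 : ((H * 1048576 : ℕ) : ℝ) ≤ (isqHi (H * 1048576) : ℝ) * (isqHi (H * 1048576) : ℝ) := by
        exact_mod_cast h1
      rw [le_div_iff₀ (by positivity)] at hxH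
      push_cast at h2
      have h3 : (2 ^ 20 * x) ^ 2 ≤ (isqHi (H * 1048576) : ℝ) ^ 2 := by nlinarith
      exact (pow_le_pow_iff_left₀ (by positivity) (Nat.cast_nonneg _) (by norm_num : (2 : ℕ) ≠ 0)).1 h3
    have g1 := aux α B.hi0 hα0.le hαh
    have g2 := aux γ B.g1 hp.γ0.le hγh
    push_cast
    linarith
  -- `σ > 0`
  have hm : 0 < 1 - α ^ 2 - γ ^ 2 := by
    have h1 := hp.sum
    have : 0 < ∑ j, b j ^ 2 := Finset.sum_pos (fun j _ => pow_pos (hp.b0 j) 2)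
      ⟨⟨0, hp.m0⟩, Finset.mem_univ _⟩
    linarith
  -- the alias terms
  have hT0 : 1000 ≤ ptn.getD ti 0 := (ct_rows hti).1
  have hT1 : ptn.getD ti 0 ≤ 1300 := ptn_le hti
  have hmode := aliasV_mode hx01
  have hT0r : (1000 : ℝ) ≤ (ptn.getD ti 0 : ℝ) := by exact_mod_cast hT0
  have hT1r : (ptn.getD ti 0 : ℝ) ≤ 1300 := by exact_mod_cast hT1
  have hsub : ((ptn.getD ti 0 - 20 : ℕ) : ℝ) = (ptn.getD ti 0 : ℝ) - 20 := by
    rw [Nat.cast_sub (by omega)]; norm_num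
  have n1 := alias_near b (t := ((ptn.getD ti 0 - 20 : ℕ) : ℝ) / 1000) amode hp.γ0 hp.γα hp.b0 hbα hp.sum hm
    (by rw [hsub]; linarith) (by rw [hsub]; linarith)
  have n0 := alias_near b (t := (ptn.getD ti 0 : ℝ) / 1000) amode hp.γ0 hp.γα hp.b0 hbα hp.sum hm
    (by linarith) (by linarith)
  have hK1 : (0 : ℝ) < c.KL1 := by exact_mod_cast k1
  set A1 := aliasA amode α γ (1 - α ^ 2 - γ ^ 2) (((ptn.getD ti 0 - 20 : ℕ) : ℝ) / 1000) with hA1d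
  set A0 := aliasA amode α γ (1 - α ^ 2 - γ ^ 2) ((ptn.getD ti 0 : ℝ) / 1000) with hA0d
  have hA1n : 0 ≤ A1 := (abs_nonneg _).trans n1
  have hA0n : 0 ≤ A0 := (abs_nonneg _).trans n0
  have sA : ∀ (A x0 x1 : ℝ), 0 ≤ A →
      16 * 2 ^ 100 * (2 ^ 60 * Real.exp (-(((SH - Ar.at B.s0 : ℤ) : ℝ) / 2 ^ 72))) / c.KL1 * A ≤ x0 →
      16 * 2 ^ 100 * (2 ^ 60 * Real.exp (-(((SH - Ar.at B.s1 : ℤ) : ℝ) / 2 ^ 72))) / c.KL1 * A ≤ x1 →
      sc * A ≤ mix l x0 x1 := by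
    intro A x0 x1 hA0 hx0 hx1
    have h1 := mix_bound (C := 16 * 2 ^ 100 / c.KL1 * A) hp.l0 hp.l1
      (mul_nonneg (div_nonneg (by norm_num) hK1.le) hA0)
      (e0 := ((SH - Ar.at B.s0 : ℤ) : ℝ)) (e1 := ((SH - Ar.at B.s1 : ℤ) : ℝ)) (v0 := x0) (v1 := x1)
      (by refine le_trans (le_of_eq ?_) hx0; ring) (by refine le_trans (le_of_eq ?_) hx1; ring)
    refine le_trans ?_ h1
    refine (mul_le_mul_of_nonneg_right hscU hA0).trans (le_of_eq ?_)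
    ring
  have sA1 := sA A1 x01 x11 hA1n
    (aliasV_sound hx01 k1 hα0 hp.γ0.le hαl hγl c11 hm hpp (by omega) hmode)
    (aliasV_sound hx11 k1 hα0 hp.γ0.le hαl hγl c11 hm hpp (by omega) hmode)
  have sA0 := sA A0 x00 x10 hA0n
    (aliasV_sound hx00 k1 hα0 hp.γ0.le hαl hγl c11 hm hpp hT1 hmode)
    (aliasV_sound hx10 k1 hα0 hp.γ0.le hαl hγl c11 hm hpp hT1 hmode)
  -- the remainder
  have hcap : 0 < nmax (capX cls B rr) 7900 := by rw [nmax_eq]; omega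
  have hrest : ∀ E ∈ rest, E ≤ ((25 * nmax (capX cls B rr) 7900 : ℕ) : ℝ) := by
    intro E hE
    refine (hp.rst E hE).2.trans ?_
    have : 25 * capX cls B rr ≤ 25 * nmax (capX cls B rr) 7900 := by
      rw [nmax_eq]; exact Nat.mul_le_mul_left 25 (le_max_left _ _)
    exact_mod_cast this
  have hrest0 : ∀ E ∈ rest, 0 ≤ E := fun E hE => le_trans (Nat.cast_nonneg _) (hp.rst E hE).1
  have srem : ∀ N : ℕ, 0 < q ∧ |∑' k, gQ b α γ (5 / 4) ((N : ℝ) / 1000) k -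
      ∑ k ∈ Finset.range 32, gQ b α γ (5 / 4) ((N : ℝ) / 1000) k| ≤
      25 / 16 * kc * (65 / 2) ^ 3 * (((nmax (capX cls B rr) 7900 : ℕ) : ℝ) / q) *
        Real.exp (-((R' : ℝ) / 2 ^ 72)) := by
    intro N
    refine remP_sound hcap hr (hp.cell) (hp.rho c6) hrest0 hrest hp.S1 hp.sumHi hp.A.1 hp.G.1
      (by norm_num) (hasSum_gQ b hp.γ0 hp.γα (by norm_num) _) ?_
    intro k _
    exact gQ_abs hb0 hα0.le hp.γ0.le hp.hperm N k
  have hq := (srem 0).1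
  have hqr : (0 : ℝ) < q := by exact_mod_cast hq
  have srem2 : ∀ N : ℕ, sc * |∑' k, gQ b α γ (5 / 4) ((N : ℝ) / 1000) k -
      ∑ k ∈ Finset.range 32, gQ b α γ (5 / 4) ((N : ℝ) / 1000) k| ≤ mix l v0 v1 := by
    intro N
    have g0 := remV_sound hv0 hq k1
    have g1 := remV_sound hv1 hq k1
    have h1 := mix_bound hp.l0 hp.l1 (by positivity) g0 g1
    refine le_trans ?_ h1
    refine (mul_le_mul_of_nonneg_left (srem N).2 hsc.le).trans ?_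
    refine (mul_le_mul_of_nonneg_right hscU (by positivity)).trans (le_of_eq ?_)
    have e1 : mix l ((R' + (SH - Ar.at B.s0) : ℤ) : ℝ) ((R' + (SH - Ar.at B.s1) : ℤ) : ℝ) =
        R' + mix l ((SH - Ar.at B.s0 : ℤ) : ℝ) ((SH - Ar.at B.s1 : ℤ) : ℝ) := by
      rw [Int.cast_add, Int.cast_add]
      unfold mix
      ring
    have e2 : Real.exp (-((R' + mix l ((SH - Ar.at B.s0 : ℤ) : ℝ) ((SH - Ar.at B.s1 : ℤ) : ℝ)) / 2 ^ 72)) =
        Real.exp (-((R' : ℝ) / 2 ^ 72)) *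
          Real.exp (-(mix l ((SH - Ar.at B.s0 : ℤ) : ℝ) ((SH - Ar.at B.s1 : ℤ) : ℝ) / 2 ^ 72)) := by
      rw [← Real.exp_add]; congr 1; ring
    rw [e1, e2]
    ring
  -- the sums
  obtain ⟨ga, gb⟩ := pGo_gQ hb0 hα0.le hp.γ0.le hp.hperm hPOK hti hg
  rw [← hal, ← hscd] at ga gb
  have r1 := srem2 (ptn.getD ti 0 - 20)
  have r0 := srem2 (ptn.getD ti 0)
  set D1 := ∑' k, gQ b α γ (5 / 4) (((ptn.getD ti 0 - 20 : ℕ) : ℝ) / 1000) k with hD1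
  set D0 := ∑' k, gQ b α γ (5 / 4) ((ptn.getD ti 0 : ℝ) / 1000) k with hD0
  set G1 := ∑ k ∈ Finset.range 32, gQ b α γ (5 / 4) (((ptn.getD ti 0 - 20 : ℕ) : ℝ) / 1000) k with hG1
  set G0 := ∑ k ∈ Finset.range 32, gQ b α γ (5 / 4) ((ptn.getD ti 0 : ℝ) / 1000) k with hG0
  have r1a : sc * (D1 - G1) ≤ mix l v0 v1 :=
    (mul_le_mul_of_nonneg_left (le_abs_self _) hsc.le).trans r1
  have r0a : sc * (G0 - D0) ≤ mix l v0 v1 := by
    refine (mul_le_mul_of_nonneg_left ?_ hsc.le).trans r0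
    rw [abs_sub_comm]
    exact le_abs_self _
  have ma : mix l (2 * (v0 : ℝ) + x01 + x00 + 1) (2 * (v1 : ℝ) + x11 + x10 + 1) ≤ mix l S.a0 S.a1 :=
    mix_mono hp.l0 hp.l1 ha0 ha1
  have mb : mix l ((v0 : ℝ) + x01 + 1) ((v1 : ℝ) + x11 + 1) ≤ mix l S.b0 S.b1 :=
    mix_mono hp.l0 hp.l1 hb0' hb1'
  have ea : mix l (2 * (v0 : ℝ) + x01 + x00 + 1) (2 * (v1 : ℝ) + x11 + x10 + 1) =
      2 * mix l v0 v1 + mix l x01 x11 + mix l x00 x10 + 1 := by unfold mix; ring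
  have eb : mix l ((v0 : ℝ) + x01 + 1) ((v1 : ℝ) + x11 + 1) = mix l v0 v1 + mix l x01 x11 + 1 := by
    unfold mix; ring
  rw [ea] at ma
  rw [eb] at mb
  have q1 : sc * (D1 + A1) < 0 := by
    have e : sc * (D1 + A1) = sc * (D1 - G1) + sc * A1 + sc * G1 := by ring
    rw [e]
    linarith
  have q2 : sc * (D1 + A1 + A0 - D0) < 0 := by
    have e : sc * (D1 + A1 + A0 - D0) = sc * (D1 - G1) + sc * (G0 - D0) + sc * A1 + sc * A0 - sc * (G0 - G1) := by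
      ring
    rw [e]
    linarith
  have q1' : D1 + A1 < 0 := by
    by_contra hcon
    exact absurd q1 (not_lt.2 (mul_nonneg hsc.le (not_lt.1 hcon)))
  have q2' : D1 + A1 + A0 - D0 < 0 := by
    by_contra hcon
    exact absurd q2 (not_lt.2 (mul_nonneg hsc.le (not_lt.1 hcon)))
  exact P_cert2 b hp.γ0 hp.γα hp.b0 hbα (by norm_num) (t1 := ((ptn.getD ti 0 - 20 : ℕ) : ℝ) / 1000)
    (t0 := (ptn.getD ti 0 : ℝ) / 1000) (by rw [hsub]; linarith) (by rw [hsub]; linarith) n1 n0 q1'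
    (by linarith) ht htL

end

end Pool.Agent.H60.SC
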