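import Pool.Agent.H60.SC.LineS
import Pool.Agent.H60.SC.LogS
import Pool.Agent.H60.SL.CkK
import Pool.Agent.H60.SL.Dec
import Pool.Agent.H60.SL.KExt
import Pool.Agent.H61.SC.PLeaf

/-!
# The factor `K`
-/

set_option autoImplicit false

open Set Filter Topology

namespace Pool.Agent.H60.SC

open Pool.Agent.H60.SL
open Pool.Agent.H60.SL.Ck (nn le ex t1D t1F t1M t2D t2F expU expL expU_sound expL_sound LB zE allB allB_iff
  le_iff zE_nonneg zE_sq InL kiCoef kiLo kiHi kiLo_sound kiHi_sound)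
open Pool.Agent.H61.SC

/-- `K` at the frequency `k` -/
noncomputable def Kk (k : ℕ) (E G : ℝ) : ℝ := KI (k * zE E) (k * zE G)

theorem Kk_symm (k : ℕ) (E G : ℝ) : Kk k E G = Kk k G E := KI_symm _ _

theorem Kk_abs_le (k : ℕ) (E G : ℝ) : |Kk k E G| ≤ 1 := KI_abs_le _ _

theorem kz_le_of {k : ℕ} {E c : ℝ} (hc : 0 ≤ c) (h : (k : ℝ) ^ 2 * E ≤ c ^ 2 * 2 ^ 24) : k * zE E ≤ c := by
  have hk : (0 : ℝ) ≤ k := Nat.cast_nonneg k
  by_cases hE : 0 ≤ E
  · have h1 : (k * zE E) ^ 2 ≤ c ^ 2 := by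
      rw [mul_pow, zE_sq hE]
      have : (k : ℝ) ^ 2 * (E / 2 ^ 24) = (k : ℝ) ^ 2 * E / 2 ^ 24 := by ring
      rw [this, div_le_iff₀ (by positivity)]
      exact h
    exact (pow_le_pow_iff_left₀ (mul_nonneg hk (zE_nonneg _)) hc (by norm_num : (2 : ℕ) ≠ 0)).1 h1
  · have : zE E = 0 := by
      unfold zE
      exact Real.sqrt_eq_zero_of_nonpos (div_nonpos_of_nonpos_of_nonneg (not_le.1 hE).le (by positivity))
    rw [this, mul_zero]
    exact hc

theorem le_kz_of {k : ℕ} {E c : ℝ} (hc : 0 ≤ c) (hE : 0 ≤ E) (h : c ^ 2 * 2 ^ 24 ≤ (k : ℝ) ^ 2 * E) :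
    c ≤ k * zE E := by
  have hk : (0 : ℝ) ≤ k := Nat.cast_nonneg k
  have h1 : c ^ 2 ≤ (k * zE E) ^ 2 := by
    rw [mul_pow, zE_sq hE]
    have : (k : ℝ) ^ 2 * (E / 2 ^ 24) = (k : ℝ) ^ 2 * E / 2 ^ 24 := by ring
    rw [this, le_div_iff₀ (by positivity)]
    exact h
  exact (pow_le_pow_iff_left₀ hc (mul_nonneg hk (zE_nonneg _)) (by norm_num : (2 : ℕ) ≠ 0)).1 h1

/-- `k² E ≤ U449` -/
def In449 (k : ℕ) (E : ℝ) : Prop := (k : ℝ) ^ 2 * E ≤ 338230352

theorem In449.le {k : ℕ} {E : ℝ} (h : In449 k E) : k * zE E ≤ 4.49 :=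
  kz_le_of (by norm_num) (by unfold In449 at h; norm_num; linarith)

theorem In449.mono {k j : ℕ} {E F : ℝ} (h : In449 k E) (hj : j ≤ k) (hF : F ≤ E) (hE : 0 ≤ E) :
    In449 j F := by
  unfold In449 at *
  have h1 : (j : ℝ) ≤ k := by exact_mod_cast hj
  have h2 : (j : ℝ) ^ 2 ≤ (k : ℝ) ^ 2 := pow_le_pow_left₀ (Nat.cast_nonneg _) h1 2
  calc (j : ℝ) ^ 2 * F ≤ (j : ℝ) ^ 2 * E := mul_le_mul_of_nonneg_left hF (sq_nonneg _)
    _ ≤ (k : ℝ) ^ 2 * E := mul_le_mul_of_nonneg_right h2 hE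
    _ ≤ _ := h

theorem Kk_pos {k : ℕ} {E G : ℝ} (h1 : In449 k E) (h2 : In449 k G) : 0 < Kk k E G :=
  KI_pos (mul_nonneg (Nat.cast_nonneg _) (zE_nonneg _)) h1.le (mul_nonneg (Nat.cast_nonneg _) (zE_nonneg _)) h2.le

theorem Kk_anti {k : ℕ} {E E' G G' : ℝ} (h1 : In449 k E') (h2 : In449 k G') (hE : E ≤ E') (hG : G ≤ G') :
    Kk k E' G' ≤ Kk k E G :=
  KI_anti (mul_nonneg (Nat.cast_nonneg _) (zE_nonneg _)) (mul_le_mul_of_nonneg_left (zE_le hE) (Nat.cast_nonneg _))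
    h1.le (mul_nonneg (Nat.cast_nonneg _) (zE_nonneg _))
    (mul_le_mul_of_nonneg_left (zE_le hG) (Nat.cast_nonneg _)) h2.le

/-- cross inequality for the ratios -/
theorem Kk_cross {w w' : ℕ} (hw : 1 ≤ w) (hww : w ≤ w') {E E' G G' : ℝ} (hE0 : 0 ≤ E) (hG0 : 0 ≤ G)
    (hE : E ≤ E') (hG : G ≤ G') (h1 : In449 w' E') (h2 : In449 w' G') :
    Kk w E G * Kk w' E' G' ≤ Kk w E' G' * Kk w' E G := by
  have hwr : (0 : ℝ) < w := by exact_mod_cast hw
  have hwwr : (w : ℝ) ≤ w' := by exact_mod_cast hww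
  have hE'0 := hE0.trans hE
  have hG'0 := hG0.trans hG
  have h2G : In449 w' G := h2.mono le_rfl hG hG'0
  have h1E : In449 w' E := h1.mono le_rfl hE hE'0
  have a := KI_ratio_mono (α := zE E) (α' := zE E') (γ := zE G) (w := w) (w' := w') (zE_nonneg _) (zE_le hE)
    (zE_nonneg _) hwr hwwr (by rw [mul_comm]; exact h1.le) (by rw [mul_comm]; exact h2G.le)
  have b := KI_ratio_mono' (α := zE E') (γ := zE G) (γ' := zE G') (w := w) (w' := w') (zE_nonneg _) (zE_le hG)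
    (zE_nonneg _) hwr hwwr (by rw [mul_comm]; exact h2.le) (by rw [mul_comm]; exact h1.le)
  rw [mul_comm (zE E), mul_comm (zE G), mul_comm (zE E'), mul_comm (zE G), mul_comm (zE E'), mul_comm (zE E)] at a
  rw [mul_comm (zE E'), mul_comm (zE G), mul_comm (zE E'), mul_comm (zE G'), mul_comm (zE G'), mul_comm (zE G)] at b
  change Kk w E G * Kk w' E' G ≤ Kk w E' G * Kk w' E G at a
  change Kk w E' G * Kk w' E' G' ≤ Kk w E' G' * Kk w' E' G at b
  have p1 : 0 < Kk w' E' G := Kk_pos h1 h2G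
  have p2 : 0 < Kk w E' G := Kk_pos (h1.mono hww le_rfl hE'0) (h2.mono hww hG hG'0)
  have p3 : 0 < Kk w' E' G' := Kk_pos h1 h2
  have p4 : 0 < Kk w' E G := Kk_pos h1E h2G
  have c := mul_le_mul a b (mul_pos p2 p3).le (mul_pos p2 p4).le
  have hp : 0 < Kk w' E' G * Kk w E' G := mul_pos p1 p2
  have e1 : Kk w E G * Kk w' E' G * (Kk w E' G * Kk w' E' G') =
      (Kk w E G * Kk w' E' G') * (Kk w' E' G * Kk w E' G) := by ring
  have e2 : Kk w E' G * Kk w' E G * (Kk w E' G' * Kk w' E' G) =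
      (Kk w E' G' * Kk w' E G) * (Kk w' E' G * Kk w E' G) := by ring
  rw [e1, e2] at c
  exact le_of_mul_le_mul_right c hp

/-! ## the integer bounds -/

theorem kUp_sound {EA EG k : ℕ} (hA : EA ≤ 2 ^ 25) (hG : EG ≤ 2 ^ 25) (hk : 1 ≤ k) :
    2 ^ 60 * Kk k EA EG ≤ (kUp (kiCoef EA EG) k : ℝ) := by
  have h := kiHi_sound hA hG hk (u := k * zE EA) (v := k * zE EG)
    (mul_nonneg (Nat.cast_nonneg _) (zE_nonneg _)) (mul_nonneg (Nat.cast_nonneg _) (zE_nonneg _))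
    (by rw [mul_pow, zE_sq (Nat.cast_nonneg _)]) (by rw [mul_pow, zE_sq (Nat.cast_nonneg _)])
  refine h.trans ?_
  unfold kUp
  have : kiHi (kiCoef EA EG) k ≤ ((kiHi (kiCoef EA EG) k).toNat : ℤ) := Int.self_le_toNat _
  exact_mod_cast this

theorem kLow_sound {EA EG k : ℕ} (hA : EA ≤ 2 ^ 25) (hG : EG ≤ 2 ^ 25) (hk : 1 ≤ k)
    (h0 : 0 ≤ Kk k EA EG) : (kLow (kiCoef EA EG) k : ℝ) ≤ 2 ^ 60 * Kk k EA EG := by
  have h := kiLo_sound hA hG hk (u := k * zE EA) (v := k * zE EG)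
    (mul_nonneg (Nat.cast_nonneg _) (zE_nonneg _)) (mul_nonneg (Nat.cast_nonneg _) (zE_nonneg _))
    (by rw [mul_pow, zE_sq (Nat.cast_nonneg _)]) (by rw [mul_pow, zE_sq (Nat.cast_nonneg _)])
  unfold kLow
  rcases le_total 0 (kiLo (kiCoef EA EG) k) with h1 | h1
  · have : ((kiLo (kiCoef EA EG) k).toNat : ℤ) = kiLo (kiCoef EA EG) k := Int.toNat_of_nonneg h1
    have h2 : (((kiLo (kiCoef EA EG) k).toNat : ℕ) : ℝ) = ((kiLo (kiCoef EA EG) k : ℤ) : ℝ) := by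
      exact_mod_cast congrArg (fun z : ℤ => (z : ℝ)) this
    rw [h2]
    exact h
  · have : (kiLo (kiCoef EA EG) k).toNat = 0 := Int.toNat_eq_zero.2 h1
    rw [this, Nat.cast_zero]
    exact mul_nonneg (by positivity) h0

/-- meaning of the corner data -/
structure KOK (c : PC) (E G : ℝ) : Prop where
  r1 : 1 ≤ c.r
  A0 : (c.EA0 : ℝ) ≤ E
  A1 : E ≤ c.EA1
  G0 : (c.EG0 : ℝ) ≤ G
  G1 : G ≤ c.EG1
  GA : c.EG1 ≤ c.EA1
  A25 : c.EA1 ≤ 2 ^ 25
  rA : c.r * c.r * c.EA1 ≤ 338230352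
  C0 : c.C0 = kiCoef c.EA0 c.EG0
  C1 : c.C1 = kiCoef c.EA1 c.EG1
  CG : c.CG = kiCoef c.EG0 c.EG0
  KL0 : c.KL0 = kLow c.C0 c.r
  KU0 : c.KU0 = kUp c.C0 c.r
  KL1 : c.KL1 = kLow c.C1 c.r
  KU1 : c.KU1 = kUp c.C1 c.r
  P0 : 1 ≤ c.KL0
  P1 : 1 ≤ c.KL1

theorem in449_nat {k E : ℕ} (h : k * k * E ≤ 338230352) : In449 k (E : ℝ) := by
  unfold In449
  have : ((k * k * E : ℕ) : ℝ) ≤ 338230352 := by exact_mod_cast h
  push_cast at this
  nlinarith

section

variable {c : PC} {E G : ℝ}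

theorem KOK.E0 (h : KOK c E G) : 0 ≤ E := le_trans (Nat.cast_nonneg _) h.A0
theorem KOK.G0' (h : KOK c E G) : 0 ≤ G := le_trans (Nat.cast_nonneg _) h.G0

theorem KOK.inA (h : KOK c E G) : In449 c.r (c.EA1 : ℝ) := in449_nat h.rA
theorem KOK.inG (h : KOK c E G) : In449 c.r (c.EG1 : ℝ) :=
  in449_nat ((Nat.mul_le_mul_left _ h.GA).trans h.rA)

theorem KOK.nA (h : KOK c E G) : c.EA0 ≤ c.EA1 := by
  have := h.A0.trans h.A1
  exact_mod_cast this
theorem KOK.nG (h : KOK c E G) : c.EG0 ≤ c.EG1 := by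
  have := h.G0.trans h.G1
  exact_mod_cast this
theorem KOK.G25 (h : KOK c E G) : c.EG1 ≤ 2 ^ 25 := h.GA.trans h.A25
theorem KOK.A25' (h : KOK c E G) : c.EA0 ≤ 2 ^ 25 := h.nA.trans h.A25
theorem KOK.G25' (h : KOK c E G) : c.EG0 ≤ 2 ^ 25 := h.nG.trans h.G25

theorem KOK.Kr_pos (h : KOK c E G) : 0 < Kk c.r E G :=
  Kk_pos (h.inA.mono le_rfl h.A1 (Nat.cast_nonneg _)) (h.inG.mono le_rfl h.G1 (Nat.cast_nonneg _))

/-- `K_r` from below -/
theorem KOK.Kr_low (h : KOK c E G) : (c.KL1 : ℝ) ≤ 2 ^ 60 * Kk c.r E G := by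
  have h1 := Kk_pos h.inA h.inG
  rw [h.KL1, h.C1]
  refine (kLow_sound h.A25 h.G25 h.r1 h1.le).trans (mul_le_mul_of_nonneg_left ?_ (by positivity))
  exact Kk_anti h.inA h.inG h.A1 h.G1

/-- division helper: `x ≤ 2^30 y` type bounds -/
theorem div_up {z d : ℕ} (hd : 1 ≤ d) {K Kr : ℝ} (hKr : 0 < Kr) (h1 : 2 ^ 60 * K ≤ z)
    (h2 : (d : ℝ) ≤ 2 ^ 60 * Kr) (hK : 0 ≤ K) :
    2 ^ 30 * (K / Kr) ≤ ((z * 1073741824 / d + 1 : ℕ) : ℝ) := by
  have hd' : (0 : ℝ) < d := by exact_mod_cast hd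
  have h3 := Nat.lt_div_mul_add (a := z * 1073741824) hd
  have h4 : ((z * 1073741824 : ℕ) : ℝ) ≤ ((z * 1073741824 / d * d + d : ℕ) : ℝ) := by exact_mod_cast h3.le
  generalize z * 1073741824 / d = q at *
  push_cast at h4 ⊢
  rw [mul_div_assoc', div_le_iff₀ hKr]
  have h5 : (2 : ℝ) ^ 60 * K * 1073741824 ≤ (q + 1) * d := by nlinarith
  have h6 : ((q : ℝ) + 1) * d ≤ (q + 1) * (2 ^ 60 * Kr) := mul_le_mul_of_nonneg_left h2 (by positivity)
  have h7 : (2 : ℝ) ^ 60 * K * 1073741824 ≤ 2 ^ 60 * ((q + 1) * Kr) := by linarith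
  have h8 : (2 : ℝ) ^ 30 = 1073741824 := by norm_num
  rw [h8]
  have h9 : (0 : ℝ) < 2 ^ 60 := by positivity
  nlinarith

theorem div_low {z d : ℕ} {K Kr : ℝ} (hKr : 0 < Kr) (h1 : (z : ℝ) ≤ 2 ^ 60 * K)
    (h2 : 2 ^ 60 * Kr ≤ (d : ℝ)) (hd : 0 < d) (hK : 0 ≤ K) :
    ((z * 1073741824 / d : ℕ) : ℝ) ≤ 2 ^ 30 * (K / Kr) := by
  have hd' : (0 : ℝ) < d := by exact_mod_cast hd
  have h3 : ((z * 1073741824 / d : ℕ) : ℝ) ≤ ((z * 1073741824 : ℕ) : ℝ) / d := Nat.cast_div_le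
  refine h3.trans ?_
  push_cast
  rw [div_le_iff₀ hd']
  have h8 : (2 : ℝ) ^ 30 = 1073741824 := by norm_num
  rw [h8]
  calc (z : ℝ) * 1073741824 ≤ 2 ^ 60 * K * 1073741824 := mul_le_mul_of_nonneg_right h1 (by norm_num)
    _ = 1073741824 * (K / Kr) * (2 ^ 60 * Kr) := by field_simp
    _ ≤ 1073741824 * (K / Kr) * d := mul_le_mul_of_nonneg_left h2 (by positivity)

/-- bounds beyond `4.49` -/
theorem kBey_sound (h : KOK c E G) {k mode kb z : ℕ} (hk : 1 ≤ k) (hz : kBey c k mode kb = some z) :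
    2 ^ 60 * |Kk k E G| ≤ z := by
  have hE0 := h.E0
  have hG0 := h.G0'
  have hkE : (k : ℝ) ^ 2 * c.EA0 ≤ (k : ℝ) ^ 2 * E := mul_le_mul_of_nonneg_left h.A0 (sq_nonneg _)
  have hkG : (k : ℝ) ^ 2 * c.EG0 ≤ (k : ℝ) ^ 2 * G := mul_le_mul_of_nonneg_left h.G0 (sq_nonneg _)
  have hU : ((k * k * c.EA0 : ℕ) : ℝ) = (k : ℝ) ^ 2 * c.EA0 := by push_cast; ring
  have hV : ((k * k * c.EG0 : ℕ) : ℝ) = (k : ℝ) ^ 2 * c.EG0 := by push_cast; ring
  have hzE : 0 ≤ (k : ℝ) * zE E := mul_nonneg (Nat.cast_nonneg _) (zE_nonneg _)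
  have hzG : 0 ≤ (k : ℝ) * zE G := mul_nonneg (Nat.cast_nonneg _) (zE_nonneg _)
  have hsq : ((k : ℝ) * zE E) ^ 2 = (k : ℝ) ^ 2 * E / 2 ^ 24 := by rw [mul_pow, zE_sq hE0]; ring
  have hsqG : ((k : ℝ) * zE G) ^ 2 = (k : ℝ) ^ 2 * G / 2 ^ 24 := by rw [mul_pow, zE_sq hG0]; ring
  unfold kBey at hz
  simp only [fz_eq] at hz
  rcases mode with _ | _ | _ | _ | _ | mode
  · -- mode 0
    have h1 := Option.some.inj hz
    have h2 : ((ONE60 : ℕ) : ℝ) = 2 ^ 60 := by norm_num [ONE60]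
    rw [← h1, h2]
    have := Kk_abs_le k E G
    nlinarith
  · -- mode 1
    simp only at hz
    obtain ⟨hb, hz⟩ := bif_some hz
    rw [Bool.and_eq_true] at hb
    have b1 := ble_true hb.1
    have b2 := ble_true hb.2
    have i1 : In449 k (c.EA0 : ℝ) := in449_nat b1
    have i2 : In449 k (c.EG1 : ℝ) := in449_nat b2
    have i3 : In449 k G := i2.mono le_rfl h.G1 (Nat.cast_nonneg _)
    have hup := kUp_sound (k := k) h.A25' h.G25' hk
    rw [← h.C0] at hup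
    have hsmall : (k : ℝ) * zE E ≤ 5.76 → 2 ^ 60 * |Kk k E G| ≤ (kUp c.C0 k : ℝ) := by
      intro h576
      have p := KI_pos' hzE h576 hzG i3.le
      have a1 := KI_anti_left (mul_nonneg (Nat.cast_nonneg k) (zE_nonneg (c.EA0 : ℝ)))
        (mul_le_mul_of_nonneg_left (zE_le h.A0) (Nat.cast_nonneg k)) h576 hzG i3.le
      have a2 : Kk k c.EA0 G ≤ Kk k c.EA0 c.EG0 := Kk_anti i1 i3 le_rfl h.G0
      change Kk k E G ≤ Kk k c.EA0 G at a1
      change 0 < Kk k E G at p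
      rw [abs_of_pos p]
      exact (mul_le_mul_of_nonneg_left (a1.trans a2) (by positivity)).trans hup
    rw [← hz]
    cases h5 : Nat.ble (k * k * c.EA1) U576
    · rw [cond_false, nmax_eq]
      push_cast
      rcases le_or_gt ((k : ℝ) * zE E) 5.76 with h9 | h9
      · exact (hsmall h9).trans (le_max_left _ _)
      · refine le_trans ?_ (le_max_right _ _)
        have hpos : 0 < (k : ℝ) * zE E := by linarith
        have d := KI_decay hpos hzG
        change |Kk k E G| ≤ _ at d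
        have d2 : 17 / ((k : ℝ) * zE E) ^ 3 ≤ 17 / 5.76 ^ 3 := by
          apply div_le_div_of_nonneg_left (by norm_num) (by norm_num)
          exact pow_le_pow_left₀ (by norm_num) h9.le 3
        have d3 := d.trans d2
        calc 2 ^ 60 * |Kk k E G| ≤ 2 ^ 60 * (17 / 5.76 ^ 3) := mul_le_mul_of_nonneg_left d3 (by positivity)
          _ ≤ 102560755402973937 := by norm_num
    · rw [cond_true]
      refine hsmall ?_
      have b5 := ble_true h5
      have : ((k * k * c.EA1 : ℕ) : ℝ) ≤ ((U576 : ℕ) : ℝ) := by exact_mod_cast b5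
      push_cast at this
      have hkE1 : (k : ℝ) ^ 2 * E ≤ (k : ℝ) ^ 2 * c.EA1 := mul_le_mul_of_nonneg_left h.A1 (sq_nonneg _)
      refine kz_le_of (by norm_num) ?_
      have e : ((U576 : ℕ) : ℝ) = 556627761 := by norm_num [U576]
      rw [e] at this
      norm_num
      nlinarith
  · -- mode 2
    simp only at hz
    obtain ⟨hb, hz⟩ := bif_some hz
    have b1 := ble_true hb
    rw [← hz]
    have b2 : ((1814082401526750740748543143307015594253580723450105974226944 : ℕ) : ℝ) ≤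
        ((kb * kb * ((k * k * c.EA0) * (k * k * c.EA0) * (k * k * c.EA0)) : ℕ) : ℝ) := by exact_mod_cast b1
    rw [Nat.cast_mul, Nat.cast_mul, Nat.cast_mul, Nat.cast_mul, hU] at b2
    set U0 : ℝ := (k : ℝ) ^ 2 * c.EA0 with hU0
    have hU00 : 0 ≤ U0 := by positivity
    have hpos : 0 < (k : ℝ) * zE E := by
      rcases hzE.eq_or_lt with h9 | h9
      · exfalso
        have h10 : ((k : ℝ) * zE E) ^ 2 = 0 := by rw [← h9]; ring
        rw [hsq] at h10
        have h11 : U0 ≤ 0 := by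
          have : (k : ℝ) ^ 2 * E = 0 := by
            have := (div_eq_zero_iff.1 h10)
            rcases this with h12 | h12
            · exact h12
            · norm_num at h12
          linarith
        have h12 : U0 = 0 := le_antisymm h11 hU00
        rw [h12] at b2
        norm_num at b2
      · exact h9
    have d := KI_decay hpos hzG
    change |Kk k E G| ≤ _ at d
    have hd2 : (2 ^ 60 * |Kk k E G|) ^ 2 ≤ (kb : ℝ) ^ 2 := by
      have h20 : |Kk k E G| ^ 2 ≤ 289 / (((k : ℝ) * zE E) ^ 2) ^ 3 := by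
        calc |Kk k E G| ^ 2 ≤ (17 / ((k : ℝ) * zE E) ^ 3) ^ 2 := pow_le_pow_left₀ (abs_nonneg _) d 2
          _ = 289 / (((k : ℝ) * zE E) ^ 2) ^ 3 := by field_simp; norm_num
      have hy : 0 < ((k : ℝ) * zE E) ^ 2 := by positivity
      have h21 : U0 ≤ 2 ^ 24 * ((k : ℝ) * zE E) ^ 2 := by
        rw [hsq]
        have : (2 : ℝ) ^ 24 * ((k : ℝ) ^ 2 * E / 2 ^ 24) = (k : ℝ) ^ 2 * E := by ring
        rw [this]
        exact hkE
      set y := ((k : ℝ) * zE E) ^ 2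
      have h22 : U0 * U0 * U0 ≤ 2 ^ 72 * y ^ 3 := by
        have : U0 ^ 3 ≤ (2 ^ 24 * y) ^ 3 := pow_le_pow_left₀ hU00 h21 3
        calc U0 * U0 * U0 = U0 ^ 3 := by ring
          _ ≤ (2 ^ 24 * y) ^ 3 := this
          _ = 2 ^ 72 * y ^ 3 := by ring
      have hkb : (0 : ℝ) ≤ (kb : ℝ) * kb := by positivity
      have h23 : (1814082401526750740748543143307015594253580723450105974226944 : ℝ) ≤
          (kb : ℝ) * kb * (2 ^ 72 * y ^ 3) := by
        refine le_trans ?_ (mul_le_mul_of_nonneg_left h22 hkb)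
        exact_mod_cast b2
      have e3 : (1814082401526750740748543143307015594253580723450105974226944 : ℝ) = 289 * 2 ^ 120 * 2 ^ 72 := by
        norm_num
      rw [e3] at h23
      have h24 : 289 * 2 ^ 120 ≤ (kb : ℝ) * kb * y ^ 3 := by nlinarith
      calc (2 ^ 60 * |Kk k E G|) ^ 2 = 2 ^ 120 * |Kk k E G| ^ 2 := by ring
        _ ≤ 2 ^ 120 * (289 / y ^ 3) := mul_le_mul_of_nonneg_left h20 (by positivity)
        _ = (289 * 2 ^ 120) / y ^ 3 := by ring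
        _ ≤ ((kb : ℝ) * kb * y ^ 3) / y ^ 3 := div_le_div_of_nonneg_right h24 (by positivity)
        _ = (kb : ℝ) ^ 2 := by field_simp
    exact (pow_le_pow_iff_left₀ (mul_nonneg (by positivity) (abs_nonneg _)) (Nat.cast_nonneg _)
      (by norm_num : (2 : ℕ) ≠ 0)).1 hd2
  · -- mode 3
    simp only at hz
    obtain ⟨hb, hz⟩ := bif_some hz
    rw [Bool.and_eq_true] at hb
    have b1 := ble_true hb.1
    have b2 := ble_true hb.2
    have b1' : (338230352 : ℝ) ≤ (k : ℝ) ^ 2 * c.EA0 := by rw [← hU]; exact_mod_cast b1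
    have b2' : (338230352 : ℝ) ≤ (k : ℝ) ^ 2 * c.EG0 := by rw [← hV]; exact_mod_cast b2
    have u3 : 3 ≤ (k : ℝ) * zE E := le_kz_of (by norm_num) hE0 (by norm_num; linarith)
    have v3 : 3 ≤ (k : ℝ) * zE G := le_kz_of (by norm_num) hG0 (by norm_num; linarith)
    have d := KI_abs_le25 u3 v3
    change |Kk k E G| ≤ _ at d
    rw [hsq, hsqG] at d
    rw [← hz]
    set U0 : ℕ := k * k * c.EA0
    set V0 : ℕ := k * k * c.EG0
    have hU0p : 0 < U0 := by have : 338230352 ≤ U0 := b1; omega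
    have hV0p : 0 < V0 := by have : 338230352 ≤ V0 := b2; omega
    have hdd : 0 < 10 * (U0 * V0) := by positivity
    have h3 := Nat.lt_div_mul_add (a := 251 * 324518553658426726783156020576256) hdd
    have h4 : ((251 * 324518553658426726783156020576256 : ℕ) : ℝ) ≤
        ((251 * 324518553658426726783156020576256 / (10 * (U0 * V0)) * (10 * (U0 * V0)) + 10 * (U0 * V0) : ℕ) : ℝ) := by
      exact_mod_cast h3.le
    generalize 251 * 324518553658426726783156020576256 / (10 * (U0 * V0)) = q at *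
    push_cast at h4 ⊢
    have hU' : (0 : ℝ) < U0 := by exact_mod_cast hU0p
    have hV' : (0 : ℝ) < V0 := by exact_mod_cast hV0p
    have hkE' : (U0 : ℝ) ≤ (k : ℝ) ^ 2 * E := by rw [hU]; exact hkE
    have hkG' : (V0 : ℝ) ≤ (k : ℝ) ^ 2 * G := by rw [hV]; exact hkG
    have d2 : 25 / ((k : ℝ) ^ 2 * E / 2 ^ 24 * ((k : ℝ) ^ 2 * G / 2 ^ 24)) ≤
        25 * 2 ^ 48 / (U0 * V0) := by
      have hA' : 0 < (k : ℝ) ^ 2 * E := hU'.trans_le hkE'
      have hB' : 0 < (k : ℝ) ^ 2 * G := hV'.trans_le hkG'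
      generalize (k : ℝ) ^ 2 * E = A at *
      generalize (k : ℝ) ^ 2 * G = B at *
      rw [div_le_div_iff₀ (by positivity) (by positivity)]
      have : (U0 : ℝ) * V0 ≤ A * B := mul_le_mul hkE' hkG' hV'.le hA'.le
      have e : 25 * 2 ^ 48 * (A / 2 ^ 24 * (B / 2 ^ 24)) = 25 * (A * B) := by ring
      rw [e]
      linarith
    have d3 := d.trans d2
    calc 2 ^ 60 * |Kk k E G| ≤ 2 ^ 60 * (25 * 2 ^ 48 / (U0 * V0)) := mul_le_mul_of_nonneg_left d3 (by positivity)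
      _ = 25 * 2 ^ 108 / (U0 * V0) := by ring
      _ ≤ q + 1 := by
          rw [div_le_iff₀ (by positivity)]
          have e4 : (2 : ℝ) ^ 108 = 324518553658426726783156020576256 := by norm_num
          rw [e4]
          nlinarith
  · -- mode 4
    simp only at hz
    obtain ⟨hb, hz⟩ := bif_some hz
    rw [Bool.and_eq_true, Bool.and_eq_true] at hb
    obtain ⟨⟨hb1, hb2⟩, hb3⟩ := hb
    have b1 := ble_true hb1
    have b2 := ble_true hb2
    have b3 := ble_true hb3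
    rw [← hz]
    have b1' : (338230352 : ℝ) ≤ (k : ℝ) ^ 2 * c.EA0 := by rw [← hU]; exact_mod_cast b1
    have u3 : 3 ≤ (k : ℝ) * zE E := le_kz_of (by norm_num) hE0 (by norm_num; linarith)
    have hg := kUp_sound (k := k) h.G25' h.G25' hk
    rw [← h.CG] at hg
    have hdiag : KI (k * zE G) (k * zE G) ≤ Kk k c.EG0 c.EG0 := by
      have := KI_diag_antitone (a := (k : ℝ) * zE c.EG0) (b := (k : ℝ) * zE G)
        (mul_nonneg (Nat.cast_nonneg _) (zE_nonneg _)) hzG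
        (mul_le_mul_of_nonneg_left (zE_le h.G0) (Nat.cast_nonneg _))
      exact this
    have hKG : KI (k * zE G) (k * zE G) ≤ (kUp c.CG k : ℝ) / 2 ^ 60 := by
      rw [le_div_iff₀ (by positivity)]
      nlinarith
    have hw := KI_abs_le5 (v := (k : ℝ) * zE G) (w := Real.sqrt ((kUp c.CG k : ℝ) / 2 ^ 60)) u3
      (Real.sqrt_nonneg _) (by rw [Real.sq_sqrt (by positivity)]; exact hKG)
    change |Kk k E G| ≤ _ at hw
    have hpos : 0 < (k : ℝ) * zE E := by linarith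
    set U0 : ℕ := k * k * c.EA0 with hU0d
    have hU0p : 0 < U0 := by have : 338230352 ≤ U0 := b1; omega
    have hU' : (0 : ℝ) < U0 := by exact_mod_cast hU0p
    have b3' : ((251 * (kUp c.CG k * 324518553658426726783156020576256) : ℕ) : ℝ) ≤
        ((kb * kb * (U0 * U0 * 10) : ℕ) : ℝ) := by exact_mod_cast b3
    push_cast at b3'
    have hd2 : (2 ^ 60 * |Kk k E G|) ^ 2 ≤ (kb : ℝ) ^ 2 := by
      set y := ((k : ℝ) * zE E) ^ 2 with hy
      have hyp : 0 < y := by positivity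
      have h20 : |Kk k E G| ^ 2 ≤ 25 * ((kUp c.CG k : ℝ) / 2 ^ 60) / y ^ 2 := by
        calc |Kk k E G| ^ 2 ≤ (5 * Real.sqrt ((kUp c.CG k : ℝ) / 2 ^ 60) / y) ^ 2 :=
              pow_le_pow_left₀ (abs_nonneg _) hw 2
          _ = 25 * (Real.sqrt ((kUp c.CG k : ℝ) / 2 ^ 60)) ^ 2 / y ^ 2 := by ring
          _ = _ := by rw [Real.sq_sqrt (by positivity)]
      have h21 : (U0 : ℝ) ≤ 2 ^ 24 * y := by
        rw [hsq, hU]
        have : (2 : ℝ) ^ 24 * ((k : ℝ) ^ 2 * E / 2 ^ 24) = (k : ℝ) ^ 2 * E := by ring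
        rw [this]
        exact hkE
      have h22 : (U0 : ℝ) * U0 ≤ 2 ^ 48 * y ^ 2 := by
        calc (U0 : ℝ) * U0 ≤ (2 ^ 24 * y) * (2 ^ 24 * y) := mul_le_mul h21 h21 hU'.le (by positivity)
          _ = 2 ^ 48 * y ^ 2 := by ring
      have hkb : (0 : ℝ) ≤ (kb : ℝ) * kb := by positivity
      have h23 : 251 * ((kUp c.CG k : ℝ) * 324518553658426726783156020576256) ≤
          (kb : ℝ) * kb * (2 ^ 48 * y ^ 2 * 10) := by
        refine b3'.trans (mul_le_mul_of_nonneg_left ?_ hkb)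
        linarith
      have e4 : (324518553658426726783156020576256 : ℝ) = 2 ^ 60 * 2 ^ 48 := by norm_num
      rw [e4] at h23
      have h24 : 25 * (kUp c.CG k : ℝ) * 2 ^ 60 ≤ (kb : ℝ) * kb * y ^ 2 := by
        have hG0' : (0 : ℝ) ≤ (kUp c.CG k : ℝ) := Nat.cast_nonneg _
        nlinarith
      calc (2 ^ 60 * |Kk k E G|) ^ 2 = 2 ^ 120 * |Kk k E G| ^ 2 := by ring
        _ ≤ 2 ^ 120 * (25 * ((kUp c.CG k : ℝ) / 2 ^ 60) / y ^ 2) := mul_le_mul_of_nonneg_left h20 (by positivity)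
        _ = (25 * (kUp c.CG k : ℝ) * 2 ^ 60) / y ^ 2 := by ring
        _ ≤ ((kb : ℝ) * kb * y ^ 2) / y ^ 2 := div_le_div_of_nonneg_right h24 (by positivity)
        _ = (kb : ℝ) ^ 2 := by field_simp
    exact (pow_le_pow_iff_left₀ (mul_nonneg (by positivity) (abs_nonneg _)) (Nat.cast_nonneg _)
      (by norm_num : (2 : ℕ) ≠ 0)).1 hd2
  · cases hz

/-- the meaning of the factor -/
structure KFok (ku kl : ℕ) (Y : ℝ) : Prop where
  U : 2 ^ 30 * |Y| ≤ ku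
  L : kl ≠ 0 → 0 ≤ Y ∧ (kl : ℝ) ≤ 2 ^ 30 * Y

theorem kFac_sound (h : KOK c E G) {k mode kb ku kl : ℕ} (hk : 1 ≤ k)
    (hz : kFac c k mode kb = some (ku, kl)) : KFok ku kl (Kk k E G / Kk c.r E G) := by
  have hE0 := h.E0
  have hG0 := h.G0'
  have hKr := h.Kr_pos
  unfold kFac at hz
  cases hb : Nat.ble (k * k * c.EA1) U449
  · rw [hb, cond_false] at hz
    cases hB : kBey c k mode kb with
    | none => rw [hB] at hz; cases hz
    | some z =>
      rw [hB] at hz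
      simp only [fz_eq] at hz
      have hp := Prod.mk.inj (Option.some.inj hz)
      refine ⟨?_, fun h9 => absurd hp.2.symm h9⟩
      rw [← hp.1, abs_div, abs_of_pos hKr]
      exact div_up h.P1 hKr (kBey_sound h hk hB) h.Kr_low (abs_nonneg _)
  · rw [hb, cond_true] at hz
    have b1 : k * k * c.EA1 ≤ 338230352 := ble_true hb
    have i1 : In449 k (c.EA1 : ℝ) := in449_nat b1
    have i2 : In449 k (c.EG1 : ℝ) := in449_nat ((Nat.mul_le_mul_left _ h.GA).trans b1)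
    have j1 := h.inA
    have j2 := h.inG
    have pk : 0 < Kk k E G := Kk_pos (i1.mono le_rfl h.A1 (Nat.cast_nonneg _)) (i2.mono le_rfl h.G1 (Nat.cast_nonneg _))
    have hY : 0 < Kk k E G / Kk c.r E G := div_pos pk hKr
    have nA0 : In449 k (c.EA0 : ℝ) := i1.mono le_rfl (by exact_mod_cast h.nA) (Nat.cast_nonneg _)
    have nG0 : In449 k (c.EG0 : ℝ) := i2.mono le_rfl (by exact_mod_cast h.nG) (Nat.cast_nonneg _)
    have mA0 : In449 c.r (c.EA0 : ℝ) := j1.mono le_rfl (by exact_mod_cast h.nA) (Nat.cast_nonneg _)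
    have mG0 : In449 c.r (c.EG0 : ℝ) := j2.mono le_rfl (by exact_mod_cast h.nG) (Nat.cast_nonneg _)
    have pk0 : 0 < Kk k c.EA0 c.EG0 := Kk_pos nA0 nG0
    have pk1 : 0 < Kk k c.EA1 c.EG1 := Kk_pos i1 i2
    have pr0 : 0 < Kk c.r c.EA0 c.EG0 := Kk_pos mA0 mG0
    have pr1 : 0 < Kk c.r c.EA1 c.EG1 := Kk_pos j1 j2
    have hU0 := kUp_sound (k := k) h.A25' h.G25' hk
    have hL0 := kLow_sound (k := k) h.A25' h.G25' hk pk0.le
    have hU1 := kUp_sound (k := k) h.A25 h.G25 hk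
    have hL1 := kLow_sound (k := k) h.A25 h.G25 hk pk1.le
    have rU0 := kUp_sound (k := c.r) h.A25' h.G25' h.r1
    have rL0 := kLow_sound (k := c.r) h.A25' h.G25' h.r1 pr0.le
    have rU1 := kUp_sound (k := c.r) h.A25 h.G25 h.r1
    have rL1 := kLow_sound (k := c.r) h.A25 h.G25 h.r1 pr1.le
    rw [← h.C0] at hU0 hL0 rU0 rL0
    rw [← h.C1] at hU1 hL1 rU1 rL1
    rw [← h.KU0] at rU0
    rw [← h.KL0] at rL0
    rw [← h.KU1] at rU1
    rw [← h.KL1] at rL1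
    have hKU0 : 0 < c.KU0 := by
      have : (0 : ℝ) < c.KU0 := lt_of_lt_of_le (mul_pos (by positivity) pr0) rU0
      exact_mod_cast this
    have hKU1 : 0 < c.KU1 := by
      have : (0 : ℝ) < c.KU1 := lt_of_lt_of_le (mul_pos (by positivity) pr1) rU1
      exact_mod_cast this
    cases hkr : Nat.ble k c.r
    · -- `r < k`
      rw [hkr, cond_false] at hz
      simp only [fz_eq] at hz
      have hp := Prod.mk.inj (Option.some.inj hz)
      have hrk := (ble_false hkr).le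
      -- ratio is nonincreasing
      have x1 := Kk_cross h.r1 hrk (Nat.cast_nonneg c.EA0) (Nat.cast_nonneg c.EG0) h.A0 h.G0
        (i1.mono le_rfl h.A1 (Nat.cast_nonneg _)) (i2.mono le_rfl h.G1 (Nat.cast_nonneg _))
      have x2 := Kk_cross h.r1 hrk hE0 hG0 h.A1 h.G1 i1 i2
      have y1 : Kk k E G / Kk c.r E G ≤ Kk k c.EA0 c.EG0 / Kk c.r c.EA0 c.EG0 := by
        rw [div_le_div_iff₀ hKr pr0]; linarith
      have y2 : Kk k c.EA1 c.EG1 / Kk c.r c.EA1 c.EG1 ≤ Kk k E G / Kk c.r E G := by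
        rw [div_le_div_iff₀ pr1 hKr]; linarith
      refine ⟨?_, fun _ => ⟨hY.le, ?_⟩⟩
      · rw [← hp.1, abs_of_pos hY]
        refine le_trans (mul_le_mul_of_nonneg_left y1 (by positivity)) ?_
        exact div_up h.P0 pr0 hU0 rL0 pk0.le
      · rw [← hp.2]
        refine le_trans ?_ (mul_le_mul_of_nonneg_left y2 (by positivity))
        exact div_low pr1 hL1 rU1 hKU1 pk1.le
    · -- `k ≤ r`
      rw [hkr, cond_true] at hz
      simp only [fz_eq] at hz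
      have hp := Prod.mk.inj (Option.some.inj hz)
      have hrk := ble_true hkr
      have x1 := Kk_cross hk hrk (Nat.cast_nonneg c.EA0) (Nat.cast_nonneg c.EG0) h.A0 h.G0
        (j1.mono le_rfl h.A1 (Nat.cast_nonneg _)) (j2.mono le_rfl h.G1 (Nat.cast_nonneg _))
      have x2 := Kk_cross hk hrk hE0 hG0 h.A1 h.G1 j1 j2
      have y1 : Kk k E G / Kk c.r E G ≤ Kk k c.EA1 c.EG1 / Kk c.r c.EA1 c.EG1 := by
        rw [div_le_div_iff₀ hKr pr1]; linarith
      have y2 : Kk k c.EA0 c.EG0 / Kk c.r c.EA0 c.EG0 ≤ Kk k E G / Kk c.r E G := by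
        rw [div_le_div_iff₀ pr0 hKr]; linarith
      refine ⟨?_, fun _ => ⟨hY.le, ?_⟩⟩
      · rw [← hp.1, abs_of_pos hY]
        refine le_trans (mul_le_mul_of_nonneg_left y1 (by positivity)) ?_
        exact div_up h.P1 pr1 hU1 rL1 pk1.le
      · rw [← hp.2]
        refine le_trans ?_ (mul_le_mul_of_nonneg_left y2 (by positivity))
        exact div_low pr0 hL0 rU0 hKU0 pk0.le

end

end Pool.Agent.H60.SC
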