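import Pool.Agent.H60.SC.Basic
import Pool.Agent.H61.SC.PLeaf

namespace Pool.Agent.H60.Big
end Pool.Agent.H60.Big

namespace Pool.Agent.H64.Slab
end Pool.Agent.H64.Slab

/-!
# The `P` leaves
-/

set_option autoImplicit false

open Set Filter Topology MeasureTheory

namespace Pool.Agent.H60.SC

open Pool.Agent.H60.SL
open Pool.Agent.H64.Slab Pool.Agent.H60.Slab Pool.Agent.H60.Big
open Pool.Agent.H60.SL.Ck (nn le ex t1D t1F t1M t2D t2F expU expL expU_sound expL_sound allB allB_iff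
  le_iff nd)
open Pool.Agent.H60.SL.Ck (kiCoef)
open Pool.Agent.H61.SC

theorem fzl_eq {α : Type} : ∀ (l : List ℕ) (f : List ℕ → α), fzl l f = f l
  | [], _ => rfl
  | x :: xs, f => by
    rw [fzl, fz_eq, fzl_eq xs]

/-- explicit cells of a `P` leaf -/
def pXs (B : Box) (rr : ℕ) (rA rG rB : ℤ) : List Cell :=
  match rr with
    | 1 => [mkCell B.lo0 B.hi0 rA false, mkCell B.g0 B.g1 rG false]
    | _ => [mkCell B.lo0 B.hi0 rA false, mkCell B.g0 B.g1 rG false, mkCell B.lo1 B.hi1 rB true]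

/-- the common data of a `P` leaf -/
def pPC (cls : ℕ) (B : Box) (rr r : ℕ) (rA rG rB : ℤ) (Ar : Aff) : PC :=
  ⟨r, bif isGe cls then 0 else cls - 1 - rr, isGe cls, mkRng (gLow cls B) (capX cls B rr), pXs B rr rA rG rB,
    B.s0, B.s1, 25 * B.lo0, 25 * B.hi0, 25 * B.g0, 25 * B.g1, kiCoef (25 * B.lo0) (25 * B.g0),
    kiCoef (25 * B.hi0) (25 * B.g1), kiCoef (25 * B.g0) (25 * B.g0),
    kLow (kiCoef (25 * B.lo0) (25 * B.g0)) r, kUp (kiCoef (25 * B.lo0) (25 * B.g0)) r,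
    kLow (kiCoef (25 * B.hi0) (25 * B.g1)) r, kUp (kiCoef (25 * B.hi0) (25 * B.g1)) r, Ar⟩

/-- unpacking of the checks -/
theorem pCheck_unpack {cls : ℕ} {B : Box} {rr r ti : ℕ} {rA rG rB rc : ℤ} {rmode amode dat : ℕ}
    (h : pCheck cls B rr r ti rA rG rB rc rmode amode dat = true) :
    (1 ≤ rr ∧ rr ≤ 2 ∧ 1 ≤ r ∧ r ≤ 32 ∧ B.hi0 ≤ 1048576 ∧ rngOK (mkRng (gLow cls B) (capX cls B rr)) = true ∧ 5 ≤ cls ∧
      (rr ≤ 1 ∨ rhoOK (25 * B.lo1) rB = true) ∧ r * r * (25 * B.hi0) ≤ U449 ∧ B.g1 ≤ B.hi0 ∧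
      fit r (mkRng (gLow cls B) (capX cls B rr)) = true ∧ lobe0 r (pXs B rr rA rG rB) = true ∧
      B.lo0 + B.g0 + 1 ≤ 1048576) ∧
    ∃ (Lr : Line) (dat' : ℕ) (Ar : Aff) (S : SS) (R' : ℤ) (q kc : ℕ),
      affHi r 0 (bif isGe cls then 0 else cls - 1 - rr) (isGe cls) (mkRng (gLow cls B) (capX cls B rr))
        (zipZero (pXs B rr rA rG rB)) Lr = some Ar ∧
      1 ≤ (pPC cls B rr r rA rG rB Ar).KL1 ∧ 1 ≤ (pPC cls B rr r rA rG rB Ar).KL0 ∧
      pGo (pPC cls B rr r rA rG rB Ar) 32 1 (ct0.getD ti []) (ct20.getD ti []) dat' ⟨0, 0, 0, 0⟩ = some S ∧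
      remP (nmax (capX cls B rr) 7900)
        (1048576 - B.hi0 - B.g1 - (bif Nat.beq rr 2 then B.hi1 else 0)) rc rA rG (25 * B.lo0) (25 * B.g0)
        (pXs B rr rA rG rB) rmode = some (R', q, kc) ∧
      pEnd S.a0 S.b0 (remV (R' + (SH - Ar.at B.s0)) (nmax (capX cls B rr) 7900) q kc
          (pPC cls B rr r rA rG rB Ar).KL1)
        (aliasV amode B.lo0 B.g0 (isqHi (B.hi0 * 1048576) + isqHi (B.g1 * 1048576)) (ptn.getD ti 0 - 20)
          (SH - Ar.at B.s0) (pPC cls B rr r rA rG rB Ar).KL1)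
        (aliasV amode B.lo0 B.g0 (isqHi (B.hi0 * 1048576) + isqHi (B.g1 * 1048576)) (ptn.getD ti 0)
          (SH - Ar.at B.s0) (pPC cls B rr r rA rG rB Ar).KL1) = true ∧
      pEnd S.a1 S.b1 (remV (R' + (SH - Ar.at B.s1)) (nmax (capX cls B rr) 7900) q kc
          (pPC cls B rr r rA rG rB Ar).KL1)
        (aliasV amode B.lo0 B.g0 (isqHi (B.hi0 * 1048576) + isqHi (B.g1 * 1048576)) (ptn.getD ti 0 - 20)
          (SH - Ar.at B.s1) (pPC cls B rr r rA rG rB Ar).KL1)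
        (aliasV amode B.lo0 B.g0 (isqHi (B.hi0 * 1048576) + isqHi (B.g1 * 1048576)) (ptn.getD ti 0)
          (SH - Ar.at B.s1) (pPC cls B rr r rA rG rB Ar).KL1) = true := by
  have key : rr = 1 ∨ rr = 2 := by
    have h' := h
    unfold pCheck at h'
    dsimp only at h'
    rw [Bool.and_eq_true] at h'
    obtain ⟨h', -⟩ := h'
    simp only [Bool.and_eq_true] at h'
    obtain ⟨⟨⟨⟨⟨⟨⟨⟨⟨⟨⟨⟨c1, c2⟩, c3⟩, d3⟩, d4⟩, c4⟩, c5⟩, c6⟩, c7⟩, c8⟩, c9⟩, c10⟩, c11⟩ := h'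
    have d1 := ble_true c1
    have d2 := ble_true c2
    omega
  rcases key with rfl | rfl
  all_goals
    unfold pCheck at h
    unfold pPC pXs
    dsimp only at h ⊢
    rw [Bool.and_eq_true] at h
    obtain ⟨h, hm⟩ := h
    simp only [Bool.and_eq_true, Bool.or_eq_true] at h
    obtain ⟨⟨⟨⟨⟨⟨⟨⟨⟨⟨⟨⟨c1, c2⟩, c3⟩, d3⟩, d4⟩, c4⟩, c5⟩, c6⟩, c7⟩, c8⟩, c9⟩, c10⟩, c11⟩ := h
    refine ⟨⟨ble_true c1, ble_true c2, ble_true c3, ble_true d3, ble_true d4, c4, ble_true c5, c6.imp ble_true id, ble_true c7,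
      ble_true c8, c9, c10, ble_true c11⟩, ?_⟩
    cases hrd : rdLine dat with
    | mk Lr dat' =>
    rw [hrd] at hm
    dsimp only at hm
    split at hm
    · cases hm
    · rename_i Ar hA
      simp only [fz_eq, fzl_eq, fzi_eq, Bool.and_eq_true] at hm
      obtain ⟨⟨k1, k2⟩, hm⟩ := hm
      split at hm
      · cases hm
      · rename_i S hg
        split at hm
        · cases hm
        · rename_i R' q kc hr
          rw [Bool.and_eq_true] at hm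
          exact ⟨Lr, dat', Ar, S, R', q, kc, hA, ble_true k1, ble_true k2, hg, hr, hm.1, hm.2⟩

end Pool.Agent.H60.SC
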