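import Pool.Agent.H60.SC.PRat
import Pool.Agent.H60.SC.PKFac

/-!
# The sums of the `P` part
-/

set_option autoImplicit false

open Set Filter Topology

namespace Pool.Agent.H60.SC

open Pool.Agent.H60.SL
open Pool.Agent.H60.SL.Ck (nn le ex t1D t1F t1M t2D t2F expU expL expU_sound expL_sound LB zE allB allB_iff
  le_iff zE_nonneg zE_sq InL kiCoef kiLo kiHi kiLo_sound kiHi_sound)
open Pool.Agent.H61.SC

/-- the normalisation `2^60 e^-8` -/
noncomputable def N8 : ℝ := 2 ^ 60 * Real.exp (-8)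

theorem N8_pos : 0 < N8 := by unfold N8; positivity

/-- bounds of one term `Z` -/
structure ZOK (l : ℝ) (L0 L1 U0 U1 : ℕ) (Z : ℝ) : Prop where
  U : |Z| ≤ mix l U0 U1
  L : (L0 ≠ 0 ∨ L1 ≠ 0) → 0 ≤ Z ∧ mix l L0 L1 ≤ Z

theorem contr_le {D w : ℤ} (hw : 0 ≤ w) {L U : ℕ} (hd : 0 < D - w) :
    ((contr D w L U : ℤ) : ℝ) ≤ ((D : ℝ) - w) * L := by
  unfold contr
  cases hDw : D - w with
  | negSucc n => rw [hDw] at hd; exact absurd hd (by simp [Int.negSucc_lt_zero, not_lt.2 (Int.negSucc_lt_zero n).le])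
  | ofNat n =>
    cases n with
    | zero => rw [hDw] at hd; exact absurd hd (by simp)
    | succ d =>
      simp only
      have e : (D : ℝ) - w = ((d + 1 : ℕ) : ℝ) := by
        have : ((D - w : ℤ) : ℝ) = ((Int.ofNat (d + 1) : ℤ) : ℝ) := by rw [hDw]
        push_cast at this
        simpa using this
      cases hb : Nat.beq L 0
      · rw [cond_false, e]
        push_cast
        exact le_rfl
      · rw [cond_true]
        have hL := beq_true hb
        rw [hL, Nat.cast_zero, mul_zero]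
        push_cast
        have h1 : (0 : ℝ) ≤ |(D : ℝ)| + w := by
          have : (0 : ℝ) ≤ w := by exact_mod_cast hw
          positivity
        have h2 : (0 : ℝ) ≤ (|(D : ℝ)| + w) * U := mul_nonneg h1 (Nat.cast_nonneg _)
        linarith

theorem contr_neg {D w : ℤ} {L U : ℕ} (h : ¬ (0 < D - w) ∨ L = 0) :
    ((contr D w L U : ℤ) : ℝ) = -((|(D : ℝ)| + w) * U) := by
  unfold contr
  cases hDw : D - w with
  | negSucc n =>
    simp only
    push_cast
    ring
  | ofNat n =>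
    cases n with
    | zero =>
      simp only
      push_cast
      ring
    | succ d =>
      simp only
      rcases h with h | h
      · exfalso
        apply h
        rw [hDw]
        simp only [Int.ofNat_eq_natCast]
        omega
      · subst h
        have : Nat.beq 0 0 = true := rfl
        rw [this, cond_true]
        push_cast
        ring

theorem contr_sound {l : ℝ} (h0 : 0 ≤ l) (h1 : l ≤ 1) {D w : ℤ} (hw : 0 ≤ w) {L0 L1 U0 U1 : ℕ} {Z d : ℝ}
    (hz : ZOK l L0 L1 U0 U1 Z) (hd : |d - D| ≤ w) :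
    mix l ((contr D w L0 U0 : ℤ) : ℝ) ((contr D w L1 U1 : ℤ) : ℝ) ≤ d * Z := by
  have hd' := abs_le.1 hd
  have hwr : (0 : ℝ) ≤ w := by exact_mod_cast hw
  have hgen : mix l (-((|(D : ℝ)| + w) * U0)) (-((|(D : ℝ)| + w) * U1)) ≤ d * Z := by
    have e : mix l (-((|(D : ℝ)| + w) * U0)) (-((|(D : ℝ)| + w) * U1)) = -((|(D : ℝ)| + w) * mix l U0 U1) := by
      unfold mix; ring
    rw [e]
    have hdD : |d| ≤ |(D : ℝ)| + w := by
      have : d = D + (d - D) := by ring
      calc |d| = |(D : ℝ) + (d - D)| := by rw [← this]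
        _ ≤ |(D : ℝ)| + |d - D| := abs_add_le _ _
        _ ≤ _ := by linarith
    have h2 : |d| * |Z| ≤ (|(D : ℝ)| + w) * mix l U0 U1 :=
      mul_le_mul hdD hz.U (abs_nonneg _) (by positivity)
    have h3 : -(|d| * |Z|) ≤ d * Z := by
      rw [← abs_mul]; exact neg_abs_le _
    linarith
  by_cases hc : 0 < D - w
  · by_cases hL : L0 ≠ 0 ∨ L1 ≠ 0
    · obtain ⟨z0, z1⟩ := hz.L hL
      have c0 := contr_le (L := L0) (U := U0) hw hc
      have c1 := contr_le (L := L1) (U := U1) hw hc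
      have hcr : (0 : ℝ) < (D : ℝ) - w := by exact_mod_cast hc
      refine (mix_mono h0 h1 c0 c1).trans ?_
      rw [mix_mul]
      calc ((D : ℝ) - w) * mix l L0 L1 ≤ ((D : ℝ) - w) * Z := mul_le_mul_of_nonneg_left z1 hcr.le
        _ ≤ d * Z := mul_le_mul_of_nonneg_right (by linarith) z0
    · push Not at hL
      rw [contr_neg (Or.inr hL.1), contr_neg (Or.inr hL.2)]
      exact hgen
  · rw [contr_neg (Or.inl hc), contr_neg (Or.inl hc)]
    exact hgen

/-- `2^30` rounding -/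
theorem shift_up (a b : ℕ) : (a : ℝ) * b / 1073741824 ≤ ((a * b / 1073741824 + 1 : ℕ) : ℝ) := by
  have h3 := Nat.lt_div_mul_add (a := a * b) (b := 1073741824) (by norm_num)
  have h4 : ((a * b : ℕ) : ℝ) ≤ ((a * b / 1073741824 * 1073741824 + 1073741824 : ℕ) : ℝ) := by
    exact_mod_cast h3.le
  generalize a * b / 1073741824 = q at *
  push_cast at h4 ⊢
  rw [div_le_iff₀ (by norm_num)]
  linarith

theorem shift_down (a b : ℕ) : ((a * b / 1073741824 : ℕ) : ℝ) ≤ (a : ℝ) * b / 1073741824 := by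
  have := @Nat.cast_div_le ℝ _ _ _ (a * b) 1073741824
  push_cast at this
  exact this

theorem zok_of {l : ℝ} (h0 : 0 ≤ l) (h1 : l ≤ 1) {rb : RB} {ku kl : ℕ} {X Y : ℝ} (hX : RBok l rb X)
    (hY : KFok ku kl Y) :
    ZOK l (rb.L0 * kl / 1073741824) (rb.L1 * kl / 1073741824) (rb.U0 * ku / 1073741824 + 1)
      (rb.U1 * ku / 1073741824 + 1) (N8 * (X * Y)) := by
  have h30 : (2 : ℝ) ^ 30 = 1073741824 := by norm_num
  have hN := N8_pos
  refine ⟨?_, fun hne => ?_⟩
  · have hu := hX.U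
    have hy := hY.U
    have h2 : N8 * |X| * (2 ^ 30 * |Y|) ≤ mix l rb.U0 rb.U1 * ku := by
      apply mul_le_mul hu hy (by positivity) (mix_nat_nonneg h0 h1 _ _)
    have e : |N8 * (X * Y)| = N8 * |X| * (2 ^ 30 * |Y|) / 1073741824 := by
      rw [abs_mul, abs_mul, abs_of_pos hN, h30]
      ring
    rw [e]
    calc N8 * |X| * (2 ^ 30 * |Y|) / 1073741824 ≤ mix l rb.U0 rb.U1 * ku / 1073741824 :=
          div_le_div_of_nonneg_right h2 (by norm_num)
      _ = mix l ((rb.U0 : ℝ) * ku / 1073741824) ((rb.U1 : ℝ) * ku / 1073741824) := by unfold mix; ring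
      _ ≤ _ := mix_mono h0 h1 (shift_up _ _) (shift_up _ _)
  · have hkl : kl ≠ 0 := by
      rintro rfl
      simp at hne
    have hL : rb.L0 ≠ 0 ∨ rb.L1 ≠ 0 := by
      by_contra hcon
      push Not at hcon
      rw [hcon.1, hcon.2] at hne
      simp at hne
    obtain ⟨x0, x1⟩ := hX.L hL
    obtain ⟨y0, y1⟩ := hY.L hkl
    refine ⟨mul_nonneg hN.le (mul_nonneg x0 y0), ?_⟩
    calc mix l ((rb.L0 * kl / 1073741824 : ℕ) : ℝ) ((rb.L1 * kl / 1073741824 : ℕ) : ℝ)
        ≤ mix l ((rb.L0 : ℝ) * kl / 1073741824) ((rb.L1 : ℝ) * kl / 1073741824) :=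
          mix_mono h0 h1 (shift_down _ _) (shift_down _ _)
      _ = mix l rb.L0 rb.L1 * kl / 1073741824 := by unfold mix; ring
      _ ≤ N8 * X * (2 ^ 30 * Y) / 1073741824 := by
          apply div_le_div_of_nonneg_right _ (by norm_num)
          exact mul_le_mul x1 y1 (Nat.cast_nonneg _) (mul_nonneg hN.le x0)
      _ = N8 * (X * Y) := by rw [h30]; ring

/-- the running sums -/
structure SSle (l : ℝ) (S : SS) (A B : ℝ) : Prop where
  a : mix l S.a0 S.a1 ≤ A
  b : mix l S.b0 S.b1 ≤ B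

theorem pStep_sound {l : ℝ} (h0 : 0 ≤ l) (h1 : l ≤ 1) {c : PC} {k : ℕ} {c0 c1 : ℤ} {rb : RB} {ku kl : ℕ}
    {S : SS} {X Y A B x0 x1 : ℝ} (hX : RBok l rb X) (hY : KFok ku kl Y) (hS : SSle l S A B)
    (hc0 : (c0 : ℝ) ≤ x0 ∧ x0 ≤ c0 + 1) (hc1 : (c1 : ℝ) ≤ x1 ∧ x1 ≤ c1 + 1) :
    SSle l (pStep c k c0 c1 rb ku kl S) (A + 25 * (k : ℝ) ^ 2 * (x0 - x1) * (N8 * (X * Y)))
      (B + -(25 * (k : ℝ) ^ 2 * x1) * (N8 * (X * Y))) := by
  have hz := zok_of h0 h1 hX hY
  unfold pStep
  simp only [fz_eq, fzi_eq]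
  have hw : (0 : ℤ) ≤ 25 * (k : ℤ) * (k : ℤ) := by positivity
  have hwr : (0 : ℝ) ≤ 25 * (k : ℝ) ^ 2 := by positivity
  have ew : ((25 * (k : ℤ) * (k : ℤ) : ℤ) : ℝ) = 25 * (k : ℝ) ^ 2 := by push_cast; ring
  have g1 := contr_sound h0 h1 (D := 25 * (k : ℤ) * (k : ℤ) * (c0 - c1)) hw hz
    (d := 25 * (k : ℝ) ^ 2 * (x0 - x1)) (by
      rw [Int.cast_mul, ew]
      push_cast
      rw [abs_le]
      constructor <;> nlinarith)
  have g2 := contr_sound h0 h1 (D := -(25 * (k : ℤ) * (k : ℤ) * c1)) hw hz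
    (d := -(25 * (k : ℝ) ^ 2 * x1)) (by
      rw [Int.cast_neg, Int.cast_mul, ew]
      rw [abs_le]
      constructor <;> nlinarith)
  refine ⟨?_, ?_⟩
  · simp only
    push_cast at g1 ⊢
    rw [mix_add]
    exact add_le_add hS.a g1
  · simp only
    push_cast at g2 ⊢
    rw [mix_add]
    exact add_le_add hS.b g2

/-- validity of a list of cosines -/
def CosOK (θ : ℝ) : ℕ → List ℤ → Prop
  | _, [] => True
  | k, c :: cs => ((c : ℝ) ≤ 2 ^ 40 * Real.cos (k * θ) ∧ 2 ^ 40 * Real.cos (k * θ) ≤ c + 1) ∧ CosOK θ (k + 1) cs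

/-- data of a `P` leaf at a point -/
structure POK (c : PC) (es : List (Bool × ℝ)) (rest : List ℝ) (l E G : ℝ) : Prop where
  l0 : 0 ≤ l
  l1 : l ≤ 1
  pt : PtOK c.ge c.m c.R c.xs es rest (mix l c.s0 c.s1)
  r40 : c.r ≤ 40
  Ar : ∃ Lr, affHi c.r 0 c.m c.ge c.R (zipZero c.xs) Lr = some c.Ar
  fit : fit c.r c.R = true
  lobe : lobe0 c.r c.xs = true
  K : KOK c E G

/-- the normalised term -/
noncomputable def Zk (c : PC) (al : List (Bool × ℝ)) (E G : ℝ) (k : ℕ) : ℝ :=
  N8 * (SP k al / SP c.r al * (Kk k E G / Kk c.r E G))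

theorem split_sum {f : ℕ → ℝ} {n k : ℕ} {A : ℝ} :
    A + ∑ j ∈ Finset.range (n + 1), f (k + j) = (A + f k) + ∑ j ∈ Finset.range n, f (k + 1 + j) := by
  rw [Finset.sum_range_succ', Nat.add_zero]
  have : ∑ j ∈ Finset.range n, f (k + (j + 1)) = ∑ j ∈ Finset.range n, f (k + 1 + j) :=
    Finset.sum_congr rfl fun j _ => by rw [show k + (j + 1) = k + 1 + j by ring]
  rw [this]
  ring

theorem pGo_sound {c : PC} {es : List (Bool × ℝ)} {rest : List ℝ} {l E G : ℝ} (h : POK c es rest l E G)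
    {θ0 θ1 : ℝ} :
    ∀ (n k : ℕ) (cs0 cs1 : List ℤ) (dat : ℕ) (S S' : SS) (A B : ℝ), 1 ≤ k → k + n ≤ 41 →
      CosOK θ0 k cs0 → CosOK θ1 k cs1 → SSle l S A B → pGo c n k cs0 cs1 dat S = some S' →
      SSle l S'
        (A + ∑ j ∈ Finset.range n, 25 * ((k + j : ℕ) : ℝ) ^ 2 * (2 ^ 40 * Real.cos ((k + j : ℕ) * θ0) -
          2 ^ 40 * Real.cos ((k + j : ℕ) * θ1)) * Zk c (allC es rest) E G (k + j))
        (B + ∑ j ∈ Finset.range n, -(25 * ((k + j : ℕ) : ℝ) ^ 2 * (2 ^ 40 * Real.cos ((k + j : ℕ) * θ1))) *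
          Zk c (allC es rest) E G (k + j))
  | 0, k, cs0, cs1, dat, S, S', A, B, _, _, _, _, hS, hg => by
    rw [pGo] at hg
    rw [← Option.some.inj hg]
    simpa using hS
  | n + 1, k, [], cs1, dat, S, S', A, B, _, _, _, _, hS, hg => by
    rw [pGo] at hg
    · cases hg
    · simp
  | n + 1, k, c0 :: cs0, [], dat, S, S', A, B, _, _, _, _, hS, hg => by
    rw [pGo] at hg
    · cases hg
    · simp
  | n + 1, k, c0 :: cs0, c1 :: cs1, dat, S, S', A, B, hk, hkn, h0, h1, hS, hg => by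
    obtain ⟨h00, h01⟩ := h0
    obtain ⟨h10, h11⟩ := h1
    have e1 : ∀ j, k + (j + 1) = k + 1 + j := fun j => by ring
    rw [split_sum (f := fun j : ℕ => 25 * (j : ℝ) ^ 2 * (2 ^ 40 * Real.cos (j * θ0) -
          2 ^ 40 * Real.cos (j * θ1)) * Zk c (allC es rest) E G j),
      split_sum (f := fun j : ℕ => -(25 * (j : ℝ) ^ 2 * (2 ^ 40 * Real.cos (j * θ1))) *
          Zk c (allC es rest) E G j)]
    obtain ⟨Lr, hAr⟩ := h.Ar
    rw [pGo] at hg
    cases hb : Nat.beq k c.r
    · rw [hb, cond_false] at hg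
      cases hr1 : rdLine dat with
      | mk LA dat1 =>
      rw [hr1] at hg
      simp only at hg
      cases hr2 : rdLine dat1 with
      | mk LB' dat2 =>
      rw [hr2] at hg
      simp only at hg
      cases hrb : ratB c k LA LB' with
      | none => rw [hrb] at hg; cases hg
      | some rb =>
        rw [hrb] at hg
        simp only at hg
        cases hkf : kFac c k (dat2 % 8) (dat2 / 8 % 2305843009213693952) with
        | none => rw [hkf] at hg; cases hg
        | some kk =>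
          obtain ⟨ku, kl⟩ := kk
          rw [hkf] at hg
          simp only [fz_eq] at hg
          have hX := ratB_sound h.l0 h.l1 h.pt h.K.r1 h.r40 hAr h.fit h.lobe hk (by omega) hrb
          have hY := kFac_sound h.K hk hkf
          have hS1 := pStep_sound h.l0 h.l1 (c := c) (k := k) hX hY hS h00 h10
          exact pGo_sound h n (k + 1) cs0 cs1 _ _ S' _ _ (by omega) (by omega) h01 h11 hS1 hg
    · rw [hb, cond_true] at hg
      simp only [fz_eq] at hg
      have hkr := beq_true hb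
      have hP := all_pos h.pt h.fit h.lobe
      have hX : RBok l ⟨expU 37778931862957161709568, expU 37778931862957161709568,
          expL 37778931862957161709568, expL 37778931862957161709568⟩
          (SP k (allC es rest) / SP c.r (allC es rest)) := by
        rw [hkr, div_self hP.ne']
        have e8 : -((37778931862957161709568 : ℕ) : ℝ) / 2 ^ 72 = -8 := by norm_num
        have u := expU_sound 37778931862957161709568
        have w := expL_sound 37778931862957161709568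
        rw [e8] at u w
        refine ⟨?_, fun _ => ⟨zero_le_one, ?_⟩⟩
        · simp only
          rw [mix_const, abs_one, mul_one]
          exact u
        · simp only
          rw [mix_const, mul_one]
          exact w
      have hY : KFok 1073741824 1073741824 (Kk k E G / Kk c.r E G) := by
        rw [hkr, div_self h.K.Kr_pos.ne']
        refine ⟨?_, fun _ => ⟨zero_le_one, ?_⟩⟩
        · norm_num
        · norm_num
      have hS1 := pStep_sound h.l0 h.l1 (c := c) (k := k) hX hY hS h00 h10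
      exact pGo_sound h n (k + 1) cs0 cs1 _ _ S' _ _ (by omega) (by omega) h01 h11 hS1 hg

end Pool.Agent.H60.SC
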