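import Pool.Agent.H60.SC.PAlias
import Pool.Agent.H60.SC.PLeafS
import Pool.Agent.H60.SC.PStepS
import Pool.Agent.H60.SC.TLeaf

/-!
# The `P` leaves: conclusion
-/

set_option autoImplicit false

open Set Filter Topology MeasureTheory

namespace Pool.Agent.H60.SC

open Pool.Agent.H60.SL
open Pool.Agent.H64.Slab Pool.Agent.H60.Slab Pool.Agent.H60.Big
open Pool.Agent.H60.SL.Ck (nn le ex t1D t1F t1M t2D t2F expU expL expU_sound expL_sound LB zE allB allB_iff
  le_iff zE_nonneg zE_sq InL rotAll pCos pCos_sound nd)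
open Pool.Agent.H60.SL.Ck (kiCoef)
open Pool.Agent.H61.SC

/-- hypotheses of a `P` leaf: largest coordinate `α`, smallest one `γ`, the others `b` -/
structure PHyp (cls : ℕ) (B : Box) (rr : ℕ) {m : ℕ} (b : Fin m → ℝ) (α γ : ℝ)
    (es1 : List (Bool × ℝ)) (rest : List ℝ) (l : ℝ) : Prop where
  m0 : 0 < m
  γ0 : 0 < γ
  γα : γ < α
  b0 : ∀ j, 0 < b j
  bα : ∀ j, b j ≤ α
  sum : α ^ 2 + γ ^ 2 + ∑ j, b j ^ 2 = 1
  A : eOf α ∈ Icc ((25 * B.lo0 : ℕ) : ℝ) ((25 * B.hi0 : ℕ) : ℝ)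
  G : eOf γ ∈ Icc ((25 * B.g0 : ℕ) : ℝ) ((25 * B.g1 : ℕ) : ℝ)
  perm : (cList b).Perm (es1 ++ rest.map (fun E => (true, E)))
  hrr : (rr = 1 ∧ es1 = []) ∨ (rr = 2 ∧ ∃ E1, es1 = [(true, E1)] ∧
    E1 ∈ Icc ((25 * B.lo1 : ℕ) : ℝ) ((25 * B.hi1 : ℕ) : ℝ))
  rst : ∀ E ∈ rest, E ∈ Icc ((25 * gLow cls B : ℕ) : ℝ) ((25 * capX cls B rr : ℕ) : ℝ)
  num : isGe cls = false → rest.length = cls - 1 - rr
  l0 : 0 ≤ l
  l1 : l ≤ 1
  s : mix l B.s0 B.s1 = 1048576 * (α ^ 4 + γ ^ 4 + ∑ j, b j ^ 4)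

theorem mkRng_E0 (g0 cap : ℕ) : (mkRng g0 cap).E0 = 25 * g0 := by
  unfold mkRng; simp only [fz_eq]

theorem mkRng_E1 (g0 cap : ℕ) : (mkRng g0 cap).E1 = 25 * cap := by
  unfold mkRng; simp only [fz_eq]

section

variable {cls : ℕ} {B : Box} {rr m : ℕ} {b : Fin m → ℝ} {α γ : ℝ} {es1 : List (Bool × ℝ)}
  {rest : List ℝ} {l : ℝ}

/-- the explicit coordinates of a `P` leaf -/
noncomputable def pEs (α γ : ℝ) (es1 : List (Bool × ℝ)) : List (Bool × ℝ) :=
  (false, eOf α) :: (false, eOf γ) :: es1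

theorem PHyp.hperm (h : PHyp cls B rr b α γ es1 rest l) :
    ((false, eOf α) :: (false, eOf γ) :: cList b).Perm (allC (pEs α γ es1) rest) := by
  unfold allC pEs
  exact (h.perm.cons _).cons _

theorem PHyp.S1 (h : PHyp cls B rr b α γ es1 rest l) :
    SE (fun E => E) (allC (pEs α γ es1) rest) = 26214400 := by
  rw [← SE_perm h.hperm, SE_cons, SE_cons, SE_cList]
  unfold eOf
  rw [← Finset.mul_sum]
  have := h.sum
  linear_combination 26214400 * this

theorem PHyp.S2 (h : PHyp cls B rr b α γ es1 rest l) :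
    SE (fun E => E ^ 2) (allC (pEs α γ es1) rest) = 655360000 * mix l B.s0 B.s1 := by
  rw [← SE_perm h.hperm, SE_cons, SE_cons, SE_cList, h.s]
  unfold eOf
  have : ∑ j, (26214400 * b j ^ 2) ^ 2 = 687194767360000 * ∑ j, b j ^ 4 := by
    rw [Finset.mul_sum]
    exact Finset.sum_congr rfl fun j _ => by ring
  rw [this]
  ring

theorem PHyp.cell (h : PHyp cls B rr b α γ es1 rest l) {rA rG rB : ℤ} :
    List.Forall₂ CellRel (pXs B rr rA rG rB) (pEs α γ es1) := by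
  have cA : CellRel (mkCell B.lo0 B.hi0 rA false) (false, eOf α) := ⟨rfl, h.A⟩
  have cG : CellRel (mkCell B.g0 B.g1 rG false) (false, eOf γ) := ⟨rfl, h.G⟩
  rcases h.hrr with ⟨h1, h2⟩ | ⟨h1, E1, h2, h3⟩
  · subst h1; subst h2
    exact List.Forall₂.cons cA (List.Forall₂.cons cG List.Forall₂.nil)
  · subst h1; subst h2
    exact List.Forall₂.cons cA (List.Forall₂.cons cG (List.Forall₂.cons ⟨rfl, h3⟩ List.Forall₂.nil))

theorem PHyp.rho (h : PHyp cls B rr b α γ es1 rest l) {rA rG rB : ℤ}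
    (hr : rr ≤ 1 ∨ rhoOK (25 * B.lo1) rB = true) :
    ∀ x ∈ pXs B rr rA rG rB, x.nu = true → RhoRel x := by
  rcases h.hrr with ⟨h1, h2⟩ | ⟨h1, E1, h2, h3⟩
  · subst h1
    intro x hx hnu
    unfold pXs at hx
    simp only [List.mem_cons, List.not_mem_nil, or_false] at hx
    rcases hx with rfl | rfl <;> cases hnu
  · subst h1
    intro x hx hnu
    unfold pXs at hx
    simp only [List.mem_cons, List.not_mem_nil, or_false] at hx
    rcases hx with rfl | rfl | rfl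
    · cases hnu
    · cases hnu
    · rcases hr with hr | hr
      · omega
      · exact hr

theorem PHyp.sumHi (h : PHyp cls B rr b α γ es1 rest l) {rA rG rB : ℤ} :
    1048576 - B.hi0 - B.g1 - (bif Nat.beq rr 2 then B.hi1 else 0) =
      1048576 - H61.SC.sumHi (pXs B rr rA rG rB) := by
  rcases h.hrr with ⟨h1, h2⟩ | ⟨h1, E1, h2, h3⟩
  · subst h1
    have : Nat.beq 1 2 = false := rfl
    rw [this, cond_false]
    unfold pXs
    simp only [H61.SC.sumHi, mkCell]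
    omega
  · subst h1
    have : Nat.beq 2 2 = true := rfl
    rw [this, cond_true]
    unfold pXs
    simp only [H61.SC.sumHi, mkCell]
    omega

theorem PHyp.pt (h : PHyp cls B rr b α γ es1 rest l) {rA rG rB : ℤ}
    (c6 : rr ≤ 1 ∨ rhoOK (25 * B.lo1) rB = true) :
    PtOK (isGe cls) (bif isGe cls then 0 else cls - 1 - rr) (mkRng (gLow cls B) (capX cls B rr))
      (pXs B rr rA rG rB) (pEs α γ es1) rest (mix l B.s0 B.s1) := by
  refine ⟨h.cell, h.rho c6, ?_, ?_, h.S1, h.S2⟩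
  · intro E hE
    rw [mkRng_E0, mkRng_E1]
    exact h.rst E hE
  · intro hge
    rw [hge, cond_false]
    exact (h.num hge).symm

theorem PHyp.K (h : PHyp cls B rr b α γ es1 rest l) {r : ℕ} {rA rG rB : ℤ} {Ar : Aff}
    (c3 : 1 ≤ r) (d4 : B.hi0 ≤ 1048576) (c7 : r * r * (25 * B.hi0) ≤ 338230352) (c8 : B.g1 ≤ B.hi0)
    (k1 : 1 ≤ (pPC cls B rr r rA rG rB Ar).KL1) (k0 : 1 ≤ (pPC cls B rr r rA rG rB Ar).KL0) :
    KOK (pPC cls B rr r rA rG rB Ar) (eOf α) (eOf γ) := by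
  have a1 := h.A.1
  have a2 := h.A.2
  have a3 := h.G.1
  have a4 := h.G.2
  have a5 : 25 * B.g1 ≤ 25 * B.hi0 := Nat.mul_le_mul_left 25 c8
  have a6 : 25 * B.hi0 ≤ 2 ^ 25 := (Nat.mul_le_mul_left 25 d4).trans (by norm_num)
  constructor
  · exact c3
  · exact a1
  · exact a2
  · exact a3
  · exact a4
  · exact a5
  · exact a6
  · exact c7
  · dsimp only [pPC]
  · dsimp only [pPC]
  · dsimp only [pPC]
  · dsimp only [pPC]
  · dsimp only [pPC]
  · dsimp only [pPC]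
  · dsimp only [pPC]
  · exact k0
  · exact k1

theorem PHyp.POK (h : PHyp cls B rr b α γ es1 rest l) {r : ℕ} {rA rG rB : ℤ} {Ar : Aff} {Lr : Line}
    (c3 : 1 ≤ r) (d3 : r ≤ 32) (d4 : B.hi0 ≤ 1048576)
    (c6 : rr ≤ 1 ∨ rhoOK (25 * B.lo1) rB = true) (c7 : r * r * (25 * B.hi0) ≤ 338230352) (c8 : B.g1 ≤ B.hi0)
    (c9 : fit r (mkRng (gLow cls B) (capX cls B rr)) = true) (c10 : lobe0 r (pXs B rr rA rG rB) = true)
    (hA : affHi r 0 (bif isGe cls then 0 else cls - 1 - rr) (isGe cls) (mkRng (gLow cls B) (capX cls B rr))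
        (zipZero (pXs B rr rA rG rB)) Lr = some Ar)
    (k1 : 1 ≤ (pPC cls B rr r rA rG rB Ar).KL1) (k0 : 1 ≤ (pPC cls B rr r rA rG rB Ar).KL0) :
    POK (pPC cls B rr r rA rG rB Ar) (pEs α γ es1) rest l (eOf α) (eOf γ) := by
  have hK := h.K c3 d4 c7 c8 k1 k0
  have hpt := h.pt (rA := rA) (rG := rG) c6
  constructor
  · exact h.l0
  · exact h.l1
  · exact hpt
  · exact d3.trans (by norm_num)
  · exact ⟨Lr, hA⟩
  · exact c9
  · exact c10
  · exact hK

end

/-- the value of the remainder at one end -/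
theorem remV_sound {E : ℤ} {cap q kc KL1 v : ℕ} (h : remV E cap q kc KL1 = some v) (hq : 0 < q)
    (hK : 1 ≤ KL1) :
    2 ^ 60 * Real.exp (-((E : ℝ) / 2 ^ 72)) * (25 * (65 / 2) ^ 3 * kc * (cap / q) * 2 ^ 100 / KL1) ≤ v := by
  unfold remV at h
  cases E with
  | negSucc a => cases h
  | ofNat R =>
    simp only at h
    have hv := Option.some.inj h
    rw [← hv]
    have hv2 := div_add_one_real (expU R * (25 * 274625 * kc * cap * 1267650600228229401496703205376))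
      (b := 8 * q * KL1) (by positivity)
    refine le_trans ?_ hv2
    have hq' : (0 : ℝ) < q := by exact_mod_cast hq
    have hK' : (0 : ℝ) < KL1 := by exact_mod_cast hK
    have hexp := expU_sound R
    have e1 : -(((Int.ofNat R : ℤ) : ℝ) / 2 ^ 72) = -(R : ℝ) / 2 ^ 72 := by
      simp only [Int.ofNat_eq_natCast, Int.cast_natCast]; ring
    rw [e1]
    calc 2 ^ 60 * Real.exp (-(R : ℝ) / 2 ^ 72) * (25 * (65 / 2) ^ 3 * kc * (cap / q) * 2 ^ 100 / KL1)
        ≤ expU R * (25 * (65 / 2) ^ 3 * kc * (cap / q) * 2 ^ 100 / KL1) :=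
          mul_le_mul_of_nonneg_right hexp (by positivity)
      _ = _ := by
          push_cast
          field_simp
          norm_num
          try ring

end Pool.Agent.H60.SC
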