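import Pool.Agent.H61.SC.PLeaf
import Pool.Agent.H60.SC.TTerm

/-!
# Ratios of products
-/

set_option autoImplicit false

open Set Filter Topology

namespace Pool.Agent.H60.SC

open Pool.Agent.H60.SL
open Pool.Agent.H60.SL.Ck (nn le ex t1D t1F t1M t2D t2F expU expL expU_sound expL_sound LB zE allB allB_iff
  le_iff zE_nonneg zE_sq InL)
open Pool.Agent.H61.SC

theorem lobe0_pos {k : ℕ} : ∀ (xs : List Cell) (es : List (Bool × ℝ)), List.Forall₂ CellRel xs es →
    lobe0 k xs = true → 0 < SP k es
  | [], es, h, _ => by cases h; simp
  | x :: xs, es, h, hl => by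
    cases h with
    | cons hx hxs =>
    rename_i p es
    obtain ⟨b, E⟩ := p
    rw [lobe0, Bool.and_eq_true] at hl
    have ih := lobe0_pos xs es hxs hl.2
    rw [SP_cons]
    refine mul_pos ?_ ih
    unfold fac
    split
    · rename_i hb
      have hb' : b = true := hb
      have hnu : x.nu = true := by rw [← hx.1]; exact hb'
      have h1 := hl.1
      rw [hnu] at h1
      simp only [Bool.not_true, Bool.false_or] at h1
      have e : k * k * 25 * x.hi = k * k * (25 * x.hi) := by ring
      rw [e] at h1
      have h2 := sinc_sign (InL0_of (k := k) (le_trans (Nat.cast_nonneg _) hx.2.1) h1 hx.2.2)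
      rw [pow_zero, one_mul] at h2
      exact h2
    · exact one_pos

theorem all_pos {k m : ℕ} {ge : Bool} {R : Rng} {xs : List Cell} {es : List (Bool × ℝ)} {rest : List ℝ}
    {s : ℝ} (h : PtOK ge m R xs es rest s) (hf : fit k R = true) (hl : lobe0 k xs = true) :
    0 < SP k (allC es rest) := by
  unfold allC
  rw [SP_append]
  unfold fit at hf
  rw [Bool.and_eq_true] at hf
  exact mul_pos (lobe0_pos xs es h.cell hl) (rest_pos rest (fun E hE =>
    InL0_of (le_trans (Nat.cast_nonneg _) (h.rst E hE).1) hf.1 (h.rst E hE).2))

theorem forall₂_zipZero {xs : List Cell} {es : List (Bool × ℝ)} (h : List.Forall₂ CellRel xs es) :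
    List.Forall₂ (fun (x : Cell × ℕ) p => CellRel x.1 p) (zipZero xs) es := by
  induction h with
  | nil => exact List.Forall₂.nil
  | cons hx _ ih => exact List.Forall₂.cons hx ih

theorem zipZero_le : ∀ xs : List Cell, ∀ x ∈ zipZero xs, x.2 ≤ 6
  | [], x, h => by simp [zipZero] at h
  | y :: ys, x, h => by
    rw [zipZero] at h
    rcases List.mem_cons.1 h with h | h
    · rw [h]; simp
    · exact zipZero_le ys x h

/-- meaning of the bounds of the ratio `X` -/
structure RBok (l : ℝ) (rb : RB) (X : ℝ) : Prop where
  U : 2 ^ 60 * Real.exp (-8) * |X| ≤ mix l rb.U0 rb.U1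
  L : (rb.L0 ≠ 0 ∨ rb.L1 ≠ 0) → 0 ≤ X ∧ mix l rb.L0 rb.L1 ≤ 2 ^ 60 * Real.exp (-8) * X

theorem SH_val : ((SH : ℤ) : ℝ) = 8 * 2 ^ 72 := by norm_num [SH]

theorem exp_SH (v : ℝ) : Real.exp (-((8 * 2 ^ 72 + v) / 2 ^ 72)) = Real.exp (-8) * Real.exp (-(v / 2 ^ 72)) := by
  rw [← Real.exp_add]
  congr 1
  ring

theorem negA_av (A : Aff) (s : ℝ) : av (negA A) s = -av A s := by
  unfold av negA
  push_cast
  ring

section

variable {c : PC} {es : List (Bool × ℝ)} {rest : List ℝ} {l : ℝ}

/-- upper bounds through `setU` -/
theorem setU_ratio {R0 R1 : ℤ} {u0 u1 : ℕ} (h : setU R0 R1 = some (u0, u1)) (h0 : 0 ≤ l) (h1 : l ≤ 1)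
    {X V : ℝ} (hR : mix l R0 R1 = 8 * 2 ^ 72 + V) (hX : |X| ≤ Real.exp (-(V / 2 ^ 72))) :
    2 ^ 60 * Real.exp (-8) * |X| ≤ mix l u0 u1 := by
  have a := setU_sound h h0 h1
  rw [hR, exp_SH] at a
  refine le_trans ?_ a
  rw [mul_assoc]
  exact mul_le_mul_of_nonneg_left (mul_le_mul_of_nonneg_left hX (Real.exp_pos _).le) (by positivity)

theorem ratio_div {P Q E : ℝ} (hQ : 0 < Q) (h : |P| ≤ |Q| * E) : |P / Q| ≤ E := by
  rw [abs_div, abs_of_pos hQ, div_le_iff₀ hQ]
  rw [abs_of_pos hQ] at h
  linarith

theorem ratB_sound (h0 : 0 ≤ l) (h1 : l ≤ 1) (hpt : PtOK c.ge c.m c.R c.xs es rest (mix l c.s0 c.s1))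
    (hr : 1 ≤ c.r) (hr2 : c.r ≤ 40) {Lr : Line}
    (hAr : affHi c.r 0 c.m c.ge c.R (zipZero c.xs) Lr = some c.Ar)
    (hfr : fit c.r c.R = true) (hlr : lobe0 c.r c.xs = true) {k : ℕ} (hk : 1 ≤ k) (hk2 : k ≤ 40)
    {A B : Line} {rb : RB} (h : ratB c k A B = some rb) :
    RBok l rb (SP k (allC es rest) / SP c.r (allC es rest)) := by
  have hPr := all_pos hpt hfr hlr
  have hzip := forall₂_zipZero hpt.cell
  have hmix : ∀ (f : ℝ → ℝ), mix l (f c.s0) (f c.s1) = mix l (f c.s0) (f c.s1) := fun _ => rfl
  unfold ratB at h
  cases hc : (fit k c.R && lobe0 k c.xs)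
  · -- beyond the first lobe
    rw [hc, cond_false] at h
    cases hb : Nat.ble k c.r
    · rw [hb, cond_false] at h
      cases hl : affLo k 0 c.m c.ge c.R c.xs A with
      | none => rw [hl] at h; cases h
      | some al =>
        rw [hl] at h
        simp only at h
        have hLB := LBs_zero_iff (hpt.lo hk hk2 (Nat.zero_le _) hl)
        have hUB := UBs_zero_iff (hpt.hi hr (Nat.zero_le _) hzip (zipZero_le _) hAr)
        cases hU : setU (SH + al.at c.s0 - c.Ar.at c.s0) (SH + al.at c.s1 - c.Ar.at c.s1) with
        | none => rw [hU] at h; cases h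
        | some u =>
          obtain ⟨u0, u1⟩ := u
          rw [hU] at h
          have hrb := Option.some.inj h
          rw [← hrb]
          refine ⟨?_, fun h9 => ?_⟩
          · refine setU_ratio hU h0 h1 (V := av al (mix l c.s0 c.s1) - av c.Ar (mix l c.s0 c.s1)) ?_ ?_
            · push_cast
              rw [SH_val, ← av_at, ← av_at, ← av_at, ← av_at, av_mix, av_mix]
              unfold mix
              ring
            · apply ratio_div hPr
              have e : Real.exp (-((av al (mix l c.s0 c.s1) - av c.Ar (mix l c.s0 c.s1)) / 2 ^ 72)) =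
                  Real.exp (-(av al (mix l c.s0 c.s1) / 2 ^ 72)) *
                    Real.exp (av c.Ar (mix l c.s0 c.s1) / 2 ^ 72) := by
                rw [← Real.exp_add]; congr 1; ring
              rw [e]
              have e2 : Real.exp (-(av c.Ar (mix l c.s0 c.s1) / 2 ^ 72)) *
                  Real.exp (av c.Ar (mix l c.s0 c.s1) / 2 ^ 72) = 1 := by
                rw [← Real.exp_add]; simp
              have hpos := Real.exp_pos (av c.Ar (mix l c.s0 c.s1) / 2 ^ 72)
              have h9 := mul_le_mul_of_nonneg_right hUB hpos.le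
              rw [e2] at h9
              calc |SP k (allC es rest)| ≤ Real.exp (-(av al (mix l c.s0 c.s1) / 2 ^ 72)) * 1 := by
                    rw [mul_one]; exact hLB
                _ ≤ Real.exp (-(av al (mix l c.s0 c.s1) / 2 ^ 72)) *
                    (|SP c.r (allC es rest)| * Real.exp (av c.Ar (mix l c.s0 c.s1) / 2 ^ 72)) :=
                    mul_le_mul_of_nonneg_left h9 (Real.exp_pos _).le
                _ = _ := by ring
          · simp at h9
    · rw [hb, cond_true] at h
      cases h
  · -- in the first lobe
    rw [hc, cond_true] at h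
    rw [Bool.and_eq_true] at hc
    have hPk := all_pos hpt hc.1 hc.2
    have hX : 0 ≤ SP k (allC es rest) / SP c.r (allC es rest) := (div_pos hPk hPr).le
    cases hb : Nat.ble k c.r
    · -- `r < k`
      rw [hb, cond_false] at h
      have hkr := ble_false hb
      cases hl : affLo k c.r c.m c.ge c.R c.xs A with
      | none => rw [hl] at h; cases h
      | some al =>
        rw [hl] at h
        simp only at h
        have hLB := hpt.lo hk hk2 hkr.le hl
        cases hU : setU (SH + al.at c.s0) (SH + al.at c.s1) with
        | none => rw [hU] at h; cases h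
        | some u =>
          obtain ⟨u0, u1⟩ := u
          rw [hU] at h
          have hUU : 2 ^ 60 * Real.exp (-8) * |SP k (allC es rest) / SP c.r (allC es rest)| ≤ mix l u0 u1 := by
            refine setU_ratio hU h0 h1 (V := av al (mix l c.s0 c.s1)) ?_ (ratio_div hPr hLB)
            push_cast
            rw [SH_val, ← av_at, ← av_at, av_mix]
            unfold mix
            ring
          cases hh : affHi k c.r c.m c.ge c.R (zipZero c.xs) B with
          | none =>
            rw [hh] at h
            have hrb := Option.some.inj h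
            rw [← hrb]
            exact ⟨hUU, fun h9 => by simp at h9⟩
          | some ah =>
            rw [hh] at h
            simp only at h
            have hUB := hpt.hi hk hkr.le hzip (zipZero_le _) hh
            have hL := setL_sound (sh := SH) (A := ah) (s0 := c.s0) (s1 := c.s1) h0 h1
            cases hs : setL SH ah c.s0 c.s1 with
            | mk l0 l1 =>
            rw [hs] at h hL
            have hrb := Option.some.inj h
            rw [← hrb]
            refine ⟨hUU, fun _ => ⟨hX, ?_⟩⟩
            simp only at hL ⊢
            rw [SH_val, exp_SH] at hL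
            refine hL.trans ?_
            rw [mul_assoc]
            refine mul_le_mul_of_nonneg_left (mul_le_mul_of_nonneg_left ?_ (Real.exp_pos _).le) (by positivity)
            unfold UBs at hUB
            rw [abs_of_pos hPr, abs_of_pos hPk] at hUB
            rw [le_div_iff₀ hPr]
            linarith
    · -- `k ≤ r`
      rw [hb, cond_true] at h
      have hkr := ble_true hb
      cases hh : affHi c.r k c.m c.ge c.R (zipZero c.xs) B with
      | none => rw [hh] at h; cases h
      | some ah =>
        rw [hh] at h
        simp only at h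
        have hUB := hpt.hi hr hkr hzip (zipZero_le _) hh
        cases hU : setU (SH - ah.at c.s0) (SH - ah.at c.s1) with
        | none => rw [hU] at h; cases h
        | some u =>
          obtain ⟨u0, u1⟩ := u
          rw [hU] at h
          have hUU : 2 ^ 60 * Real.exp (-8) * |SP k (allC es rest) / SP c.r (allC es rest)| ≤ mix l u0 u1 := by
            refine setU_ratio hU h0 h1 (V := -av ah (mix l c.s0 c.s1)) ?_ (ratio_div hPr ?_)
            · push_cast
              rw [SH_val, ← av_at, ← av_at, av_mix]
              unfold mix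
              ring
            · unfold UBs at hUB
              have e2 : Real.exp (-(av ah (mix l c.s0 c.s1) / 2 ^ 72)) *
                  Real.exp (-(-av ah (mix l c.s0 c.s1) / 2 ^ 72)) = 1 := by
                rw [← Real.exp_add, ← Real.exp_zero]; congr 1; ring
              have hpos := Real.exp_pos (-(-av ah (mix l c.s0 c.s1) / 2 ^ 72))
              have h9 := mul_le_mul_of_nonneg_right hUB hpos.le
              rw [mul_assoc, e2, mul_one] at h9
              exact h9
          cases hl : affLo c.r k c.m c.ge c.R c.xs A with
          | none =>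
            rw [hl] at h
            have hrb := Option.some.inj h
            rw [← hrb]
            exact ⟨hUU, fun h9 => by simp at h9⟩
          | some al =>
            rw [hl] at h
            simp only at h
            have hLB := hpt.lo hr hr2 hkr hl
            have hL := setL_sound (sh := SH) (A := negA al) (s0 := c.s0) (s1 := c.s1) h0 h1
            cases hs : setL SH (negA al) c.s0 c.s1 with
            | mk l0 l1 =>
            rw [hs] at h hL
            have hrb := Option.some.inj h
            rw [← hrb]
            refine ⟨hUU, fun _ => ⟨hX, ?_⟩⟩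
            simp only at hL ⊢
            rw [SH_val, exp_SH, negA_av] at hL
            refine hL.trans ?_
            rw [mul_assoc]
            refine mul_le_mul_of_nonneg_left (mul_le_mul_of_nonneg_left ?_ (Real.exp_pos _).le) (by positivity)
            unfold LBs at hLB
            rw [abs_of_pos hPr, abs_of_pos hPk] at hLB
            rw [le_div_iff₀ hPr]
            have e2 : Real.exp (-(av al (mix l c.s0 c.s1) / 2 ^ 72)) *
                Real.exp (-(-av al (mix l c.s0 c.s1) / 2 ^ 72)) = 1 := by
              rw [← Real.exp_add, ← Real.exp_zero]; congr 1; ring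
            have hpos := Real.exp_pos (-(-av al (mix l c.s0 c.s1) / 2 ^ 72))
            have h9 := mul_le_mul_of_nonneg_right hLB hpos.le
            rw [mul_assoc, e2, mul_one] at h9
            linarith

end

end Pool.Agent.H60.SC
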