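import Pool.Agent.H61.SC.Leaf
import Pool.Agent.H60.SL.CkRotDefs
import Pool.Agent.H60.SL.CkTauDefs

/-!
# Kernel checks of the tables of the `T` part
-/

set_option autoImplicit false

namespace Pool.Agent.H60.SC

open Pool.Agent.H60.SL.Ck (allB rotAll pSin chkTau chkThr)
open Pool.Agent.H61.SC

def sgAt (row : List (Bool × Nat)) (k : Nat) : Bool := (row.getD (k - 1) (true, 0)).1
def gAt (row : List (Bool × Nat)) (k : Nat) : Nat := (row.getD (k - 1) (true, 0)).2

/-- the row `i` of the table of sines -/
def chkSig (i : Nat) : Bool :=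
  Nat.ble (tn i) 1826 && Nat.beq (sigL.getD i []).length 20 &&
  rotAll (pSin (sgAt (sigL.getD i [])) (gAt (sigL.getD i []))) (tn i) 20

theorem sig_all : allB 32 chkSig = true := by decide +kernel

def chkThrs (cls n : Nat) : Bool :=
  allB n fun i => chkThr (tn i) ((tauOf cls).getD i 0) ((thrOf cls).getD i 0)

theorem thr3_ok : chkThrs 3 20 = true := by decide +kernel
theorem thr5_ok : chkThrs 5 32 = true := by decide +kernel
theorem thr6_ok : chkThrs 6 32 = true := by decide +kernel
theorem thr7_ok : chkThrs 7 32 = true := by decide +kernel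
theorem thr8_ok : chkThrs 8 32 = true := by decide +kernel

/-- the interval `i` of the class -/
def chkInt (cls i : Nat) : Bool :=
  Nat.ble 2 ((qselOf cls).getD i 0) && Nat.ble ((qselOf cls).getD i 0) (if cls = 3 then 3 else cls) &&
  Nat.blt 0 (tn i) && Nat.blt (tn i) (tn (i + 1)) &&
  chkTau ((qselOf cls).getD i 0) (rqL.getD ((qselOf cls).getD i 0) 0) (tn i) (tn (i + 1))
    ((tauOf cls).getD i 0) ((tauOf cls).getD (i + 1) 0)

def chkInts (cls n : Nat) : Bool := allB n (chkInt cls)

theorem int3_ok : chkInts 3 19 = true := by decide +kernel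
theorem int5_ok : chkInts 5 31 = true := by decide +kernel
theorem int6_ok : chkInts 6 31 = true := by decide +kernel
theorem int7_ok : chkInts 7 31 = true := by decide +kernel
theorem int8_ok : chkInts 8 31 = true := by decide +kernel

theorem tn_pos : allB 32 (fun i => Nat.ble 850 (tn i) && Nat.ble (tn i) 1826) = true := by decide +kernel

end Pool.Agent.H60.SC
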