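import Pool.Agent.H60.SC.TFin
import Pool.Agent.H60.SC.PAlias
import Pool.Agent.H60.SL.Ub
import Pool.Agent.H61.SC.Tree

/-!
# The `U` leaves and the range of `t`
-/

set_option autoImplicit false

open Set Filter Topology MeasureTheory

namespace Pool.Agent.H60.SC

open Pool.Agent.H60.SL
open Pool.Agent.H64.Slab Pool.Agent.H60.Slab Pool.Agent.H60.Big
open Pool.Agent.H60.SL.Ck (chkTau tau_values)
open Pool.Agent.H61.SC

/-! ## square roots -/

theorem isqLo_real {x : ℝ} {L : ℕ} (hx : 0 ≤ x) (h : (L : ℝ) / 2 ^ 20 ≤ x ^ 2) :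
    (isqLo (L * 1048576) : ℝ) ≤ 2 ^ 20 * x := by
  have h1 := isqLo_sq (L * 1048576)
  have h2 : (isqLo (L * 1048576) : ℝ) * (isqLo (L * 1048576) : ℝ) ≤ ((L * 1048576 : ℕ) : ℝ) := by
    exact_mod_cast h1
  rw [div_le_iff₀ (by positivity)] at h
  push_cast at h2
  have h3 : (isqLo (L * 1048576) : ℝ) ^ 2 ≤ (2 ^ 20 * x) ^ 2 := by nlinarith
  exact (pow_le_pow_iff_left₀ (Nat.cast_nonneg _) (by positivity) (by norm_num : (2 : ℕ) ≠ 0)).1 h3

theorem isqHi_real {x : ℝ} {H : ℕ} (hx : 0 ≤ x) (h : x ^ 2 ≤ (H : ℝ) / 2 ^ 20) :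
    2 ^ 20 * x ≤ (isqHi (H * 1048576) : ℝ) := by
  have h1 := isqHi_sq (H * 1048576)
  have h2 : ((H * 1048576 : ℕ) : ℝ) ≤ (isqHi (H * 1048576) : ℝ) * (isqHi (H * 1048576) : ℝ) := by
    exact_mod_cast h1
  rw [le_div_iff₀ (by positivity)] at h
  push_cast at h2
  have h3 : (2 ^ 20 * x) ^ 2 ≤ (isqHi (H * 1048576) : ℝ) ^ 2 := by nlinarith
  exact (pow_le_pow_iff_left₀ (by positivity) (Nat.cast_nonneg _) (by norm_num : (2 : ℕ) ≠ 0)).1 h3

/-- `94372 ≤ 2^20 x²` means `3/10 ≤ x` -/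
theorem three_tenths {x : ℝ} {L : ℕ} (hx : 0 ≤ x) (h : (L : ℝ) / 2 ^ 20 ≤ x ^ 2) (hL : 94372 ≤ L) :
    3 / 10 ≤ x := by
  have h1 : (94372 : ℝ) ≤ L := by exact_mod_cast hL
  rw [div_le_iff₀ (by positivity)] at h
  by_contra hcon
  have h2 : x < 3 / 10 := not_le.1 hcon
  nlinarith

/-! ## the range of `t` -/

theorem startOK_sound {B : Box} {is : ℕ} (h : startOK B is = true) {x0 x1 t : ℝ} (h0 : 0 ≤ x0) (h1 : 0 ≤ x1)
    (l0 : (B.lo0 : ℝ) / 2 ^ 20 ≤ x0 ^ 2) (l1 : (B.lo1 : ℝ) / 2 ^ 20 ≤ x1 ^ 2) (ht : 17 / 20 < t)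
    (hK : 3 / 10 ≤ x1 → x0 + x1 < t) : (tn is : ℝ) / 1000 < t := by
  unfold startOK at h
  rw [Bool.or_eq_true] at h
  rcases h with h | h
  · have := beq_true h
    subst this
    have e : tn 0 = 850 := rfl
    rw [e]
    norm_num
    linarith
  · rw [Bool.and_eq_true] at h
    have e1 := ble_true h.1
    have e2 := ble_true h.2
    have e3 := hK (three_tenths h1 l1 e1)
    have g0 := isqLo_real h0 l0
    have g1 := isqLo_real h1 l1
    have e4 : ((tn is * 1048576 : ℕ) : ℝ) ≤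
        ((1000 * (isqLo (B.lo0 * 1048576) + isqLo (B.lo1 * 1048576)) : ℕ) : ℝ) := by exact_mod_cast e2
    push_cast at e4
    have : (tn is : ℝ) / 1000 ≤ x0 + x1 := by
      rw [div_le_iff₀ (by norm_num)]
      nlinarith
    linarith

theorem fullOK_sound {cls : ℕ} {B : Box} {i : ℕ} (h : fullOK cls B i = true) {x0 x1 g t : ℝ} (h0 : 0 ≤ x0)
    (h1 : 0 ≤ x1) (l0 : (B.lo0 : ℝ) / 2 ^ 20 ≤ x0 ^ 2) (lg : (B.g0 : ℝ) / 2 ^ 20 ≤ g ^ 2)
    (u0 : x0 ^ 2 ≤ (B.hi0 : ℝ) / 2 ^ 20) (u1 : x1 ^ 2 ≤ (B.hi1 : ℝ) / 2 ^ 20)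
    (hL : 3 * t ^ 2 ≤ 10 * (1 - 4 / 7 * (x0 ^ 2 + g ^ 2))) (h3 : cls = 3 → t ≤ x0 + x1) :
    t ≤ (tn i : ℝ) / 1000 := by
  unfold fullOK at h
  rw [Bool.or_eq_true] at h
  rcases h with h | h
  · have e1 := ble_true h
    have e2 : ((73400320000000 : ℕ) : ℝ) ≤
        ((21 * (tn i * tn i) * 1048576 + 40000000 * (B.lo0 + B.g0) : ℕ) : ℝ) := by exact_mod_cast e1
    push_cast at e2
    rw [div_le_iff₀ (by positivity)] at l0 lg
    rw [le_div_iff₀ (by norm_num)]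
    have e3 : (t * 1000) ^ 2 ≤ (tn i : ℝ) ^ 2 := by nlinarith
    exact abs_le_of_sq_le_sq' e3 (Nat.cast_nonneg _) |>.2
  · rw [Bool.and_eq_true] at h
    have e1 := beq_true h.1
    have e2 := ble_true h.2
    have e3 := h3 e1
    have g0 := isqHi_real h0 u0
    have g1 := isqHi_real h1 u1
    have e4 : ((1000 * (isqHi (B.hi0 * 1048576) + isqHi (B.hi1 * 1048576)) : ℕ) : ℝ) ≤
        ((tn i * 1048576 : ℕ) : ℝ) := by exact_mod_cast e2
    push_cast at e4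
    rw [le_div_iff₀ (by norm_num)]
    nlinarith

/-! ## the tail functions are decreasing -/

theorem TF_zero (p : ℕ) {t : ℝ} (ht : Real.sqrt (p + 2 : ℕ) ≤ t) : TF (p + 2) t = 0 := by
  unfold TF
  rw [Finset.sum_eq_zero, mul_zero]
  intro j _
  have h1 : Real.sqrt (p + 2 : ℕ) * Real.sqrt (p + 2 : ℕ) = ((p + 2 : ℕ) : ℝ) :=
    Real.mul_self_sqrt (Nat.cast_nonneg _)
  have h2 : ((p + 2 : ℕ) : ℝ) ≤ Real.sqrt (p + 2 : ℕ) * t :=
    h1.symm.le.trans (mul_le_mul_of_nonneg_left ht (Real.sqrt_nonneg _))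
  have h3 : max (((p + 2 : ℕ) : ℝ) - 2 * j - Real.sqrt (p + 2 : ℕ) * t) 0 = 0 := by
    apply max_eq_right
    have : (0 : ℝ) ≤ j := Nat.cast_nonneg _
    linarith
  rw [h3, zero_pow (by omega), mul_zero]

theorem dTF_nonpos (p : ℕ) {c : ℝ} (hc : 0 < c) : dTF p c ≤ 0 := by
  by_contra hcon
  have hd : 0 < dTF p c := not_le.1 hcon
  set t := max (Real.sqrt (p + 2 : ℕ)) (c + (1 + |TF (p + 2) c|) / dTF p c) with ht
  have h1 : TF (p + 2) t = 0 := TF_zero p (le_max_left _ _)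
  have h2 : c + (1 + |TF (p + 2) c|) / dTF p c ≤ t := le_max_right _ _
  have h3 : 0 ≤ (1 + |TF (p + 2) c|) / dTF p c := by positivity
  have h4 := TF_tangent p hc (t := t) (by linarith)
  have h5 : 1 + |TF (p + 2) c| ≤ dTF p c * (t - c) := by
    have h6 : (1 + |TF (p + 2) c|) / dTF p c ≤ t - c := by linarith
    rw [div_le_iff₀ hd] at h6
    linarith
  have h7 := neg_abs_le (TF (p + 2) c)
  linarith

/-- a constant bound on an interval -/
theorem T_const {n : ℕ} (a : Fin n → ℝ) {q r A B tA tB : ℕ}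
    (hq : 2 ≤ q) (hqn : q ≤ n) (h0 : 0 < A) (hAB : A < B) (h : chkTau q r A B tA tB = true) {t : ℝ}
    (ht0 : 0 ≤ t) (htB : t ≤ (B : ℝ) / 1000)
    (hB : 1 - FV a t 0 / 2 ^ n ≤ (tB : ℝ) / 2 ^ 40) :
    ∃ q, 1 ≤ q ∧ q ≤ n ∧ FV (stdVec n q) t 0 ≤ FV a t 0 := by
  obtain ⟨p, rfl⟩ : ∃ p, q = p + 2 := ⟨q - 2, by omega⟩
  obtain ⟨v1, v2⟩ := tau_values hAB.le h
  have hA0 : (0 : ℝ) < A := by exact_mod_cast h0
  have hB0 : (0 : ℝ) ≤ B := Nat.cast_nonneg _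
  set c := ((A + B : ℕ) : ℝ) / 2000 with hc
  have hc0 : 0 < c := by rw [hc]; push_cast; positivity
  refine alt_TF (by omega) hqn a ht0 ?_
  have ht := TF_tangent p hc0 ht0
  have hd := dTF_nonpos p hc0
  refine (hB.trans v2).trans (le_trans ?_ ht)
  have := mul_le_mul_of_nonpos_left (show t - c ≤ (B : ℝ) / 1000 - c by linarith) hd
  linarith

/-! ## the `U` leaf -/

/-- the data of a `U` leaf -/
structure UOK (AB N p1 : ℕ) (x0 x1 σ : ℝ) : Prop where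
  h0 : 0 < x0
  h1 : 0 < x1
  hσ : 0 ≤ σ
  AB : (AB : ℝ) ≤ 2 ^ 20 * (x0 * x1)
  N : 2 ^ 20 * σ ≤ N
  p1 : 2 ^ 20 * (x0 + x1) ≤ p1

theorem uStep {AB N p1 i ta : ℕ} {x0 x1 σ t T : ℝ} (hu : UOK AB N p1 x0 x1 σ)
    (h : (Nat.ble (N * 1099511627776) (24 * AB * ta) ||
      fz (tn i * 1048576 / 1000 - p1) fun c =>
        Nat.ble 1 c && Nat.ble (N * N * 1048576 * 1099511627776) (384 * AB * (c * c) * ta)) = true)
    (ht : (tn i : ℝ) / 1000 ≤ t) (h2 : T ≤ σ / (24 * x0 * x1))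
    (h4 : T ≤ σ ^ 2 / (384 * x0 * x1 * (t - x0 - x1) ^ 2)) : T ≤ (ta : ℝ) / 2 ^ 40 := by
  have hx : 0 < x0 * x1 := mul_pos hu.h0 hu.h1
  have hta : (0 : ℝ) ≤ ta := Nat.cast_nonneg _
  have hABn : (0 : ℝ) ≤ AB := Nat.cast_nonneg _
  have hx0 := hu.h0
  have hx1 := hu.h1
  rw [Bool.or_eq_true] at h
  rcases h with h | h
  · have e1 : ((N * 1099511627776 : ℕ) : ℝ) ≤ ((24 * AB * ta : ℕ) : ℝ) := by exact_mod_cast ble_true h
    push_cast at e1
    refine h2.trans ?_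
    rw [div_le_div_iff₀ (by positivity) (by positivity)]
    have e2 : (AB : ℝ) * ta ≤ 2 ^ 20 * (x0 * x1) * ta := mul_le_mul_of_nonneg_right hu.AB hta
    have e3 := hu.N
    nlinarith
  · rw [fz_eq, Bool.and_eq_true] at h
    obtain ⟨c1, c2⟩ := h
    set c := tn i * 1048576 / 1000 - p1 with hc
    have c1 : 1 ≤ c := ble_true c1
    have hcr : (c : ℝ) ≤ 2 ^ 20 * (t - x0 - x1) := by
      have g1 : ((tn i * 1048576 / 1000 : ℕ) : ℝ) ≤ (tn i : ℝ) * 1048576 / 1000 := by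
        have := Nat.cast_div_le (α := ℝ) (m := tn i * 1048576) (n := 1000)
        refine this.trans (le_of_eq ?_)
        push_cast
        ring
      have g2 : (c : ℝ) = ((tn i * 1048576 / 1000 : ℕ) : ℝ) - p1 := by
        rw [hc, Nat.cast_sub (by omega)]
      rw [g2]
      have g3 := hu.p1
      have g4 : (tn i : ℝ) * 1048576 / 1000 ≤ 2 ^ 20 * t := by
        have : (tn i : ℝ) * 1048576 / 1000 = 2 ^ 20 * ((tn i : ℝ) / 1000) := by ring
        rw [this]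
        exact mul_le_mul_of_nonneg_left ht (by positivity)
      linarith
    have hc0 : (1 : ℝ) ≤ c := by exact_mod_cast c1
    have hd : 0 < t - x0 - x1 := by nlinarith
    have e1 : ((N * N * 1048576 * 1099511627776 : ℕ) : ℝ) ≤ ((384 * AB * (c * c) * ta : ℕ) : ℝ) := by
      exact_mod_cast ble_true c2
    push_cast at e1
    refine h4.trans ?_
    rw [div_le_div_iff₀ (by positivity) (by positivity)]
    have e2 : (AB : ℝ) * ((c : ℝ) * c) ≤ 2 ^ 20 * (x0 * x1) * ((2 ^ 20 * (t - x0 - x1)) * (2 ^ 20 * (t - x0 - x1))) :=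
      mul_le_mul hu.AB (mul_le_mul hcr hcr (by linarith) (by positivity)) (by positivity) (by positivity)
    have e3 := mul_le_mul_of_nonneg_right e2 hta
    have e4 : (2 ^ 20 * σ) * (2 ^ 20 * σ) ≤ (N : ℝ) * N :=
      mul_le_mul hu.N hu.N (mul_nonneg (by positivity) hu.hσ) (Nat.cast_nonneg _)
    nlinarith

theorem uGo_get {AB N p1 : ℕ} : ∀ (n i : ℕ) (l : List ℕ), uGo AB N p1 n i l = true → ∀ d < n,
    (Nat.ble (N * 1099511627776) (24 * AB * l.getD d 0) ||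
      fz (tn (i + d) * 1048576 / 1000 - p1) fun c =>
        Nat.ble 1 c && Nat.ble (N * N * 1048576 * 1099511627776) (384 * AB * (c * c) * l.getD d 0)) = true
  | 0, _, _, _, d, hd => by omega
  | n + 1, i, [], h, _, _ => by
    rw [uGo] at h
    cases h
  | n + 1, i, ta :: tas, h, d, hd => by
    rw [uGo, Bool.and_eq_true] at h
    cases d with
    | zero => simpa using h.1
    | succ d =>
      have := uGo_get n (i + 1) tas h.2 d (by omega)
      have e : i + 1 + d = i + (d + 1) := by ring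
      rw [e] at this
      simpa using this

/-- conclusion for `U` leaves: `x0 = a i`, `x1 = a (i.succAbove j)` the two largest coordinates -/
theorem uCheck_sound {m cls : ℕ} {B : Box} {is ie : ℕ} (hc : ClsN cls (m + 2))
    (h : uCheck cls B is ie = true) (a : Fin (m + 2) → ℝ) (i : Fin (m + 2)) (j : Fin (m + 1))
    (hsum : ∑ k, a k ^ 2 = 1) (h0 : 0 < a i) (h1 : 0 < a (i.succAbove j))
    (l0 : (B.lo0 : ℝ) / 2 ^ 20 ≤ a i ^ 2) (l1 : (B.lo1 : ℝ) / 2 ^ 20 ≤ a (i.succAbove j) ^ 2)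
    (u0 : a i ^ 2 ≤ (B.hi0 : ℝ) / 2 ^ 20) (u1 : a (i.succAbove j) ^ 2 ≤ (B.hi1 : ℝ) / 2 ^ 20) {t : ℝ}
    (ht1 : (tn is : ℝ) / 1000 < t) (ht2 : t ≤ (tn ie : ℝ) / 1000)
    (hK : 3 / 10 ≤ a (i.succAbove j) → a i + a (i.succAbove j) < t) :
    ∃ q, 1 ≤ q ∧ q ≤ m + 2 ∧ FV (stdVec (m + 2) q) t 0 ≤ FV a t 0 := by
  unfold uCheck at h
  simp only [fz_eq, Bool.and_eq_true] at h
  obtain ⟨⟨⟨⟨c1, c2⟩, c3⟩, c4⟩, c5⟩ := h
  have c2 := ble_true c2
  have c3 := ble_true c3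
  have c4 := ble_true c4
  have ht0 : 0 ≤ t := le_trans (by positivity) ht1.le
  have hlt := hK (three_tenths h1.le l1 (ble_true c1))
  have hσ : ∑ k, a (i.succAbove (j.succAbove k)) ^ 2 = 1 - a i ^ 2 - a (i.succAbove j) ^ 2 := by
    rw [← hsum, Fin.sum_univ_succAbove _ i, Fin.sum_univ_succAbove _ j]
    ring
  have hu : UOK (isqLo (B.lo0 * B.lo1)) (1048576 - B.lo0 - B.lo1)
      (isqHi (B.hi0 * 1048576) + isqHi (B.hi1 * 1048576)) (a i) (a (i.succAbove j))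
      (∑ k, a (i.succAbove (j.succAbove k)) ^ 2) := by
    refine ⟨h0, h1, Finset.sum_nonneg fun k _ => sq_nonneg _, ?_, ?_, ?_⟩
    · have e1 := isqLo_sq (B.lo0 * B.lo1)
      have e2 : (isqLo (B.lo0 * B.lo1) : ℝ) * (isqLo (B.lo0 * B.lo1) : ℝ) ≤ ((B.lo0 * B.lo1 : ℕ) : ℝ) := by
        exact_mod_cast e1
      push_cast at e2
      have l0' := l0
      have l1' := l1
      rw [div_le_iff₀ (by positivity)] at l0' l1'
      have e3 : (B.lo0 : ℝ) * B.lo1 ≤ (a i ^ 2 * 2 ^ 20) * (a (i.succAbove j) ^ 2 * 2 ^ 20) :=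
        mul_le_mul l0' l1' (Nat.cast_nonneg _) (by positivity)
      have e4 : (isqLo (B.lo0 * B.lo1) : ℝ) ^ 2 ≤ (2 ^ 20 * (a i * a (i.succAbove j))) ^ 2 := by nlinarith
      exact (pow_le_pow_iff_left₀ (Nat.cast_nonneg _) (by positivity) (by norm_num : (2 : ℕ) ≠ 0)).1 e4
    · rw [hσ]
      have l0' := l0
      have l1' := l1
      rw [div_le_iff₀ (by positivity)] at l0' l1'
      have e5 : (1048576 : ℝ) - B.lo0 - B.lo1 ≤ ((1048576 - B.lo0 - B.lo1 : ℕ) : ℝ) := by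
        have : (1048576 : ℕ) ≤ (1048576 - B.lo0 - B.lo1) + B.lo0 + B.lo1 := by omega
        have h9 : ((1048576 : ℕ) : ℝ) ≤ (((1048576 - B.lo0 - B.lo1) + B.lo0 + B.lo1 : ℕ) : ℝ) := by
          exact_mod_cast this
        rw [Nat.cast_add, Nat.cast_add] at h9
        push_cast at h9 ⊢
        linarith
      refine le_trans ?_ e5
      nlinarith
    · have g0 := isqHi_real h0.le u0
      have g1 := isqHi_real h1.le u1
      push_cast
      linarith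
  -- locate the interval
  have hloc : ∀ (d is' : ℕ), is' + d = ie → is ≤ is' → (tn is' : ℝ) / 1000 < t →
      ∃ p, is ≤ p ∧ p < ie ∧ (tn p : ℝ) / 1000 ≤ t ∧ t ≤ (tn (p + 1) : ℝ) / 1000 := by
    intro d
    induction d with
    | zero =>
      intro is' he _ hlt'
      have : is' = ie := by omega
      subst this
      linarith
    | succ d ih =>
      intro is' he his hlt'
      rcases le_or_gt t ((tn (is' + 1) : ℝ) / 1000) with h9 | h9
      · exact ⟨is', his, by omega, hlt'.le, h9⟩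
      · exact ih (is' + 1) (by omega) (by omega) h9
  obtain ⟨p, p1, p2, p3, p4⟩ := hloc (ie - is) is (by omega) le_rfl ht1
  have hstep := uGo_get _ _ _ c5 (p - is) (by omega)
  have ep : is + (p - is) = p := by omega
  rw [ep, getD_drop] at hstep
  have ep2 : is + 1 + (p - is) = p + 1 := by omega
  rw [ep2] at hstep
  have hT2 := T_le_U2 a i j ht0 h0 h1 hlt.le
  have hT4 := T_le_U4 a i j ht0 h0 h1 hlt
  have hT := uStep hu hstep p3 hT2 hT4
  have hp31 : p < if cls = 3 then 19 else 31 := by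
    rw [if_neg (by omega)]
    omega
  obtain ⟨g1, g2, g3, g4, g5⟩ := int_all hc hp31
  exact T_const a g1 g2 g3 g4 g5 ht0 p4 hT

end Pool.Agent.H60.SC
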