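import Pool.Agent.H60.SC.BoxPt
import Pool.Agent.H60.SC.PFin
import Pool.Agent.H60.SC.ULeaf
import Pool.Agent.H61.SC.Sit

/-!
# The leaves in terms of points and boxes
-/

set_option autoImplicit false

open Set Filter Topology MeasureTheory

namespace Pool.Agent.H60.SC

open Pool.Agent.H60.SL
open Pool.Agent.H64.Slab Pool.Agent.H60.Slab Pool.Agent.H60.Big
open Pool.Agent.H61.SC (Box Srt T_TLEAF T_PLEAF T_START T_FULL tCheck pCheck capX gLow isGe mkCell tn ptn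
  startOK fullOK uCheck Sit)

/-- hypotheses of a `P` leaf -/
theorem InBox.toP {cls : ℕ} {B : Box} {m : ℕ} {a : Fin (m + 2) → ℝ} {i i1 i2 : Fin (m + 2)}
    {j : Fin (m + 1)} (h : InBox B a i i1 i2 (i.succAbove j)) (hc : ClsEq cls (m + 2)) (h5 : 5 ≤ cls)
    (hlt : a (i.succAbove j) < a i) {rr : ℕ} (hr1 : 1 ≤ rr) (hr2 : rr ≤ 2) :
    ∃ es1 rest l, PHyp cls B rr (fun k => a (i.succAbove (j.succAbove k))) (a i) (a (i.succAbove j))
      es1 rest l := by
  obtain ⟨l, hl0, hl1, hl⟩ := mix_exists h.ls h.us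
  have hn5 := hc.five h5
  obtain ⟨g0, g1, g2⟩ := h.dg (by omega)
  have hsum2 : a i ^ 2 + a (i.succAbove j) ^ 2 + ∑ k, a (i.succAbove (j.succAbove k)) ^ 2 = 1 := by
    rw [← h.sum, Fin.sum_univ_succAbove _ i, Fin.sum_univ_succAbove _ j]
    ring
  have hsum4 : ∑ k, a k ^ 4 = a i ^ 4 + a (i.succAbove j) ^ 4 +
      ∑ k, a (i.succAbove (j.succAbove k)) ^ 4 := by
    rw [Fin.sum_univ_succAbove _ i, Fin.sum_univ_succAbove _ j]
    ring
  have hm0 : ∀ k : Fin m, i.succAbove (j.succAbove k) ≠ i := fun k => Fin.succAbove_ne _ _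
  have hmg : ∀ k : Fin m, i.succAbove (j.succAbove k) ≠ i.succAbove j := fun k e =>
    Fin.succAbove_ne j k (Fin.succAbove_right_injective e)
  have hα := eOf_mem h.l0 h.u0
  have hγ := eOf_mem h.lg h.ug
  have hnum : isGe cls = false → cls = m + 2 := fun hge => (hc.eq hge).1
  have main : ∀ (ids : List (Fin m)), ids.Nodup →
      ((rr = 1 ∧ ids = []) ∨ (rr = 2 ∧ ∃ k1, ids = [k1] ∧ i.succAbove (j.succAbove k1) = i1)) →
      ∃ es1 rest l, PHyp cls B rr (fun k => a (i.succAbove (j.succAbove k))) (a i) (a (i.succAbove j))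
        es1 rest l := by
    intro ids hnd hids
    refine ⟨_, _, l, ⟨by omega, h.pos _, hlt, fun k => h.pos _, fun k => ?_, hsum2, hα, hγ,
      cList_perm _ hnd, ?_, ?_, ?_, hl0, hl1, ?_⟩⟩
    · exact (h.le1 (hm0 k)).trans h.o01
    · rcases hids with ⟨e1, e2⟩ | ⟨e1, k1, e2, e3⟩
      · exact Or.inl ⟨e1, by rw [e2]; rfl⟩
      · refine Or.inr ⟨e1, eOf (a i1), ?_, eOf_mem h.l1 h.u1⟩
        rw [e2]
        simp only [List.map_cons, List.map_nil]
        rw [e3]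
    · intro E hE
      obtain ⟨k, hk, rfl⟩ := mem_others hE
      refine eOf_mem (h.gLow_le hc (hm0 k) (hmg k)) ?_
      rcases hids with ⟨e1, e2⟩ | ⟨e1, k1, e2, e3⟩
      · rw [e1]
        exact h.capX_one (hm0 k)
      · rw [e1]
        refine h.capX_two (hm0 k) fun e => ?_
        rw [← e3] at e
        have := Fin.succAbove_right_injective (Fin.succAbove_right_injective e)
        rw [e2, this] at hk
        exact hk (by simp)
    · intro hge
      have := hnum hge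
      rw [others_length _ hnd]
      rcases hids with ⟨e1, e2⟩ | ⟨e1, k1, e2, e3⟩
      · rw [e2, e1]; simp only [List.length_nil]; omega
      · rw [e2, e1]; simp only [List.length_cons, List.length_nil]; omega
    · rw [hl, hsum4]
  have key : rr = 1 ∨ rr = 2 := by omega
  rcases key with e | e
  · exact main [] (by simp) (Or.inl ⟨e, rfl⟩)
  · obtain ⟨j1, hj1⟩ := Fin.exists_succAbove_eq h.d01
    have hj1j : j1 ≠ j := by
      rintro rfl
      exact g1 hj1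
    obtain ⟨k1, hk1⟩ := Fin.exists_succAbove_eq hj1j
    exact main [k1] (by simp) (Or.inr ⟨e, k1, rfl, by rw [hk1, hj1]⟩)

/-! ## conversion of the structures -/

theorem clsEq_of {cls n : ℕ} (h : Pool.Agent.H61.SC.ClsN cls n) : ClsEq cls n := by
  unfold Pool.Agent.H61.SC.ClsN at h
  unfold ClsEq
  omega

theorem inBox_of {B : Box} {n : ℕ} {a : Fin n → ℝ} {i0 i1 i2 jm : Fin n} (hs : Srt a i0 i1 i2 jm)
    (h : Pool.Agent.H61.SC.InBox B a i0 i1 i2 jm) : InBox B a i0 i1 i2 jm := by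
  have e : (2 : ℝ) ^ 20 = 1048576 := by norm_num
  obtain ⟨b1, b2, b3, b4, b5, b6, b7, b8, b9, b10⟩ := h
  rw [e] at b1 b2 b3 b4 b5 b6 b7 b8 b9 b10
  exact ⟨hs.pos, hs.sum, hs.h01.symm, hs.h02.symm, hs.h12.symm, hs.m01, hs.m12, hs.rest, hs.min,
    fun h4 => ⟨hs.jm0, hs.jm12 h4⟩, b1, b2, b3, b4, b5, b6, b7, b8, b9, b10⟩

theorem pf_TLEAF : T_TLEAF := by
  intro cls B r gx is ie rho1 rho2 rho3 rhoG rc dat h n a i0 i1 i2 jm hs hc hb t h1 h2
  have hu := (tCheck_unpack h).1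
  have hcE := clsEq_of hc
  obtain ⟨es, rest, l, ht⟩ := (inBox_of hs hb).toT hcE (gx := gx) hu.1 hu.2.1 (fun hg => by
    have := hu.2.2.2.2.2.2.2
    rw [hg] at this
    exact hcE.five (this.resolve_left (by simp)).1)
  exact tCheck_sound hcE.clsN h ht h1 h2

theorem pf_PLEAF : T_PLEAF := by
  intro cls B rr r ti rA rG rB rc rmode amode dat h hti m a i j i1 i2 hs hc hlt hb t h1 h2
  have hu := (pCheck_unpack h).1
  have hcE := clsEq_of hc
  obtain ⟨es1, rest, l, hp⟩ := (inBox_of hs hb).toP hcE hu.2.2.2.2.2.2.1 hlt hu.1 hu.2.1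
  refine pCheck_sound h hti hp h1 ?_
  have : ∑ k, a k = a i + a (i.succAbove j) + ∑ k, a (i.succAbove (j.succAbove k)) := by
    rw [Fin.sum_univ_succAbove _ i, Fin.sum_univ_succAbove _ j]
    ring
  rw [← this]
  exact h2

theorem pf_START : T_START := by
  intro cls B is h n a i0 i1 i2 jm t hs hb
  have e : (2 : ℝ) ^ 20 > 0 := by norm_num
  refine startOK_sound h (hs.srt.pos _).le (hs.srt.pos _).le ?_ ?_ hs.t0 hs.tK
  · rw [div_le_iff₀ e]; linarith [hb.lo0]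
  · rw [div_le_iff₀ e]; linarith [hb.lo1]

theorem pf_FULL : T_FULL := by
  intro cls B is h n a i0 i1 i2 jm t hs hb
  have e : (2 : ℝ) ^ 20 > 0 := by norm_num
  refine fullOK_sound h (hs.srt.pos _).le (hs.srt.pos _).le ?_ ?_ ?_ ?_ hs.tL hs.t3
  · rw [div_le_iff₀ e]; linarith [hb.lo0]
  · rw [div_le_iff₀ e]; linarith [hb.g0]
  · rw [le_div_iff₀ e]; linarith [hb.hi0]
  · rw [le_div_iff₀ e]; linarith [hb.hi1]

/-- `U` leaves, strict at the left end -/
theorem pf_ULEAF' (cls : ℕ) (B : Box) (is ie : ℕ) (h : uCheck cls B is ie = true)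
    (m : ℕ) (a : Fin (m + 2) → ℝ) (i : Fin (m + 2)) (j : Fin (m + 1)) (i1 i2 : Fin (m + 2)) (t : ℝ)
    (hs : Sit cls a i i1 i2 (i.succAbove j) t)
    (hb : Pool.Agent.H61.SC.InBox B a i i1 i2 (i.succAbove j)) (h1 : (tn is : ℝ) / 1000 < t)
    (h2 : t ≤ (tn ie : ℝ) / 1000) :
    ∃ q, 1 ≤ q ∧ q ≤ m + 2 ∧ FV (stdVec (m + 2) q) t 0 ≤ FV a t 0 := by
  have e : (2 : ℝ) ^ 20 > 0 := by norm_num
  obtain ⟨j1, hj1⟩ := Fin.exists_succAbove_eq hs.srt.h01.symm
  have hb' := hb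
  rw [← hj1] at hb'
  refine uCheck_sound (clsEq_of hs.cn).clsN h a i j1 hs.srt.sum (hs.srt.pos _) (hs.srt.pos _) ?_ ?_ ?_ ?_
    h1 h2 ?_
  · rw [div_le_iff₀ e]; linarith [hb'.lo0]
  · rw [div_le_iff₀ e]; linarith [hb'.lo1]
  · rw [le_div_iff₀ e]; linarith [hb'.hi0]
  · rw [le_div_iff₀ e]; linarith [hb'.hi1]
  · rw [hj1]; exact hs.tK

end Pool.Agent.H60.SC
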